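import Pool.Agent.U256.LS4
import Pool.Agent.N17.CK.BD
import Pool.Agent.N17.CK.SPL
import Pool.Agent.N17.CK.MAIN

set_option autoImplicit false

/-! # The final theorems from the statements KOS, LSP, CUB, M2 -/

open Polynomial Filter Finset

namespace Pool.Agent.U256.LS

open Pool.Agent.N17.HC Pool.Agent.N17.HC.FIN Pool.Agent.N17.CK

/-- a multiset as a family -/
theorem to_fin {p m : ℕ} (s : Multiset (ZMod p)) (h : Multiset.card s = m) :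
    ∃ x : Fin m → ZMod p, (s.map fun a => X - C a).prod = ∏ i, (X - C (x i)) := by
  induction s using Multiset.induction generalizing m with
  | empty =>
    subst h
    refine ⟨fun _ => 0, ?_⟩
    rw [Multiset.map_zero, Multiset.prod_zero]
    exact (Fin.prod_univ_zero _).symm
  | cons a s ih =>
    rw [Multiset.card_cons] at h
    subst h
    obtain ⟨x, hx⟩ := ih rfl
    refine ⟨Fin.cons a x, ?_⟩
    rw [Multiset.map_cons, Multiset.prod_cons, hx, Fin.prod_univ_succ]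
    simp

/-- the discriminant in degree two -/
theorem disc_two (u v : ℤ) : |(u : ℝ) ^ 2 - 4 * v| ≤ siz (P2 u v) ^ 2 := by
  obtain ⟨x, y, hr, hu, hv⟩ := BD.two u v
  have e1 : (((u : ℝ) ^ 2 - 4 * v : ℝ) : ℂ) = (x - y) ^ 2 := by
    push_cast
    rw [hu, hv]
    ring
  rw [← Real.norm_eq_abs, ← Complex.norm_real, e1, norm_pow]
  unfold siz
  rw [hr]
  have h1 := norm_sub_le x y
  have h2 := norm_nonneg x
  have h3 := norm_nonneg y
  have h4 : ‖x - y‖ ≤ (1 + ‖x‖) * (1 + ‖y‖) := by nlinarith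
  have h5 : (Multiset.map (fun β : ℂ => 1 + ‖β‖) {x, y}).prod = (1 + ‖x‖) * (1 + ‖y‖) := by
    simp
  rw [h5]
  exact pow_le_pow_left₀ (norm_nonneg _) h4 2

/-- the coefficients and the discriminant in degree three -/
theorem disc_three (a b c : ℤ) : |(a : ℝ)| ≤ siz (P3 a b c) ∧ |(b : ℝ)| ≤ siz (P3 a b c) ∧
    |(c : ℝ)| ≤ siz (P3 a b c) ∧ |((disc3 a b c : ℤ) : ℝ)| ≤ siz (P3 a b c) ^ 4 := by
  obtain ⟨x, y, z, hr, ha, hb, hc⟩ := BD.three a b c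
  have hs : siz (P3 a b c) = (1 + ‖x‖) * (1 + ‖y‖) * (1 + ‖z‖) := by
    unfold siz
    rw [hr]
    simp [mul_assoc]
  rw [hs]
  have hx := norm_nonneg x
  have hy := norm_nonneg y
  have hz := norm_nonneg z
  have hxy : 0 ≤ ‖x‖ * ‖y‖ := mul_nonneg hx hy
  have hyz : 0 ≤ ‖y‖ * ‖z‖ := mul_nonneg hy hz
  have hzx : 0 ≤ ‖z‖ * ‖x‖ := mul_nonneg hz hx
  have hxyz : 0 ≤ ‖x‖ * ‖y‖ * ‖z‖ := mul_nonneg hxy hz
  have e : (1 + ‖x‖) * (1 + ‖y‖) * (1 + ‖z‖) = 1 + ‖x‖ + ‖y‖ + ‖z‖ + ‖x‖ * ‖y‖ + ‖y‖ * ‖z‖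
      + ‖z‖ * ‖x‖ + ‖x‖ * ‖y‖ * ‖z‖ := by ring
  refine ⟨?_, ?_, ?_, ?_⟩
  · rw [BD.absc, ha, e]
    exact norm_add₃_le.trans (by linarith)
  · rw [BD.absc, hb, e]
    refine norm_add₃_le.trans ?_
    rw [norm_mul, norm_mul, norm_mul]
    linarith
  · rw [BD.absc, hc, e, norm_mul, norm_mul]
    linarith
  · have hdd : ((disc3 a b c : ℤ) : ℂ) = ((x - y) * (y - z) * (z - x)) ^ 2 := by
      unfold disc3
      push_cast
      rw [ha, hb, hc]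
      ring
    rw [BD.absc, hdd, norm_pow, norm_mul, norm_mul]
    have d1 : ‖x - y‖ ≤ (1 + ‖x‖) * (1 + ‖y‖) := by
      have := norm_sub_le x y
      nlinarith
    have d2 : ‖y - z‖ ≤ (1 + ‖y‖) * (1 + ‖z‖) := by
      have := norm_sub_le y z
      nlinarith
    have d3 : ‖z - x‖ ≤ (1 + ‖z‖) * (1 + ‖x‖) := by
      have := norm_sub_le z x
      nlinarith
    have e1 : ‖x - y‖ * ‖y - z‖ * ‖z - x‖ ≤ (1 + ‖x‖) * (1 + ‖y‖) * ((1 + ‖y‖) * (1 + ‖z‖)) *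
        ((1 + ‖z‖) * (1 + ‖x‖)) :=
      mul_le_mul (mul_le_mul d1 d2 (norm_nonneg _) (by positivity)) d3 (norm_nonneg _)
        (by positivity)
    calc (‖x - y‖ * ‖y - z‖ * ‖z - x‖) ^ 2 ≤ ((1 + ‖x‖) * (1 + ‖y‖) * ((1 + ‖y‖) * (1 + ‖z‖)) *
          ((1 + ‖z‖) * (1 + ‖x‖))) ^ 2 := pow_le_pow_left₀ (by positivity) e1 2
      _ = _ := by ring

/-- a divisor of a polynomial which splits modulo `p` -/
theorem spl_div {p r : ℕ} (hp : p.Prime) {P Q : ℤ[X]} (hP : P.Monic) (hQ : Q.Monic)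
    (hdvd : Q ∣ P) (h : ∃ x : Fin r → ZMod p,
      P.map (Int.castRingHom (ZMod p)) = ∏ i, (X - C (x i))) :
    ∃ x : Fin Q.natDegree → ZMod p, Q.map (Int.castRingHom (ZMod p)) = ∏ i, (X - C (x i)) := by
  have : Fact p.Prime := ⟨hp⟩
  obtain ⟨x, hx⟩ := h
  obtain ⟨s, hs, hQs⟩ := SPL.factor hP hQ hdvd x hx
  obtain ⟨z, hz⟩ := to_fin s hs
  exact ⟨z, by rw [hQs, hz]⟩

/-- the exponents -/
noncomputable def expo (m : ℕ) : ℝ :=
  if m = 2 then 2 * Real.exp (1 / 2) else if m = 3 then Real.exp (1 / 2) else m / 2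

theorem expo_le {m r : ℕ} (h : m ≤ r) : expo m ≤ r / 2 + 4 := by
  have h1 := exp_ub
  have h2 : (m : ℝ) ≤ r := by exact_mod_cast h
  have h3 : (0 : ℝ) ≤ r := Nat.cast_nonneg r
  unfold expo
  split_ifs <;> linarith

theorem expo_ge {m : ℕ} (h : 2 ≤ m) : 3 / 2 ≤ expo m := by
  have h1 := exp_lb
  have h2 : (2 : ℝ) ≤ m := by exact_mod_cast h
  unfold expo
  split_ifs with h3 h4
  · linarith
  · linarith
  · have : 4 ≤ m := by omega
    have : (4 : ℝ) ≤ m := by exact_mod_cast this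
    linarith

/-- **The degree and the irreducible factors of the Chern polynomial.** -/
theorem final_deg (hK : S_KOS) (hL : S_LSP) (hC : S_CUB) (hM : S_M2) (hPos : S_POS)
    (r : ℕ) (hr : 1 ≤ r) (ε : ℝ) (hε : 0 < ε) :
    ∃ N₀ : ℕ, ∀ N : ℕ, N₀ ≤ N → ∀ P : ℤ[X], P.Monic → P.natDegree = r →
    (∀ i ≤ r, 0 ≤ chern r P i) →
    (∀ t : ℤ, ∃ z : ℤ, kos N (rootsOf P) (N + t) = z) →
    (∀ t : ℤ, ∃ z : ℤ, ((rootsOf P).map fun b => kos N (rootsOf P) (N + t - b)).sum = z) →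
    ∀ Q : ℤ[X], Q.Monic → Irreducible Q → Q ∣ P → 2 ≤ Q.natDegree →
      (N : ℝ) ^ (expo Q.natDegree - ε) < |(P.coeff 0 : ℝ)| := by
  have hE1 := exp_lb
  have hE2 := exp_ub
  obtain ⟨δ, hδ0, hδ1, hδε⟩ : ∃ δ : ℝ, 0 < δ ∧ δ ≤ 1 ∧ δ ≤ ε :=
    ⟨min ε 1, lt_min hε (by norm_num), min_le_right _ _, min_le_left _ _⟩
  have hr0 : (0 : ℝ) ≤ r := Nat.cast_nonneg r
  obtain ⟨A, hA⟩ : ∃ A : ℝ, A = r / 2 + 5 := ⟨_, rfl⟩
  have evm : ∀ᶠ y : ℕ in atTop, ∀ m ∈ Finset.Icc 4 r,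
      (∀ Q : ℤ[X], Q.Monic → Irreducible Q → Q.natDegree = m → ∀ B : ℤ, B ≠ 0 →
        |(B : ℝ)| ≤ (y : ℝ) ^ A → ∀ t : ℝ, 1 ≤ t → ((rootsOf Q).map fun β => t + ‖β‖).prod ≤
        t ^ ((m : ℝ) / 2) * (y : ℝ) ^ ((m : ℝ) / 2 - δ / 2) →
        ¬ (∀ p : ℕ, p.Prime → r < p → p ≤ y → ¬ (p : ℤ) ∣ B →
          ∃ x : Fin m → ZMod p, Q.map (Int.castRingHom (ZMod p)) = ∏ i, (X - C (x i)))) ∧
      ∀ N : ℕ, N ≤ 2 * y → 3 ^ r * (N : ℝ) ^ ((m : ℝ) / 2 - δ) ≤ (y : ℝ) ^ ((m : ℝ) / 2 - δ / 2) := by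
    rw [Finset.eventually_all]
    intro m hm
    rw [Finset.mem_Icc] at hm
    have hm4 : (4 : ℝ) ≤ m := by exact_mod_cast hm.1
    exact (key m r (by omega) A (δ / 2) (by linarith)).and
      (transfer (m / 2) δ (δ / 2) (3 ^ r) (by linarith) (by linarith))
  have ev := evm.and ((hC r A δ hδ0).and ((hM r A δ hδ0).and
    ((transfer (4 * Real.exp (1 / 2)) (4 * δ) δ (81 ^ r) (by linarith) (by linarith)).and
    ((transfer (4 * Real.exp (1 / 2)) (2 * δ) δ (9 ^ r) (by linarith) (by linarith)).and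
    ((transfer A 1 0 (3 ^ r) (by linarith) (by norm_num)).and
    (eventually_ge_atTop 1))))))
  obtain ⟨y₀, hy₀⟩ := eventually_atTop.1 ev
  refine ⟨y₀ + 4 * r + 1, fun N hN P hP hrP hpos h1 h2 Q hQ hirr hQP hm => ?_⟩
  obtain ⟨q0, q1, q2, q3, q4, q5, q6⟩ := hy₀ (N + 1 - 2 * r) (by omega)
  obtain ⟨y, hy⟩ : ∃ y, y = N + 1 - 2 * r := ⟨_, rfl⟩
  rw [← hy] at q0 q1 q2 q3 q4 q5 q6
  have hNy : N ≤ 2 * y := by omega
  have hN1 : (1 : ℝ) ≤ N := by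
    have : 1 ≤ N := by omega
    exact_mod_cast this
  have hN0 : (0 : ℝ) ≤ N := by linarith
  have hmr : Q.natDegree ≤ r := by
    rw [← hrP]
    exact natDegree_le_of_dvd hQP hP.ne_zero
  by_contra hcon
  push Not at hcon
  -- the degree
  obtain ⟨D, hD⟩ : ∃ D : ℝ, D = |(P.coeff 0 : ℝ)| := ⟨_, rfl⟩
  rw [← hD] at hcon
  have hDle : D ≤ (N : ℝ) ^ (expo Q.natDegree - δ) :=
    hcon.trans (Real.rpow_le_rpow_of_exponent_le hN1 (by linarith))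
  have hD0 : 0 ≤ D := by rw [hD]; exact abs_nonneg _
  have hsP := siz_le hP hrP hpos
  rw [← hD] at hsP
  have hsQ : siz Q ≤ 3 ^ r * D := (siz_mono hP hQP).trans hsP
  have hsQ0 : 0 ≤ siz Q := by linarith [siz_one Q]
  obtain ⟨hd1, -⟩ := hPos r P hP hrP hpos
  obtain ⟨d, hd⟩ : ∃ d : ℤ, d = (-1) ^ r * P.coeff 0 := ⟨_, rfl⟩
  rw [← hd] at hd1
  have hd0 : d ≠ 0 := by omega
  have hdD : |((d : ℤ) : ℝ)| = D := by
    rw [hd, hD]
    push_cast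
    rw [abs_mul, abs_pow, abs_neg, abs_one, one_pow, one_mul]
  have hDA : 3 ^ r * D ≤ (y : ℝ) ^ A := by
    have h5 := q5 N hNy
    rw [sub_zero] at h5
    refine le_trans ?_ h5
    apply mul_le_mul_of_nonneg_left _ (by positivity)
    refine hDle.trans (Real.rpow_le_rpow_of_exponent_le hN1 ?_)
    have := expo_le hmr
    rw [hA]
    linarith
  have hdA : |((d : ℤ) : ℝ)| ≤ (y : ℝ) ^ A := by
    rw [hdD]
    refine le_trans ?_ hDA
    have : (1 : ℝ) ≤ 3 ^ r := one_le_pow₀ (by norm_num)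
    nlinarith
  have hlocal : ∀ p : ℕ, p.Prime → r < p → p ≤ y → ¬ (p : ℤ) ∣ d →
      ∃ x : Fin r → ZMod p, P.map (Int.castRingHom (ZMod p)) = ∏ i, (X - C (x i)) :=
    fun p hp hrp hpy hpd => loc hK hL N r P hP hrP d hd.symm h1 h2 p hp hrp (by omega) hpd
  have hcases : Q.natDegree = 2 ∨ Q.natDegree = 3 ∨ 4 ≤ Q.natDegree := by omega
  rcases hcases with h0 | h0 | h0
  · have hex : expo Q.natDegree = 2 * Real.exp (1 / 2) := by rw [h0]; unfold expo; simp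
    rw [hex] at hDle
    have hQ2 := MAIN.form2 Q hQ h0
    obtain ⟨u, hu⟩ : ∃ u, u = - Q.coeff 1 := ⟨_, rfl⟩
    obtain ⟨v, hv⟩ : ∃ v, v = Q.coeff 0 := ⟨_, rfl⟩
    rw [← hu, ← hv] at hQ2
    have hb := disc_two u v
    rw [← hQ2] at hb
    refine MAIN.irr_two u v (q2 (u ^ 2 - 4 * v) d hd0 hdA ?_ ?_) (hQ2 ▸ hirr)
    · have h3 := q4 N hNy
      push_cast
      refine (hb.trans ?_).trans h3
      calc siz Q ^ 2 ≤ (3 ^ r * (N : ℝ) ^ (2 * Real.exp (1 / 2) - δ)) ^ 2 :=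
            pow_le_pow_left₀ hsQ0 (hsQ.trans (mul_le_mul_of_nonneg_left hDle (by positivity))) 2
        _ = 9 ^ r * (N : ℝ) ^ (4 * Real.exp (1 / 2) - 2 * δ) := by
            rw [mul_pow, ← pow_mul, mul_comm r 2, pow_mul, ← Real.rpow_natCast ((N : ℝ) ^ _),
              ← Real.rpow_mul hN0, show (2 * Real.exp (1 / 2) - δ) * ((2 : ℕ) : ℝ) =
                4 * Real.exp (1 / 2) - 2 * δ by push_cast; ring]
            norm_num
    · intro p hp hrp hpy hpd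
      exact (t_SPL p r P Q hp hP hQ hQP (hlocal p hp hrp hpy hpd)).2 u v hQ2
  · have hex : expo Q.natDegree = Real.exp (1 / 2) := by rw [h0]; unfold expo; simp
    rw [hex] at hDle
    have hQ3 := form3 Q hQ h0
    obtain ⟨a, ha⟩ : ∃ a, a = - Q.coeff 2 := ⟨_, rfl⟩
    obtain ⟨b, hb⟩ : ∃ b, b = Q.coeff 1 := ⟨_, rfl⟩
    obtain ⟨c, hc⟩ : ∃ c, c = - Q.coeff 0 := ⟨_, rfl⟩
    rw [← ha, ← hb, ← hc] at hQ3
    obtain ⟨b1, b2, b3, b4⟩ := disc_three a b c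
    rw [← hQ3] at b1 b2 b3 b4
    have hsA : siz Q ≤ (y : ℝ) ^ A := hsQ.trans hDA
    obtain ⟨x, y', z, g1, g2, g3⟩ := q1 a b c d hd0 hdA (b1.trans hsA) (b2.trans hsA)
      (b3.trans hsA) (by
        have h3 := q3 N hNy
        refine (b4.trans ?_).trans h3
        calc siz Q ^ 4 ≤ (3 ^ r * (N : ℝ) ^ (Real.exp (1 / 2) - δ)) ^ 4 :=
              pow_le_pow_left₀ hsQ0 (hsQ.trans (mul_le_mul_of_nonneg_left hDle (by positivity))) 4
          _ = 81 ^ r * (N : ℝ) ^ (4 * Real.exp (1 / 2) - 4 * δ) := by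
              rw [mul_pow, ← pow_mul, mul_comm r 4, pow_mul, ← Real.rpow_natCast ((N : ℝ) ^ _),
                ← Real.rpow_mul hN0, show (Real.exp (1 / 2) - δ) * ((4 : ℕ) : ℝ) =
                  4 * Real.exp (1 / 2) - 4 * δ by push_cast; ring]
              norm_num)
      (fun p hp hrp hpy hpd => (t_SPL p r P Q hp hP hQ hQP (hlocal p hp hrp hpy hpd)).1 a b c hQ3)
    exact MAIN.irr_three a b c x y' z g1 g2 g3 (hQ3 ▸ hirr)
  · have hex : expo Q.natDegree = Q.natDegree / 2 := by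
      unfold expo
      rw [if_neg (by omega), if_neg (by omega)]
    rw [hex] at hDle
    obtain ⟨k1, k2⟩ := q0 Q.natDegree (Finset.mem_Icc.2 ⟨h0, hmr⟩)
    refine k1 Q hQ hirr rfl d hd0 hdA 1 le_rfl ?_ ?_
    · rw [Real.one_rpow, one_mul]
      refine le_trans ?_ (k2 N hNy)
      exact hsQ.trans (mul_le_mul_of_nonneg_left hDle (by positivity))
    · intro p hp hrp hpy hpd
      exact spl_div hp hP hQ hQP (hlocal p hp hrp hpy hpd)

end Pool.Agent.U256.LS
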