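import Pool.Agent.R240.Chain

set_option autoImplicit false

/-! # Superattracting parameters near the cusp `1 / 4` of the Mandelbrot set -/

namespace Pool.Agent.U256.Cusp

open Complex Metric Set Filter Topology
open Pool.Agent.H712R2 (P P_succ P_one P_zero fc continuous_P mem_multibrot_iff)
open Pool.Agent.R240 (free_disc SH SH_one)

/-- the critical orbit of `z ^ 2 + 1 / 4 + ε`, translated by `1 / 2` -/
noncomputable def q (ε : ℝ) : ℕ → ℝ
  | 0 => -1 / 2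
  | k + 1 => q ε k + q ε k ^ 2 + ε

theorem q_succ (ε : ℝ) (k : ℕ) : q ε (k + 1) = q ε k + q ε k ^ 2 + ε := rfl

theorem P_eq (ε : ℝ) (k : ℕ) : P 2 k (((1 / 4 + ε : ℝ) : ℂ)) = ((q ε k + 1 / 2 : ℝ) : ℂ) := by
  induction k with
  | zero => rw [P_zero]; simp [q]; norm_num
  | succ k ih =>
    rw [P_succ, ih, q_succ]
    push_cast
    ring

theorem q_le {ε : ℝ} (hε : 0 ≤ ε) (k : ℕ) : q ε k ≤ q ε (k + 1) := by
  rw [q_succ]
  nlinarith [sq_nonneg (q ε k)]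

theorem q_mono {ε : ℝ} (hε : 0 ≤ ε) : Monotone (q ε) := monotone_nat_of_le_succ (q_le hε)

/-- one step, in terms of the arctangent -/
theorem step {B ε : ℝ} (hB : 1 ≤ B) (hε0 : 0 < ε) (hε1 : ε ≤ 1) {u : ℝ} (hu1 : -1 / 2 ≤ u)
    (hu2 : u ≤ B) :
    √ε / (2 * B ^ 2 + 5) ≤ Real.arctan ((u + u ^ 2 + ε) / √ε) - Real.arctan (u / √ε) := by
  obtain ⟨s, hs⟩ : ∃ s, s = √ε := ⟨_, rfl⟩
  have hs0 : 0 < s := by rw [hs]; exact Real.sqrt_pos.2 hε0
  have hs2 : s ^ 2 = ε := by rw [hs]; exact Real.sq_sqrt hε0.le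
  rw [← hs, ← hs2]
  obtain ⟨v, hv⟩ : ∃ v, v = u + u ^ 2 + s ^ 2 := ⟨_, rfl⟩
  rw [← hv]
  have huv : u < v := by rw [hv]; nlinarith [sq_nonneg u, sq_pos_of_pos hs0]
  have huv' : u / s < v / s := div_lt_div_of_pos_right huv hs0
  obtain ⟨x, hx, hxe⟩ := exists_deriv_eq_slope Real.arctan huv'
    Real.continuous_arctan.continuousOn Real.differentiable_arctan.differentiableOn
  rw [Real.deriv_arctan, eq_div_iff (by linarith)] at hxe
  rw [← hxe]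
  have h1 : v / s - u / s = (u ^ 2 + s ^ 2) / s := by
    rw [← sub_div, hv]; ring
  rw [h1]
  have hx1 := hx.1
  have hx2 := hx.2
  rw [div_lt_iff₀ hs0] at hx1
  rw [lt_div_iff₀ hs0] at hx2
  -- `(x s)^2 ≤ u^2 + v^2`
  have hs1 : s ^ 2 ≤ 1 := by rw [hs2]; exact hε1
  have huB : u ^ 2 ≤ B ^ 2 := by nlinarith
  have hd : (v - u) ^ 2 ≤ (B ^ 2 + 1) * (u ^ 2 + s ^ 2) := by
    have e : v - u = u ^ 2 + s ^ 2 := by rw [hv]; ring
    rw [e]
    have h2 : 0 ≤ u ^ 2 + s ^ 2 := by positivity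
    nlinarith
  have hxs : (x * s) ^ 2 ≤ 2 * u ^ 2 + 2 * (v - u) ^ 2 := by
    have h2 : (x * s - u) ^ 2 ≤ (v - u) ^ 2 := by nlinarith
    nlinarith [sq_nonneg (x * s - 2 * u)]
  have h3 : (1 + x ^ 2) * s ^ 2 ≤ (2 * B ^ 2 + 5) * (u ^ 2 + s ^ 2) := by
    have h4 : (1 + x ^ 2) * s ^ 2 = s ^ 2 + (x * s) ^ 2 := by ring
    rw [h4]
    nlinarith [sq_nonneg u, sq_nonneg s]
  have h5 : 0 < 1 + x ^ 2 := by positivity
  show s / (2 * B ^ 2 + 5) ≤ 1 / (1 + x ^ 2) * ((u ^ 2 + s ^ 2) / s)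
  rw [div_mul_div_comm, one_mul, div_le_div_iff₀ (by positivity) (by positivity)]
  calc s * ((1 + x ^ 2) * s) = (1 + x ^ 2) * s ^ 2 := by ring
    _ ≤ (2 * B ^ 2 + 5) * (u ^ 2 + s ^ 2) := h3
    _ = (u ^ 2 + s ^ 2) * (2 * B ^ 2 + 5) := by ring

/-- the escape time is at most of the order `1 / √ε` -/
theorem escape {B ε : ℝ} (hB : 1 ≤ B) (hε0 : 0 < ε) (hε1 : ε ≤ 1) {n : ℕ}
    (hn : (2 * B ^ 2 + 5) * Real.pi < n * √ε) : B < q ε n := by
  by_contra hcon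
  push Not at hcon
  have hs0 : 0 < √ε := Real.sqrt_pos.2 hε0
  have hlow : ∀ k, -1 / 2 ≤ q ε k := fun k => q_mono hε0.le (Nat.zero_le k)
  have hup : ∀ k, k ≤ n → q ε k ≤ B := fun k hk => (q_mono hε0.le hk).trans hcon
  have key : ∀ k, k ≤ n → k * (√ε / (2 * B ^ 2 + 5)) ≤
      Real.arctan (q ε k / √ε) - Real.arctan (q ε 0 / √ε) := by
    intro k
    induction k with
    | zero => simp
    | succ k ih =>
      intro hk
      have h1 := ih (by omega)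
      have h2 := step hB hε0 hε1 (hlow k) (hup k (by omega))
      rw [← q_succ] at h2
      push_cast
      linarith
  have h1 := key n le_rfl
  have h2 := Real.arctan_lt_pi_div_two (q ε n / √ε)
  have h3 := Real.neg_pi_div_two_lt_arctan (q ε 0 / √ε)
  have h4 : n * (√ε / (2 * B ^ 2 + 5)) < Real.pi := by linarith
  rw [mul_div_assoc', div_lt_iff₀ (by positivity)] at h4
  linarith

/-- **Superattracting parameters near the cusp.** -/
theorem near_cusp : ∃ R : ℝ, 0 < R ∧ ∀ n : ℕ, 1 ≤ n → ∃ a : ℂ, P 2 n a = 0 ∧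
    ‖a - 1 / 4‖ ≤ R / (n : ℝ) ^ 2 := by
  obtain ⟨B, hB⟩ : ∃ B : ℝ, B = SH 1 + 1 := ⟨_, rfl⟩
  have hB1 : 1 ≤ B := by
    have := SH_one (le_refl (1 : ℝ))
    rw [hB]; linarith
  obtain ⟨C, hC⟩ : ∃ C : ℝ, C = (2 * B ^ 2 + 5) * Real.pi := ⟨_, rfl⟩
  have hC0 : 0 < C := by rw [hC]; positivity
  obtain ⟨R, hR⟩ : ∃ R : ℝ, R = 16 * C ^ 2 + 1 := ⟨_, rfl⟩
  have hR0 : 0 < R := by rw [hR]; positivity
  refine ⟨R, hR0, ?_⟩
  intro n hn
  have hn0 : (0 : ℝ) < n := by exact_mod_cast hn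
  rcases le_or_gt (1 / 4) (R / (n : ℝ) ^ 2) with h | h
  · refine ⟨0, Pool.Agent.R240.P_at_zero le_rfl n, ?_⟩
    rw [zero_sub, norm_neg]
    have : ‖(1 / 4 : ℂ)‖ = 1 / 4 := by norm_num
    rw [this]
    exact h
  · by_contra hcon
    push Not at hcon
    obtain ⟨ρ, hρ⟩ : ∃ ρ, ρ = R / (n : ℝ) ^ 2 := ⟨_, rfl⟩
    rw [← hρ] at h hcon
    have hρ0 : 0 < ρ := by rw [hρ]; positivity
    obtain ⟨N, rfl⟩ : ∃ N, n = N + 1 := ⟨n - 1, by omega⟩
    obtain ⟨ε, hε⟩ : ∃ ε, ε = ρ / 4 := ⟨_, rfl⟩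
    have hε0 : 0 < ε := by rw [hε]; positivity
    have hP14 : ∀ k, ‖P 2 k (1 / 4 : ℂ)‖ ≤ 1 / 2 := by
      intro k
      induction k with
      | zero => rw [P_zero, norm_zero]; norm_num
      | succ k ih =>
        rw [P_succ]
        refine (norm_add_le _ _).trans ?_
        rw [norm_pow]
        have h1 : ‖(1 / 4 : ℂ)‖ = 1 / 4 := by norm_num
        rw [h1]
        nlinarith [norm_nonneg (P 2 k (1 / 4 : ℂ))]
    have h14 : ‖(1 / 4 : ℂ)‖ = 1 / 4 := by norm_num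
    have h1 := free_disc (d := 2) (N := N) le_rfl (z₀ := (1 / 4 : ℂ)) (ρ := ρ) hρ0 (by
      intro x hx hx0
      have := hcon x hx0
      linarith) (A := 1) le_rfl (by
      rw [h14, one_mul]
      have := hP14 N
      nlinarith [norm_nonneg (P 2 N (1 / 4 : ℂ))]) (x := ((1 / 4 + ε : ℝ) : ℂ)) (by
      have e : (((1 / 4 + ε : ℝ) : ℂ)) - 1 / 4 = ((ε : ℝ) : ℂ) := by push_cast; ring
      rw [e, Complex.norm_real, Real.norm_of_nonneg hε0.le, hε])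
    rw [P_eq, Complex.norm_real, h14, ← hB] at h1
    have h2 : B < q ε (N + 1) := by
      apply escape hB1 hε0 (by linarith)
      rw [← hC]
      have h3 : C < ((N + 1 : ℕ) : ℝ) * √ε := by
        apply lt_of_pow_lt_pow_left₀ 2 (by positivity)
        rw [mul_pow, Real.sq_sqrt hε0.le, hε, hρ, hR]
        field_simp
        nlinarith [sq_nonneg C]
      exact h3
    have h3 : q ε (N + 1) + 1 / 2 ≤ ‖q ε (N + 1) + 1 / 2‖ := Real.le_norm_self _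
    have h4 : B * (1 / 4 + ρ) ≤ B * (1 / 2) := by
      apply mul_le_mul_of_nonneg_left _ (by linarith)
      linarith
    linarith

end Pool.Agent.U256.Cusp
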