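import Pool.Agent.U256.GD3
import Pool.Agent.W677.MC8

set_option autoImplicit false

/-! # The number of superattracting parameters in discs; harmonic measure; the loop -/

namespace Pool.Agent.U256.GD

open Complex Metric Set Filter Topology MeasureTheory Pool.Agent.H713R2
open Pool.Agent.H712R2 (P P_succ P_one P_zero fc continuous_P mem_multibrot_iff PP natDegree_PP
  eval_PP)
open N62a1eb23 Polynomial
open Pool.Agent.Y736.HD (Ang vol_Ang_ne ev_lt ev_pos GS)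
open Pool.Agent.Y736.RN (iter_P diff_it_y)

variable {d N : ℕ}

theorem PP_ne (hd : 2 ≤ d) (N : ℕ) : PP d (N + 1) ≠ 0 := by
  intro h
  have h1 := natDegree_PP hd N
  rw [h, Polynomial.natDegree_zero] at h1
  have : 0 < d ^ N := pow_pos (by omega) N
  omega

/-- an upper bound of the number of zeros -/
theorem zeros_le (hd : 2 ≤ d) {Z : Finset ℂ} {a : ℂ} {R M : ℝ} (hR : 0 < R)
    (hZ : ∀ z ∈ Z, P d (N + 1) z = 0 ∧ ‖z - a‖ ≤ R)
    (hM : ∀ x : ℂ, ‖x - a‖ = 3 * R → ‖P d (N + 1) x‖ ≤ M) :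
    (2 : ℝ) ^ Z.card * ‖P d (N + 1) a‖ ≤ M := by
  have h0 := PP_ne hd N
  have hdvd : (∏ z ∈ Z, (X - C z)) ∣ PP d (N + 1) := by
    have h1 : Z.val ≤ (PP d (N + 1)).roots := by
      rw [Multiset.le_iff_subset Z.nodup]
      intro z hz
      rw [Polynomial.mem_roots h0, Polynomial.IsRoot.def, eval_PP]
      exact (hZ z (by exact_mod_cast hz)).1
    have h2 : (Z.val.map fun z => X - C z).prod ∣
        ((PP d (N + 1)).roots.map fun z => X - C z).prod :=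
      Multiset.prod_dvd_prod_of_le (Multiset.map_le_map h1)
    exact h2.trans (Polynomial.prod_multiset_X_sub_C_dvd _)
  obtain ⟨q, hq⟩ := hdvd
  have heval : ∀ x, P d (N + 1) x = (∏ z ∈ Z, (x - z)) * q.eval x := by
    intro x
    rw [← eval_PP, hq, Polynomial.eval_mul, Polynomial.eval_prod]
    simp
  have hnorm : ∀ x, ‖P d (N + 1) x‖ = (∏ z ∈ Z, ‖x - z‖) * ‖q.eval x‖ := by
    intro x
    rw [heval, norm_mul, norm_prod]
  have hq1 : ∀ x : ℂ, ‖x - a‖ = 3 * R → ‖q.eval x‖ ≤ M / (2 * R) ^ Z.card := by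
    intro x hx
    rw [le_div_iff₀ (by positivity)]
    refine le_trans ?_ (hM x hx)
    rw [hnorm, mul_comm]
    apply mul_le_mul_of_nonneg_right _ (norm_nonneg _)
    rw [← Finset.prod_const]
    apply Finset.prod_le_prod
    · intro z _; positivity
    · intro z hz
      have h1 : x - a = (x - z) + (z - a) := by ring
      have h2 := norm_add_le (x - z) (z - a)
      rw [← h1, hx] at h2
      linarith [(hZ z hz).2]
  have hq2 : ‖q.eval a‖ ≤ M / (2 * R) ^ Z.card := by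
    have h3R : (3 * R) ≠ 0 := by positivity
    refine Complex.norm_le_of_forall_mem_frontier_norm_le (U := ball a (3 * R))
      isBounded_ball ((Polynomial.differentiable q).diffContOnCl) (fun y hy => ?_) ?_
    · rw [frontier_ball _ h3R, mem_sphere, dist_eq_norm] at hy
      exact hq1 y hy
    · rw [closure_ball _ h3R]
      exact mem_closedBall_self (by positivity)
  have h3 : ‖P d (N + 1) a‖ ≤ R ^ Z.card * (M / (2 * R) ^ Z.card) := by
    rw [hnorm]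
    apply mul_le_mul _ hq2 (norm_nonneg _) (by positivity)
    rw [← Finset.prod_const]
    apply Finset.prod_le_prod
    · intro z _; exact norm_nonneg _
    · intro z hz
      rw [norm_sub_rev]
      exact (hZ z hz).2
  have h4 : R ^ Z.card * (M / (2 * R) ^ Z.card) = M / 2 ^ Z.card := by
    rw [mul_pow]
    field_simp
  rw [h4, le_div_iff₀ (by positivity)] at h3
  linarith

theorem P_le_of_green (hd : 2 ≤ d) {ψ : ℂ → ℂ} (hψ : IsExteriorMap (multibrotSet d) ψ) {x : ℂ}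
    {S : ℝ} (hS0 : 0 ≤ S) (hS : ∀ w : ℂ, 1 < ‖w‖ → ψ w = x → Real.log ‖w‖ ≤ S) (N : ℕ) :
    ‖P d (N + 1) x‖ ≤ 2 * Real.exp ((d : ℝ) ^ N * S) := by
  by_cases hx : x ∈ multibrotSet d
  · have h1 := (mem_multibrot_iff hd x).1 hx (N + 1)
    have h2 : 1 ≤ Real.exp ((d : ℝ) ^ N * S) := Real.one_le_exp (by positivity)
    linarith
  · have h1 : x ∈ ψ '' {z | 1 < ‖z‖} := by rw [hψ.image]; exact hx
    obtain ⟨w, hw, rfl⟩ := h1
    have hw' : 1 < ‖w‖ := hw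
    have h2 := Pool.Agent.W677.MC.P_le_two hd hψ hw' N
    refine h2.trans ?_
    have h3 := hS w hw' rfl
    have hw0 : 0 < ‖w‖ := by linarith
    have h4 : ‖w‖ ^ (d ^ N) = Real.exp ((d : ℝ) ^ N * Real.log ‖w‖) := by
      have : (d : ℝ) ^ N * Real.log ‖w‖ = ((d ^ N : ℕ) : ℝ) * Real.log ‖w‖ := by push_cast; rfl
      rw [this, mul_comm, ← Real.rpow_natCast ‖w‖, Real.rpow_def_of_pos hw0]
    rw [h4]
    gcongr

/-- the superattracting parameters of period dividing `n` in a disc -/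
def Cn (d n : ℕ) (c : ℂ) (r : ℝ) : Set ℂ := {a | ‖a - c‖ < r ∧ P d n a = 0}

theorem Cn_finite (hd : 2 ≤ d) (N : ℕ) (c : ℂ) (r : ℝ) : (Cn d (N + 1) c r).Finite := by
  refine ((PP d (N + 1)).roots.toFinset.finite_toSet).subset ?_
  rintro x ⟨-, hx⟩
  rw [Finset.mem_coe, Multiset.mem_toFinset, Polynomial.mem_roots (PP_ne hd N),
    Polynomial.IsRoot.def, eval_PP]
  exact hx

theorem log_le_green (hd : 2 ≤ d) {c₀ : ℂ} (hc₀ : c₀ ∈ multibrotSet d) {N : ℕ} (hN : 1 ≤ N)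
    {Φ : ℝ} (hB : Bd d c₀ N Φ) {ψ : ℂ → ℂ} (hψ : IsExteriorMap (multibrotSet d) ψ) {w : ℂ}
    (hw : 1 < ‖w‖) {ρ : ℝ} (hwρ : ‖ψ w - c₀‖ ≤ ρ) (hρ : 4 * 3 ^ d * ρ * (N * Φ) ^ 2 ≤ 1) :
    Real.log ‖w‖ ≤ 3 * d / (d : ℝ) ^ N := by
  have h1 := green_phi hd hc₀ hN hB hψ hw (by
    refine le_trans ?_ hρ
    gcongr)
  have h2 := Real.log_le_sub_one_of_pos (show 0 < ‖w‖ by linarith)
  linarith

/-- **The number of superattracting parameters in a disc.** -/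
theorem count_phi (hd : 2 ≤ d) {c₀ : ℂ} (hc₀ : c₀ ∈ multibrotSet d) {N : ℕ} (hN : 1 ≤ N) {Φ : ℝ}
    (hB : Bd d c₀ N Φ) {n : ℕ} (hn : 1 ≤ n) {Ψ : ℝ} (hB' : Bd d c₀ n Ψ)
    (hno : ∀ z, ¬ IsAttractingCycle (fun z => z ^ d + c₀) n z) {r : ℝ} (hr : 0 < r)
    (hrs : 12 * 3 ^ d * r * (N * Φ) ^ 2 ≤ 1) :
    ((Cn d n c₀ r).ncard : ℝ) * Real.log 2 ≤ Real.log 2 + 3 * (d : ℝ) ^ n / (d : ℝ) ^ N +
      Real.log (8 ^ (d + 1) * (n * Ψ)) := by
  obtain ⟨β, hβ⟩ := exists_beta (d := d) hd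
  obtain ⟨ψ, hψ⟩ : ∃ ψ, IsExteriorMap (multibrotSet d) ψ := ⟨_, exteriorMap_of_beta hβ⟩
  have hret := no_return hd hc₀ hn hB' hno
  have hΨ := hB'.1
  obtain ⟨k, rfl⟩ : ∃ k, n = k + 1 := ⟨n - 1, by omega⟩
  have hd0 : (0 : ℝ) < d := by exact_mod_cast (by omega : 0 < d)
  have hfin := Cn_finite hd k c₀ r
  obtain ⟨Z, hZ⟩ : ∃ Z : Finset ℂ, Z = hfin.toFinset := ⟨_, rfl⟩
  have hZm : ∀ x, x ∈ Z ↔ (‖x - c₀‖ < r ∧ P d (k + 1) x = 0) := by
    intro x
    rw [hZ, Set.Finite.mem_toFinset]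
    rfl
  have hZc : Z.card = (Cn d (k + 1) c₀ r).ncard := by
    rw [hZ, Set.ncard_eq_toFinset_card _ hfin]
  obtain ⟨S, hS⟩ : ∃ S : ℝ, S = 3 * d / (d : ℝ) ^ N := ⟨_, rfl⟩
  have hS0 : 0 ≤ S := by rw [hS]; positivity
  have h1 := zeros_le (N := k) hd (Z := Z) (a := c₀) (R := r)
    (M := 2 * Real.exp ((d : ℝ) ^ k * S)) hr (by
      intro z hz
      rw [hZm] at hz
      exact ⟨hz.2, hz.1.le⟩) (by
      intro x hx
      apply P_le_of_green hd hψ hS0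
      intro w hw hwx
      rw [hS]
      apply log_le_green hd hc₀ hN hB hψ hw (ρ := 3 * r) (by rw [hwx, hx])
      linarith)
  have hP0 : 0 < ‖P d (k + 1) c₀‖ := by
    by_contra hcon
    have h2 : ‖P d (k + 1) c₀‖ = 0 := le_antisymm (not_lt.1 hcon) (norm_nonneg _)
    rw [h2, mul_zero] at hret
    norm_num at hret
  have h2 := Real.log_le_log (by positivity) h1
  rw [Real.log_mul (by positivity) hP0.ne', Real.log_pow, Real.log_mul (by norm_num)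
    (Real.exp_pos _).ne', Real.log_exp, hZc] at h2
  have hX : (0 : ℝ) < 8 ^ (d + 1) * (((k + 1 : ℕ) : ℝ) * Ψ) := by
    have : (0 : ℝ) < ((k + 1 : ℕ) : ℝ) := by positivity
    positivity
  have h3 := Real.log_le_log one_pos hret
  rw [Real.log_one, Real.log_mul hX.ne' hP0.ne'] at h3
  have h4 : (d : ℝ) ^ k * S = 3 * (d : ℝ) ^ (k + 1) / (d : ℝ) ^ N := by
    rw [hS, pow_succ]
    ring
  rw [h4] at h2
  linarith

/-- the number of superattracting parameters when the derivatives grow polynomially -/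
theorem count_poly (hd : 2 ≤ d) {c₀ : ℂ} (hc₀ : c₀ ∈ multibrotSet d) {C s : ℝ} (hC1 : 1 ≤ C)
    (hs : 0 ≤ s) (hD : ∀ m n, m ≤ n → DD d c₀ m n ≤ C * (((n - m : ℕ) : ℝ) + 1) ^ s)
    (hno : ∀ n z, ¬ IsAttractingCycle (fun z => z ^ d + c₀) n z) :
    ∃ A K : ℝ, 0 < A ∧ 0 < K ∧ ∀ᶠ r : ℝ in 𝓝[>] 0, ∀ n : ℕ, 1 ≤ n →
      ((Cn d n c₀ r).ncard : ℝ) ≤ (d : ℝ) ^ n * Real.exp (-(A * r ^ (-(1 / (2 * s + 2))))) +
        K * (1 + Real.log n) := by
  have hdR : (1 : ℝ) < d := by exact_mod_cast (by omega : 1 < d)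
  have hd0 : (0 : ℝ) < d := by linarith
  have hlogd : 0 < Real.log d := Real.log_pos hdR
  have hlog2 : 0 < Real.log 2 := Real.log_pos (by norm_num)
  have hC : 0 < C := by linarith
  obtain ⟨β, hβ⟩ : ∃ β, β = 1 / (2 * s + 2) := ⟨_, rfl⟩
  have hβ0 : 0 < β := by rw [hβ]; positivity
  rw [← hβ]
  obtain ⟨G, hG⟩ : ∃ G : ℝ, G = 12 * 3 ^ d * C ^ 2 := ⟨_, rfl⟩
  have hG0 : 0 < G := by rw [hG]; positivity
  obtain ⟨A, hA⟩ : ∃ A, A = Real.log d * G ^ (-β) / 2 := ⟨_, rfl⟩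
  have hA0 : 0 < A := by rw [hA]; positivity
  obtain ⟨L, hL⟩ : ∃ L, L = Real.log (8 ^ (d + 1) * C) := ⟨_, rfl⟩
  have hL0 : 0 ≤ L := by
    rw [hL]
    apply Real.log_nonneg
    have h1 : (1 : ℝ) ≤ 8 ^ (d + 1) := one_le_pow₀ (by norm_num)
    nlinarith
  refine ⟨A, 1 + (L + (s + 1)) / Real.log 2, hA0, by positivity, ?_⟩
  have hlim : Tendsto (fun r : ℝ => r ^ (-β)) (𝓝[>] 0) atTop := by
    exact tendsto_rpow_neg_nhdsGT_zero (by linarith)
  have hlim2 : Tendsto (fun r : ℝ => Real.exp (-(A * r ^ (-β)))) (𝓝[>] 0) (𝓝 0) := by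
    apply Real.tendsto_exp_neg_atTop_nhds_zero.comp
    exact hlim.const_mul_atTop hA0
  have hev := hlim2.eventually (gt_mem_nhds (show 0 < Real.log 2 / (3 * d) by positivity))
  filter_upwards [ev_pos, ev_lt (show 0 < 1 / G by positivity), hev] with r hr0 hr1 hr2
  rw [lt_div_iff₀ hG0] at hr1
  rw [lt_div_iff₀ (by positivity)] at hr2
  obtain ⟨E, hE⟩ : ∃ E, E = Real.exp (-(A * r ^ (-β))) := ⟨_, rfl⟩
  have hE0 : 0 < E := by rw [hE]; positivity
  rw [← hE] at hr2 ⊢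
  intro n hn
  have hn1 : (1 : ℝ) ≤ n := by exact_mod_cast hn
  have hX0 : 0 < G * r := by positivity
  obtain ⟨T, hT⟩ : ∃ T, T = (G * r) ^ (-β) := ⟨_, rfl⟩
  have hT0 : 0 < T := by rw [hT]; positivity
  have hT1 : 1 ≤ T := by
    rw [hT]
    exact Real.one_le_rpow_of_pos_of_le_one_of_nonpos hX0 (by linarith) (by linarith)
  have hTβ : T ^ (2 * s + 2) = (G * r)⁻¹ := by
    rw [hT, ← Real.rpow_mul hX0.le, hβ]
    have : -(1 / (2 * s + 2)) * (2 * s + 2) = -1 := by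
      have : 2 * s + 2 ≠ 0 := by positivity
      field_simp
    rw [this, Real.rpow_neg_one]
  obtain ⟨N, hN⟩ : ∃ N, N = ⌊T⌋₊ := ⟨_, rfl⟩
  have hN1 : 1 ≤ N := by
    rw [hN]
    exact Nat.le_floor (by exact_mod_cast hT1)
  have hNT : (N : ℝ) ≤ T := by rw [hN]; exact Nat.floor_le hT0.le
  have hNT' : T < (N : ℝ) + 1 := by rw [hN]; exact Nat.lt_floor_add_one T
  have hN0 : (0 : ℝ) < N := by exact_mod_cast hN1
  have h1 : 12 * 3 ^ d * r * (N * (C * (N : ℝ) ^ s)) ^ 2 ≤ 1 := by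
    have e1 : 12 * 3 ^ d * r * (N * (C * (N : ℝ) ^ s)) ^ 2 = G * r * (N : ℝ) ^ (2 * s + 2) := by
      have e2 : (N : ℝ) ^ (2 * s + 2) = ((N : ℝ) ^ s) ^ 2 * (N : ℝ) ^ 2 := by
        rw [Real.rpow_add hN0, ← Real.rpow_natCast ((N : ℝ) ^ s), ← Real.rpow_mul hN0.le]
        congr 1
        · congr 1
          push_cast
          ring
        · norm_num
      rw [e2, hG]
      ring
    rw [e1]
    calc G * r * (N : ℝ) ^ (2 * s + 2) ≤ G * r * T ^ (2 * s + 2) := by gcongr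
      _ = 1 := by rw [hTβ]; exact mul_inv_cancel₀ hX0.ne'
  have h2 := count_phi hd hc₀ hN1 (Bd.of_poly hC1 hs hD hN1) hn (Bd.of_poly hC1 hs hD hn)
    (hno n) hr0 h1
  -- the exponential term
  have h3 : 3 * (d : ℝ) ^ n / (d : ℝ) ^ N ≤ 3 * d * (d : ℝ) ^ n * E ^ 2 := by
    have e1 : E ^ 2 = ((d : ℝ) ^ T)⁻¹ := by
      rw [hE, ← Real.exp_nat_mul, Real.rpow_def_of_pos hd0, ← Real.exp_neg]
      congr 1
      rw [hT, hA, Real.mul_rpow hG0.le hr0.le]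
      push_cast
      ring
    rw [e1, ← div_eq_mul_inv, div_le_div_iff₀ (by positivity) (by positivity)]
    have e2 : (d : ℝ) ^ T ≤ d * (d : ℝ) ^ N := by
      have e3 : (d : ℝ) ^ T ≤ (d : ℝ) ^ ((N + 1 : ℕ) : ℝ) := by
        apply Real.rpow_le_rpow_of_exponent_le hdR.le
        push_cast
        linarith
      rw [Real.rpow_natCast, pow_succ] at e3
      linarith
    calc 3 * (d : ℝ) ^ n * (d : ℝ) ^ T ≤ 3 * (d : ℝ) ^ n * (d * (d : ℝ) ^ N) := by gcongr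
      _ = _ := by ring
  -- the logarithm
  have h4 : Real.log (8 ^ (d + 1) * (n * (C * (n : ℝ) ^ s))) = L + (s + 1) * Real.log n := by
    have hn0 : (0 : ℝ) < n := by linarith
    have e1 : (8 : ℝ) ^ (d + 1) * (n * (C * (n : ℝ) ^ s)) =
        (8 ^ (d + 1) * C) * (n : ℝ) ^ (s + 1) := by
      rw [Real.rpow_add hn0, Real.rpow_one]
      ring
    rw [e1, Real.log_mul (by positivity) (by positivity), Real.log_rpow hn0, hL]
  rw [h4] at h2
  have h5 : 3 * d * (d : ℝ) ^ n * E ^ 2 ≤ (d : ℝ) ^ n * E * Real.log 2 := by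
    calc 3 * d * (d : ℝ) ^ n * E ^ 2 = (d : ℝ) ^ n * E * (E * (3 * d)) := by ring
      _ ≤ (d : ℝ) ^ n * E * Real.log 2 := by gcongr
  have hlogn : 0 ≤ Real.log n := Real.log_nonneg hn1
  have h6 : ((Cn d n c₀ r).ncard : ℝ) * Real.log 2 ≤
      ((d : ℝ) ^ n * E + (1 + (L + (s + 1)) / Real.log 2) * (1 + Real.log n)) * Real.log 2 := by
    have e1 : ((d : ℝ) ^ n * E + (1 + (L + (s + 1)) / Real.log 2) * (1 + Real.log n)) *
        Real.log 2 = (d : ℝ) ^ n * E * Real.log 2 +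
          (Real.log 2 + (L + (s + 1))) * (1 + Real.log n) := by
      field_simp
    rw [e1]
    have e2 : Real.log 2 + (L + (s + 1) * Real.log n) ≤
        (Real.log 2 + (L + (s + 1))) * (1 + Real.log n) := by
      nlinarith [mul_nonneg hlog2.le hlogn, mul_nonneg hL0 hlogn, mul_nonneg hs hlogn]
    linarith
  exact le_of_mul_le_mul_right h6 hlog2

/-- the harmonic measure against the derivatives -/
theorem vol_phi (hd : 2 ≤ d) {c₀ : ℂ} (hc₀ : c₀ ∈ multibrotSet d) {N : ℕ} (hN : 1 ≤ N) {Φ : ℝ}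
    (hB : Bd d c₀ N Φ) {ψ : ℂ → ℂ} (hψ : IsExteriorMap (multibrotSet d) ψ) {r : ℝ} (hr : 0 < r)
    (hrs : 8 * 3 ^ d * r * (N * Φ) ^ 2 ≤ 1) :
    (volume (Ang ψ c₀ r)).toReal ≤ 2 * Real.pi * (3 * d / (d : ℝ) ^ N) / Real.log 2 := by
  apply Pool.Agent.Y736.HG.vol_le hd hψ hc₀ hr (by positivity)
  intro w hw hwr
  exact log_le_green hd hc₀ hN hB hψ hw hwr (by linarith)

/-- the loop at a point where harmonic measure is small, with uniform constants -/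
theorem loop_unif {ψ : ℂ → ℂ} {c₀ : ℂ} {ρ δ : ℝ} (hδ0 : 0 ≤ δ) (hδ1 : δ ≤ Real.pi)
    (hvol : (volume (Ang ψ c₀ ρ)).toReal < δ)
    {F : ℂ → ℂ} (hF : ContinuousOn F {w | 1 ≤ ‖w‖}) (hE : ∀ w, 1 < ‖w‖ → F w = ψ w) {ζ : ℂ}
    (hζ : ‖ζ‖ = 1) (hFζ : F ζ = c₀) :
    ∃ ξ : ℂ, ‖ξ‖ = 1 ∧ ‖ξ - ζ‖ ≤ δ ∧ ρ ≤ ‖F ξ - F ζ‖ := by
  have hpi := Real.pi_pos
  -- the angle of `ζ`
  obtain ⟨θ₀, hθ₀, hθζ⟩ : ∃ θ₀ : ℝ, θ₀ ∈ Ioc 0 (2 * Real.pi) ∧ exp (θ₀ * I) = ζ := by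
    have h1 : exp ((arg ζ : ℝ) * I) = ζ := by
      have := Complex.norm_mul_exp_arg_mul_I ζ
      rwa [hζ, ofReal_one, one_mul] at this
    rcases le_or_gt (arg ζ) 0 with h2 | h2
    · refine ⟨arg ζ + 2 * Real.pi, ⟨?_, by linarith⟩, ?_⟩
      · have := Complex.neg_pi_lt_arg ζ
        linarith
      · push_cast
        rw [add_mul, Complex.exp_add, Complex.exp_two_pi_mul_I, mul_one]
        exact h1
    · exact ⟨arg ζ, ⟨h2, by linarith [Complex.arg_le_pi ζ]⟩, h1⟩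
  by_contra hcon
  push Not at hcon
  have hmem : ∀ θ : ℝ, θ ∈ Ioc 0 (2 * Real.pi) → |θ - θ₀| ≤ δ → θ ∈ Ang ψ c₀ ρ := by
    intro θ hθ hθδ
    refine ⟨hθ, F (exp (θ * I)), ?_, ?_⟩
    · rw [mem_ball, dist_eq_norm, ← hFζ]
      apply hcon
      · exact Complex.norm_exp_ofReal_mul_I θ
      · rw [← hθζ]
        have h1 : exp (θ * I) - exp (θ₀ * I) =
            exp (θ₀ * I) * (exp (I * ((θ - θ₀ : ℝ) : ℂ)) - 1) := by
          rw [mul_sub, ← Complex.exp_add, mul_one]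
          congr 2
          push_cast
          ring
        rw [h1, norm_mul, Complex.norm_exp_ofReal_mul_I, one_mul]
        refine (Real.norm_exp_I_mul_ofReal_sub_one_le).trans ?_
        rwa [Real.norm_eq_abs]
    · have h1 : ContinuousWithinAt F {w | 1 ≤ ‖w‖} (exp (θ * I)) :=
        hF _ (by
          show 1 ≤ ‖exp (θ * I)‖
          rw [Complex.norm_exp_ofReal_mul_I])
      have h2 : Tendsto (fun ρ : ℝ => (ρ : ℂ) * exp (θ * I)) (𝓝[>] 1)
          (𝓝[{w | 1 ≤ ‖w‖}] (exp (θ * I))) := by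
        rw [tendsto_nhdsWithin_iff]
        refine ⟨?_, ?_⟩
        · have h3 : Continuous fun ρ : ℝ => (ρ : ℂ) * exp (θ * I) := by fun_prop
          have h4 := (h3.tendsto 1).mono_left (nhdsWithin_le_nhds (s := Ioi (1 : ℝ)))
          simpa using h4
        · filter_upwards [self_mem_nhdsWithin] with ρ hρ
          have hρ' : 1 < ρ := hρ
          show 1 ≤ ‖(ρ : ℂ) * exp (θ * I)‖
          rw [norm_mul, Complex.norm_exp_ofReal_mul_I, mul_one, Complex.norm_real,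
            Real.norm_of_nonneg (by linarith)]
          exact hρ'.le
      refine (h1.tendsto.comp h2).congr' ?_
      filter_upwards [self_mem_nhdsWithin] with ρ hρ
      have hρ' : 1 < ρ := hρ
      apply hE
      rw [norm_mul, Complex.norm_exp_ofReal_mul_I, mul_one, Complex.norm_real,
        Real.norm_of_nonneg (by linarith)]
      exact hρ'
  rcases le_or_gt Real.pi θ₀ with h | h
  · have hsub : Ioc (θ₀ - δ) θ₀ ⊆ Ang ψ c₀ ρ := by
      intro θ hθ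
      apply hmem θ ⟨by linarith [hθ.1], hθ.2.trans hθ₀.2⟩
      rw [abs_le]
      constructor <;> linarith [hθ.1, hθ.2]
    have h2 := ENNReal.toReal_mono (vol_Ang_ne ψ c₀ ρ) (measure_mono hsub)
    rw [Real.volume_Ioc, ENNReal.toReal_ofReal (by linarith)] at h2
    linarith
  · have hsub : Ioc θ₀ (θ₀ + δ) ⊆ Ang ψ c₀ ρ := by
      intro θ hθ
      apply hmem θ ⟨by linarith [hθ.1, hθ₀.1], by linarith [hθ.2]⟩
      rw [abs_le]
      constructor <;> linarith [hθ.1, hθ.2]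
    have h2 := ENNReal.toReal_mono (vol_Ang_ne ψ c₀ ρ) (measure_mono hsub)
    rw [Real.volume_Ioc, ENNReal.toReal_ofReal (by linarith)] at h2
    linarith

end Pool.Agent.U256.GD
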