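import Pool.Agent.U256.GD5

set_option autoImplicit false

/-! # Subexponential and quasipolynomial growth: repulsion, counting, harmonic measure, loop -/

namespace Pool.Agent.U256.GD

open Complex Metric Set Filter Topology MeasureTheory Pool.Agent.H713R2
open Pool.Agent.H712R2 (P P_succ P_one P_zero fc continuous_P mem_multibrot_iff PP natDegree_PP
  eval_PP)
open N62a1eb23
open Pool.Agent.Y736.HD (Ang vol_Ang_ne ev_lt ev_pos GS)

variable {d : ℕ} {c : ℂ}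

theorem tendsto_u : Tendsto (fun r : ℝ => Real.log (1 / r)) (𝓝[>] 0) atTop := by
  have h1 : Tendsto (fun r : ℝ => -Real.log r) (𝓝[>] 0) atTop :=
    tendsto_neg_atBot_atTop.comp Real.tendsto_log_nhdsGT_zero
  refine h1.congr fun r => ?_
  rw [one_div, Real.log_inv]

/-- polynomial times exponential -/
theorem poly_exp {G X : ℝ} (hX : 0 < X) :
    ∀ᶠ x : ℝ in atTop, G * x ^ 2 ≤ Real.exp (X * x) := by
  have h1 := (isLittleO_pow_exp_pos_mul_atTop (k := 2) hX).bound (show 0 < 1 / (|G| + 1) by positivity)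
  filter_upwards [h1, eventually_ge_atTop 0] with x hx hx0
  rw [Real.norm_of_nonneg (by positivity), Real.norm_of_nonneg (Real.exp_pos _).le] at hx
  have h2 : (|G| + 1) * x ^ 2 ≤ Real.exp (X * x) := by
    rw [one_div, ← div_eq_inv_mul, le_div_iff₀ (by positivity)] at hx
    linarith
  have h3 : G * x ^ 2 ≤ (|G| + 1) * x ^ 2 := by
    gcongr
    linarith [le_abs_self G]
  linarith

/-- subexponential growth -/
def Sub (d : ℕ) (c : ℂ) : Prop :=
  ∀ ε : ℝ, 0 < ε → ∃ A : ℝ, 1 ≤ A ∧ ∀ n : ℕ, Bd d c n (A * Real.exp (ε * n))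

theorem low_exp (hd : 2 ≤ d) (hc : c ∈ multibrotSet d) (hs : Sub d c)
    (hno : ∀ n z, ¬ IsAttractingCycle (fun z => z ^ d + c) n z) {X : ℝ} (hX : 0 < X) :
    ∀ᶠ n : ℕ in atTop, Real.exp (-(X * n)) ≤ ‖P d n c‖ ∧
      ∀ a : ℂ, P d n a = 0 → Real.exp (-(X * n)) ≤ ‖a - c‖ := by
  obtain ⟨A, hA, hB⟩ := hs (X / 4) (by positivity)
  have h1 := (poly_exp (G := 8 ^ (d + 2) * A ^ 2) (X := X / 2) (by positivity)).natCast_atTop
  filter_upwards [h1, eventually_ge_atTop 1] with n hn1 hn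
  have hn' : (1 : ℝ) ≤ n := by exact_mod_cast hn
  obtain ⟨Φ, hΦ⟩ : ∃ Φ, Φ = A * Real.exp (X / 4 * n) := ⟨_, rfl⟩
  have hBn := hB n
  rw [← hΦ] at hBn
  have hΦ1 := hBn.1
  have hkey : 8 ^ (d + 2) * (n * Φ) ^ 2 ≤ Real.exp (X * n) := by
    have e : (8 : ℝ) ^ (d + 2) * (n * Φ) ^ 2 =
        (8 ^ (d + 2) * A ^ 2 * (n : ℝ) ^ 2) * Real.exp (X / 2 * n) := by
      have e2 : Real.exp (X / 2 * n) = Real.exp (X / 4 * n) ^ 2 := by
        rw [← Real.exp_nat_mul]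
        congr 1
        push_cast
        ring
      rw [hΦ, e2]
      ring
    have e3 : Real.exp (X * n) = Real.exp (X / 2 * n) * Real.exp (X / 2 * n) := by
      rw [← Real.exp_add]
      congr 1
      ring
    rw [e, e3]
    gcongr
  have hnΦ : 1 ≤ n * Φ := by nlinarith
  constructor
  · have h2 := no_return hd hc hn hBn (fun z => hno n z)
    have h3 : (1 : ℝ) ≤ Real.exp (X * n) * ‖P d n c‖ := by
      refine h2.trans ?_
      apply mul_le_mul_of_nonneg_right _ (norm_nonneg _)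
      refine le_trans ?_ hkey
      have e4 : (8 : ℝ) ^ (d + 1) ≤ 8 ^ (d + 2) := pow_le_pow_right₀ (by norm_num) (by omega)
      have e5 : n * Φ ≤ (n * Φ) ^ 2 := by nlinarith
      gcongr
    rw [Real.exp_neg, ← one_div, div_le_iff₀ (Real.exp_pos _)]
    linarith
  · intro a ha
    have h2 := repulsion hd hc hn hBn (fun z => hno n z) ha
    have h3 : (1 : ℝ) ≤ Real.exp (X * n) * ‖a - c‖ := h2.trans (by gcongr)
    rw [Real.exp_neg, ← one_div, div_le_iff₀ (Real.exp_pos _)]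
    linarith

theorem Bd.mono' {n m : ℕ} {Φ Ψ : ℝ} (h : Bd d c n Φ) (hm : m ≤ n) (hΨ : Φ ≤ Ψ) :
    Bd d c m Ψ :=
  ⟨h.1.trans hΨ, fun i k hk => (h.2 i k (lt_of_lt_of_le hk hm)).trans hΨ⟩

theorem count_exp (hd : 2 ≤ d) (hc : c ∈ multibrotSet d) (hs : Sub d c)
    (hno : ∀ n z, ¬ IsAttractingCycle (fun z => z ^ d + c) n z) {κ X : ℝ} (hκ : 0 < κ)
    (hX : 0 < X) :
    ∀ᶠ r : ℝ in 𝓝[>] 0, ∀ n : ℕ, 1 ≤ n →
      ((Cn d n c r).ncard : ℝ) ≤ (d : ℝ) ^ n * r ^ κ + X * n := by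
  have hdR : (1 : ℝ) < d := by exact_mod_cast (by omega : 1 < d)
  have hd0 : (0 : ℝ) < d := by linarith
  have hlogd : 0 < Real.log d := Real.log_pos hdR
  have hlog2 : 0 < Real.log 2 := Real.log_pos (by norm_num)
  have hlog2' : 1 / 2 < Real.log 2 := by linarith [Real.log_two_gt_d9]
  -- the linear term
  obtain ⟨A', hA', hB'⟩ := hs (X / 4) (by positivity)
  obtain ⟨L, hL⟩ : ∃ L, L = Real.log 2 + Real.log (8 ^ (d + 1) * A') := ⟨_, rfl⟩
  have hev : ∀ᶠ n : ℕ in atTop, L + Real.log n ≤ X / 4 * n := by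
    have h1 := (Real.isLittleO_log_id_atTop).bound (show 0 < X / 8 by positivity)
    have h2 : ∀ᶠ x : ℝ in atTop, L ≤ X / 8 * x :=
      (tendsto_id.const_mul_atTop (show 0 < X / 8 by positivity)).eventually_ge_atTop L
    have h3 : ∀ᶠ x : ℝ in atTop, L + Real.log x ≤ X / 4 * x := by
      filter_upwards [h1, h2, eventually_ge_atTop 1] with x hx1 hx2 hx3
      rw [Real.norm_of_nonneg (Real.log_nonneg hx3), id, Real.norm_of_nonneg (by linarith)] at hx1
      linarith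
    exact h3.natCast_atTop
  obtain ⟨n₀, hn₀⟩ := eventually_atTop.1 hev
  obtain ⟨G₀, hG₀⟩ : ∃ G₀ : ℝ, G₀ = 8 ^ (d + 2) * ((n₀ + 1) * (A' * Real.exp (X / 4 * (n₀ + 1)))) ^ 2
    := ⟨_, rfl⟩
  have hG₀0 : 0 < G₀ := by rw [hG₀]; positivity
  -- the exponential term
  obtain ⟨M, hM⟩ : ∃ M, M = (κ + 1) / Real.log d := ⟨_, rfl⟩
  have hM0 : 0 < M := by rw [hM]; positivity
  obtain ⟨A, hA, hB⟩ := hs (1 / (8 * M)) (by positivity)
  have hpe := tendsto_u.eventually (poly_exp (G := 12 * 3 ^ d * (2 * M * A) ^ 2) (X := 1 / 2)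
    (by norm_num))
  have hu1 := tendsto_u.eventually_ge_atTop (1 / M)
  filter_upwards [ev_pos, ev_lt (show 0 < 1 / G₀ by positivity), ev_lt (show (0 : ℝ) < 1 / 6 by
    norm_num), hpe, hu1] with r hr0 hr1 hr6 hpe hu1
  intro n hn
  have hn' : (1 : ℝ) ≤ n := by exact_mod_cast hn
  obtain ⟨u, hu⟩ : ∃ u, u = Real.log (1 / r) := ⟨_, rfl⟩
  rw [← hu] at hpe hu1
  have hru : r = Real.exp (-u) := by
    rw [hu, one_div, Real.log_inv, neg_neg, Real.exp_log hr0]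
  rw [lt_div_iff₀ hG₀0] at hr1
  rcases Set.eq_empty_or_nonempty (Cn d n c r) with hemp | ⟨a, ha1, ha2⟩
  · rw [hemp, Set.ncard_empty]
    push_cast
    positivity
  -- the period is large
  have hnn : n₀ < n := by
    by_contra hcon
    push Not at hcon
    have h1 : Bd d c n (A' * Real.exp (X / 4 * (n₀ + 1))) := by
      refine (hB' (n₀ + 1)).mono' (by omega) (le_of_eq ?_)
      push_cast
      rfl
    have h2 := repulsion hd hc hn h1 (fun z => hno n z) ha2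
    have hA0 : 0 < A' := by linarith
    have h3 : 8 ^ (d + 2) * (n * (A' * Real.exp (X / 4 * (n₀ + 1)))) ^ 2 * ‖a - c‖ ≤ r * G₀ := by
      rw [hG₀, mul_comm r]
      have h4 : (n : ℝ) ≤ n₀ + 1 := by
        have : (n : ℝ) ≤ n₀ := by exact_mod_cast hcon
        linarith
      gcongr
    linarith
  have h4 := hn₀ n hnn.le
  -- the counting inequality
  obtain ⟨N, hN⟩ : ∃ N, N = ⌈M * u⌉₊ := ⟨_, rfl⟩
  have hMu : 1 ≤ M * u := by
    rw [div_le_iff₀ hM0] at hu1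
    linarith
  have hN1 : 1 ≤ N := by
    rw [hN]
    exact Nat.one_le_ceil_iff.2 (by linarith)
  have hNle : M * u ≤ N := by rw [hN]; exact Nat.le_ceil _
  have hNle2 : (N : ℝ) ≤ 2 * M * u := by
    have := Nat.ceil_lt_add_one (show 0 ≤ M * u by linarith)
    rw [← hN] at this
    linarith
  have hA0 : 0 < A := by linarith
  have hu0 : 0 < u := lt_of_lt_of_le (by positivity) hu1
  have h5 : 12 * 3 ^ d * r * (N * (A * Real.exp (1 / (8 * M) * N))) ^ 2 ≤ 1 := by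
    have e1 : Real.exp (1 / (8 * M) * N) ≤ Real.exp (u / 4) := by
      apply Real.exp_le_exp.2
      calc 1 / (8 * M) * N ≤ 1 / (8 * M) * (2 * M * u) := by gcongr
        _ = u / 4 := by field_simp; ring
    calc 12 * 3 ^ d * r * (N * (A * Real.exp (1 / (8 * M) * N))) ^ 2
        ≤ 12 * 3 ^ d * r * ((2 * M * u) * (A * Real.exp (u / 4))) ^ 2 := by gcongr
      _ = (12 * 3 ^ d * (2 * M * A) ^ 2 * u ^ 2) * (r * Real.exp (u / 4) ^ 2) := by ring
      _ ≤ Real.exp (1 / 2 * u) * (r * Real.exp (u / 4) ^ 2) := by gcongr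
      _ = 1 := by
        rw [hru, ← Real.exp_nat_mul, ← Real.exp_add, ← Real.exp_add]
        have : 1 / 2 * u + (-u + ((2 : ℕ) : ℝ) * (u / 4)) = 0 := by push_cast; ring
        rw [this, Real.exp_zero]
  have h6 := count_phi hd hc hN1 (hB N) hn (hB' n) (fun z => hno n z) hr0 h5
  have h7 : 3 * (d : ℝ) ^ n / (d : ℝ) ^ N ≤ (d : ℝ) ^ n * r ^ κ / 2 := by
    have e1 : Real.exp ((κ + 1) * u) ≤ (d : ℝ) ^ N := by
      rw [← Real.rpow_natCast, Real.rpow_def_of_pos hd0]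
      apply Real.exp_le_exp.2
      calc (κ + 1) * u = Real.log d * (M * u) := by rw [hM]; field_simp
        _ ≤ Real.log d * N := by gcongr
    have e2 : r ^ κ = Real.exp (-(κ * u)) := by
      rw [Real.rpow_def_of_pos hr0]
      congr 1
      have : Real.log r = -u := by rw [hru, Real.log_exp]
      rw [this]
      ring
    rw [div_le_iff₀ (by positivity)]
    have e3 : 3 ≤ r ^ κ / 2 * Real.exp ((κ + 1) * u) := by
      rw [e2]
      have e4 : Real.exp (-(κ * u)) / 2 * Real.exp ((κ + 1) * u) = Real.exp u / 2 := by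
        rw [div_mul_eq_mul_div, ← Real.exp_add]
        congr 2
        ring
      rw [e4]
      have e5 : Real.exp u = 1 / r := by
        rw [hru, Real.exp_neg, one_div, inv_inv]
      have e6 : (6 : ℝ) ≤ 1 / r := by
        rw [le_div_iff₀ hr0]
        linarith
      rw [e5]
      linarith
    have e7 : 0 < (d : ℝ) ^ n := by positivity
    calc 3 * (d : ℝ) ^ n ≤ (r ^ κ / 2 * Real.exp ((κ + 1) * u)) * (d : ℝ) ^ n := by gcongr
      _ = (d : ℝ) ^ n * r ^ κ / 2 * Real.exp ((κ + 1) * u) := by ring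
      _ ≤ (d : ℝ) ^ n * r ^ κ / 2 * (d : ℝ) ^ N := by gcongr
  have h8 : Real.log (8 ^ (d + 1) * (n * (A' * Real.exp (X / 4 * n)))) =
      Real.log (8 ^ (d + 1) * A') + Real.log n + X / 4 * n := by
    have e1 : (8 : ℝ) ^ (d + 1) * (n * (A' * Real.exp (X / 4 * n))) =
        (8 ^ (d + 1) * A') * n * Real.exp (X / 4 * n) := by ring
    have hA0' : 0 < A' := by linarith
    have hn0 : (0 : ℝ) < n := by linarith
    rw [e1, Real.log_mul (by positivity) (Real.exp_pos _).ne', Real.log_exp,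
      Real.log_mul (by positivity) hn0.ne']
  rw [h8] at h6
  obtain ⟨Y, hY⟩ : ∃ Y, Y = (d : ℝ) ^ n * r ^ κ := ⟨_, rfl⟩
  have hY0 : 0 ≤ Y := by rw [hY]; positivity
  rw [← hY] at h7 ⊢
  have h9 : ((Cn d n c r).ncard : ℝ) * Real.log 2 ≤ (Y + X * n) * Real.log 2 := by
    have e1 : Y / 2 ≤ Y * Real.log 2 := by nlinarith
    have e2 : X / 2 * n ≤ X * n * Real.log 2 := by
      have : 0 ≤ X * n := by positivity
      nlinarith
    linarith
  exact le_of_mul_le_mul_right h9 hlog2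

/-- quasipolynomial growth -/
def Quasi (d : ℕ) (c : ℂ) (a : ℕ) : Prop :=
  ∃ A : ℝ, 1 ≤ A ∧ ∀ n : ℕ, 1 ≤ n → Bd d c n (Real.exp (A * (1 + Real.log n) ^ (a + 1)))

theorem quasi_low (hd : 2 ≤ d) (hc : c ∈ multibrotSet d) {a : ℕ} (hq : Quasi d c a)
    (hno : ∀ n z, ¬ IsAttractingCycle (fun z => z ^ d + c) n z) :
    ∃ A : ℝ, 0 < A ∧ ∀ n : ℕ, 1 ≤ n → Real.exp (-(A * (1 + Real.log n) ^ (a + 1))) ≤ ‖P d n c‖ ∧
      ∀ b : ℂ, P d n b = 0 → Real.exp (-(A * (1 + Real.log n) ^ (a + 1))) ≤ ‖b - c‖ := by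
  obtain ⟨A, hA, hB⟩ := hq
  obtain ⟨L, hL⟩ : ∃ L, L = Real.log (8 ^ (d + 2)) := ⟨_, rfl⟩
  have hL0 : 0 ≤ L := by
    rw [hL]
    exact Real.log_nonneg (one_le_pow₀ (by norm_num))
  refine ⟨L + 2 + 2 * A, by positivity, ?_⟩
  intro n hn
  have hn' : (1 : ℝ) ≤ n := by exact_mod_cast hn
  have hn0 : (0 : ℝ) < n := by linarith
  have hlogn : 0 ≤ Real.log n := Real.log_nonneg hn'
  obtain ⟨T, hT⟩ : ∃ T, T = (1 + Real.log n) ^ (a + 1) := ⟨_, rfl⟩
  have hT1 : 1 + Real.log n ≤ T := by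
    rw [hT]
    exact le_self_pow₀ (by linarith) (by omega)
  have hBn := hB n hn
  rw [← hT] at hBn
  rw [← hT]
  obtain ⟨Φ, hΦ⟩ : ∃ Φ, Φ = Real.exp (A * T) := ⟨_, rfl⟩
  rw [← hΦ] at hBn
  have hΦ1 := hBn.1
  have hkey : 8 ^ (d + 2) * (n * Φ) ^ 2 ≤ Real.exp ((L + 2 + 2 * A) * T) := by
    have e : (8 : ℝ) ^ (d + 2) * (n * Φ) ^ 2 = Real.exp (L + 2 * Real.log n + 2 * (A * T)) := by
      rw [Real.exp_add, Real.exp_add, hL, Real.exp_log (by positivity), hΦ, mul_pow,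
        ← Real.exp_nat_mul (A * T)]
      have e2 : Real.exp (2 * Real.log n) = (n : ℝ) ^ 2 := by
        rw [show 2 * Real.log n = Real.log n + Real.log n by ring, Real.exp_add,
          Real.exp_log hn0]
        ring
      rw [e2]
      push_cast
      ring
    rw [e]
    apply Real.exp_le_exp.2
    nlinarith
  have hnΦ : 1 ≤ n * Φ := by nlinarith
  constructor
  · have h2 := no_return hd hc hn hBn (fun z => hno n z)
    have h3 : (1 : ℝ) ≤ Real.exp ((L + 2 + 2 * A) * T) * ‖P d n c‖ := by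
      refine h2.trans ?_
      apply mul_le_mul_of_nonneg_right _ (norm_nonneg _)
      refine le_trans ?_ hkey
      have e4 : (8 : ℝ) ^ (d + 1) ≤ 8 ^ (d + 2) := pow_le_pow_right₀ (by norm_num) (by omega)
      have e5 : n * Φ ≤ (n * Φ) ^ 2 := by nlinarith
      gcongr
    rw [Real.exp_neg, ← one_div, div_le_iff₀ (Real.exp_pos _)]
    linarith
  · intro b hb
    have h2 := repulsion hd hc hn hBn (fun z => hno n z) hb
    have h3 : (1 : ℝ) ≤ Real.exp ((L + 2 + 2 * A) * T) * ‖b - c‖ := h2.trans (by gcongr)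
    rw [Real.exp_neg, ← one_div, div_le_iff₀ (Real.exp_pos _)]
    linarith

theorem quasi_N (hd : 2 ≤ d) {a : ℕ} {A K : ℝ} (hA : 1 ≤ A) (hK : 0 < K) :
    ∀ᶠ r : ℝ in 𝓝[>] 0, ∃ N : ℕ, 1 ≤ N ∧
      12 * 3 ^ d * r * (N * Real.exp (A * (1 + Real.log N) ^ (a + 1))) ^ 2 ≤ 1 ∧
      K / (d : ℝ) ^ N <
        Real.exp (-Real.exp (1 / (16 * (A + 1)) * Real.log (1 / r) ^ (1 / ((a : ℝ) + 1)))) := by
  have hdR : (1 : ℝ) < d := by exact_mod_cast (by omega : 1 < d)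
  have hd0 : (0 : ℝ) < d := by linarith
  have hlogd : 1 / 2 < Real.log d := by
    have h1 : Real.log 2 ≤ Real.log d := Real.log_le_log (by norm_num) (by exact_mod_cast hd)
    linarith [Real.log_two_gt_d9]
  obtain ⟨l, hl⟩ : ∃ l : ℝ, l = 1 / (8 * (A + 1)) := ⟨_, rfl⟩
  have hl0 : 0 < l := by rw [hl]; positivity
  have hlA : l * (8 * (A + 1)) = 1 := by rw [hl]; field_simp
  have hl16 : 1 / (16 * (A + 1)) = l / 2 := by rw [hl]; field_simp; ring
  rw [hl16]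
  have hl1 : 2 * l ≤ 1 / 8 := by nlinarith
  obtain ⟨β, hβ⟩ : ∃ β : ℝ, β = 1 / ((a : ℝ) + 1) := ⟨_, rfl⟩
  have hβ0 : 0 < β := by rw [hβ]; positivity
  have hβ1 : β ≤ 1 := by
    rw [hβ, div_le_one (by positivity)]
    have : (0 : ℝ) ≤ a := Nat.cast_nonneg a
    linarith
  rw [← hβ]
  obtain ⟨G, hG⟩ : ∃ G : ℝ, G = Real.log (12 * 3 ^ d) := ⟨_, rfl⟩
  have hv : Tendsto (fun r : ℝ => Real.log (1 / r) ^ β) (𝓝[>] 0) atTop :=
    (tendsto_rpow_atTop hβ0).comp tendsto_u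
  have hE : Tendsto (fun r : ℝ => Real.exp (l / 2 * Real.log (1 / r) ^ β)) (𝓝[>] 0) atTop :=
    Real.tendsto_exp_atTop.comp (hv.const_mul_atTop (by positivity))
  have hq : ∀ᶠ x : ℝ in atTop, x + Real.log K + Real.log d < x ^ 2 * Real.log d := by
    filter_upwards [eventually_gt_atTop (4 + 2 * |Real.log K| + 2 * Real.log d)] with x hx
    have h1 := le_abs_self (Real.log K)
    have h2 := abs_nonneg (Real.log K)
    nlinarith
  filter_upwards [ev_pos, tendsto_u.eventually_ge_atTop 1, tendsto_u.eventually_ge_atTop (3 * G),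
    hv.eventually_ge_atTop (1 / l), hE.eventually hq] with r hr0 hu1 hu3 hv1 hE1
  obtain ⟨u, hu⟩ : ∃ u, u = Real.log (1 / r) := ⟨_, rfl⟩
  rw [← hu] at hu1 hu3 hv1 hE1 ⊢
  have hru : r = Real.exp (-u) := by
    rw [hu, one_div, Real.log_inv, neg_neg, Real.exp_log hr0]
  obtain ⟨v, hvd⟩ : ∃ v, v = u ^ β := ⟨_, rfl⟩
  rw [← hvd] at hv1 hE1 ⊢
  have hvpow : v ^ (a + 1) = u := by
    rw [hvd, ← Real.rpow_natCast, ← Real.rpow_mul (by linarith), hβ]
    have : 1 / ((a : ℝ) + 1) * ((a + 1 : ℕ) : ℝ) = 1 := by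
      push_cast
      field_simp
    rw [this, Real.rpow_one]
  have hvu : v ≤ u := by
    rw [hvd]
    calc u ^ β ≤ u ^ (1 : ℝ) := Real.rpow_le_rpow_of_exponent_le hu1 hβ1
      _ = u := Real.rpow_one u
  have hlv : 1 ≤ l * v := by
    rw [div_le_iff₀ hl0] at hv1
    linarith
  have hv0 : 0 < v := by
    by_contra hcon
    push Not at hcon
    nlinarith
  obtain ⟨N, hN⟩ : ∃ N, N = ⌊Real.exp (l * v)⌋₊ := ⟨_, rfl⟩
  have hexp1 : 1 ≤ Real.exp (l * v) := Real.one_le_exp (by linarith)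
  have hN1 : 1 ≤ N := by
    rw [hN]
    exact Nat.le_floor (by exact_mod_cast hexp1)
  have hN0 : (0 : ℝ) < N := by exact_mod_cast hN1
  have hN1' : (1 : ℝ) ≤ N := by exact_mod_cast hN1
  have hNle : (N : ℝ) ≤ Real.exp (l * v) := by rw [hN]; exact Nat.floor_le (Real.exp_pos _).le
  have hNge : Real.exp (l * v) < N + 1 := by rw [hN]; exact Nat.lt_floor_add_one _
  have hlogN : Real.log N ≤ l * v := by
    have := Real.log_le_log hN0 hNle
    rwa [Real.log_exp] at this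
  have hlogN0 : 0 ≤ Real.log N := Real.log_nonneg hN1'
  refine ⟨N, hN1, ?_, ?_⟩
  · have h1 : (1 + Real.log N) ^ (a + 1) ≤ 2 * l * u := by
      calc (1 + Real.log N) ^ (a + 1) ≤ (2 * l * v) ^ (a + 1) := by
            gcongr
            linarith
        _ = (2 * l) ^ (a + 1) * u := by rw [mul_pow, hvpow]
        _ ≤ (2 * l) ^ 1 * u := by
            apply mul_le_mul_of_nonneg_right _ (by linarith)
            exact pow_le_pow_of_le_one (by positivity) (by linarith) (by omega)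
        _ = 2 * l * u := by ring
    have e : 12 * 3 ^ d * r * (N * Real.exp (A * (1 + Real.log N) ^ (a + 1))) ^ 2 =
        Real.exp (G - u + 2 * Real.log N + 2 * (A * (1 + Real.log N) ^ (a + 1))) := by
      have e2 : Real.exp (2 * Real.log N) = (N : ℝ) ^ 2 := by
        rw [show 2 * Real.log N = Real.log N + Real.log N by ring, Real.exp_add,
          Real.exp_log hN0]
        ring
      have e3 : Real.exp (2 * (A * (1 + Real.log N) ^ (a + 1))) =
          Real.exp (A * (1 + Real.log N) ^ (a + 1)) ^ 2 := by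
        rw [← Real.exp_nat_mul]
        congr 1
      rw [Real.exp_add, Real.exp_add, sub_eq_add_neg, Real.exp_add, e2, e3, ← hru, hG,
        Real.exp_log (by positivity)]
      ring
    rw [e, Real.exp_le_one_iff]
    have h2 : A * (1 + Real.log N) ^ (a + 1) ≤ u / 4 := by
      calc A * (1 + Real.log N) ^ (a + 1) ≤ A * (2 * l * u) := by gcongr
        _ ≤ u / 4 := by
            have : 8 * (A * l) ≤ 1 := by nlinarith
            nlinarith
    nlinarith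
  · obtain ⟨E, hEd⟩ : ∃ E, E = Real.exp (l / 2 * v) := ⟨_, rfl⟩
    rw [← hEd] at hE1 ⊢
    have hE2 : Real.exp (l * v) = E ^ 2 := by
      rw [hEd, ← Real.exp_nat_mul]
      congr 1
      push_cast
      ring
    rw [hE2] at hNge
    have h1 : K / (d : ℝ) ^ N = Real.exp (Real.log K - N * Real.log d) := by
      rw [Real.exp_sub, Real.exp_log hK, ← Real.rpow_natCast, Real.rpow_def_of_pos hd0,
        mul_comm (Real.log d)]
    rw [h1]
    apply Real.exp_lt_exp.2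
    nlinarith

/-- harmonic measure and Green's function at quasipolynomial growth -/
theorem quasi_harm (hd : 2 ≤ d) (hc : c ∈ multibrotSet d) {a : ℕ} (hq : Quasi d c a) :
    ∃ l : ℝ, 0 < l ∧ ∀ ψ : ℂ → ℂ, IsExteriorMap (multibrotSet d) ψ → ∀ᶠ r : ℝ in 𝓝[>] 0,
      (volume (Ang ψ c r)).toReal <
        Real.exp (-Real.exp (l * Real.log (1 / r) ^ (1 / ((a : ℝ) + 1)))) ∧
      sSup {x | ∃ w : ℂ, 1 < ‖w‖ ∧ ‖ψ w - c‖ ≤ r ∧ Real.log ‖w‖ = x} <
        Real.exp (-Real.exp (l * Real.log (1 / r) ^ (1 / ((a : ℝ) + 1)))) := by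
  obtain ⟨A, hA, hB⟩ := hq
  have hlog2 : 0 < Real.log 2 := Real.log_pos (by norm_num)
  have hpi := Real.pi_pos
  have hd0 : (0 : ℝ) < d := by exact_mod_cast (by omega : 0 < d)
  obtain ⟨K, hK⟩ : ∃ K : ℝ, K = 2 * Real.pi * (3 * d) / Real.log 2 + 3 * d := ⟨_, rfl⟩
  have hK0 : 0 < K := by rw [hK]; positivity
  refine ⟨1 / (16 * (A + 1)), by positivity, ?_⟩
  intro ψ hψ
  filter_upwards [quasi_N (a := a) hd hA hK0, ev_pos] with r hr hr0
  obtain ⟨N, hN1, hN2, hN3⟩ := hr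
  have hdN : (0 : ℝ) < (d : ℝ) ^ N := by positivity
  have hpos : 0 ≤ 3 ^ d * r * (N * Real.exp (A * (1 + Real.log N) ^ (a + 1))) ^ 2 := by positivity
  constructor
  · refine lt_of_le_of_lt ?_ hN3
    refine (vol_phi hd hc hN1 (hB N hN1) hψ hr0 (by linarith)).trans ?_
    rw [show 2 * Real.pi * (3 * (d : ℝ) / (d : ℝ) ^ N) / Real.log 2 =
      (2 * Real.pi * (3 * d) / Real.log 2) / (d : ℝ) ^ N by ring]
    gcongr
    rw [hK]
    have : (0 : ℝ) ≤ 3 * d := by positivity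
    linarith
  · refine lt_of_le_of_lt ?_ hN3
    apply Real.sSup_le _ (by positivity)
    rintro x ⟨w, hw1, hw2, rfl⟩
    refine (log_le_green hd hc hN1 (hB N hN1) hψ hw1 hw2 (by linarith)).trans ?_
    gcongr
    rw [hK]
    have : (0 : ℝ) ≤ 2 * Real.pi * (3 * d) / Real.log 2 := by positivity
    linarith

/-- the number of centres at quasipolynomial growth -/
theorem quasi_count (hd : 2 ≤ d) (hc : c ∈ multibrotSet d) {a : ℕ} (hq : Quasi d c a)
    (hno : ∀ n z, ¬ IsAttractingCycle (fun z => z ^ d + c) n z) :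
    ∃ l K : ℝ, 0 < l ∧ 0 < K ∧ ∀ᶠ r : ℝ in 𝓝[>] 0, ∀ n : ℕ, 1 ≤ n →
      ((Cn d n c r).ncard : ℝ) ≤ (d : ℝ) ^ n *
        Real.exp (-Real.exp (l * Real.log (1 / r) ^ (1 / ((a : ℝ) + 1)))) +
        K * (1 + Real.log n) ^ (a + 1) := by
  obtain ⟨A, hA, hB⟩ := hq
  have hlog2 : 0 < Real.log 2 := Real.log_pos (by norm_num)
  have hlog2' : 1 / 2 < Real.log 2 := by linarith [Real.log_two_gt_d9]
  have hd0 : (0 : ℝ) < d := by exact_mod_cast (by omega : 0 < d)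
  obtain ⟨L, hL⟩ : ∃ L, L = Real.log (8 ^ (d + 1)) := ⟨_, rfl⟩
  have hL0 : 0 ≤ L := by
    rw [hL]
    exact Real.log_nonneg (one_le_pow₀ (by norm_num))
  refine ⟨1 / (16 * (A + 1)), 2 * (1 + L + 1 + A), by positivity, by positivity, ?_⟩
  filter_upwards [quasi_N (a := a) (K := 6) hd hA (by norm_num), ev_pos] with r hr hr0
  obtain ⟨N, hN1, hN2, hN3⟩ := hr
  obtain ⟨E, hE⟩ : ∃ E, E = Real.exp (-Real.exp (1 / (16 * (A + 1)) *
    Real.log (1 / r) ^ (1 / ((a : ℝ) + 1)))) := ⟨_, rfl⟩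
  rw [← hE] at hN3 ⊢
  intro n hn
  have hn' : (1 : ℝ) ≤ n := by exact_mod_cast hn
  have hn0 : (0 : ℝ) < n := by linarith
  have hlogn : 0 ≤ Real.log n := Real.log_nonneg hn'
  have h1 := count_phi hd hc hN1 (hB N hN1) hn (hB n hn) (fun z => hno n z) hr0 hN2
  obtain ⟨T, hT⟩ : ∃ T, T = (1 + Real.log n) ^ (a + 1) := ⟨_, rfl⟩
  have hT1 : 1 + Real.log n ≤ T := by
    rw [hT]
    exact le_self_pow₀ (by linarith) (by omega)
  rw [← hT] at h1 ⊢
  have h2 : Real.log (8 ^ (d + 1) * (n * Real.exp (A * T))) = L + Real.log n + A * T := by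
    rw [← mul_assoc, Real.log_mul (mul_ne_zero (by positivity) hn0.ne') (Real.exp_pos _).ne',
      Real.log_exp, Real.log_mul (by positivity) hn0.ne', ← hL]
  rw [h2] at h1
  have hdn : (0 : ℝ) < (d : ℝ) ^ n := by positivity
  have h3 : 3 * (d : ℝ) ^ n / (d : ℝ) ^ N ≤ (d : ℝ) ^ n * E / 2 := by
    have e1 : 3 * (d : ℝ) ^ n / (d : ℝ) ^ N = (d : ℝ) ^ n * (6 / (d : ℝ) ^ N) / 2 := by ring
    rw [e1]
    gcongr
  obtain ⟨Y, hY⟩ : ∃ Y, Y = (d : ℝ) ^ n * E := ⟨_, rfl⟩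
  have hY0 : 0 ≤ Y := by rw [hY, hE]; positivity
  rw [← hY] at h3 ⊢
  have hln2 : Real.log 2 ≤ 1 := by linarith [Real.log_two_lt_d9]
  have h4 : ((Cn d n c r).ncard : ℝ) * Real.log 2 ≤
      (Y + 2 * (1 + L + 1 + A) * T) * Real.log 2 := by
    have e1 : Y / 2 ≤ Y * Real.log 2 := by nlinarith
    have e2 : (1 + L + 1 + A) * T ≤ 2 * (1 + L + 1 + A) * T * Real.log 2 := by
      have : 0 ≤ (1 + L + 1 + A) * T := mul_nonneg (by linarith) (by linarith)
      nlinarith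
    have e3 : Real.log 2 + (L + Real.log n + A * T) ≤ (1 + L + 1 + A) * T := by nlinarith
    linarith
  exact le_of_mul_le_mul_right h4 hlog2

/-- the loop at quasipolynomial growth -/
theorem quasi_loop {ψ : ℂ → ℂ} {a : ℕ} {l : ℝ} (hl : 0 < l)
    (hvol : ∀ᶠ r : ℝ in 𝓝[>] 0, (volume (Ang ψ c r)).toReal <
        Real.exp (-Real.exp (l * Real.log (1 / r) ^ (1 / ((a : ℝ) + 1)))))
    {F : ℂ → ℂ} (hF : ContinuousOn F {w | 1 ≤ ‖w‖}) (hE : ∀ w, 1 < ‖w‖ → F w = ψ w) {ζ : ℂ}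
    (hζ : ‖ζ‖ = 1) (hFζ : F ζ = c) :
    ∀ᶠ δ : ℝ in 𝓝[>] 0, ∃ ξ : ℂ, ‖ξ‖ = 1 ∧ ‖ξ - ζ‖ ≤ δ ∧
      Real.exp (-(Real.log (Real.log (1 / δ)) / l) ^ (a + 1)) ≤ ‖F ξ - F ζ‖ := by
  have h1 : Tendsto (fun δ : ℝ => Real.log (Real.log (1 / δ)) / l) (𝓝[>] 0) atTop :=
    (Real.tendsto_log_atTop.comp tendsto_u).atTop_div_const hl
  have h2 : Tendsto (fun δ : ℝ => (Real.log (Real.log (1 / δ)) / l) ^ (a + 1)) (𝓝[>] 0) atTop :=
    (tendsto_pow_atTop (by omega)).comp h1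
  have h3 : Tendsto (fun δ : ℝ => Real.exp (-(Real.log (Real.log (1 / δ)) / l) ^ (a + 1)))
      (𝓝[>] 0) (𝓝[>] 0) := by
    rw [tendsto_nhdsWithin_iff]
    refine ⟨Real.tendsto_exp_neg_atTop_nhds_zero.comp h2, Eventually.of_forall fun δ => ?_⟩
    exact Real.exp_pos _
  filter_upwards [h3.eventually hvol, ev_pos, ev_lt Real.pi_pos, h1.eventually_gt_atTop 0,
    tendsto_u.eventually_gt_atTop 1] with δ hδ hδ0 hδpi hδ1 hδ2
  apply loop_unif hδ0.le hδpi.le _ hF hE hζ hFζ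
  refine lt_of_lt_of_le hδ (le_of_eq ?_)
  have e1 : Real.log (1 / Real.exp (-(Real.log (Real.log (1 / δ)) / l) ^ (a + 1))) =
      (Real.log (Real.log (1 / δ)) / l) ^ (a + 1) := by
    rw [one_div, ← Real.exp_neg, Real.log_exp, neg_neg]
  rw [e1, ← Real.rpow_natCast, ← Real.rpow_mul hδ1.le]
  have e2 : ((a + 1 : ℕ) : ℝ) * (1 / ((a : ℝ) + 1)) = 1 := by
    push_cast
    field_simp
  rw [e2, Real.rpow_one, mul_div_cancel₀ _ hl.ne', Real.exp_log (by linarith), one_div,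
    Real.log_inv, neg_neg, Real.exp_log hδ0]

end Pool.Agent.U256.GD
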