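import Pool.Agent.U256.GD2

set_option autoImplicit false

/-! # Parabolic parameters and renormalizations of bounded type, all degrees -/

namespace Pool.Agent.U256.GD

open Complex Metric Set Filter Topology MeasureTheory Pool.Agent.H713R2
open Pool.Agent.H712R2 (P P_succ P_one P_zero fc continuous_P mem_multibrot_iff PP natDegree_PP
  eval_PP)
open N62a1eb23
open Pool.Agent.Y736.HD (Ang vol_Ang_ne ev_lt ev_pos GS)
open Pool.Agent.Y736.RN (iter_P diff_it_y)
open Pool.Agent.Y736.HL (parabolic_germ parabolic_bounds prod_bound)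

variable {d : ℕ}

/-- the bound of the derivative on the disc of radius `2` -/
noncomputable def LM (d : ℕ) : ℝ := (d : ℝ) * 2 ^ (d - 1)

theorem LM_one (hd : 2 ≤ d) : 1 ≤ LM d := by
  unfold LM
  have h1 : (1 : ℝ) ≤ d := by exact_mod_cast (by omega : 1 ≤ d)
  have h2 : (1 : ℝ) ≤ 2 ^ (d - 1) := one_le_pow₀ (by norm_num)
  nlinarith

theorem DD_of_blocks (hd : 2 ≤ d) {c : ℂ} (hc : c ∈ multibrotSet d) {N : ℕ} (hN : 1 ≤ N) {K : ℕ}
    {D : ℝ} (h : ∀ m k, K ≤ m → m ≤ k → DD d c (N * m) (N * k) ≤ D) :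
    ∃ C : ℝ, ∀ m n, m ≤ n → DD d c m n ≤ C := by
  have hD : 1 ≤ D := by
    have := h K K le_rfl le_rfl
    rwa [DD_self] at this
  obtain ⟨B, hB⟩ : ∃ B, B = LM d := ⟨_, rfl⟩
  have hB1 : 1 ≤ B := by rw [hB]; exact LM_one hd
  have hle : ∀ {m n : ℕ}, DD d c m n ≤ B ^ (n - m) := by
    intro m n
    rw [hB]
    exact DD_le hd hc
  refine ⟨B ^ (N * (K + 2)) * D, ?_⟩
  intro m n hmn
  have e4 : (1 : ℝ) ≤ B ^ (N * (K + 2)) := one_le_pow₀ hB1
  rcases le_or_gt (n - m) (N * (K + 2)) with h1 | h1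
  · have h2 := hle (m := m) (n := n)
    have h3 : B ^ (n - m) ≤ B ^ (N * (K + 2)) := pow_le_pow_right₀ hB1 h1
    nlinarith
  · obtain ⟨a, ha⟩ : ∃ a, a = m / N := ⟨_, rfl⟩
    obtain ⟨b, hb⟩ : ∃ b, b = n / N := ⟨_, rfl⟩
    have ha1 : N * a ≤ m := by rw [ha]; exact Nat.mul_div_le m N
    have ha2 : m < N * (a + 1) := by
      rw [ha]; exact Nat.lt_mul_div_succ m (by omega)
    have hb1 : N * b ≤ n := by rw [hb]; exact Nat.mul_div_le n N
    have hb2 : n < N * (b + 1) := by
      rw [hb]; exact Nat.lt_mul_div_succ n (by omega)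
    obtain ⟨p, hp⟩ : ∃ p, p = max K (a + 1) := ⟨_, rfl⟩
    have hpK : K ≤ p := by rw [hp]; exact le_max_left _ _
    have hpa : a + 1 ≤ p := by rw [hp]; exact le_max_right _ _
    have hple : p ≤ a + K + 1 := by rw [hp]; exact max_le (by omega) (by omega)
    have hpb : p ≤ b := by
      have h2 : N * (a + K + 2) < N * (b + 1) := by
        have : N * (a + K + 2) = N * a + N * (K + 2) := by ring
        omega
      have h3 : a + K + 2 < b + 1 := lt_of_mul_lt_mul_left h2 (Nat.zero_le _)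
      omega
    have h2 : m ≤ N * p := ha2.le.trans (Nat.mul_le_mul_left N hpa)
    have h3 : N * p ≤ N * b := Nat.mul_le_mul_left N hpb
    rw [← DD_mul d c h2 (h3.trans hb1), ← DD_mul d c h3 hb1]
    have h4 := hle (m := m) (n := N * p)
    have h5 : N * p - m ≤ N * (K + 1) := by
      have : N * p ≤ N * (a + K + 1) := Nat.mul_le_mul_left N hple
      have e : N * (a + K + 1) = N * a + N * (K + 1) := by ring
      omega
    have h6 : B ^ (N * p - m) ≤ B ^ (N * (K + 1)) := pow_le_pow_right₀ hB1 h5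
    have h7 := hle (m := N * b) (n := n)
    have h8 : B ^ (n - N * b) ≤ B ^ N := by
      apply pow_le_pow_right₀ hB1
      have e : N * (b + 1) = N * b + N := by ring
      omega
    have h9 := h p b hpK hpb
    have e : B ^ (N * (K + 2)) * D = B ^ (N * (K + 1)) * (D * B ^ N) := by
      have : N * (K + 2) = N * (K + 1) + N := by ring
      rw [this, pow_add]
      ring
    rw [e]
    apply mul_le_mul (h4.trans h6) _ (mul_nonneg (DD_nonneg _ _ _ _) (DD_nonneg _ _ _ _))
      (by positivity)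
    exact mul_le_mul h9 (h7.trans h8) (DD_nonneg _ _ _ _) (by linarith)

theorem DD_blocks_eq (d : ℕ) (c : ℂ) (N : ℕ) {m k : ℕ} (h : m ≤ k) :
    DD d c (N * m) (N * k) = ∏ j ∈ Finset.Ico m k, DD d c (N * j) (N * j + N) := by
  induction k, h using Nat.le_induction with
  | base => simp [DD]
  | succ k hk ih =>
    rw [Finset.prod_Ico_succ_top hk, ← ih, mul_add, mul_one,
      DD_mul d c (Nat.mul_le_mul_left N hk) (Nat.le_add_right _ _)]

theorem iter_ne_id (hd : 2 ≤ d) (c : ℂ) {N : ℕ} (hN : 1 ≤ N) : ∃ z, (fc d c)^[N] z ≠ z := by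
  by_contra hcon
  push Not at hcon
  have h1 : ∀ z w : ℂ, w ^ d = z ^ d → w = z := by
    intro z w hzw
    obtain ⟨k, rfl⟩ : ∃ k, N = k + 1 := ⟨N - 1, by omega⟩
    rw [← hcon w, ← hcon z, Function.iterate_succ_apply, Function.iterate_succ_apply]
    have : fc d c w = fc d c z := by
      unfold fc
      rw [hzw]
    rw [this]
  have hprim := Complex.isPrimitiveRoot_exp d (by omega)
  have h2 := h1 1 (exp (2 * Real.pi * I / d)) (by rw [hprim.pow_eq_one, one_pow])
  have h3 := hprim.pow_ne_one_of_pos_of_lt one_ne_zero (by omega : 1 < d)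
  rw [pow_one] at h3
  exact h3 h2

/-- **bounded derivatives along the critical orbit of a parabolic parameter** -/
theorem parabolic_DD (hd : 2 ≤ d) {c₀ : ℂ} (hc₀ : c₀ ∈ multibrotSet d) {N : ℕ} (hN : 1 ≤ N)
    {z₀ : ℂ} (hfix : (fc d c₀)^[N] z₀ = z₀) (hder : deriv ((fc d c₀)^[N]) z₀ = 1)
    (hlim : Tendsto (fun k => P d (N * k) c₀) atTop (𝓝 z₀)) :
    ∃ C : ℝ, ∀ m n, m ≤ n → DD d c₀ m n ≤ C := by
  obtain ⟨g, hgdef⟩ : ∃ g, g = (fc d c₀)^[N] := ⟨_, rfl⟩
  have hg : Differentiable ℂ g := by rw [hgdef]; exact diff_it_y d N c₀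
  have hstep : ∀ k, g (P d (N * k) c₀) = P d (N * (k + 1)) c₀ := by
    intro k
    rw [hgdef, iter_P]
    congr 1
    ring
  have hLLd : ∀ k, DD d c₀ (N * k) (N * k + N) = ‖deriv g (P d (N * k) c₀)‖ := by
    intro k
    rw [hgdef, norm_deriv_iter]
  rw [← hgdef] at hfix hder
  by_cases hex : ∃ K, P d (N * K) c₀ = z₀
  · obtain ⟨K, hK⟩ := hex
    have h1 : ∀ j, K ≤ j → P d (N * j) c₀ = z₀ := by
      intro j hj
      induction j, hj using Nat.le_induction with
      | base => exact hK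
      | succ j hj ih => rw [← hstep, ih, hfix]
    apply DD_of_blocks hd hc₀ hN (K := K) (D := 1)
    intro m k hm hmk
    rw [DD_blocks_eq d c₀ N hmk]
    apply le_of_eq
    apply Finset.prod_eq_one
    intro j hj
    rw [hLLd, h1 j (hm.trans (Finset.mem_Ico.1 hj).1), hder, norm_one]
  · push Not at hex
    obtain ⟨ν, a, hν, ha, ha0, hev⟩ := parabolic_germ hg hfix hder (by
      rw [hgdef]
      exact iter_ne_id hd c₀ hN)
    obtain ⟨C, hC, hev2⟩ := parabolic_bounds hg hν ha hev
    have hu : Tendsto (fun k => P d (N * k) c₀ - z₀) atTop (𝓝 0) := by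
      have := hlim.sub_const z₀
      rwa [sub_self] at this
    obtain ⟨K₀, hK₀⟩ := eventually_atTop.1 (hu.eventually hev2)
    obtain ⟨u, hudef⟩ : ∃ u : ℕ → ℂ, u = fun k => P d (N * (K₀ + k)) c₀ - z₀ := ⟨_, rfl⟩
    have hu' : Tendsto u atTop (𝓝 0) := by
      rw [hudef]
      have h1 := (tendsto_add_atTop_iff_nat K₀).2 hu
      refine h1.congr fun k => ?_
      rw [add_comm k K₀]
    have hu0 : ∀ j, u j ≠ 0 := by
      intro j
      rw [hudef]
      exact sub_ne_zero.2 (hex _)
    have hs : ∀ j, u (j + 1) = u j * (1 + u j ^ ν * a (u j)) := by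
      intro j
      have h1 := (hK₀ (K₀ + j) (Nat.le_add_right _ _)).1
      rw [show z₀ + (P d (N * (K₀ + j)) c₀ - z₀) = P d (N * (K₀ + j)) c₀ by ring, hstep] at h1
      rw [hudef]
      simp only
      rw [← add_assoc, h1]
      ring
    have hlim' : Tendsto (fun j => u j ^ ν * a (u j) / u j ^ ν) atTop (𝓝 (a 0)) := by
      have h1 : Tendsto (fun j => a (u j)) atTop (𝓝 (a 0)) := ha.continuousAt.tendsto.comp hu'
      refine h1.congr fun j => ?_
      rw [mul_div_cancel_left₀ _ (pow_ne_zero _ (hu0 j))]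
    obtain ⟨K, D, hKD⟩ := prod_bound hν ha0 hu0 hs hlim' hu' hC
      (d := fun j => ‖deriv g (P d (N * (K₀ + j)) c₀)‖) (fun j => norm_nonneg _) (by
        intro j
        have h1 := (hK₀ (K₀ + j) (Nat.le_add_right _ _)).2
        rw [show z₀ + (P d (N * (K₀ + j)) c₀ - z₀) = P d (N * (K₀ + j)) c₀ by ring] at h1
        rw [hudef]
        exact h1)
    apply DD_of_blocks hd hc₀ hN (K := K₀ + K) (D := D)
    intro m k hm hmk
    rw [DD_blocks_eq d c₀ N hmk]
    have h1 := hKD (m - K₀) (k - K₀) (by omega) (by omega)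
    refine le_trans (le_of_eq ?_) h1
    have e1 : m = (m - K₀) + K₀ := by omega
    have e2 : k = (k - K₀) + K₀ := by omega
    have h3 := Finset.prod_Ico_add' (fun j => DD d c₀ (N * j) (N * j + N)) (m - K₀) (k - K₀) K₀
    rw [← e1, ← e2] at h3
    rw [← h3]
    apply Finset.prod_congr rfl
    intro j _
    rw [hLLd, add_comm K₀ j]

/-- products of consecutive blocks -/
theorem blocks {c : ℂ} {p : ℕ} {C : ℝ} (hC : 1 ≤ C)
    (h : ∀ i, DD d c (p * i) (p * i + p) ≤ C) (i k : ℕ) :
    DD d c (p * i) (p * (i + k)) ≤ C ^ k := by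
  induction k with
  | zero => simp [DD_self]
  | succ k ih =>
    rw [← DD_mul d c (k := p * (i + k)) (Nat.mul_le_mul_left _ (by omega))
      (Nat.mul_le_mul_left _ (by omega)), pow_succ]
    have h1 := h (i + k)
    rw [show p * (i + k) + p = p * (i + (k + 1)) by ring] at h1
    exact mul_le_mul ih h1 (DD_nonneg _ _ _ _) (by positivity)

/-- the data: a chain of periods with bounded ratios and bounded derivatives of the blocks -/
structure Chain (d : ℕ) (c : ℂ) (p : ℕ → ℕ) (B : ℕ) (C : ℝ) : Prop where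
  zero : p 0 = 1
  dvd : ∀ k, p k ∣ p (k + 1)
  lt : ∀ k, p k < p (k + 1)
  ratio : ∀ k, p (k + 1) ≤ B * p k
  one_le : 1 ≤ C
  block : ∀ k i, DD d c (p k * i) (p k * i + p k) ≤ C

variable {c : ℂ} {p : ℕ → ℕ} {B : ℕ} {C : ℝ}

theorem Chain.pos (h : Chain d c p B C) (k : ℕ) : 0 < p k := by
  induction k with
  | zero => rw [h.zero]; norm_num
  | succ k ih => exact ih.trans (h.lt k)

theorem Chain.two_mul (h : Chain d c p B C) (k : ℕ) : 2 * p k ≤ p (k + 1) := by
  obtain ⟨q, hq⟩ := h.dvd k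
  have h1 := h.lt k
  have h2 := h.pos k
  rw [hq] at h1 ⊢
  have h3 : 2 ≤ q := by
    by_contra hcon
    have : q ≤ 1 := by omega
    have := Nat.mul_le_mul_left (p k) this
    omega
  calc 2 * p k = p k * 2 := by ring
    _ ≤ p k * q := Nat.mul_le_mul_left _ h3

theorem Chain.two_pow (h : Chain d c p B C) (k : ℕ) : 2 ^ k ≤ p k := by
  induction k with
  | zero => rw [h.zero]; norm_num
  | succ k ih =>
    have := h.two_mul k
    rw [pow_succ]
    omega

/-- aligned start -/
theorem Chain.start (h : Chain d c p B C) (K : ℕ) : ∀ a n, p K ∣ a → a ≤ n → n < a + p K →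
    DD d c a n ≤ (C ^ B) ^ K := by
  have hCB : (1 : ℝ) ≤ C ^ B := one_le_pow₀ h.one_le
  induction K with
  | zero =>
    intro a n _ h1 h2
    rw [h.zero] at h2
    have : n = a := by omega
    rw [this, DD_self, pow_zero]
  | succ K ih =>
    intro a n hd h1 h2
    have hp := h.pos K
    obtain ⟨i, hi⟩ : p K ∣ a := (h.dvd K).trans hd
    obtain ⟨t, ht⟩ : ∃ t, t = (n - a) / p K := ⟨_, rfl⟩
    have h3 := Nat.div_add_mod (n - a) (p K)
    have h4 := Nat.mod_lt (n - a) hp
    rw [← ht] at h3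
    have ht2 : t ≤ B := by
      have h5 : p K * t < p K * B := by
        calc p K * t ≤ n - a := by omega
          _ < p (K + 1) := by omega
          _ ≤ B * p K := h.ratio K
          _ = p K * B := by ring
      exact (Nat.lt_of_mul_lt_mul_left h5).le
    have e1 : p K * (i + t) = a + p K * t := by rw [hi]; ring
    have h5 := blocks h.one_le (h.block K) i t
    rw [← hi, e1] at h5
    have h6 := ih (a + p K * t) n (by rw [← e1]; exact dvd_mul_right _ _) (by omega) (by omega)
    rw [← DD_mul d c (k := a + p K * t) (by omega) (by omega), pow_succ, mul_comm ((C ^ B) ^ K)]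
    apply mul_le_mul _ h6 (DD_nonneg _ _ _ _) (by positivity)
    exact h5.trans (pow_le_pow_right₀ h.one_le ht2)

/-- aligned end -/
theorem Chain.finish (h : Chain d c p B C) (K : ℕ) : ∀ m a, p K ∣ a → m ≤ a → a < m + p K →
    DD d c m a ≤ (C ^ B) ^ K := by
  have hCB : (1 : ℝ) ≤ C ^ B := one_le_pow₀ h.one_le
  induction K with
  | zero =>
    intro m a _ h1 h2
    rw [h.zero] at h2
    have : a = m := by omega
    rw [this, DD_self, pow_zero]
  | succ K ih =>
    intro m a hd h1 h2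
    have hp := h.pos K
    obtain ⟨i, hi⟩ : p K ∣ a := (h.dvd K).trans hd
    obtain ⟨t, ht⟩ : ∃ t, t = (a - m) / p K := ⟨_, rfl⟩
    have h3 := Nat.div_add_mod (a - m) (p K)
    have h4 := Nat.mod_lt (a - m) hp
    rw [← ht] at h3
    have ht2 : t ≤ B := by
      have h5 : p K * t < p K * B := by
        calc p K * t ≤ a - m := by omega
          _ < p (K + 1) := by omega
          _ ≤ B * p K := h.ratio K
          _ = p K * B := by ring
      exact (Nat.lt_of_mul_lt_mul_left h5).le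
    have hti : t ≤ i := by
      have h5 : p K * t ≤ p K * i := by rw [← hi]; omega
      exact Nat.le_of_mul_le_mul_left h5 hp
    have e1 : p K * (i - t + t) = a := by rw [Nat.sub_add_cancel hti, hi]
    have e2 : p K * (i - t) = a - p K * t := by rw [Nat.mul_sub, hi]
    have h5 := blocks h.one_le (h.block K) (i - t) t
    rw [e1, e2] at h5
    have h6 := ih m (a - p K * t) (by rw [← e2]; exact dvd_mul_right _ _) (by omega) (by omega)
    rw [← DD_mul d c (k := a - p K * t) (by omega) (by omega), pow_succ]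
    apply mul_le_mul h6 _ (DD_nonneg _ _ _ _) (by positivity)
    exact h5.trans (pow_le_pow_right₀ h.one_le ht2)

/-- **Polynomial growth of the derivatives.** -/
theorem Chain.poly (h : Chain d c p B C) : ∃ s : ℝ, 0 ≤ s ∧
    ∀ m n, m ≤ n → DD d c m n ≤ C ^ B * (((n - m : ℕ) : ℝ) + 1) ^ s := by
  have hCB : (1 : ℝ) ≤ C ^ B := one_le_pow₀ h.one_le
  have hlog2 : 0 < Real.log 2 := Real.log_pos (by norm_num)
  refine ⟨2 * Real.log (C ^ B) / Real.log 2, by have := Real.log_nonneg hCB; positivity, ?_⟩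
  intro m n hmn
  rcases Nat.eq_or_lt_of_le hmn with h0 | h0
  · rw [h0, DD_self, Nat.sub_self, Nat.cast_zero, zero_add, Real.one_rpow, mul_one]
    exact hCB
  obtain ⟨K, hK1, hK2⟩ : ∃ K, p K ≤ n - m ∧ n - m < p (K + 1) := by
    have hex : ∃ K, n - m < p K := ⟨n - m, lt_of_lt_of_le Nat.lt_two_pow_self (h.two_pow _)⟩
    have h1 := Nat.find_spec hex
    obtain ⟨K, hK⟩ : ∃ K, Nat.find hex = K + 1 := by
      refine Nat.exists_eq_succ_of_ne_zero ?_
      intro h2
      rw [h2, h.zero] at h1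
      omega
    refine ⟨K, ?_, by rw [← hK]; exact h1⟩
    have h2 := Nat.find_min hex (m := K) (by omega)
    omega
  have hp := h.pos K
  -- the first multiple after `m`
  obtain ⟨i, hi1, hi2⟩ : ∃ i, m ≤ p K * i ∧ p K * i < m + p K := by
    refine ⟨(m + (p K - 1)) / p K, ?_, ?_⟩
    · have h3 := Nat.div_add_mod (m + (p K - 1)) (p K)
      have h4 := Nat.mod_lt (m + (p K - 1)) hp
      omega
    · have h3 := Nat.div_mul_le_self (m + (p K - 1)) (p K)
      rw [Nat.mul_comm] at h3
      omega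
  have h1 := h.finish K m (p K * i) (dvd_mul_right _ _) hi1 hi2
  obtain ⟨t, ht⟩ : ∃ t, t = (n - p K * i) / p K := ⟨_, rfl⟩
  have h3 := Nat.div_add_mod (n - p K * i) (p K)
  have h4 := Nat.mod_lt (n - p K * i) hp
  rw [← ht] at h3
  have ht2 : t ≤ B := by
    have h5 : p K * t < p K * B := by
      calc p K * t ≤ n - p K * i := by omega
        _ ≤ n - m := by omega
        _ < p (K + 1) := hK2
        _ ≤ B * p K := h.ratio K
        _ = p K * B := by ring
    exact (Nat.lt_of_mul_lt_mul_left h5).le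
  have e1 : p K * (i + t) = p K * i + p K * t := by ring
  have h5 := blocks h.one_le (h.block K) i t
  have h6 := h.start K (p K * (i + t)) n (dvd_mul_right _ _) (by omega) (by omega)
  have h7 : DD d c m n ≤ (C ^ B) ^ K * (C ^ B * (C ^ B) ^ K) := by
    rw [← DD_mul d c (k := p K * i) hi1 (by omega),
      ← DD_mul d c (m := p K * i) (k := p K * (i + t)) (by omega) (by omega)]
    apply mul_le_mul h1 _ (mul_nonneg (DD_nonneg _ _ _ _) (DD_nonneg _ _ _ _)) (by positivity)
    exact mul_le_mul (h5.trans (pow_le_pow_right₀ h.one_le ht2)) h6 (DD_nonneg _ _ _ _)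
      (by positivity)
  refine h7.trans ?_
  have h8 : (C ^ B) ^ K * (C ^ B * (C ^ B) ^ K) = C ^ B * (C ^ B) ^ (2 * K) := by ring
  rw [h8]
  apply mul_le_mul_of_nonneg_left _ (by positivity)
  have h9 : ((C ^ B) ^ (2 * K) : ℝ) = ((2 : ℝ) ^ K) ^ (2 * Real.log (C ^ B) / Real.log 2) := by
    rw [← Real.rpow_natCast (2 : ℝ) K, ← Real.rpow_mul (by norm_num : (0 : ℝ) ≤ 2),
      Real.rpow_def_of_pos (by norm_num : (0 : ℝ) < 2), ← Real.rpow_natCast (C ^ B),
      Real.rpow_def_of_pos (by linarith : (0 : ℝ) < C ^ B)]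
    congr 1
    push_cast
    field_simp
  rw [h9]
  apply Real.rpow_le_rpow (by positivity)
  · have h10 : 2 ^ K ≤ n - m + 1 := by
      have := h.two_pow K
      omega
    exact_mod_cast h10
  · have := Real.log_nonneg hCB
    positivity

end Pool.Agent.U256.GD
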