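import Pool.Agent.U256.SE

set_option autoImplicit false

/-! # Polynomial growth of the derivatives for renormalizations of bounded type -/

namespace Pool.Agent.U256.SE

open Complex Metric Set Filter Topology MeasureTheory Pool.Agent.H713R2
open Pool.Agent.H712R2 (P P_succ P_one P_zero fc continuous_P mem_multibrot_iff)
open N62a1eb23
open Pool.Agent.Y736.HL (LL LL_nonneg LL_self LL_succ LL_mul LL_le duhamel rate_le norm_deriv_iter
  parabolic_LL iter_P)

/-- products of consecutive blocks -/
theorem blocks {c : ℂ} {p : ℕ} {C : ℝ} (hC : 1 ≤ C)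
    (h : ∀ i, LL c (p * i) (p * i + p) ≤ C) (i k : ℕ) : LL c (p * i) (p * (i + k)) ≤ C ^ k := by
  induction k with
  | zero => simp [LL_self]
  | succ k ih =>
    rw [← LL_mul c (k := p * (i + k)) (Nat.mul_le_mul_left _ (by omega))
      (Nat.mul_le_mul_left _ (by omega)), pow_succ]
    have h1 := h (i + k)
    rw [show p * (i + k) + p = p * (i + (k + 1)) by ring] at h1
    exact mul_le_mul ih h1 (LL_nonneg _ _ _) (by positivity)

/-- the data: a chain of periods with bounded ratios and bounded derivatives of the blocks -/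
structure Chain (c : ℂ) (p : ℕ → ℕ) (B : ℕ) (C : ℝ) : Prop where
  zero : p 0 = 1
  dvd : ∀ k, p k ∣ p (k + 1)
  lt : ∀ k, p k < p (k + 1)
  ratio : ∀ k, p (k + 1) ≤ B * p k
  one_le : 1 ≤ C
  block : ∀ k i, LL c (p k * i) (p k * i + p k) ≤ C

variable {c : ℂ} {p : ℕ → ℕ} {B : ℕ} {C : ℝ}

theorem Chain.pos (h : Chain c p B C) (k : ℕ) : 0 < p k := by
  induction k with
  | zero => rw [h.zero]; norm_num
  | succ k ih => exact ih.trans (h.lt k)

theorem Chain.two_mul (h : Chain c p B C) (k : ℕ) : 2 * p k ≤ p (k + 1) := by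
  obtain ⟨q, hq⟩ := h.dvd k
  have h1 := h.lt k
  have h2 := h.pos k
  rw [hq] at h1 ⊢
  have h3 : 2 ≤ q := by
    by_contra hcon
    have : q ≤ 1 := by omega
    have := Nat.mul_le_mul_left (p k) this
    omega
  calc 2 * p k = p k * 2 := by ring
    _ ≤ p k * q := Nat.mul_le_mul_left _ h3

theorem Chain.two_pow (h : Chain c p B C) (k : ℕ) : 2 ^ k ≤ p k := by
  induction k with
  | zero => rw [h.zero]; norm_num
  | succ k ih =>
    have := h.two_mul k
    rw [pow_succ]
    omega

/-- aligned start -/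
theorem Chain.start (h : Chain c p B C) (K : ℕ) : ∀ a n, p K ∣ a → a ≤ n → n < a + p K →
    LL c a n ≤ (C ^ B) ^ K := by
  have hCB : (1 : ℝ) ≤ C ^ B := one_le_pow₀ h.one_le
  induction K with
  | zero =>
    intro a n _ h1 h2
    rw [h.zero] at h2
    have : n = a := by omega
    rw [this, LL_self, pow_zero]
  | succ K ih =>
    intro a n hd h1 h2
    have hp := h.pos K
    obtain ⟨i, hi⟩ : p K ∣ a := (h.dvd K).trans hd
    obtain ⟨t, ht⟩ : ∃ t, t = (n - a) / p K := ⟨_, rfl⟩
    have h3 := Nat.div_add_mod (n - a) (p K)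
    have h4 := Nat.mod_lt (n - a) hp
    rw [← ht] at h3
    have ht2 : t ≤ B := by
      have h5 : p K * t < p K * B := by
        calc p K * t ≤ n - a := by omega
          _ < p (K + 1) := by omega
          _ ≤ B * p K := h.ratio K
          _ = p K * B := by ring
      exact (Nat.lt_of_mul_lt_mul_left h5).le
    have e1 : p K * (i + t) = a + p K * t := by rw [hi]; ring
    have h5 := blocks h.one_le (h.block K) i t
    rw [← hi, e1] at h5
    have h6 := ih (a + p K * t) n (by rw [← e1]; exact dvd_mul_right _ _) (by omega) (by omega)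
    rw [← LL_mul c (k := a + p K * t) (by omega) (by omega), pow_succ, mul_comm ((C ^ B) ^ K)]
    apply mul_le_mul _ h6 (LL_nonneg _ _ _) (by positivity)
    exact h5.trans (pow_le_pow_right₀ h.one_le ht2)

/-- aligned end -/
theorem Chain.finish (h : Chain c p B C) (K : ℕ) : ∀ m a, p K ∣ a → m ≤ a → a < m + p K →
    LL c m a ≤ (C ^ B) ^ K := by
  have hCB : (1 : ℝ) ≤ C ^ B := one_le_pow₀ h.one_le
  induction K with
  | zero =>
    intro m a _ h1 h2
    rw [h.zero] at h2
    have : a = m := by omega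
    rw [this, LL_self, pow_zero]
  | succ K ih =>
    intro m a hd h1 h2
    have hp := h.pos K
    obtain ⟨i, hi⟩ : p K ∣ a := (h.dvd K).trans hd
    obtain ⟨t, ht⟩ : ∃ t, t = (a - m) / p K := ⟨_, rfl⟩
    have h3 := Nat.div_add_mod (a - m) (p K)
    have h4 := Nat.mod_lt (a - m) hp
    rw [← ht] at h3
    have ht2 : t ≤ B := by
      have h5 : p K * t < p K * B := by
        calc p K * t ≤ a - m := by omega
          _ < p (K + 1) := by omega
          _ ≤ B * p K := h.ratio K
          _ = p K * B := by ring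
      exact (Nat.lt_of_mul_lt_mul_left h5).le
    have hti : t ≤ i := by
      have h5 : p K * t ≤ p K * i := by rw [← hi]; omega
      exact Nat.le_of_mul_le_mul_left h5 hp
    have e1 : p K * (i - t + t) = a := by rw [Nat.sub_add_cancel hti, hi]
    have e2 : p K * (i - t) = a - p K * t := by rw [Nat.mul_sub, hi]
    have h5 := blocks h.one_le (h.block K) (i - t) t
    rw [e1, e2] at h5
    have h6 := ih m (a - p K * t) (by rw [← e2]; exact dvd_mul_right _ _) (by omega) (by omega)
    rw [← LL_mul c (k := a - p K * t) (by omega) (by omega), pow_succ]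
    apply mul_le_mul h6 _ (LL_nonneg _ _ _) (by positivity)
    exact h5.trans (pow_le_pow_right₀ h.one_le ht2)

/-- **Polynomial growth of the derivatives.** -/
theorem Chain.poly (h : Chain c p B C) : ∃ s : ℝ, 0 ≤ s ∧
    ∀ m n, m ≤ n → LL c m n ≤ C ^ B * (((n - m : ℕ) : ℝ) + 1) ^ s := by
  have hCB : (1 : ℝ) ≤ C ^ B := one_le_pow₀ h.one_le
  have hlog2 : 0 < Real.log 2 := Real.log_pos (by norm_num)
  refine ⟨2 * Real.log (C ^ B) / Real.log 2, by have := Real.log_nonneg hCB; positivity, ?_⟩
  intro m n hmn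
  rcases Nat.eq_or_lt_of_le hmn with h0 | h0
  · rw [h0, LL_self, Nat.sub_self, Nat.cast_zero, zero_add, Real.one_rpow, mul_one]
    exact hCB
  obtain ⟨K, hK1, hK2⟩ : ∃ K, p K ≤ n - m ∧ n - m < p (K + 1) := by
    have hex : ∃ K, n - m < p K := ⟨n - m, lt_of_lt_of_le Nat.lt_two_pow_self (h.two_pow _)⟩
    have h1 := Nat.find_spec hex
    obtain ⟨K, hK⟩ : ∃ K, Nat.find hex = K + 1 := by
      refine Nat.exists_eq_succ_of_ne_zero ?_
      intro h2
      rw [h2, h.zero] at h1
      omega
    refine ⟨K, ?_, by rw [← hK]; exact h1⟩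
    have h2 := Nat.find_min hex (m := K) (by omega)
    omega
  have hp := h.pos K
  -- the first multiple after `m`
  obtain ⟨i, hi1, hi2⟩ : ∃ i, m ≤ p K * i ∧ p K * i < m + p K := by
    refine ⟨(m + (p K - 1)) / p K, ?_, ?_⟩
    · have h3 := Nat.div_add_mod (m + (p K - 1)) (p K)
      have h4 := Nat.mod_lt (m + (p K - 1)) hp
      omega
    · have h3 := Nat.div_mul_le_self (m + (p K - 1)) (p K)
      rw [Nat.mul_comm] at h3
      omega
  have h1 := h.finish K m (p K * i) (dvd_mul_right _ _) hi1 hi2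
  obtain ⟨t, ht⟩ : ∃ t, t = (n - p K * i) / p K := ⟨_, rfl⟩
  have h3 := Nat.div_add_mod (n - p K * i) (p K)
  have h4 := Nat.mod_lt (n - p K * i) hp
  rw [← ht] at h3
  have ht2 : t ≤ B := by
    have h5 : p K * t < p K * B := by
      calc p K * t ≤ n - p K * i := by omega
        _ ≤ n - m := by omega
        _ < p (K + 1) := hK2
        _ ≤ B * p K := h.ratio K
        _ = p K * B := by ring
    exact (Nat.lt_of_mul_lt_mul_left h5).le
  have e1 : p K * (i + t) = p K * i + p K * t := by ring
  have h5 := blocks h.one_le (h.block K) i t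
  have h6 := h.start K (p K * (i + t)) n (dvd_mul_right _ _) (by omega) (by omega)
  have h7 : LL c m n ≤ (C ^ B) ^ K * (C ^ B * (C ^ B) ^ K) := by
    rw [← LL_mul c (k := p K * i) hi1 (by omega),
      ← LL_mul c (m := p K * i) (k := p K * (i + t)) (by omega) (by omega)]
    apply mul_le_mul h1 _ (mul_nonneg (LL_nonneg _ _ _) (LL_nonneg _ _ _)) (by positivity)
    exact mul_le_mul (h5.trans (pow_le_pow_right₀ h.one_le ht2)) h6 (LL_nonneg _ _ _)
      (by positivity)
  refine h7.trans ?_
  have h8 : (C ^ B) ^ K * (C ^ B * (C ^ B) ^ K) = C ^ B * (C ^ B) ^ (2 * K) := by ring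
  rw [h8]
  apply mul_le_mul_of_nonneg_left _ (by positivity)
  have h9 : ((C ^ B) ^ (2 * K) : ℝ) = ((2 : ℝ) ^ K) ^ (2 * Real.log (C ^ B) / Real.log 2) := by
    rw [← Real.rpow_natCast (2 : ℝ) K, ← Real.rpow_mul (by norm_num : (0 : ℝ) ≤ 2),
      Real.rpow_def_of_pos (by norm_num : (0 : ℝ) < 2), ← Real.rpow_natCast (C ^ B),
      Real.rpow_def_of_pos (by linarith : (0 : ℝ) < C ^ B)]
    congr 1
    push_cast
    field_simp
  rw [h9]
  apply Real.rpow_le_rpow (by positivity)
  · have h10 : 2 ^ K ≤ n - m + 1 := by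
      have := h.two_pow K
      omega
    exact_mod_cast h10
  · have := Real.log_nonneg hCB
    positivity

end Pool.Agent.U256.SE
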