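import Pool.Agent.U256.LS4
import Pool.Agent.N17.HC.KOS
import Pool.Agent.N17.HC.LSP

set_option autoImplicit false

/-! # Integrality of the power sums at all primes -/

open Finset

namespace Pool.Agent.U256.CY

open Pool.Agent.N17.HC (rootsOf bin kos t_KOS)
open Pool.Agent.N17.HC.KOS

/-- the numbers `a / c`, `p` not dividing `c` -/
def Zp (p : ℕ) [hp : Fact p.Prime] : Subring ℂ where
  carrier := {x | ∃ a c : ℤ, ¬ (p : ℤ) ∣ c ∧ (c : ℂ) * x = a}
  zero_mem' := ⟨0, 1, (Nat.prime_iff_prime_int.1 hp.out).not_dvd_one, by simp⟩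
  one_mem' := ⟨1, 1, (Nat.prime_iff_prime_int.1 hp.out).not_dvd_one, by simp⟩
  add_mem' := by
    rintro x y ⟨a, c, hc, h⟩ ⟨a', c', hc', h'⟩
    refine ⟨a * c' + a' * c, c * c', fun h0 =>
      ((Nat.prime_iff_prime_int.1 hp.out).dvd_or_dvd h0).elim hc hc', ?_⟩
    push_cast
    rw [← h, ← h']
    ring
  mul_mem' := by
    rintro x y ⟨a, c, hc, h⟩ ⟨a', c', hc', h'⟩
    refine ⟨a * a', c * c', fun h0 =>
      ((Nat.prime_iff_prime_int.1 hp.out).dvd_or_dvd h0).elim hc hc', ?_⟩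
    push_cast
    rw [← h, ← h']
    ring
  neg_mem' := by
    rintro x ⟨a, c, hc, h⟩
    refine ⟨-a, c, hc, ?_⟩
    push_cast
    rw [← h]
    ring

theorem mem_Zp {p : ℕ} [hp : Fact p.Prime] {x : ℂ} :
    x ∈ Zp p ↔ ∃ a c : ℤ, ¬ (p : ℤ) ∣ c ∧ (c : ℂ) * x = a := Iff.rfl

theorem Z_le (p : ℕ) [hp : Fact p.Prime] {x : ℂ} (h : x ∈ Z) : x ∈ Zp p := by
  obtain ⟨z, rfl⟩ := mem_Z.1 h
  exact intCast_mem _ z

/-- elements a high power of which has a small denominator -/
theorem mem_of_pow {p : ℕ} [hp : Fact p.Prime] (q : ℚ) (d : ℤ) (v : ℕ)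
    (hv : ¬ (p : ℤ) ^ (v + 1) ∣ d) (h : (d : ℂ) * (q : ℂ) ^ (v + 1) ∈ Zp p) : (q : ℂ) ∈ Zp p := by
  have hpp := Nat.prime_iff_prime_int.1 hp.out
  have hden : (q.den : ℂ) ≠ 0 := by exact_mod_cast q.den_nz
  have hq : (q : ℂ) = (q.num : ℂ) / (q.den : ℂ) := Rat.cast_def q
  by_cases hb : (p : ℤ) ∣ (q.den : ℤ)
  · exfalso
    obtain ⟨a, c, hc, hac⟩ := mem_Zp.1 h
    have h1 : (c * d * q.num ^ (v + 1) : ℤ) = a * (q.den : ℤ) ^ (v + 1) := by
      have : (c : ℂ) * d * (q.num : ℂ) ^ (v + 1) = a * (q.den : ℂ) ^ (v + 1) := by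
        rw [← hac, hq, div_pow]
        field_simp
      exact_mod_cast this
    have h2 : (p : ℤ) ^ (v + 1) ∣ c * d * q.num ^ (v + 1) := by
      rw [h1]
      exact Dvd.dvd.mul_left (pow_dvd_pow_of_dvd hb _) _
    have h3 : IsCoprime ((p : ℤ) ^ (v + 1)) c :=
      ((Prime.coprime_iff_not_dvd hpp).2 hc).pow_left
    have h4 : IsCoprime ((p : ℤ) ^ (v + 1)) (q.num ^ (v + 1)) := by
      apply IsCoprime.pow
      apply (Prime.coprime_iff_not_dvd hpp).2
      intro h5
      have h6 := q.reduced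
      have h7 : p ∣ q.num.natAbs := Int.natCast_dvd.1 h5
      have h8 : p ∣ q.den := by exact_mod_cast hb
      exact hp.out.one_lt.ne' (Nat.eq_one_of_dvd_coprimes h6 h7 h8)
    exact hv (h3.dvd_of_dvd_mul_left (h4.dvd_of_dvd_mul_right h2))
  · refine mem_Zp.2 ⟨q.num, q.den, hb, ?_⟩
    rw [hq]
    push_cast
    field_simp

/-- the Euler characteristics of the tensor powers of the conormal bundle -/
noncomputable def kosT (k : ℕ) (s : Multiset ℂ) : ℕ → ℂ → ℂ
  | 0, x => kos k s x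
  | l + 1, x => (s.map fun b => kosT k s l (x - b)).sum

theorem kosT_pascal (n : ℕ) (s : Multiset ℂ) (l : ℕ) (x : ℂ) :
    kosT (n + 1) s l x - kosT (n + 1) s l (x - 1) = kosT n s l (x - 1) := by
  induction l generalizing x with
  | zero => exact kos_pascal n s x
  | succ l ih =>
    unfold kosT
    rw [← Multiset.sum_map_sub]
    congr 1
    refine Multiset.map_congr rfl fun b _ => ?_
    rw [show x - 1 - b = x - b - 1 by ring, ih]

theorem coeff_T (s : Multiset ℂ) (k l : ℕ) (y : ℂ) :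
    PowerSeries.coeff k (u y * (s.map fun b => 1 - u (-b)).prod *
      (s.map fun b => u (-b)).sum ^ l) = kosT k s l y := by
  induction l generalizing y with
  | zero =>
    rw [pow_zero, mul_one, coeff_prod]
    rfl
  | succ l ih =>
    have h1 : u y * (s.map fun b => 1 - u (-b)).prod * (s.map fun b => u (-b)).sum ^ (l + 1) =
        (s.map fun b => u (y - b) * (s.map fun b => 1 - u (-b)).prod *
          (s.map fun b => u (-b)).sum ^ l).sum := by
      rw [pow_succ, ← mul_assoc]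
      generalize (s.map fun b => 1 - u (-b)).prod = E
      generalize (s.map fun b => u (-b)).sum ^ l = F
      rw [← Multiset.sum_map_mul_left]
      congr 1
      refine Multiset.map_congr rfl fun b _ => ?_
      rw [sub_eq_add_neg, u_add]
      ring
    rw [h1, map_multiset_sum, Multiset.map_map]
    unfold kosT
    congr 1
    refine Multiset.map_congr rfl fun b _ => ?_
    rw [Function.comp_apply, ih]

/-- **Integrality of the power sums at all primes.** -/
theorem gk_mem (N : ℕ) (s : Multiset ℂ) (d : ℤ) (hd : s.prod = d) (hd0 : d ≠ 0)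
    (h : ∀ (l : ℕ) (t : ℤ), ∃ z : ℤ, kosT N s l (N + t) = z) (p : ℕ) [hp : Fact p.Prime] (v : ℕ)
    (hv : ¬ (p : ℤ) ^ (v + 1) ∣ d) (k : ℕ) (hk : k * (v + 1) + Multiset.card s ≤ N) :
    (s.map fun b => bin k (-b)).sum ∈ Zp p := by
  -- coefficients
  have k1 : ∀ l, ∀ k ≤ N, ∀ t : ℤ, kosT k s l t ∈ Z := fun l k hk =>
    descent N (fun k x => kosT k s l x) (fun n x => kosT_pascal n s l x)
      (fun t => mem_Z.2 (h l t)) k hk
  induction k using Nat.strong_induction_on with
  | _ k ih =>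
  have hkv : k ≤ k * (v + 1) := by nlinarith
  -- rationality
  obtain ⟨z, hz⟩ := t_KOS N s d hd (fun t => h 0 t) (fun t => h 1 t) k (by omega)
  have hrat : (s.map fun b => bin k (-b)).sum = (((z : ℚ) / (d : ℚ) ^ (k + 1) : ℚ) : ℂ) := by
    have hdC : (d : ℂ) ≠ 0 := by exact_mod_cast hd0
    push_cast
    rw [← hz]
    field_simp
  obtain ⟨E, hE⟩ : ∃ E : PowerSeries ℂ, E = (s.map fun b => 1 - u (-b)).prod := ⟨_, rfl⟩
  obtain ⟨G, hG⟩ : ∃ G : PowerSeries ℂ, G = (s.map g).prod := ⟨_, rfl⟩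
  obtain ⟨f, hf⟩ : ∃ f : PowerSeries ℂ, f = (s.map fun b => u (-b)).sum := ⟨_, rfl⟩
  have hEG : E = PowerSeries.X ^ Multiset.card s * G := by rw [hE, hG]; exact prod_one_sub s
  have hG0 : PowerSeries.coeff 0 G = d := by rw [hG, coeff_prod_g_zero, hd]
  have hfk : ∀ k, PowerSeries.coeff k f = (s.map fun b => bin k (-b)).sum := by
    intro k
    rw [hf, map_multiset_sum, Multiset.map_map]
    congr 1
    refine Multiset.map_congr rfl fun b _ => ?_
    rw [Function.comp_apply, u, PowerSeries.coeff_mk]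
  have hEf : ∀ l i, i ≤ N → PowerSeries.coeff i (E * f ^ l) ∈ Zp p := by
    intro l i hi
    have h1 := coeff_T s i l 0
    rw [u_zero, one_mul, ← hE, ← hf] at h1
    rw [h1]
    have := k1 l i hi 0
    rw [Int.cast_zero] at this
    exact Z_le p this
  have hlow : ∀ i < k, PowerSeries.coeff i f ∈ Zp p := by
    intro i hi
    rw [hfk]
    have hi1 : i * (v + 1) + Multiset.card s ≤ N := by
      have : i * (v + 1) ≤ k * (v + 1) := Nat.mul_le_mul_right _ hi.le
      omega
    exact ih i hi hi1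
  obtain ⟨G0, hG0d⟩ : ∃ G0 : PowerSeries ℂ, G0 = PowerSeries.mk fun i =>
    if i < k then PowerSeries.coeff i f else 0 := ⟨_, rfl⟩
  have hG0c : ∀ i, PowerSeries.coeff i G0 ∈ Zp p := by
    intro i
    rw [hG0d, PowerSeries.coeff_mk]
    split_ifs with hi
    · exact hlow i hi
    · exact zero_mem _
  obtain ⟨F, hF⟩ : ∃ F : PowerSeries ℂ, F = f - G0 := ⟨_, rfl⟩
  have hFX : PowerSeries.X ^ k ∣ F := by
    rw [PowerSeries.X_pow_dvd_iff]
    intro i hi
    rw [hF, map_sub, hG0d, PowerSeries.coeff_mk, if_pos hi, sub_self]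
  obtain ⟨F1, hF1⟩ := hFX
  have hF1c : PowerSeries.coeff 0 F1 = (s.map fun b => bin k (-b)).sum := by
    have h1 : PowerSeries.coeff (0 + k) F = PowerSeries.coeff 0 F1 := by
      rw [hF1, PowerSeries.coeff_X_pow_mul]
    rw [← h1, zero_add, hF, map_sub, hG0d, PowerSeries.coeff_mk, if_neg (lt_irrefl k), sub_zero,
      hfk]
  have hmem : ∀ l j i, i ≤ N → PowerSeries.coeff i (E * f ^ j * F ^ l) ∈ Zp p := by
    intro l
    induction l with
    | zero =>
      intro j i hi
      rw [pow_zero, mul_one]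
      exact hEf j i hi
    | succ l ihl =>
      intro j i hi
      have h1 : E * f ^ j * F ^ (l + 1) = E * f ^ (j + 1) * F ^ l - E * f ^ j * F ^ l * G0 := by
        rw [pow_succ F l, pow_succ f j]
        nth_rewrite 2 [hF]
        ring
      rw [h1, map_sub]
      refine sub_mem (ihl (j + 1) i hi) ?_
      rw [PowerSeries.coeff_mul]
      refine sum_mem fun ij hij => mul_mem (ihl j ij.1 ?_) (hG0c _)
      have := Finset.HasAntidiagonal.mem_antidiagonal.1 hij
      omega
  have h1 := hmem (v + 1) 0 (0 + (Multiset.card s + k * (v + 1))) (by omega)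
  have h2 : E * f ^ 0 * F ^ (v + 1) =
      PowerSeries.X ^ (Multiset.card s + k * (v + 1)) * (G * F1 ^ (v + 1)) := by
    rw [hEG, hF1, pow_zero, mul_one, mul_pow, ← pow_mul, pow_add]
    ring
  rw [h2, PowerSeries.coeff_X_pow_mul, PowerSeries.coeff_zero_eq_constantCoeff_apply, map_mul,
    map_pow, ← PowerSeries.coeff_zero_eq_constantCoeff_apply,
    ← PowerSeries.coeff_zero_eq_constantCoeff_apply, hG0, hF1c] at h1
  rw [hrat] at h1 ⊢
  exact mem_of_pow _ d v hv h1

end Pool.Agent.U256.CY
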