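import Pool.Agent.U256.CY1

set_option autoImplicit false

/-! # Values of integer valued polynomials at the Chern roots -/

open Finset Polynomial

namespace Pool.Agent.U256.CY

open Pool.Agent.N17.HC (rootsOf bin kos)
open Pool.Agent.R920.CH (IsIntegerValued natDegree_bin aeval_bin exists_fun)

/-- Newton's identities -/
theorem esymm_mem (p : ℕ) [hp : Fact p.Prime] {r : ℕ} (α : Fin r → ℂ)
    (h : ∀ l ≤ r, ∑ i, α i ^ l ∈ Zp p) (j : ℕ) (hj : j ≤ r) :
    (j.factorial : ℂ) * (univ.val.map α).esymm j ∈ Zp p := by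
  induction j using Nat.strong_induction_on with
  | _ j ih =>
  rcases Nat.eq_zero_or_pos j with rfl | hj0
  · simp [Multiset.esymm]
  · obtain ⟨k, rfl⟩ : ∃ k, j = k + 1 := ⟨j - 1, by omega⟩
    have h1 := congrArg (MvPolynomial.aeval α) (MvPolynomial.mul_esymm_eq_sum (Fin r) ℂ (k + 1))
    simp only [map_mul, map_sum, map_pow, map_neg, map_one, map_natCast,
      MvPolynomial.aeval_esymm_eq_multiset_esymm, MvPolynomial.psum, MvPolynomial.aeval_X] at h1
    have h2 : ((k + 1).factorial : ℂ) * (univ.val.map α).esymm (k + 1) =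
        (-1) ^ (k + 1 + 1) * ∑ a ∈ Finset.HasAntidiagonal.antidiagonal (k + 1) with a.1 < k + 1,
          (-1) ^ a.1 * (((k.factorial / a.1.factorial : ℕ) : ℂ) *
            ((a.1.factorial : ℂ) * (univ.val.map α).esymm a.1)) * ∑ i, α i ^ a.2 := by
      rw [Nat.factorial_succ, Nat.cast_mul, mul_comm ((k + 1 : ℕ) : ℂ), mul_assoc, h1,
        ← mul_assoc, mul_comm (k.factorial : ℂ), mul_assoc, Finset.mul_sum]
      congr 1
      refine Finset.sum_congr rfl fun a ha => ?_
      rw [Finset.mem_filter] at ha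
      have h3 : ((k.factorial / a.1.factorial : ℕ) : ℂ) * (a.1.factorial : ℂ) = k.factorial := by
        rw [← Nat.cast_mul, Nat.div_mul_cancel (Nat.factorial_dvd_factorial (by omega))]
      rw [← mul_assoc ((k.factorial / a.1.factorial : ℕ) : ℂ), h3]
      ring
    rw [h2]
    refine mul_mem (pow_mem (neg_mem (one_mem _)) _) (sum_mem fun a ha => ?_)
    rw [Finset.mem_filter, Finset.HasAntidiagonal.mem_antidiagonal] at ha
    refine mul_mem (mul_mem (pow_mem (neg_mem (one_mem _)) _) (mul_mem (natCast_mem _ _)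
      (ih a.1 (by omega) (by omega)))) (h a.2 (by omega))

/-- a common denominator -/
theorem common {p : ℕ} [hp : Fact p.Prime] {ι : Type*} (s : Finset ι) (f : ι → ℂ)
    (h : ∀ i ∈ s, f i ∈ Zp p) : ∃ c : ℤ, ¬ (p : ℤ) ∣ c ∧ ∀ i ∈ s, ∃ z : ℤ, (c : ℂ) * f i = z := by
  classical
  induction s using Finset.induction with
  | empty => exact ⟨1, (Nat.prime_iff_prime_int.1 hp.out).not_dvd_one, by simp⟩
  | insert i s hi ih =>
    obtain ⟨c, hc, h1⟩ := ih fun j hj => h j (Finset.mem_insert_of_mem hj)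
    obtain ⟨a, c', hc', h2⟩ := mem_Zp.1 (h i (Finset.mem_insert_self i s))
    refine ⟨c * c', fun h0 =>
      ((Nat.prime_iff_prime_int.1 hp.out).dvd_or_dvd h0).elim hc hc', fun j hj => ?_⟩
    rcases Finset.mem_insert.1 hj with rfl | hj
    · refine ⟨c * a, ?_⟩
      push_cast
      rw [← h2]
      ring
    · obtain ⟨z, hz⟩ := h1 j hj
      refine ⟨c' * z, ?_⟩
      push_cast
      rw [← hz]
      ring

/-- integrality from the power sums -/
theorem integ_of_psum (p : ℕ) [hp : Fact p.Prime] {r : ℕ} (α : Fin r → ℂ)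
    (h : ∀ l ≤ r, ∑ i, α i ^ l ∈ Zp p) :
    ∃ c : ℤ, ¬ (p : ℤ) ∣ c ∧ ∀ i, IsIntegral ℤ ((c : ℂ) * (r.factorial : ℂ) * α i) := by
  obtain ⟨c, hc, hcz⟩ := common (p := p) (range (r + 1))
    (fun j => (j.factorial : ℂ) * (univ.val.map α).esymm j) (fun j hj =>
      esymm_mem p α h j (by rw [Finset.mem_range] at hj; omega))
  refine ⟨c, hc, fun i => ?_⟩
  obtain ⟨T, hT⟩ : ∃ T : ℂ[X], T = ((univ.val.map α).map fun t => X - C t).prod := ⟨_, rfl⟩
  have hcard : Multiset.card (univ.val.map α : Multiset ℂ) = r := by simp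
  have hTm : T.Monic := by
    rw [hT]
    exact monic_multiset_prod_of_monic _ _ fun t _ => monic_X_sub_C t
  have hTd : T.natDegree = r := by
    rw [hT, natDegree_multiset_prod_X_sub_C_eq_card, hcard]
  have hroot : T.eval (α i) = 0 := by
    rw [hT, eval_multiset_prod]
    apply Multiset.prod_eq_zero
    rw [Multiset.mem_map]
    refine ⟨X - C (α i), ?_, by simp⟩
    rw [Multiset.mem_map]
    exact ⟨α i, Multiset.mem_map_of_mem α (Finset.mem_univ i), rfl⟩
  obtain ⟨w, hw⟩ : ∃ w : ℂ, w = (c : ℂ) * (r.factorial : ℂ) := ⟨_, rfl⟩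
  rw [← hw]
  have hlift : T.scaleRoots w ∈ Polynomial.lifts (Int.castRingHom ℂ) := by
    rw [Polynomial.lifts_iff_coeff_lifts]
    intro n
    rw [coeff_scaleRoots, hTd]
    rcases lt_trichotomy n r with hn | hn | hn
    · rw [hT, Multiset.prod_X_sub_C_coeff _ (by rw [hcard]; omega), hcard]
      obtain ⟨z, hz⟩ := hcz (r - n) (by rw [Finset.mem_range]; omega)
      obtain ⟨k, hk⟩ : ∃ k, r - n = k + 1 := ⟨r - n - 1, by omega⟩
      rw [hk] at hz ⊢
      obtain ⟨D, hD⟩ : (k + 1).factorial ∣ r.factorial := Nat.factorial_dvd_factorial (by omega)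
      have h3 : (r.factorial : ℂ) = ((k + 1).factorial : ℂ) * D := by
        rw [hD, Nat.cast_mul]
      refine ⟨(-1) ^ (k + 1) * z * (D : ℤ) * (c * r.factorial) ^ k, ?_⟩
      simp only [eq_intCast]
      push_cast
      rw [← hz, hw, pow_succ ((c : ℂ) * (r.factorial : ℂ)) k]
      have h4 : (c : ℂ) * (r.factorial : ℂ) = c * (((k + 1).factorial : ℂ) * D) := by rw [← h3]
      generalize ((c : ℂ) * (r.factorial : ℂ)) ^ k = W
      rw [h4]
      ring
    · rw [hn, Nat.sub_self, pow_zero, mul_one]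
      refine ⟨1, ?_⟩
      rw [map_one, ← hTd]
      exact hTm.coeff_natDegree.symm
    · rw [coeff_eq_zero_of_natDegree_lt (by rw [hTd]; exact hn), zero_mul]
      exact ⟨0, map_zero _⟩
  obtain ⟨S, hS, -, hSm⟩ := lifts_and_natDegree_eq_and_monic hlift
    ((monic_scaleRoots_iff w).2 hTm)
  refine ⟨S, hSm, ?_⟩
  have h1 : (algebraMap ℤ ℂ) = Int.castRingHom ℂ := rfl
  rw [h1, ← eval_map, hS, scaleRoots_eval_mul, hroot, mul_zero]

/-- **Integrality of the values of integer valued polynomials.** -/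
theorem integ {r : ℕ} (s : Multiset ℂ) (hs : Multiset.card s = r) (p : ℕ) [hp : Fact p.Prime]
    (K : ℕ) (hK : ∀ k ≤ K, (s.map fun b => bin k (-b)).sum ∈ Zp p) (f : ℚ[X])
    (hf : IsIntegerValued f) (hd : r * f.natDegree ≤ K) :
    ∃ c : ℤ, ¬ (p : ℤ) ∣ c ∧ ∀ b ∈ s, IsIntegral ℤ ((c : ℂ) * (r.factorial : ℂ) * aeval b f) := by
  obtain ⟨β, hβ⟩ := exists_fun s hs
  obtain ⟨c₀, hc₀, h₀⟩ := common (p := p) (range (K + 1))
    (fun k => (s.map fun b => bin k (-b)).sum) (fun k hk =>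
      hK k (by rw [Finset.mem_range] at hk; omega))
  have hsum : ∀ l ≤ r, ∑ i, (aeval (β i) f) ^ l ∈ Zp p := by
    intro l hl
    obtain ⟨z, hz⟩ := Pool.Agent.N17.HC.LSP.all K s c₀ (fun k hk =>
      h₀ k (by rw [Finset.mem_range]; omega)) (f ^ l) (by
        intro m
        obtain ⟨z, hz⟩ := hf m
        exact ⟨z ^ l, by rw [eval_pow, hz]; push_cast; rfl⟩) (by
        refine natDegree_pow_le.trans (le_trans ?_ hd)
        exact Nat.mul_le_mul_right _ hl)
    refine mem_Zp.2 ⟨z, c₀, hc₀, ?_⟩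
    rw [← hz, ← hβ, Multiset.map_map]
    congr 1
    refine Finset.sum_congr rfl fun i _ => ?_
    rw [Function.comp_apply, map_pow]
  obtain ⟨c, hc, h⟩ := integ_of_psum p (fun i => aeval (β i) f) hsum
  refine ⟨c, hc, fun b hb => ?_⟩
  rw [← hβ, Multiset.mem_map] at hb
  obtain ⟨i, -, rfl⟩ := hb
  exact h i

end Pool.Agent.U256.CY
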