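import Pool.Agent.U256.CY2

set_option autoImplicit false

/-! # Products of values of the Chern polynomial -/

open Finset Polynomial

namespace Pool.Agent.U256.CY

open Pool.Agent.N17.HC (rootsOf bin kos)
open Pool.Agent.R920.CH (IsIntegerValued natDegree_bin aeval_bin bin_int intVal_comp)
open Pool.Agent.U256.LS (card_roots' no_root split)

/-- the product of the values -/
noncomputable def W (Q : ℤ[X]) (a : ℤ) (n : ℕ) : ℕ := ∏ t ∈ range n, (Q.eval (a + t)).natAbs

theorem W_add (Q : ℤ[X]) (a : ℤ) (n k : ℕ) : W Q a (n + k) = W Q a n * W Q (a + n) k := by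
  unfold W
  rw [Finset.prod_range_add]
  congr 1
  refine Finset.prod_congr rfl fun t _ => ?_
  push_cast
  rw [add_assoc]

theorem W_ne_zero {Q : ℤ[X]} (hQ : Q.Monic) (hirr : Irreducible Q) (hm : 2 ≤ Q.natDegree) (a : ℤ)
    (n : ℕ) : W Q a n ≠ 0 := by
  unfold W
  rw [Finset.prod_ne_zero_iff]
  intro t _ h0
  have h1 : Q.eval (a + t) = 0 := Int.natAbs_eq_zero.1 h0
  apply no_root hQ hirr hm ((a + t : ℤ) : ℚ)
  unfold rootsOf
  rw [mem_roots (hQ.map _).ne_zero, IsRoot, eval_map]
  have h2 : (((a + t : ℤ) : ℚ) : ℂ) = Int.castRingHom ℂ (a + t) := by simp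
  rw [h2, eval₂_at_apply, h1, map_zero]

theorem prod_sub {Q : ℤ[X]} (hQ : Q.Monic) (x : ℤ) :
    ((rootsOf Q).map fun b => b - (x : ℂ)).prod = (-1) ^ Q.natDegree * ((Q.eval x : ℤ) : ℂ) := by
  have h1 : ((Q.eval x : ℤ) : ℂ) = (Q.map (Int.castRingHom ℂ)).eval (x : ℂ) := by
    rw [eval_map]
    have := eval₂_at_apply (p := Q) (Int.castRingHom ℂ) x
    simp only [eq_intCast] at this
    rw [this]
  rw [h1, split Q hQ, eval_multiset_prod, Multiset.map_map]
  have h2 : Multiset.map (eval (x : ℂ) ∘ fun a => X - C a) (rootsOf Q) =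
      Multiset.map (fun b => (-1) * (b - (x : ℂ))) (rootsOf Q) :=
    Multiset.map_congr rfl fun b _ => by simp
  rw [h2, Multiset.prod_map_mul, Multiset.map_const', Multiset.prod_replicate, card_roots' Q hQ,
    ← mul_assoc, ← mul_pow]
  simp

theorem prod_bin {Q : ℤ[X]} (hQ : Q.Monic) (a : ℤ) (k : ℕ) :
    ((rootsOf Q).map fun b => ∏ j ∈ range k, (b - (a : ℂ) - j)).prod =
      (-1) ^ (Q.natDegree * k) * ((∏ t ∈ range k, Q.eval (a + t) : ℤ) : ℂ) := by
  have h1 : ((rootsOf Q).map fun b => ∏ j ∈ range k, (b - (a : ℂ) - j)).prod =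
      ∏ j ∈ range k, ((rootsOf Q).map fun b => b - ((a + j : ℤ) : ℂ)).prod := by
    show ((rootsOf Q).map fun b => ((range k).val.map fun j : ℕ => (b - (a : ℂ) - j)).prod).prod = _
    rw [Multiset.prod_map_prod_map]
    refine Finset.prod_congr rfl fun j _ => ?_
    congr 1
    refine Multiset.map_congr rfl fun b _ => ?_
    push_cast
    ring
  rw [h1, Finset.prod_congr rfl fun (j : ℕ) _ => prod_sub hQ (a + (j : ℤ)),
    Finset.prod_mul_distrib, Finset.prod_const, Finset.card_range, ← pow_mul]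
  push_cast
  rfl

theorem block {P Q : ℤ[X]} (hP : P.Monic) (hQ : Q.Monic) (hQP : Q ∣ P) {r : ℕ}
    (hr : P.natDegree = r) (p : ℕ) [hp : Fact p.Prime] (K : ℕ)
    (hK : ∀ k ≤ K, ((rootsOf P).map fun b => bin k (-b)).sum ∈ Zp p) (k : ℕ) (hk : r * k ≤ K)
    (a : ℤ) (h0 : W Q a k ≠ 0) :
    Q.natDegree * k.factorial.factorization p ≤
      Q.natDegree * r.factorial.factorization p + (W Q a k).factorization p := by
  obtain ⟨c, hc, hint⟩ := integ (rootsOf P) ((card_roots' P hP).trans hr) p K hK
    ((Pool.Agent.R920.CH.bin k).comp (X + C ((-a : ℤ) : ℚ))) (intVal_comp (bin_int k) (-a)) (by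
      refine le_trans (Nat.mul_le_mul_left r ?_) hk
      refine natDegree_comp_le.trans ?_
      rw [natDegree_X_add_C, mul_one]
      exact natDegree_bin k)
  have hsub : ∀ b ∈ rootsOf Q, b ∈ rootsOf P := fun b hb =>
    Multiset.mem_of_le (Polynomial.roots.le_of_dvd (hP.map _).ne_zero (Polynomial.map_dvd _ hQP)) hb
  have hval : ∀ b : ℂ, aeval b ((Pool.Agent.R920.CH.bin k).comp (X + C ((-a : ℤ) : ℚ))) =
      (k.factorial : ℂ)⁻¹ * ∏ j ∈ range k, (b - (a : ℂ) - j) := by
    intro b
    rw [aeval_comp, map_add, aeval_X, aeval_C, aeval_bin]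
    simp [sub_eq_add_neg]
  have hY : IsIntegral ℤ ((rootsOf Q).map fun b => (c : ℂ) * (r.factorial : ℂ) *
      aeval b ((Pool.Agent.R920.CH.bin k).comp (X + C ((-a : ℤ) : ℚ)))).prod := by
    apply IsIntegral.multiset_prod
    intro y hy
    obtain ⟨b, hb, rfl⟩ := Multiset.mem_map.1 hy
    exact hint b (hsub b hb)
  obtain ⟨m, hm⟩ : ∃ m, m = Q.natDegree := ⟨_, rfl⟩
  have hkf : (k.factorial : ℂ) ≠ 0 := by exact_mod_cast k.factorial_ne_zero
  have hkq : (k.factorial : ℚ) ≠ 0 := by exact_mod_cast k.factorial_ne_zero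
  have hYv : ((rootsOf Q).map fun b => (c : ℂ) * (r.factorial : ℂ) *
      aeval b ((Pool.Agent.R920.CH.bin k).comp (X + C ((-a : ℤ) : ℚ)))).prod =
      algebraMap ℚ ℂ (((c * r.factorial) ^ m * (-1) ^ (m * k) * (∏ t ∈ range k, Q.eval (a + t)) : ℤ) /
        (k.factorial : ℚ) ^ m) := by
    have h1 : ((rootsOf Q).map fun b => (c : ℂ) * (r.factorial : ℂ) *
      aeval b ((Pool.Agent.R920.CH.bin k).comp (X + C ((-a : ℤ) : ℚ)))) =
      (rootsOf Q).map fun b => ((c : ℂ) * (r.factorial : ℂ) * (k.factorial : ℂ)⁻¹) *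
        ∏ j ∈ range k, (b - (a : ℂ) - j) := by
      refine Multiset.map_congr rfl fun b _ => ?_
      rw [hval]
      ring
    rw [h1, Multiset.prod_map_mul, Multiset.map_const', Multiset.prod_replicate, card_roots' Q hQ,
      prod_bin hQ, ← hm]
    simp only [eq_ratCast]
    push_cast
    rw [mul_pow, inv_pow]
    field_simp
  rw [hYv, isIntegral_algebraMap_iff (algebraMap ℚ ℂ).injective] at hY
  obtain ⟨z, hz⟩ := IsIntegrallyClosed.isIntegral_iff.1 hY
  have h2 : (k.factorial : ℤ) ^ m * z =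
      (c * r.factorial) ^ m * (-1) ^ (m * k) * (∏ t ∈ range k, Q.eval (a + t)) := by
    have h3 : (k.factorial : ℚ) ^ m * (z : ℚ) =
      (((c * r.factorial) ^ m * (-1) ^ (m * k) * (∏ t ∈ range k, Q.eval (a + t)) : ℤ) : ℚ) := by
      have hz' : (z : ℚ) = (((c * r.factorial) ^ m * (-1) ^ (m * k) *
        (∏ t ∈ range k, Q.eval (a + t)) : ℤ) : ℚ) / (k.factorial : ℚ) ^ m := by
        rw [← hz]
        rfl
      rw [hz']
      field_simp
    exact_mod_cast h3
  have h3 := congrArg Int.natAbs h2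
  rw [Int.natAbs_mul, Int.natAbs_mul, Int.natAbs_mul, Int.natAbs_pow, Int.natAbs_pow,
    Int.natAbs_pow, Int.natAbs_mul, Int.natAbs_neg, Int.natAbs_one, one_pow, mul_one,
    Int.natAbs_natCast, Int.natAbs_natCast] at h3
  have h4 : (∏ t ∈ range k, Q.eval (a + t)).natAbs = W Q a k := by
    unfold W
    exact map_prod Int.natAbsHom _ _
  rw [h4] at h3
  have hc0 : c.natAbs ≠ 0 := by
    intro h
    apply hc
    rw [Int.natAbs_eq_zero.1 h]
    exact dvd_zero _
  have hcp : c.natAbs.factorization p = 0 := by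
    apply Nat.factorization_eq_zero_of_not_dvd
    intro h
    exact hc (Int.natCast_dvd.2 h)
  have h5 : k.factorial ^ m ∣ (c.natAbs * r.factorial) ^ m * W Q a k := ⟨_, h3.symm⟩
  have hne : (c.natAbs * r.factorial) ^ m * W Q a k ≠ 0 :=
    mul_ne_zero (pow_ne_zero _ (mul_ne_zero hc0 r.factorial_ne_zero)) h0
  have h6 := (Nat.factorization_le_iff_dvd (pow_ne_zero _ k.factorial_ne_zero) hne).2 h5 p
  rw [Nat.factorization_pow, Nat.factorization_mul
    (pow_ne_zero _ (mul_ne_zero hc0 r.factorial_ne_zero)) h0, Nat.factorization_pow,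
    Nat.factorization_mul hc0 r.factorial_ne_zero] at h6
  simp only [Finsupp.smul_apply, Finsupp.add_apply, smul_eq_mul, hcp, zero_add] at h6
  rw [← hm]
  exact h6

theorem blocks {P Q : ℤ[X]} (hP : P.Monic) (hQ : Q.Monic) (hirr : Irreducible Q)
    (hm : 2 ≤ Q.natDegree) (hQP : Q ∣ P) {r : ℕ}
    (hr : P.natDegree = r) (p : ℕ) [hp : Fact p.Prime] (K : ℕ)
    (hK : ∀ k ≤ K, ((rootsOf P).map fun b => bin k (-b)).sum ∈ Zp p) (k₀ : ℕ) (hk₀ : 1 ≤ k₀)
    (hk : r * k₀ ≤ K) (M : ℕ) (n : ℕ) (hn : n ≤ M) (a : ℤ) :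
    Q.natDegree * n.factorial.factorization p ≤ (W Q a n).factorization p +
      (n / k₀ + 1) * (Q.natDegree * (r.factorial.factorization p + Nat.log p M)) := by
  induction n using Nat.strong_induction_on generalizing a with
  | _ n ih =>
  by_cases hnk : n ≤ k₀
  · have h1 := block hP hQ hQP hr p K hK n ((Nat.mul_le_mul_left r hnk).trans hk) a
      (W_ne_zero hQ hirr hm a n)
    have h2 : Q.natDegree * r.factorial.factorization p ≤
        (n / k₀ + 1) * (Q.natDegree * (r.factorial.factorization p + Nat.log p M)) := by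
      calc Q.natDegree * r.factorial.factorization p
          ≤ 1 * (Q.natDegree * (r.factorial.factorization p + Nat.log p M)) := by
            rw [one_mul]
            exact Nat.mul_le_mul_left _ (Nat.le_add_right _ _)
        _ ≤ _ := Nat.mul_le_mul_right _ (Nat.le_add_left 1 _)
    omega
  · push Not at hnk
    obtain ⟨n', rfl⟩ : ∃ n', n = k₀ + n' := ⟨n - k₀, by omega⟩
    have h1 := block hP hQ hQP hr p K hK k₀ hk a (W_ne_zero hQ hirr hm a k₀)
    have h2 := ih n' (by omega) (by omega) (a + k₀)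
    have h3 : (k₀ + n').factorial = (k₀ + n').choose k₀ * (k₀.factorial * n'.factorial) := by
      rw [← Nat.choose_mul_factorial_mul_factorial (Nat.le_add_right k₀ n'),
        Nat.add_sub_cancel_left, mul_assoc]
    have hch : (k₀ + n').choose k₀ ≠ 0 := (Nat.choose_pos (Nat.le_add_right _ _)).ne'
    have h4 : (k₀ + n').factorial.factorization p ≤
        Nat.log p M + (k₀.factorial.factorization p + n'.factorial.factorization p) := by
      rw [h3, Nat.factorization_mul hch (mul_ne_zero k₀.factorial_ne_zero n'.factorial_ne_zero),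
        Nat.factorization_mul k₀.factorial_ne_zero n'.factorial_ne_zero]
      simp only [Finsupp.add_apply]
      have h5 : ((k₀ + n').choose k₀).factorization p ≤ Nat.log p (k₀ + n') :=
        Nat.factorization_choose_le_log
      have h6 : Nat.log p (k₀ + n') ≤ Nat.log p M := Nat.log_mono_right hn
      omega
    have h5 : (k₀ + n') / k₀ = n' / k₀ + 1 := by
      rw [Nat.add_div_left _ (by omega)]
    rw [W_add, Nat.factorization_mul (W_ne_zero hQ hirr hm _ _) (W_ne_zero hQ hirr hm _ _), h5]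
    simp only [Finsupp.add_apply]
    calc Q.natDegree * (k₀ + n').factorial.factorization p
        ≤ Q.natDegree * (Nat.log p M + (k₀.factorial.factorization p +
          n'.factorial.factorization p)) := Nat.mul_le_mul_left _ h4
      _ = Q.natDegree * Nat.log p M + (Q.natDegree * k₀.factorial.factorization p +
          Q.natDegree * n'.factorial.factorization p) := by ring
      _ ≤ Q.natDegree * Nat.log p M + ((Q.natDegree * r.factorial.factorization p +
          (W Q a k₀).factorization p) + ((W Q (a + k₀) n').factorization p +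
      (n' / k₀ + 1) * (Q.natDegree * (r.factorial.factorization p + Nat.log p M)))) := by
          gcongr
      _ = _ := by ring

theorem good {Q : ℤ[X]} (hQ : Q.Monic) (hirr : Irreducible Q) (hm : 2 ≤ Q.natDegree)
    (p : ℕ) (hp : p.Prime) (n : ℕ) (hn : n < p * p) (a : ℤ) (ρ : Fin Q.natDegree → ZMod p)
    (hρ : Function.Injective ρ) (hQρ : Q.map (Int.castRingHom (ZMod p)) = ∏ i, (X - C (ρ i))) :
    Q.natDegree * n.factorial.factorization p ≤ (W Q a n).factorization p := by
  have : Fact p.Prime := ⟨hp⟩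
  have h1 : n.factorial.factorization p = n / p := by
    rw [Nat.factorization_factorial hp (b := 2)]
    · rw [show Finset.Ico 1 2 = {1} by rfl, Finset.sum_singleton, pow_one]
    · rcases Nat.eq_zero_or_pos n with rfl | hn0
      · simp
      · rw [Nat.log_lt_iff_lt_pow hp.one_lt hn0.ne', pow_two]
        exact hn
  rw [h1]
  have hne : ∀ t ∈ range n, (Q.eval (a + t)).natAbs ≠ 0 := by
    intro t ht
    have := W_ne_zero hQ hirr hm a n
    unfold W at this
    rw [Finset.prod_ne_zero_iff] at this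
    exact this t ht
  have h2 : (W Q a n).factorization p = ∑ t ∈ range n, ((Q.eval (a + t)).natAbs).factorization p := by
    unfold W
    rw [Nat.factorization_prod hne, Finsupp.finsetSum_apply]
  rw [h2]
  -- the values divisible by `p`
  have h3 : ∀ t : ℕ, ∀ i, ((a + t : ℤ) : ZMod p) = ρ i → p ∣ (Q.eval (a + t)).natAbs := by
    intro t i hti
    rw [← Int.natCast_dvd, ← ZMod.intCast_zmod_eq_zero_iff_dvd]
    have h4 : ((Q.eval (a + t) : ℤ) : ZMod p) =
        (Q.map (Int.castRingHom (ZMod p))).eval ((a + t : ℤ) : ZMod p) := by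
      rw [eval_map]
      have := eval₂_at_apply (p := Q) (Int.castRingHom (ZMod p)) (a + t)
      simp only [eq_intCast] at this
      rw [this]
    rw [h4, hQρ, eval_prod]
    apply Finset.prod_eq_zero (Finset.mem_univ i)
    rw [eval_sub, eval_X, eval_C, hti, sub_self]
  classical
  obtain ⟨T, hT⟩ : ∃ T : Fin Q.natDegree → Finset ℕ, T = fun i =>
    (range n).filter fun t : ℕ => ((a + t : ℤ) : ZMod p) = ρ i := ⟨_, rfl⟩
  have hdisj : ∀ i ∈ (univ : Finset (Fin Q.natDegree)), ∀ j ∈ (univ : Finset (Fin Q.natDegree)),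
      i ≠ j → Disjoint (T i) (T j) := by
    intro i _ j _ hij
    rw [hT, Finset.disjoint_left]
    intro t h1 h2
    rw [Finset.mem_filter] at h1 h2
    exact hij (hρ (h1.2.symm.trans h2.2))
  have hcard : ∀ i, n / p ≤ (T i).card := by
    intro i
    have h4 : (T i).card = n.count (· ≡ (ρ i - a).val [MOD p]) := by
      rw [Nat.count_eq_card_filter_range, hT]
      congr 1
      apply Finset.filter_congr
      intro t _
      rw [← ZMod.natCast_eq_natCast_iff, ZMod.natCast_zmod_val]
      push_cast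
      constructor
      · intro h; rw [← h]; ring
      · intro h; rw [h]; ring
    rw [h4, Nat.count_modEq_card _ hp.pos]
    omega
  calc Q.natDegree * (n / p) = ∑ _i : Fin Q.natDegree, n / p := by simp
    _ ≤ ∑ i, (T i).card := Finset.sum_le_sum fun i _ => hcard i
    _ = (univ.biUnion T).card := (Finset.card_biUnion hdisj).symm
    _ = ∑ t ∈ univ.biUnion T, 1 := by simp
    _ ≤ ∑ t ∈ univ.biUnion T, ((Q.eval (a + t)).natAbs).factorization p := by
        apply Finset.sum_le_sum
        intro t ht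
        rw [Finset.mem_biUnion] at ht
        obtain ⟨i, -, ht⟩ := ht
        rw [hT, Finset.mem_filter] at ht
        exact (hp.dvd_iff_one_le_factorization (hne t ht.1)).1 (h3 t i ht.2)
    _ ≤ ∑ t ∈ range n, ((Q.eval (a + t)).natAbs).factorization p := by
        apply Finset.sum_le_sum_of_subset_of_nonneg
        · intro t ht
          rw [Finset.mem_biUnion] at ht
          obtain ⟨i, -, ht⟩ := ht
          rw [hT, Finset.mem_filter] at ht
          exact ht.1
        · intro _ _ _
          exact Nat.zero_le _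

end Pool.Agent.U256.CY
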