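import Pool.Agent.U256.CY3
import Pool.Agent.U256.LS5

set_option autoImplicit false

/-! # The lower bound of the products of values -/

open Finset Polynomial Filter

namespace Pool.Agent.U256.CY

open Pool.Agent.N17.HC (rootsOf bin kos t_KOS t_LSP)
open Pool.Agent.U256.LS (card_roots' no_root split sep spl_div)

/-- the correction -/
theorem dvd_main {P Q : ℤ[X]} (hP : P.Monic) (hQ : Q.Monic) (hirr : Irreducible Q)
    (hm : 2 ≤ Q.natDegree) (hQP : Q ∣ P) {r : ℕ} (hr1 : 1 ≤ r)
    (hr : P.natDegree = r) (N : ℕ)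
    (h : ∀ (l : ℕ) (t : ℤ), ∃ z : ℤ, kosT N (rootsOf P) l (N + t) = z) (d : ℤ)
    (hd : (-1) ^ r * P.coeff 0 = d) (hd0 : d ≠ 0) (E : ℤ) (hE0 : E ≠ 0)
    (hE : ∀ p : ℕ, p.Prime → ¬ (p : ℤ) ∣ E → ∀ ρ : Fin Q.natDegree → ZMod p,
        Q.map (Int.castRingHom (ZMod p)) = ∏ i, (X - C (ρ i)) → Function.Injective ρ)
    (n : ℕ) (hn : n + 2 * r ≤ N + 1) (hs : r ≤ Nat.sqrt n)
    (hv : ∀ p : ℕ, p.Prime → (d.natAbs.factorization p + 1) * r ≤ N - r) (a : ℤ) :
    n.factorial ^ Q.natDegree ∣ W Q a n * ((∏ p ∈ (range (Nat.sqrt n + 1)).filter Nat.Prime,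
      p ^ ((n / ((N - r) / ((d.natAbs.factorization p + 1) * r)) + 1) *
        (Q.natDegree * (r.factorial.factorization p + Nat.log p n)))) *
      (d.natAbs * E.natAbs) ^ (Q.natDegree * Nat.sqrt n)) := by
  obtain ⟨l, hl⟩ : ∃ l : ℕ → ℕ, l = fun p =>
    (n / ((N - r) / ((d.natAbs.factorization p + 1) * r)) + 1) *
        (Q.natDegree * (r.factorial.factorization p + Nat.log p n)) := ⟨_, rfl⟩
  obtain ⟨S, hS⟩ : ∃ S : Finset ℕ, S = (range (Nat.sqrt n + 1)).filter Nat.Prime := ⟨_, rfl⟩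
  have hL : (∏ p ∈ (range (Nat.sqrt n + 1)).filter Nat.Prime,
      p ^ ((n / ((N - r) / ((d.natAbs.factorization p + 1) * r)) + 1) *
        (Q.natDegree * (r.factorial.factorization p + Nat.log p n)))) = ∏ p ∈ S, p ^ l p := by
    rw [hS, hl]
  rw [hL]
  have hSp : ∀ p ∈ S, p.Prime := by
    intro p hp
    rw [hS, Finset.mem_filter] at hp
    exact hp.2
  have hdn : d.natAbs ≠ 0 := Int.natAbs_ne_zero.2 hd0
  have hEn : E.natAbs ≠ 0 := Int.natAbs_ne_zero.2 hE0
  have hWn := W_ne_zero hQ hirr hm a n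
  have hPn : (∏ p ∈ S, p ^ l p) ≠ 0 :=
    Finset.prod_ne_zero_iff.2 fun p hp => pow_ne_zero _ (hSp p hp).ne_zero
  have hdE : (d.natAbs * E.natAbs) ^ (Q.natDegree * Nat.sqrt n) ≠ 0 :=
    pow_ne_zero _ (mul_ne_zero hdn hEn)
  rw [← Nat.factorization_prime_le_iff_dvd (pow_ne_zero _ n.factorial_ne_zero)
    (mul_ne_zero hWn (mul_ne_zero hPn hdE))]
  intro p hp
  have hfact : Fact p.Prime := ⟨hp⟩
  rw [Nat.factorization_mul hWn (mul_ne_zero hPn hdE), Nat.factorization_mul hPn hdE,
    Nat.factorization_pow, Nat.factorization_pow, Nat.factorization_mul hdn hEn]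
  simp only [Finsupp.add_apply, Finsupp.smul_apply, smul_eq_mul]
  by_cases h1 : n < p
  · have : n.factorial.factorization p = 0 := by
      apply Nat.factorization_eq_zero_of_not_dvd
      rw [hp.dvd_factorial]
      omega
    rw [this]
    omega
  push Not at h1
  have hn0 : 0 < n := lt_of_lt_of_le hp.pos h1
  by_cases h2 : p ≤ Nat.sqrt n
  · -- small primes
    have hpS : p ∈ S := by
      rw [hS, Finset.mem_filter, Finset.mem_range]
      exact ⟨by omega, hp⟩
    have h3 : l p ≤ (∏ p ∈ S, p ^ l p).factorization p := by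
      have h4 : p ^ l p ∣ ∏ p ∈ S, p ^ l p := Finset.dvd_prod_of_mem _ hpS
      exact (hp.pow_dvd_iff_le_factorization hPn).1 h4
    obtain ⟨k₀, hk₀⟩ : ∃ k₀, k₀ = (N - r) / ((d.natAbs.factorization p + 1) * r) := ⟨_, rfl⟩
    have hk1 : 1 ≤ k₀ := by
      rw [hk₀]
      exact (Nat.one_le_div_iff (by positivity)).2 (hv p hp)
    have hk2 : k₀ * ((d.natAbs.factorization p + 1) * r) ≤ N - r := by
      rw [hk₀]
      exact Nat.div_mul_le_self _ _
    have hcard : Multiset.card (rootsOf P) = r := (card_roots' P hP).trans hr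
    have hprod : (rootsOf P).prod = d := by
      rw [Pool.Agent.N17.HC.FIN.prod_rootsOf P hP, hr, hd]
    have h5 := blocks hP hQ hirr hm hQP hr p (r * k₀) (by
      intro k hk
      refine gk_mem N (rootsOf P) d hprod hd0 h p (d.natAbs.factorization p) ?_ k ?_
      · intro h6
        have h7 : p ^ (d.natAbs.factorization p + 1) ∣ d.natAbs := by
          rw [← Int.natCast_dvd]
          exact_mod_cast h6
        exact Nat.pow_succ_factorization_not_dvd hdn hp h7
      · rw [hcard]
        have h6 : k * (d.natAbs.factorization p + 1) ≤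
            (r * k₀) * (d.natAbs.factorization p + 1) := Nat.mul_le_mul_right _ hk
        have h7 : (r * k₀) * (d.natAbs.factorization p + 1) =
          k₀ * ((d.natAbs.factorization p + 1) * r) := by ring
        omega) k₀ hk1 le_rfl n n le_rfl a
    have h6 : l p = (n / k₀ + 1) * (Q.natDegree * (r.factorial.factorization p + Nat.log p n)) := by
      rw [hl, hk₀]
    omega
  · push Not at h2
    have hpp : n < p * p := by
      have h3 := Nat.lt_succ_sqrt n
      have h4 : (Nat.sqrt n + 1) * (Nat.sqrt n + 1) ≤ p * p := Nat.mul_le_mul h2 h2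
      exact lt_of_lt_of_le h3 h4
    by_cases h3 : (p : ℤ) ∣ d * E
    · have h4 : n.factorial.factorization p = n / p := by
        rw [Nat.factorization_factorial hp (b := 2)]
        · rw [show Finset.Ico 1 2 = {1} by rfl, Finset.sum_singleton, pow_one]
        · rw [Nat.log_lt_iff_lt_pow hp.one_lt hn0.ne', pow_two]
          exact hpp
      have h5 : n / p ≤ Nat.sqrt n := by
        have h6 : n / p ≤ n / (Nat.sqrt n + 1) := Nat.div_le_div_left (by omega) (by omega)
        have h7 : n / (Nat.sqrt n + 1) < Nat.sqrt n + 1 :=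
          Nat.div_lt_of_lt_mul (Nat.lt_succ_sqrt n)
        omega
      have h6 : 1 ≤ d.natAbs.factorization p + E.natAbs.factorization p := by
        rcases (Nat.prime_iff_prime_int.1 hp).dvd_or_dvd h3 with h7 | h7
        · have := (hp.dvd_iff_one_le_factorization hdn).1 (Int.natCast_dvd.1 h7)
          omega
        · have := (hp.dvd_iff_one_le_factorization hEn).1 (Int.natCast_dvd.1 h7)
          omega
      rw [h4]
      have h7 : Q.natDegree * (n / p) ≤ Q.natDegree * Nat.sqrt n := Nat.mul_le_mul_left _ h5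
      have h8 : Q.natDegree * Nat.sqrt n * 1 ≤ Q.natDegree * Nat.sqrt n *
        (d.natAbs.factorization p + E.natAbs.factorization p) := Nat.mul_le_mul_left _ h6
      omega
    · have hpd : ¬ (p : ℤ) ∣ d := fun h4 => h3 (Dvd.dvd.mul_right h4 _)
      have hpE : ¬ (p : ℤ) ∣ E := fun h4 => h3 (Dvd.dvd.mul_left h4 _)
      have hloc := Pool.Agent.N17.HC.FIN.loc t_KOS t_LSP N r P hP hr d hd (fun t => h 0 t)
        (fun t => h 1 t) p hp (by omega) (by omega) hpd
      obtain ⟨ρ, hρ⟩ := spl_div hp hP hQ hQP hloc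
      have h4 := good hQ hirr hm p hp n hpp a ρ (hE p hp hpE ρ hρ) hρ
      omega

end Pool.Agent.U256.CY
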