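import Pool.Agent.U256.CY4

set_option autoImplicit false

/-! # The lower bound of the products of values: sizes -/

open Finset Polynomial Filter

namespace Pool.Agent.U256.CY

open Pool.Agent.N17.HC (rootsOf bin kos)
open Pool.Agent.U256.LS (card_roots' no_root split sep spl_div)

theorem ev_log (C ε : ℝ) (hC : 0 ≤ C) (hε : 0 < ε) :
    ∀ᶠ N : ℕ in atTop, C * (1 + Real.log N) ^ 2 ≤ ε * Real.sqrt N := by
  have h1 : ∀ᶠ x : ℝ in atTop, C * (1 + Real.log x) ^ 2 ≤ ε * Real.sqrt x := by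
    have h2 := (isLittleO_log_rpow_atTop (show (0 : ℝ) < 1 / 8 by norm_num)).bound
      (show (0 : ℝ) < 1 by norm_num)
    have h3 := (tendsto_rpow_atTop (show (0 : ℝ) < 1 / 4 by norm_num)).eventually_ge_atTop
      (4 * C / ε)
    filter_upwards [h2, h3, eventually_ge_atTop 1] with x h2 h3 h4
    have hx0 : 0 < x := by linarith
    have hlog : 0 ≤ Real.log x := Real.log_nonneg h4
    rw [Real.norm_of_nonneg hlog, Real.norm_of_nonneg (by positivity), one_mul] at h2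
    have h5 : (1 : ℝ) ≤ x ^ (1 / 8 : ℝ) := Real.one_le_rpow h4 (by norm_num)
    have h6 : (1 + Real.log x) ^ 2 ≤ (2 * x ^ (1 / 8 : ℝ)) ^ 2 :=
      pow_le_pow_left₀ (by linarith) (by linarith) 2
    have h7 : (x ^ (1 / 8 : ℝ)) ^ 2 = x ^ (1 / 4 : ℝ) := by
      rw [← Real.rpow_natCast, ← Real.rpow_mul hx0.le]
      norm_num
    have h8 : x ^ (1 / 4 : ℝ) * x ^ (1 / 4 : ℝ) = Real.sqrt x := by
      rw [← Real.rpow_add hx0, Real.sqrt_eq_rpow]
      norm_num
    rw [mul_pow, h7] at h6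
    have h9 : 0 < x ^ (1 / 4 : ℝ) := by positivity
    rw [div_le_iff₀ hε] at h3
    calc C * (1 + Real.log x) ^ 2 ≤ C * (2 ^ 2 * x ^ (1 / 4 : ℝ)) := by gcongr
      _ = 4 * C * x ^ (1 / 4 : ℝ) := by ring
      _ ≤ x ^ (1 / 4 : ℝ) * ε * x ^ (1 / 4 : ℝ) := by gcongr
      _ = ε * (x ^ (1 / 4 : ℝ) * x ^ (1 / 4 : ℝ)) := by ring
      _ = ε * Real.sqrt x := by rw [h8]
  exact tendsto_natCast_atTop_atTop.eventually h1

/-- **The lower bound.** -/
theorem lower (r m : ℕ) (hr1 : 1 ≤ r) (hm : 2 ≤ m) (A ε : ℝ) (hA : 0 ≤ A) (hε : 0 < ε) :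
    ∀ᶠ N : ℕ in atTop, ∀ P Q : ℤ[X], P.Monic → Q.Monic → Irreducible Q → Q.natDegree = m →
    Q ∣ P → P.natDegree = r →
    (∀ (l : ℕ) (t : ℤ), ∃ z : ℤ, kosT N (rootsOf P) l (N + t) = z) →
    P.coeff 0 ≠ 0 → |(P.coeff 0 : ℝ)| ≤ (N : ℝ) ^ A →
    (∀ β ∈ rootsOf Q, ‖β‖ ≤ (N : ℝ) ^ 2) → ∀ a : ℤ,
    m * Real.log ((N + 1 - 2 * r).factorial) - ε * N ≤ Real.log (W Q a (N + 1 - 2 * r)) := by
  obtain ⟨R, hR⟩ : ∃ R : ℝ, R = Real.log (r.factorial) := ⟨_, rfl⟩
  have hR0 : 0 ≤ R := by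
    rw [hR]
    exact Real.log_nonneg (by exact_mod_cast Nat.one_le_iff_ne_zero.2 r.factorial_ne_zero)
  obtain ⟨C, hC⟩ : ∃ C : ℝ, C = m * ((R + 1) * (2 * r * (2 * A + 1) + 1) + A + 2 * m ^ 2) :=
    ⟨_, rfl⟩
  have hC0 : 0 ≤ C := by rw [hC]; positivity
  have hsmall : ∀ᶠ N : ℕ in atTop, (r * (2 * A + 2) : ℝ) * (1 + Real.log N) ^ 2 ≤
      1 * Real.sqrt N := ev_log _ _ (by positivity) (by norm_num)
  filter_upwards [ev_log C ε hC0 hε, hsmall, eventually_ge_atTop (r ^ 2 + 2 * r + 4)]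
    with N h1 h2 h3
  intro P Q hP hQ hirr hQm hQP hPr hint hcoef hcoefA hroots a
  subst hQm
  obtain ⟨n, hn⟩ : ∃ n, n = N + 1 - 2 * r := ⟨_, rfl⟩
  rw [← hn]
  have hNr : r ^ 2 + 2 * r + 4 ≤ N := h3
  have hN1 : (1 : ℝ) ≤ N := by
    have : 1 ≤ N := by omega
    exact_mod_cast this
  have hlogN : 0 ≤ Real.log N := Real.log_nonneg hN1
  have hsqN : Real.sqrt N * Real.sqrt N = N := Real.mul_self_sqrt (by linarith)
  have hsq1 : 1 ≤ Real.sqrt N := Real.one_le_sqrt.2 hN1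
  -- the degree
  obtain ⟨d, hd⟩ : ∃ d : ℤ, (-1) ^ r * P.coeff 0 = d := ⟨_, rfl⟩
  have hd0 : d ≠ 0 := by
    rw [← hd]
    exact mul_ne_zero (pow_ne_zero _ (by norm_num)) hcoef
  have hdn : d.natAbs ≠ 0 := Int.natAbs_ne_zero.2 hd0
  have hdabs : (d.natAbs : ℝ) = |(P.coeff 0 : ℝ)| := by
    rw [← hd, Nat.cast_natAbs]
    push_cast
    rw [abs_mul, abs_pow, abs_neg, abs_one, one_pow, one_mul]
  have hlogd : Real.log d.natAbs ≤ A * Real.log N := by
    have h4 : (d.natAbs : ℝ) ≤ (N : ℝ) ^ A := by rw [hdabs]; exact hcoefA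
    have h5 := Real.log_le_log (by exact_mod_cast Nat.pos_of_ne_zero hdn) h4
    rwa [Real.log_rpow (by linarith)] at h5
  have hval : ∀ p : ℕ, p.Prime → (d.natAbs.factorization p : ℝ) ≤ 2 * A * Real.log N := by
    intro p hp
    have h4 : p ^ d.natAbs.factorization p ≤ d.natAbs :=
      Nat.le_of_dvd (Nat.pos_of_ne_zero hdn) (Nat.ordProj_dvd _ _)
    have h5 : (2 : ℝ) ^ d.natAbs.factorization p ≤ d.natAbs := by
      calc (2 : ℝ) ^ d.natAbs.factorization p ≤ (p : ℝ) ^ d.natAbs.factorization p := by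
            gcongr
            exact_mod_cast hp.two_le
        _ ≤ d.natAbs := by exact_mod_cast h4
    have h6 := Real.log_le_log (by positivity) h5
    rw [Real.log_pow] at h6
    have h7 : (1 / 2 : ℝ) ≤ Real.log 2 := by linarith [Real.log_two_gt_d9]
    have h8 : (0 : ℝ) ≤ d.natAbs.factorization p := Nat.cast_nonneg _
    nlinarith
  -- the separation
  obtain ⟨E, hE0, hEb, hE⟩ := sep hQ hirr hm (H := (N : ℝ) ^ 2) (by positivity) hroots
  have hEn : E.natAbs ≠ 0 := Int.natAbs_ne_zero.2 hE0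
  have hlogE : Real.log E.natAbs ≤ 2 * (Q.natDegree : ℝ) ^ 2 * (1 + Real.log N) := by
    have h4 : (E.natAbs : ℝ) = |(E : ℝ)| := by rw [Nat.cast_natAbs]; push_cast; rfl
    have h5 := Real.log_le_log (by exact_mod_cast Nat.pos_of_ne_zero hEn) (h4 ▸ hEb)
    rw [Real.log_pow, Real.log_pow, Real.log_mul (by norm_num) (by positivity),
      Real.log_pow] at h5
    have h6 : Real.log 2 ≤ 1 := by linarith [Real.log_two_lt_d9]
    have h7 : ((Q.natDegree - 1 : ℕ) : ℝ) ≤ Q.natDegree := by exact_mod_cast Nat.sub_le _ _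
    refine h5.trans ?_
    have h8 : Real.log 2 + ((2 : ℕ) : ℝ) * Real.log N ≤ 2 * (1 + Real.log N) := by
      push_cast
      linarith
    have h9 : (0 : ℝ) ≤ Real.log 2 + ((2 : ℕ) : ℝ) * Real.log N := by
      have := Real.log_two_gt_d9
      positivity
    calc (Q.natDegree : ℝ) * (((Q.natDegree - 1 : ℕ) : ℝ) *
          (Real.log 2 + ((2 : ℕ) : ℝ) * Real.log N))
        ≤ (Q.natDegree : ℝ) * ((Q.natDegree : ℝ) * (2 * (1 + Real.log N))) := by gcongr
      _ = _ := by ring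
  -- the divisibility
  have hnN : n ≤ N := by omega
  have hnr : n ≤ N - r := by omega
  have hn0 : 0 < n := by
    have : 2 * r ≤ r ^ 2 + 2 * r := Nat.le_add_left _ _
    omega
  have hs : r ≤ Nat.sqrt n := by
    rw [Nat.le_sqrt, ← pow_two]
    omega
  have hv : ∀ p : ℕ, p.Prime → (d.natAbs.factorization p + 1) * r ≤ N - r := by
    intro p hp
    have h4 : (((d.natAbs.factorization p + 1) * r + r : ℕ) : ℝ) ≤ N := by
      push_cast
      have h5 := hval p hp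
      calc ((d.natAbs.factorization p : ℝ) + 1) * r + r
          ≤ (2 * A * Real.log N + 1) * r + r := by gcongr
        _ = r * (2 * A * Real.log N + 2) := by ring
        _ ≤ r * ((2 * A + 2) * (1 + Real.log N)) := by
            gcongr
            nlinarith
        _ = r * (2 * A + 2) * (1 + Real.log N) := by ring
        _ ≤ r * (2 * A + 2) * (1 + Real.log N) ^ 2 := by
            gcongr
            nlinarith
        _ ≤ 1 * Real.sqrt N := h2
        _ ≤ N := by nlinarith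
    have h5 : (d.natAbs.factorization p + 1) * r + r ≤ N := by exact_mod_cast h4
    omega
  have hdvd := dvd_main hP hQ hirr hm hQP hr1 hPr N hint d hd hd0 E hE0 hE n (by omega) hs hv a
  obtain ⟨S, hS⟩ : ∃ S : Finset ℕ, S = (range (Nat.sqrt n + 1)).filter Nat.Prime := ⟨_, rfl⟩
  obtain ⟨l, hl⟩ : ∃ l : ℕ → ℕ, l = fun p =>
    (n / ((N - r) / ((d.natAbs.factorization p + 1) * r)) + 1) *
        (Q.natDegree * (r.factorial.factorization p + Nat.log p n)) := ⟨_, rfl⟩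
  have hL : (∏ p ∈ (range (Nat.sqrt n + 1)).filter Nat.Prime,
      p ^ ((n / ((N - r) / ((d.natAbs.factorization p + 1) * r)) + 1) *
        (Q.natDegree * (r.factorial.factorization p + Nat.log p n)))) = ∏ p ∈ S, p ^ l p := by
    rw [hS, hl]
  rw [hL] at hdvd
  have hSp : ∀ p ∈ S, p.Prime := by
    intro p hp
    rw [hS, Finset.mem_filter] at hp
    exact hp.2
  have hWn := W_ne_zero hQ hirr hm a n
  have hPn : (∏ p ∈ S, p ^ l p) ≠ 0 :=
    Finset.prod_ne_zero_iff.2 fun p hp => pow_ne_zero _ (hSp p hp).ne_zero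
  have hdE : (d.natAbs * E.natAbs) ^ (Q.natDegree * Nat.sqrt n) ≠ 0 :=
    pow_ne_zero _ (mul_ne_zero hdn hEn)
  have hle := Nat.le_of_dvd (Nat.pos_of_ne_zero (mul_ne_zero hWn (mul_ne_zero hPn hdE))) hdvd
  have hle' : ((n.factorial : ℝ)) ^ Q.natDegree ≤ (W Q a n : ℝ) * ((∏ p ∈ S, (p : ℝ) ^ l p) *
      ((d.natAbs : ℝ) * E.natAbs) ^ (Q.natDegree * Nat.sqrt n)) := by exact_mod_cast hle
  have hnf : (0 : ℝ) < n.factorial := by exact_mod_cast n.factorial_pos
  have hWr : (W Q a n : ℝ) ≠ 0 := by exact_mod_cast hWn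
  have hdr : (d.natAbs : ℝ) ≠ 0 := by exact_mod_cast hdn
  have hEr : (E.natAbs : ℝ) ≠ 0 := by exact_mod_cast hEn
  have hPr' : (∏ p ∈ S, (p : ℝ) ^ l p) ≠ 0 := by exact_mod_cast hPn
  have hlog := Real.log_le_log (by positivity) hle'
  rw [Real.log_pow, Real.log_mul hWr (mul_ne_zero hPr' (pow_ne_zero _ (mul_ne_zero hdr hEr))),
    Real.log_mul hPr' (pow_ne_zero _ (mul_ne_zero hdr hEr)), Real.log_pow,
    Real.log_mul hdr hEr] at hlog
  -- the size of the correction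
  obtain ⟨Λ, hΛ⟩ : ∃ Λ : ℝ, Λ = 1 + Real.log N := ⟨_, rfl⟩
  have hΛ1 : 1 ≤ Λ := by rw [hΛ]; linarith
  have hsN : ((Nat.sqrt n : ℕ) : ℝ) ≤ Real.sqrt N := by
    have h4 : ((Nat.sqrt n : ℕ) : ℝ) ≤ Real.sqrt n := Real.nat_sqrt_le_real_sqrt
    refine h4.trans (Real.sqrt_le_sqrt ?_)
    exact_mod_cast hnN
  have hm0 : (0 : ℝ) ≤ Q.natDegree := Nat.cast_nonneg _
  have hr0 : (0 : ℝ) ≤ r := Nat.cast_nonneg _
  have hterm : ∀ p ∈ S, Real.log ((p : ℝ) ^ l p) ≤
      Q.natDegree * ((R + 1) * (2 * r * (2 * A + 1) + 1)) * Λ ^ 2 := by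
    intro p hp
    have hpp := hSp p hp
    have hlogp : 0 ≤ Real.log p := Real.log_nonneg (by exact_mod_cast hpp.one_lt.le)
    rw [Real.log_pow, hl]
    have h4 : ((n / ((N - r) / ((d.natAbs.factorization p + 1) * r)) + 1 : ℕ) : ℝ) ≤
        (2 * r * (2 * A + 1) + 1) * Λ := by
      obtain ⟨X, hX⟩ : ∃ X, X = (d.natAbs.factorization p + 1) * r := ⟨_, rfl⟩
      have hX1 : 1 ≤ X := by rw [hX]; exact Nat.mul_pos (Nat.succ_pos _) hr1
      obtain ⟨k₀, hk₀⟩ : ∃ k₀, k₀ = (N - r) / X := ⟨_, rfl⟩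
      have hk1 : 1 ≤ k₀ := by
        rw [hk₀]
        exact (Nat.one_le_div_iff (by omega)).2 (hX ▸ hv p hpp)
      have hk2 : N - r < X * (k₀ + 1) := by
        rw [hk₀]
        exact Nat.lt_mul_div_succ _ (by omega)
      have hk3 : n ≤ 2 * X * k₀ := by
        have : X * (k₀ + 1) ≤ X * (2 * k₀) := Nat.mul_le_mul_left _ (by omega)
        calc n ≤ N - r := hnr
          _ ≤ X * (k₀ + 1) := hk2.le
          _ ≤ X * (2 * k₀) := this
          _ = 2 * X * k₀ := by ring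
      have hk4 : n / k₀ ≤ 2 * X := Nat.div_le_of_le_mul (by rw [mul_comm]; exact hk3)
      rw [← hX, ← hk₀]
      have h5 : ((n / k₀ + 1 : ℕ) : ℝ) ≤ 2 * X + 1 := by exact_mod_cast Nat.succ_le_succ hk4
      refine h5.trans ?_
      have h6 : (X : ℝ) ≤ (2 * A * Real.log N + 1) * r := by
        rw [hX]
        push_cast
        have := hval p hpp
        gcongr
      have h7 : 2 * A * Real.log N + 1 ≤ (2 * A + 1) * Λ := by rw [hΛ]; nlinarith
      calc 2 * (X : ℝ) + 1 ≤ 2 * ((2 * A * Real.log N + 1) * r) + 1 := by gcongr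
        _ ≤ 2 * ((2 * A + 1) * Λ * r) + Λ := by gcongr
        _ = _ := by ring
    have h5 : ((r.factorial.factorization p + Nat.log p n : ℕ) : ℝ) * Real.log p ≤
        (R + 1) * Λ := by
      have h6 : (r.factorial.factorization p : ℝ) * Real.log p ≤ R := by
        rw [← Real.log_pow, hR]
        apply Real.log_le_log (by have := hpp.pos; positivity)
        exact_mod_cast Nat.le_of_dvd r.factorial_pos (Nat.ordProj_dvd _ _)
      have h7 : (Nat.log p n : ℝ) * Real.log p ≤ Real.log N := by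
        rw [← Real.log_pow]
        apply Real.log_le_log (by have := hpp.pos; positivity)
        have := Nat.pow_log_le_self p hn0.ne'
        exact_mod_cast this.trans hnN
      push_cast
      rw [add_mul, hΛ]
      nlinarith
    have h6 : (0 : ℝ) ≤ ((r.factorial.factorization p + Nat.log p n : ℕ) : ℝ) * Real.log p := by
      positivity
    rw [Nat.cast_mul, Nat.cast_mul]
    calc ((n / ((N - r) / ((d.natAbs.factorization p + 1) * r)) + 1 : ℕ) : ℝ) *
          ((Q.natDegree : ℝ) * ((r.factorial.factorization p + Nat.log p n : ℕ) : ℝ)) * Real.log p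
        = ((n / ((N - r) / ((d.natAbs.factorization p + 1) * r)) + 1 : ℕ) : ℝ) *
          ((Q.natDegree : ℝ) *
            (((r.factorial.factorization p + Nat.log p n : ℕ) : ℝ) * Real.log p)) := by ring
      _ ≤ ((2 * r * (2 * A + 1) + 1) * Λ) * ((Q.natDegree : ℝ) * ((R + 1) * Λ)) := by
          apply mul_le_mul h4 _ (by positivity) (by positivity)
          exact mul_le_mul_of_nonneg_left h5 hm0
      _ = _ := by ring
  have hsum : Real.log (∏ p ∈ S, (p : ℝ) ^ l p) ≤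
      Real.sqrt N * (Q.natDegree * ((R + 1) * (2 * r * (2 * A + 1) + 1)) * Λ ^ 2) := by
    rw [Real.log_prod (fun p hp => pow_ne_zero _ (by exact_mod_cast (hSp p hp).ne_zero))]
    refine (Finset.sum_le_card_nsmul S _ _ hterm).trans ?_
    rw [nsmul_eq_mul]
    apply mul_le_mul_of_nonneg_right _ (by positivity)
    refine le_trans ?_ hsN
    have h4 : S ⊆ Icc 1 (Nat.sqrt n) := by
      intro p hp
      have h5 := hSp p hp
      rw [hS, Finset.mem_filter, Finset.mem_range] at hp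
      exact Finset.mem_Icc.2 ⟨h5.one_lt.le, by omega⟩
    have h5 := Finset.card_le_card h4
    rw [Nat.card_Icc] at h5
    exact_mod_cast h5
  have hpart2 : ((Q.natDegree * Nat.sqrt n : ℕ) : ℝ) * (Real.log d.natAbs + Real.log E.natAbs) ≤
      Real.sqrt N * (Q.natDegree * (A + 2 * (Q.natDegree : ℝ) ^ 2) * Λ ^ 2) := by
    have h4 : Real.log d.natAbs + Real.log E.natAbs ≤ (A + 2 * (Q.natDegree : ℝ) ^ 2) * Λ ^ 2 := by
      have h5 : A * Real.log N ≤ A * Λ ^ 2 := by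
        apply mul_le_mul_of_nonneg_left _ hA
        have : Real.log N ≤ Λ := by rw [hΛ]; linarith
        nlinarith
      have h6 : 2 * (Q.natDegree : ℝ) ^ 2 * (1 + Real.log N) ≤ 2 * (Q.natDegree : ℝ) ^ 2 * Λ ^ 2 := by
        apply mul_le_mul_of_nonneg_left _ (by positivity)
        rw [← hΛ]
        nlinarith
      linarith
    have h5 : (0 : ℝ) ≤ (A + 2 * (Q.natDegree : ℝ) ^ 2) * Λ ^ 2 := by positivity
    push_cast
    calc (Q.natDegree : ℝ) * (Nat.sqrt n : ℝ) * (Real.log d.natAbs + Real.log E.natAbs)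
        ≤ (Q.natDegree : ℝ) * Real.sqrt N * ((A + 2 * (Q.natDegree : ℝ) ^ 2) * Λ ^ 2) := by
          gcongr
      _ = _ := by ring
  have htotal : Real.sqrt N * (C * Λ ^ 2) ≤ ε * N := by
    have h4 := mul_le_mul_of_nonneg_left h1 (by linarith : (0 : ℝ) ≤ Real.sqrt N)
    rw [← hΛ] at h4
    calc Real.sqrt N * (C * Λ ^ 2) ≤ Real.sqrt N * (ε * Real.sqrt N) := h4
      _ = ε * (Real.sqrt N * Real.sqrt N) := by ring
      _ = ε * N := by rw [hsqN]
  have hCe : Real.sqrt N * (Q.natDegree * ((R + 1) * (2 * r * (2 * A + 1) + 1)) * Λ ^ 2) +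
      Real.sqrt N * (Q.natDegree * (A + 2 * (Q.natDegree : ℝ) ^ 2) * Λ ^ 2) =
      Real.sqrt N * (C * Λ ^ 2) := by
    rw [hC]
    ring
  linarith

end Pool.Agent.U256.CY
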