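import Mathlib

set_option autoImplicit false

/-! # Positive power series and the reality of Chern roots -/

open Finset Filter Topology

namespace Pool.Agent.U256.CY

/-- the complete symmetric functions of the family `w` -/
noncomputable def hs {ι : Type*} (s : Finset ι) (w : ι → ℂ) (j : ℕ) : ℂ :=
  PowerSeries.coeff j (∏ i ∈ s, PowerSeries.mk fun k => w i ^ k)

theorem hs_insert {ι : Type*} [DecidableEq ι] {s : Finset ι} {i : ι} (hi : i ∉ s) (w : ι → ℂ)
    (j : ℕ) : hs (insert i s) w j =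
      ∑ a ∈ Finset.HasAntidiagonal.antidiagonal j, w i ^ a.1 * hs s w a.2 := by
  unfold hs
  rw [Finset.prod_insert hi, PowerSeries.coeff_mul]
  simp

theorem hs_sum {ι : Type*} (s : Finset ι) (w : ι → ℂ) (u : ℂ) (h : ∀ i ∈ s, ‖w i * u‖ < 1) :
    Summable (fun j => ‖hs s w j * u ^ j‖) ∧
      ∑' j, hs s w j * u ^ j = ∏ i ∈ s, (1 - w i * u)⁻¹ := by
  classical
  induction s using Finset.induction with
  | empty =>
    have h1 : ∀ j : ℕ, hs (∅ : Finset ι) w j * u ^ j = if j = 0 then 1 else 0 := by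
      intro j
      unfold hs
      rw [Finset.prod_empty, PowerSeries.coeff_one]
      split_ifs with h
      · rw [h]; simp
      · simp
    constructor
    · apply summable_of_ne_finset_zero (s := {0})
      intro j hj
      rw [Finset.mem_singleton] at hj
      rw [h1, if_neg hj, norm_zero]
    · rw [tsum_congr h1, tsum_ite_eq, Finset.prod_empty]
  | insert i s hi ih =>
    obtain ⟨ih1, ih2⟩ := ih fun j hj => h j (Finset.mem_insert_of_mem hj)
    have hi1 := h i (Finset.mem_insert_self i s)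
    have hf : Summable fun j : ℕ => ‖(w i * u) ^ j‖ := by
      simp only [norm_pow]
      exact summable_geometric_of_lt_one (norm_nonneg _) hi1
    have h1 : ∀ j : ℕ, hs (insert i s) w j * u ^ j =
        ∑ a ∈ Finset.HasAntidiagonal.antidiagonal j, (w i * u) ^ a.1 * (hs s w a.2 * u ^ a.2) := by
      intro j
      rw [hs_insert hi, Finset.sum_mul]
      refine Finset.sum_congr rfl fun a ha => ?_
      have := Finset.HasAntidiagonal.mem_antidiagonal.1 ha
      rw [← this, pow_add, mul_pow]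
      ring
    obtain ⟨F, hF⟩ : ∃ F : ℕ → ℂ, F = fun j => (w i * u) ^ j := ⟨_, rfl⟩
    obtain ⟨G, hG⟩ : ∃ G : ℕ → ℂ, G = fun j => hs s w j * u ^ j := ⟨_, rfl⟩
    have hF1 : Summable fun j => ‖F j‖ := by rw [hF]; exact hf
    have hG1 : Summable fun j => ‖G j‖ := by rw [hG]; exact ih1
    have hG2 : ∑' j, G j = ∏ i ∈ s, (1 - w i * u)⁻¹ := by rw [hG]; exact ih2
    have hF2 : ∑' j, F j = (1 - w i * u)⁻¹ := by
      rw [hF]
      exact tsum_geometric_of_norm_lt_one hi1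
    have h2 : ∀ j : ℕ, hs (insert i s) w j * u ^ j =
        ∑ a ∈ Finset.HasAntidiagonal.antidiagonal j, F a.1 * G a.2 := by
      intro j
      rw [h1, hF, hG]
    have h3 := summable_norm_sum_mul_antidiagonal_of_summable_norm hF1 hG1
    have h4 := tsum_mul_tsum_eq_tsum_sum_antidiagonal_of_summable_norm hF1 hG1
    rw [hF2, hG2] at h4
    constructor
    · refine h3.congr fun j => ?_
      rw [h2]
    · rw [Finset.prod_insert hi, h4]
      exact tsum_congr h2

/-- **Pringsheim's theorem** for these series -/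
theorem pringsheim {ι : Type*} (s : Finset ι) (w : ι → ℂ)
    (hpos : ∀ j, ∃ x : ℝ, 0 ≤ x ∧ hs s w j = x) (i₀ : ι) (hi₀ : i₀ ∈ s)
    (hmax : ∀ i ∈ s, ‖w i‖ ≤ ‖w i₀‖) (hρ : 0 < ‖w i₀‖) : ∃ i ∈ s, w i = (‖w i₀‖ : ℂ) := by
  classical
  by_contra hcon
  push Not at hcon
  obtain ⟨ρ, hρd⟩ : ∃ ρ, ρ = ‖w i₀‖ := ⟨_, rfl⟩
  rw [← hρd] at hcon hmax hρ
  have hρc : (ρ : ℂ) ≠ 0 := by exact_mod_cast hρ.ne'
  have hw0 : w i₀ ≠ 0 := by
    intro h
    rw [h, norm_zero] at hρd
    exact hρ.ne' hρd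
  -- the inequality
  have hkey : ∀ t : ℝ, 0 < t → t < 1 →
      (1 - t)⁻¹ * (2 : ℝ)⁻¹ ^ s.card ≤ ∏ i ∈ s, ‖1 - w i * (t / ρ : ℝ)‖⁻¹ := by
    intro t ht0 ht1
    obtain ⟨u, hu⟩ : ∃ u : ℂ, u = ((t / ρ : ℝ) : ℂ) := ⟨_, rfl⟩
    obtain ⟨u', hu'⟩ : ∃ u' : ℂ, u' = (t : ℂ) / w i₀ := ⟨_, rfl⟩
    have hnu : ‖u‖ = t / ρ := by
      rw [hu, Complex.norm_real, Real.norm_of_nonneg (by positivity)]
    have hnu' : ‖u'‖ = t / ρ := by
      rw [hu', norm_div, Complex.norm_real, Real.norm_of_nonneg ht0.le, hρd]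
    have hlt : ∀ v : ℂ, ‖v‖ = t / ρ → ∀ i ∈ s, ‖w i * v‖ < 1 := by
      intro v hv i hi
      rw [norm_mul, hv]
      calc ‖w i‖ * (t / ρ) ≤ ρ * (t / ρ) := by
            apply mul_le_mul_of_nonneg_right (hmax i hi) (by positivity)
        _ = t := by field_simp
        _ < 1 := ht1
    obtain ⟨-, h2⟩ := hs_sum s w u (hlt u hnu)
    obtain ⟨h3, h4⟩ := hs_sum s w u' (hlt u' hnu')
    obtain ⟨h1, -⟩ := hs_sum s w u (hlt u hnu)
    have h5 : ∀ j, ‖hs s w j * u' ^ j‖ = ‖hs s w j * u ^ j‖ := by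
      intro j
      rw [norm_mul, norm_mul, norm_pow, norm_pow, hnu, hnu']
    have h6 : ∀ j, ((‖hs s w j * u ^ j‖ : ℝ) : ℂ) = hs s w j * u ^ j := by
      intro j
      obtain ⟨x, hx, hxe⟩ := hpos j
      rw [norm_mul, norm_pow, hnu, hxe, Complex.norm_real, Real.norm_of_nonneg hx, hu]
      push_cast
      rfl
    have h7 : ‖∑' j, hs s w j * u' ^ j‖ ≤ ‖∑' j, hs s w j * u ^ j‖ := by
      calc ‖∑' j, hs s w j * u' ^ j‖ ≤ ∑' j, ‖hs s w j * u' ^ j‖ := norm_tsum_le_tsum_norm h3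
        _ = ∑' j, ‖hs s w j * u ^ j‖ := tsum_congr h5
        _ = ‖((∑' j, ‖hs s w j * u ^ j‖ : ℝ) : ℂ)‖ := by
            rw [Complex.norm_real, Real.norm_of_nonneg (tsum_nonneg fun j => norm_nonneg _)]
        _ = ‖∑' j, hs s w j * u ^ j‖ := by
            rw [Complex.ofReal_tsum]
            congr 1
            exact tsum_congr h6
    rw [h2, h4, norm_prod, norm_prod] at h7
    simp only [norm_inv] at h7
    rw [hu] at h7
    refine le_trans ?_ h7
    rw [← Finset.mul_prod_erase s _ hi₀]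
    have h8 : ‖1 - w i₀ * u'‖ = 1 - t := by
      rw [hu', mul_div_cancel₀ _ hw0]
      rw [show (1 : ℂ) - (t : ℂ) = ((1 - t : ℝ) : ℂ) by push_cast; rfl, Complex.norm_real,
        Real.norm_of_nonneg (by linarith)]
    rw [h8]
    apply mul_le_mul_of_nonneg_left _ (inv_nonneg.2 (by linarith))
    have h9 : (2 : ℝ)⁻¹ ^ s.card ≤ (2 : ℝ)⁻¹ ^ (s.erase i₀).card := by
      apply pow_le_pow_of_le_one (by norm_num) (by norm_num)
      rw [Finset.card_erase_of_mem hi₀]
      exact Nat.sub_le _ _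
    refine h9.trans ?_
    rw [← Finset.prod_const]
    apply Finset.prod_le_prod (fun _ _ => by norm_num)
    intro i hi
    have hlt' := hlt u' hnu' i (Finset.mem_of_mem_erase hi)
    apply inv_anti₀
    · rw [norm_pos_iff]
      intro h0
      have : w i * u' = 1 := (sub_eq_zero.1 h0).symm
      rw [this, norm_one] at hlt'
      exact lt_irrefl _ hlt'
    · calc ‖1 - w i * u'‖ ≤ ‖(1 : ℂ)‖ + ‖w i * u'‖ := norm_sub_le _ _
        _ ≤ 2 := by rw [norm_one]; linarith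
  -- the limit
  obtain ⟨g, hg⟩ : ∃ g : ℝ → ℝ, g = fun t => ∏ i ∈ s, ‖1 - w i * (t / ρ : ℝ)‖⁻¹ := ⟨_, rfl⟩
  have hcont : ContinuousAt g 1 := by
    rw [hg]
    apply tendsto_finsetProd
    intro i hi
    apply ContinuousAt.inv₀
    · fun_prop
    · rw [norm_ne_zero_iff]
      intro h0
      have h1 : w i * ((1 / ρ : ℝ) : ℂ) = 1 := (sub_eq_zero.1 h0).symm
      apply hcon i hi
      push_cast at h1
      field_simp at h1
      exact h1
  have hlim1 : Tendsto g (𝓝[<] 1) (𝓝 (g 1)) := hcont.tendsto.mono_left nhdsWithin_le_nhds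
  have hlim2 : Tendsto (fun t : ℝ => (1 - t)⁻¹ * (2 : ℝ)⁻¹ ^ s.card) (𝓝[<] 1) atTop := by
    apply Tendsto.atTop_mul_const (by positivity)
    apply tendsto_inv_nhdsGT_zero.comp
    rw [tendsto_nhdsWithin_iff]
    constructor
    · have : Tendsto (fun t : ℝ => 1 - t) (𝓝 1) (𝓝 (1 - 1)) := by
        apply Continuous.tendsto
        fun_prop
      rw [sub_self] at this
      exact this.mono_left nhdsWithin_le_nhds
    · filter_upwards [self_mem_nhdsWithin] with t ht
      exact sub_pos.2 (Set.mem_Iio.1 ht)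
  have h1 := hlim1.eventually (gt_mem_nhds (show g 1 < g 1 + 1 by linarith))
  have h2 := hlim2.eventually_ge_atTop (g 1 + 1)
  have h3 : ∀ᶠ t : ℝ in 𝓝[<] 1, 0 < t := by
    apply mem_nhdsWithin_of_mem_nhds
    exact lt_mem_nhds (by norm_num)
  obtain ⟨t, ⟨⟨ht1, ht2⟩, ht3⟩, ht4⟩ :=
    (((h1.and h2).and h3).and self_mem_nhdsWithin).exists
  have h4 := hkey t ht3 ht4
  rw [hg] at ht1
  rw [hg] at ht2
  simp only at ht1 ht2
  linarith

/-- the sums over subsets -/
noncomputable def bs {r : ℕ} (ξ : Fin r → ℂ) (I : Finset (Fin r)) : ℂ := ∑ i ∈ I, ξ i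

/-- **Reality.** -/
theorem real_of_pos {r : ℕ} (ξ : Fin r → ℂ)
    (h : ∀ b, 1 ≤ b → b ≤ r → ∀ j, ∃ x : ℝ, 0 ≤ x ∧ hs (powersetCard b univ) (bs ξ) j = x)
    (i : Fin r) : (ξ i).im = 0 := by
  classical
  by_contra hi
  -- the non-real element with maximal real part
  obtain ⟨T, hT⟩ : ∃ T : Finset (Fin r), T = univ.filter fun i => (ξ i).im ≠ 0 := ⟨_, rfl⟩
  have hTne : T.Nonempty := ⟨i, by rw [hT, Finset.mem_filter]; exact ⟨Finset.mem_univ i, hi⟩⟩
  obtain ⟨j, hjT, hjmax⟩ := Finset.exists_max_image T (fun i => (ξ i).re) hTne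
  rw [hT, Finset.mem_filter] at hjT
  obtain ⟨A, hA⟩ : ∃ A : Finset (Fin r), A = univ.filter fun i => (ξ j).re < (ξ i).re := ⟨_, rfl⟩
  have hAreal : ∀ i ∈ A, (ξ i).im = 0 := by
    intro i hiA
    by_contra h0
    rw [hA, Finset.mem_filter] at hiA
    have := hjmax i (by rw [hT, Finset.mem_filter]; exact ⟨Finset.mem_univ i, h0⟩)
    linarith [hiA.2]
  have hjA : j ∉ A := by
    rw [hA, Finset.mem_filter]
    intro h0
    exact lt_irrefl _ h0.2
  obtain ⟨I₀, hI₀⟩ : ∃ I₀, I₀ = insert j A := ⟨_, rfl⟩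
  have hcard : I₀.card = A.card + 1 := by rw [hI₀, Finset.card_insert_of_notMem hjA]
  have hbr : A.card + 1 ≤ r := by
    rw [← hcard]
    have := Finset.card_le_univ I₀
    rwa [Fintype.card_fin] at this
  -- the maximal real part
  have hre : ∀ I ∈ powersetCard (A.card + 1) (univ : Finset (Fin r)),
      (bs ξ I).re ≤ (bs ξ I₀).re := by
    intro I hI
    rw [Finset.mem_powersetCard] at hI
    have h1 : ∀ J : Finset (Fin r), (bs ξ J).re = ∑ i ∈ J, ((ξ i).re - (ξ j).re) +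
        J.card * (ξ j).re := by
      intro J
      unfold bs
      rw [Complex.re_sum, Finset.sum_sub_distrib, Finset.sum_const, nsmul_eq_mul]
      ring
    rw [h1, h1, hI.2, hcard]
    have h2 : ∑ i ∈ I, ((ξ i).re - (ξ j).re) ≤ ∑ i ∈ A, ((ξ i).re - (ξ j).re) := by
      rw [← Finset.sum_filter_add_sum_filter_not I (fun i => (ξ j).re < (ξ i).re)]
      have h3 : ∑ i ∈ I with ¬ (ξ j).re < (ξ i).re, ((ξ i).re - (ξ j).re) ≤ 0 := by
        apply Finset.sum_nonpos
        intro i hi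
        rw [Finset.mem_filter] at hi
        linarith [not_lt.1 hi.2]
      have h4 : ∑ i ∈ I with (ξ j).re < (ξ i).re, ((ξ i).re - (ξ j).re) ≤
          ∑ i ∈ A, ((ξ i).re - (ξ j).re) := by
        apply Finset.sum_le_sum_of_subset_of_nonneg
        · intro i hi
          rw [Finset.mem_filter] at hi
          rw [hA, Finset.mem_filter]
          exact ⟨Finset.mem_univ i, hi.2⟩
        · intro i hi _
          rw [hA, Finset.mem_filter] at hi
          linarith [hi.2]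
      linarith
    have h3 : ∑ i ∈ I₀, ((ξ i).re - (ξ j).re) = ∑ i ∈ A, ((ξ i).re - (ξ j).re) := by
      rw [hI₀, Finset.sum_insert hjA, sub_self, zero_add]
    rw [h3]
    linarith
  have him : (bs ξ I₀).im ≠ 0 := by
    unfold bs
    rw [hI₀, Finset.sum_insert hjA, Complex.add_im, Complex.im_sum,
      Finset.sum_eq_zero hAreal, add_zero]
    exact hjT.2
  have hI₀m : I₀ ∈ powersetCard (A.card + 1) (univ : Finset (Fin r)) :=
    Finset.mem_powersetCard.2 ⟨Finset.subset_univ _, hcard⟩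
  obtain ⟨I₁, hI₁m, hI₁⟩ := Finset.exists_max_image (powersetCard (A.card + 1)
    (univ : Finset (Fin r))) (fun I => ‖bs ξ I‖) ⟨I₀, hI₀m⟩
  have hlt : (bs ξ I₀).re < ‖bs ξ I₀‖ := by
    have h1 := Complex.abs_re_lt_norm.2 him
    exact lt_of_le_of_lt (le_abs_self _) h1
  have hpos : 0 < ‖bs ξ I₁‖ := by
    have h1 := hI₁ I₀ hI₀m
    have h2 : 0 < ‖bs ξ I₀‖ := by
      rw [norm_pos_iff]
      intro h0
      rw [h0] at him
      exact him rfl
    linarith
  obtain ⟨I₂, hI₂m, hI₂⟩ := pringsheim (powersetCard (A.card + 1) (univ : Finset (Fin r)))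
    (bs ξ) (h _ (by omega) hbr) I₁ hI₁m hI₁ hpos
  have h1 := hre I₂ hI₂m
  rw [hI₂, Complex.ofReal_re] at h1
  have h2 := hI₁ I₀ hI₀m
  linarith

end Pool.Agent.U256.CY
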