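import Pool.Agent.U256.CY6

set_option autoImplicit false

/-! # Location of the Chern roots -/

open Finset Filter Topology

namespace Pool.Agent.U256.CY

/-- the elementary symmetric functions -/
noncomputable def es {r : ℕ} (ξ : Fin r → ℂ) (k : ℕ) : ℂ :=
  ∑ t ∈ powersetCard k (univ : Finset (Fin r)), ∏ i ∈ t, ξ i

theorem es_eq {r : ℕ} (ξ : Fin r → ℂ) (k : ℕ) : (univ.val.map ξ).esymm k = es ξ k :=
  Finset.esymm_map_val ξ univ k

theorem prod_add_eq {r : ℕ} (ξ : Fin r → ℂ) (s : ℂ) :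
    ∏ i, (s + ξ i) = ∑ k ∈ range (r + 1), es ξ k * s ^ (r - k) := by
  have h := Multiset.prod_X_add_C_eq_sum_esymm (univ.val.map ξ)
  have h1 := congrArg (Polynomial.eval s) h
  rw [Polynomial.eval_multiset_prod, Multiset.map_map, Multiset.map_map,
    Polynomial.eval_finsetSum, Multiset.card_map] at h1
  have h2 : Multiset.card (univ : Finset (Fin r)).val = r := by simp
  rw [h2] at h1
  have h3 : ∏ i, (s + ξ i) = (Multiset.map ((Polynomial.eval s ∘ fun a => Polynomial.X +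
      Polynomial.C a) ∘ ξ) univ.val).prod := by
    rw [Finset.prod]
    congr 1
    refine Multiset.map_congr rfl fun i _ => ?_
    simp
  rw [h3, h1]
  refine Finset.sum_congr rfl fun k _ => ?_
  rw [es_eq]
  simp

/-- **Positivity.** -/
theorem nonneg_of_es {r : ℕ} (ξ : Fin r → ℂ) (hreal : ∀ i, (ξ i).im = 0)
    (h : ∀ k ≤ r, 0 ≤ (es ξ k).re) (i : Fin r) : 0 ≤ (ξ i).re := by
  by_contra hi
  push Not at hi
  obtain ⟨s, hs⟩ : ∃ s : ℝ, s = -(ξ i).re := ⟨_, rfl⟩
  have hs0 : 0 < s := by linarith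
  have hξ : ξ i = ((-s : ℝ) : ℂ) := by
    apply Complex.ext
    · simp [hs]
    · simp [hreal i]
  have h1 : ∏ i, ((s : ℂ) + ξ i) = 0 := by
    apply Finset.prod_eq_zero (Finset.mem_univ i)
    rw [hξ]
    push_cast
    ring
  rw [prod_add_eq] at h1
  have h2 := congrArg Complex.re h1
  rw [Complex.re_sum, Complex.zero_re] at h2
  have h3 : ∀ k ∈ range (r + 1), 0 ≤ (es ξ k * (s : ℂ) ^ (r - k)).re := by
    intro k hk
    rw [← Complex.ofReal_pow, Complex.re_mul_ofReal]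
    exact mul_nonneg (h k (by rw [Finset.mem_range] at hk; omega)) (by positivity)
  have h4 : s ^ r ≤ ∑ k ∈ range (r + 1), (es ξ k * (s : ℂ) ^ (r - k)).re := by
    refine le_trans ?_ (Finset.single_le_sum h3 (Finset.mem_range.2 (Nat.succ_pos r)))
    rw [← Complex.ofReal_pow, Complex.re_mul_ofReal]
    unfold es
    simp
  have h5 : 0 < s ^ r := by positivity
  linarith

theorem continuous_es {r : ℕ} (k : ℕ) : Continuous fun ξ : Fin r → ℂ => es ξ k := by
  unfold es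
  fun_prop

theorem continuous_hs {r : ℕ} {ι : Type*} (s : Finset ι) (w : (Fin r → ℂ) → ι → ℂ)
    (hw : ∀ i, Continuous fun ξ => w ξ i) (j : ℕ) : Continuous fun ξ => hs s (w ξ) j := by
  classical
  induction s using Finset.induction generalizing j with
  | empty =>
    unfold hs
    simp only [Finset.prod_empty]
    exact continuous_const
  | insert i s hi ih =>
    have h1 : (fun ξ => hs (insert i s) (w ξ) j) = fun ξ =>
        ∑ a ∈ Finset.HasAntidiagonal.antidiagonal j, w ξ i ^ a.1 * hs s (w ξ) a.2 := by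
      funext ξ
      exact hs_insert hi (w ξ) j
    rw [h1]
    apply continuous_finsetSum
    intro a _
    exact ((hw i).pow _).mul (ih a.2)

theorem hs_scale {ι : Type*} (s : Finset ι) (w : ι → ℂ) (c : ℂ) (j : ℕ) :
    hs s (fun i => c * w i) j = c ^ j * hs s w j := by
  unfold hs
  have h1 : ∏ i ∈ s, (PowerSeries.mk fun k => (c * w i) ^ k) =
      PowerSeries.rescale c (∏ i ∈ s, PowerSeries.mk fun k => w i ^ k) := by
    rw [map_prod]
    refine Finset.prod_congr rfl fun i _ => ?_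
    ext k
    rw [PowerSeries.coeff_rescale, PowerSeries.coeff_mk, PowerSeries.coeff_mk, mul_pow]
  rw [h1, PowerSeries.coeff_rescale]

theorem es_scale {r : ℕ} (ξ : Fin r → ℂ) (c : ℂ) (k : ℕ) :
    es (fun i => c * ξ i) k = c ^ k * es ξ k := by
  unfold es
  rw [Finset.mul_sum]
  refine Finset.sum_congr rfl fun t ht => ?_
  rw [Finset.prod_mul_distrib, Finset.prod_const, (Finset.mem_powersetCard.1 ht).2]

/-- the conditions up to `M` with a bad root -/
def Bad (r : ℕ) (η : ℝ) (M : ℕ) : Set (Fin r → ℂ) :=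
  {ξ | (∀ i, ‖ξ i‖ ≤ 2) ∧ (∀ k, 0 ≤ (es ξ k).re) ∧
    (∀ b, 1 ≤ b → b ≤ r → ∀ j ≤ M, (hs (powersetCard b univ) (bs ξ) j).im = 0 ∧
      0 ≤ (hs (powersetCard b univ) (bs ξ) j).re) ∧
    ∃ i, ∀ y : ℝ, 0 ≤ y → η ≤ ‖ξ i - y‖}

theorem closed_bad (r : ℕ) (η : ℝ) (M : ℕ) : IsClosed (Bad r η M) := by
  have h1 : IsClosed {ξ : Fin r → ℂ | ∀ i, ‖ξ i‖ ≤ 2} := by
    rw [Set.ofPred_forall]
    exact isClosed_iInter fun i => isClosed_le (by fun_prop) continuous_const
  have h2 : IsClosed {ξ : Fin r → ℂ | ∀ k, 0 ≤ (es ξ k).re} := by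
    rw [Set.ofPred_forall]
    exact isClosed_iInter fun k => isClosed_le continuous_const
      (Complex.continuous_re.comp (continuous_es k))
  have hc : ∀ b j, Continuous fun ξ : Fin r → ℂ => hs (powersetCard b univ) (bs ξ) j := by
    intro b j
    apply continuous_hs
    intro I
    unfold bs
    fun_prop
  have h3 : IsClosed {ξ : Fin r → ℂ | ∀ b, 1 ≤ b → b ≤ r → ∀ j ≤ M,
      (hs (powersetCard b univ) (bs ξ) j).im = 0 ∧
      0 ≤ (hs (powersetCard b univ) (bs ξ) j).re} := by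
    simp only [Set.ofPred_forall, Set.ofPred_and]
    refine isClosed_iInter fun b => isClosed_iInter fun _ => isClosed_iInter fun _ =>
      isClosed_iInter fun j => isClosed_iInter fun _ => IsClosed.inter ?_ ?_
    · exact isClosed_eq (Complex.continuous_im.comp (hc b j)) continuous_const
    · exact isClosed_le continuous_const (Complex.continuous_re.comp (hc b j))
  have h4 : IsClosed {ξ : Fin r → ℂ | ∃ i, ∀ y : ℝ, 0 ≤ y → η ≤ ‖ξ i - y‖} := by
    simp only [Set.ofPred_exists, Set.ofPred_forall]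
    refine isClosed_iUnion_of_finite fun i => isClosed_iInter fun y => isClosed_iInter fun _ =>
      isClosed_le continuous_const (by fun_prop)
  have h5 : Bad r η M = {ξ : Fin r → ℂ | ∀ i, ‖ξ i‖ ≤ 2} ∩
      ({ξ : Fin r → ℂ | ∀ k, 0 ≤ (es ξ k).re} ∩
      ({ξ : Fin r → ℂ | ∀ b, 1 ≤ b → b ≤ r → ∀ j ≤ M,
      (hs (powersetCard b univ) (bs ξ) j).im = 0 ∧
      0 ≤ (hs (powersetCard b univ) (bs ξ) j).re} ∩
      {ξ : Fin r → ℂ | ∃ i, ∀ y : ℝ, 0 ≤ y → η ≤ ‖ξ i - y‖})) := rfl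
  rw [h5]
  exact h1.inter (h2.inter (h3.inter h4))

theorem exists_empty (r : ℕ) (η : ℝ) (hη : 0 < η) : ∃ M, Bad r η M = ∅ := by
  by_contra hcon
  push Not at hcon
  have hmono : ∀ M, Bad r η (M + 1) ⊆ Bad r η M := by
    rintro M ξ ⟨h1, h2, h3, h4⟩
    exact ⟨h1, h2, fun b hb1 hb2 j hj => h3 b hb1 hb2 j (by omega), h4⟩
  have hcomp : IsCompact (Bad r η 0) := by
    apply IsCompact.of_isClosed_subset (isCompact_univ_pi fun _ : Fin r =>
      isCompact_closedBall (0 : ℂ) 2) (closed_bad r η 0)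
    rintro ξ ⟨h1, -⟩
    rw [Set.mem_univ_pi]
    intro i
    rw [mem_closedBall_zero_iff]
    exact h1 i
  obtain ⟨ξ, hξ⟩ := IsCompact.nonempty_iInter_of_sequence_nonempty_isCompact_isClosed
    (fun M => Bad r η M) hmono (fun M => hcon M) hcomp
    (closed_bad r η)
  rw [Set.mem_iInter] at hξ
  have hreal : ∀ i, (ξ i).im = 0 := by
    apply real_of_pos
    intro b hb1 hb2 j
    obtain ⟨-, -, h3, -⟩ := hξ j
    obtain ⟨h4, h5⟩ := h3 b hb1 hb2 j le_rfl
    refine ⟨_, h5, ?_⟩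
    apply Complex.ext
    · simp
    · simp [h4]
  obtain ⟨-, h2, -, i, hi⟩ := hξ 0
  have hnn := nonneg_of_es ξ hreal (fun k _ => h2 k) i
  have h3 := hi _ hnn
  have h4 : ξ i = ((ξ i).re : ℂ) := by
    apply Complex.ext
    · simp
    · simp [hreal i]
  rw [← h4, sub_self, norm_zero] at h3
  linarith

/-- **Location of the Chern roots.** -/
theorem location (r : ℕ) (η : ℝ) (hη : 0 < η) : ∃ M : ℕ, ∀ (x : Fin r → ℂ) (c : ℝ), 0 < c →
    (∀ i, ‖x i‖ ≤ 2 * c) → (∀ k, 0 ≤ (es x k).re) →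
    (∀ b, 1 ≤ b → b ≤ r → ∀ j ≤ M, (hs (powersetCard b univ) (bs x) j).im = 0 ∧
      0 ≤ (hs (powersetCard b univ) (bs x) j).re) →
    ∀ i, ∃ y : ℝ, 0 ≤ y ∧ ‖x i - y‖ ≤ η * c := by
  obtain ⟨M, hM⟩ := exists_empty r η hη
  refine ⟨M, fun x c hc h1 h2 h3 i => ?_⟩
  have hcc : (c : ℂ) ≠ 0 := by exact_mod_cast hc.ne'
  obtain ⟨ξ, hξ⟩ : ∃ ξ : Fin r → ℂ, ξ = fun i => ((c⁻¹ : ℝ) : ℂ) * x i := ⟨_, rfl⟩
  have hnot : ξ ∉ Bad r η M := by rw [hM]; exact Set.notMem_empty _
  by_contra hcon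
  push Not at hcon
  apply hnot
  have hbs : bs ξ = fun I => ((c⁻¹ : ℝ) : ℂ) * bs x I := by
    funext I
    unfold bs
    rw [hξ, Finset.mul_sum]
  refine ⟨?_, ?_, ?_, i, ?_⟩
  · intro i
    rw [hξ]
    simp only
    rw [norm_mul, Complex.norm_real, Real.norm_of_nonneg (by positivity)]
    have := h1 i
    rw [inv_mul_le_iff₀ hc]
    linarith
  · intro k
    rw [hξ, es_scale, ← Complex.ofReal_pow, Complex.re_ofReal_mul]
    exact mul_nonneg (by positivity) (h2 k)
  · intro b hb1 hb2 j hj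
    obtain ⟨h4, h5⟩ := h3 b hb1 hb2 j hj
    rw [hbs, hs_scale, ← Complex.ofReal_pow, Complex.re_ofReal_mul, Complex.im_ofReal_mul, h4,
      mul_zero]
    exact ⟨rfl, mul_nonneg (by positivity) h5⟩
  · intro y hy
    have h4 := hcon (c * y) (by positivity)
    have h5 : ξ i - y = ((c⁻¹ : ℝ) : ℂ) * (x i - ((c * y : ℝ) : ℂ)) := by
      rw [hξ]
      push_cast
      field_simp
    rw [h5, norm_mul, Complex.norm_real, Real.norm_of_nonneg (by positivity)]
    rw [← div_eq_inv_mul, le_div_iff₀ hc]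
    exact h4.le

end Pool.Agent.U256.CY
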