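import Mathlib

set_option autoImplicit false

/-! # Upper bounds of products of consecutive shifts -/

open Finset Filter

namespace Pool.Agent.U256.CY

/-- the product of the distances -/
noncomputable def Fp (n h : ℕ) (x : ℝ) : ℝ := ∏ t ∈ range n, (|(t : ℝ) - x| + h)

theorem Fp_pos (n h : ℕ) (hh : 1 ≤ h) (x : ℝ) : 0 < Fp n h x := by
  unfold Fp
  apply Finset.prod_pos
  intro t _
  have : (1 : ℝ) ≤ h := by exact_mod_cast hh
  have := abs_nonneg ((t : ℝ) - x)
  linarith

theorem prod_shift (K h : ℕ) : ∏ k ∈ range K, ((k : ℝ) + 1 + h) =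
    (K.factorial : ℝ) * ((h + K).choose K : ℝ) := by
  have h1 := Nat.ascFactorial_eq_prod_range (h + 1) K
  rw [Nat.ascFactorial_eq_factorial_mul_choose] at h1
  have h2 : (((K.factorial * (h + K).choose K : ℕ)) : ℝ) = ((∏ i ∈ range K, (h + 1 + i) : ℕ) : ℝ) := by
    rw [h1]
  push_cast at h2
  rw [h2]
  refine Finset.prod_congr rfl fun k _ => ?_
  ring

theorem choose_mono' (n h K : ℕ) (hK : K ≤ n) : (h + K).choose K ≤ (n + h).choose h := by
  rw [← Nat.choose_symm_add]
  apply Nat.choose_le_choose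
  omega

theorem Fp_one (n h : ℕ) (x : ℝ) (hx0 : 0 ≤ x) (hxn : x < n) :
    Fp n h x * (n.choose (⌊x⌋₊ + 1) : ℝ) ≤ (n.factorial : ℝ) * ((n + h).choose h : ℝ) ^ 2 := by
  obtain ⟨j, hj⟩ : ∃ j, j = ⌊x⌋₊ := ⟨_, rfl⟩
  have hj1 : (j : ℝ) ≤ x := by rw [hj]; exact Nat.floor_le hx0
  have hj2 : x < j + 1 := by rw [hj]; exact Nat.lt_floor_add_one x
  have hjn : j < n := by
    have : (j : ℝ) < n := lt_of_le_of_lt hj1 hxn
    exact_mod_cast this
  obtain ⟨q, hq⟩ : ∃ q, n = (j + 1) + q := ⟨n - (j + 1), by omega⟩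
  rw [← hj]
  have h1 : ∏ t ∈ range (j + 1), (|(t : ℝ) - x| + h) ≤
      ((j + 1).factorial : ℝ) * ((h + (j + 1)).choose (j + 1) : ℝ) := by
    rw [← prod_shift, ← Finset.prod_range_reflect]
    apply Finset.prod_le_prod
    · intro t _
      positivity
    · intro t ht
      rw [Finset.mem_range] at ht
      have h2 : ((j + 1 - 1 - t : ℕ) : ℝ) = j - t := by
        rw [show j + 1 - 1 - t = j - t by omega, Nat.cast_sub (by omega)]
      have h3 : (((j + 1 - 1 - t : ℕ) : ℝ)) ≤ x := by
        rw [h2]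
        have : (0 : ℝ) ≤ t := Nat.cast_nonneg t
        linarith
      rw [abs_of_nonpos (by linarith), h2]
      linarith
  have h2 : ∏ t ∈ range q, (|((j + 1 + t : ℕ) : ℝ) - x| + h) ≤
      (q.factorial : ℝ) * ((h + q).choose q : ℝ) := by
    rw [← prod_shift]
    apply Finset.prod_le_prod
    · intro t _
      positivity
    · intro t _
      have h3 : (0 : ℝ) ≤ t := Nat.cast_nonneg t
      push_cast
      rw [abs_of_nonneg (by linarith)]
      linarith
  have h3 : Fp n h x = (∏ t ∈ range (j + 1), (|(t : ℝ) - x| + h)) *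
      ∏ t ∈ range q, (|((j + 1 + t : ℕ) : ℝ) - x| + h) := by
    unfold Fp
    rw [hq, Finset.prod_range_add]
  have h4 : ((h + (j + 1)).choose (j + 1) : ℝ) ≤ ((n + h).choose h : ℝ) := by
    exact_mod_cast choose_mono' n h (j + 1) (by omega)
  have h5 : ((h + q).choose q : ℝ) ≤ ((n + h).choose h : ℝ) := by
    exact_mod_cast choose_mono' n h q (by omega)
  have h6 : (n.factorial : ℝ) = (n.choose (j + 1) : ℝ) * ((j + 1).factorial : ℝ) *
      (q.factorial : ℝ) := by
    have := Nat.choose_mul_factorial_mul_factorial (show j + 1 ≤ n by omega)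
    rw [show n - (j + 1) = q by omega] at this
    exact_mod_cast this.symm
  have h7 : (0 : ℝ) ≤ ((j + 1).factorial : ℝ) * ((h + (j + 1)).choose (j + 1) : ℝ) := by positivity
  rw [h3, h6]
  calc (∏ t ∈ range (j + 1), (|(t : ℝ) - x| + h)) *
        (∏ t ∈ range q, (|((j + 1 + t : ℕ) : ℝ) - x| + h)) * (n.choose (j + 1) : ℝ)
      ≤ (((j + 1).factorial : ℝ) * ((n + h).choose h : ℝ)) *
        ((q.factorial : ℝ) * ((n + h).choose h : ℝ)) * (n.choose (j + 1) : ℝ) := by
        apply mul_le_mul_of_nonneg_right _ (Nat.cast_nonneg _)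
        apply mul_le_mul
        · exact h1.trans (by gcongr)
        · exact h2.trans (by gcongr)
        · exact Finset.prod_nonneg fun t _ => by positivity
        · positivity
    _ = _ := by ring

theorem Fp_two (n h : ℕ) (x : ℝ) (hxn : n ≤ x) :
    Fp n h x ≤ (n.factorial : ℝ) * ((⌊x⌋₊ + 1 + h).choose n : ℝ) := by
  obtain ⟨j, hj⟩ : ∃ j, j = ⌊x⌋₊ := ⟨_, rfl⟩
  have hj2 : x < j + 1 := by rw [hj]; exact Nat.lt_floor_add_one x
  have hnj : n ≤ j := by rw [hj]; exact Nat.le_floor hxn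
  rw [← hj]
  have h1 := Nat.descFactorial_eq_prod_range (j + 1 + h) n
  rw [Nat.descFactorial_eq_factorial_mul_choose] at h1
  have h2 : (n.factorial : ℝ) * ((j + 1 + h).choose n : ℝ) =
      ∏ t ∈ range n, (((j + 1 + h - t : ℕ)) : ℝ) := by exact_mod_cast h1
  rw [h2]
  unfold Fp
  apply Finset.prod_le_prod
  · intro t _
    positivity
  · intro t ht
    rw [Finset.mem_range] at ht
    have h3 : (t : ℝ) ≤ n := by exact_mod_cast ht.le
    rw [abs_of_nonpos (by linarith), Nat.cast_sub (by omega)]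
    push_cast
    linarith

theorem lf_lower (n : ℕ) : n * Real.log n - n ≤ Real.log n.factorial := by
  induction n with
  | zero => simp
  | succ n ih =>
    rcases Nat.eq_zero_or_pos n with rfl | hn
    · simp
    · have hn' : (0 : ℝ) < n := by exact_mod_cast hn
      have h1 : Real.log (n + 1 : ℝ) - Real.log n ≤ 1 / n := by
        rw [← Real.log_div (by positivity) hn'.ne']
        have h2 := Real.log_le_sub_one_of_pos (show (0 : ℝ) < (n + 1) / n by positivity)
        refine h2.trans (le_of_eq ?_)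
        field_simp
        ring
      rw [Nat.factorial_succ]
      push_cast
      rw [Real.log_mul (by positivity) (by exact_mod_cast n.factorial_ne_zero)]
      have h3 : n * (Real.log (n + 1 : ℝ) - Real.log n) ≤ 1 := by
        calc (n : ℝ) * (Real.log (n + 1 : ℝ) - Real.log n) ≤ n * (1 / n) := by gcongr
          _ = 1 := by field_simp
      linarith

theorem lf_upper (n : ℕ) (hn : 1 ≤ n) :
    Real.log n.factorial ≤ (n + 1) * Real.log n - n + 1 := by
  induction n, hn using Nat.le_induction with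
  | base => simp
  | succ n hn ih =>
    have hn' : (0 : ℝ) < n := by exact_mod_cast hn
    have h1 : 1 / (n + 1) ≤ Real.log (n + 1 : ℝ) - Real.log n := by
      rw [← Real.log_div (by positivity) hn'.ne']
      have h2 := Real.one_sub_inv_le_log_of_pos (show (0 : ℝ) < (n + 1) / n by positivity)
      refine le_trans (le_of_eq ?_) h2
      field_simp
      ring
    rw [Nat.factorial_succ]
    push_cast
    rw [Real.log_mul (by positivity) (by exact_mod_cast n.factorial_ne_zero)]
    have h3 : 1 ≤ (n + 1) * (Real.log (n + 1 : ℝ) - Real.log n) := by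
      calc (1 : ℝ) = (n + 1) * (1 / (n + 1)) := by field_simp
        _ ≤ (n + 1) * (Real.log (n + 1 : ℝ) - Real.log n) := by gcongr
    linarith

/-- the entropy bound -/
theorem log_choose (n i : ℕ) (hi1 : 1 ≤ i) (hin : i ≤ n) :
    n * Real.binEntropy (i / n) - 2 * Real.log n - 2 ≤ Real.log (n.choose i) := by
  have hn : 1 ≤ n := hi1.trans hin
  have hn' : (1 : ℝ) ≤ n := by exact_mod_cast hn
  have hlogn : 0 ≤ Real.log n := Real.log_nonneg hn'
  rcases Nat.lt_or_ge i n with h | h
  · obtain ⟨q, rfl⟩ : ∃ q, n = i + q := ⟨n - i, by omega⟩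
    have hq : 1 ≤ q := by omega
    have hi' : (1 : ℝ) ≤ i := by exact_mod_cast hi1
    have hq' : (1 : ℝ) ≤ q := by exact_mod_cast hq
    have hi0 : (0 : ℝ) < i := by linarith
    have hq0 : (0 : ℝ) < q := by linarith
    have hiq0 : (0 : ℝ) < ((i + q : ℕ) : ℝ) := by push_cast; linarith
    have h1 : ((i + q).factorial : ℝ) = ((i + q).choose i : ℝ) * (i.factorial : ℝ) *
        (q.factorial : ℝ) := by
      have := Nat.choose_mul_factorial_mul_factorial (show i ≤ i + q by omega)
      rw [Nat.add_sub_cancel_left] at this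
      exact_mod_cast this.symm
    have hch : ((i + q).choose i : ℝ) ≠ 0 := by
      exact_mod_cast (Nat.choose_pos (show i ≤ i + q by omega)).ne'
    have h2 : Real.log (i + q).factorial = Real.log ((i + q).choose i) + Real.log i.factorial +
        Real.log q.factorial := by
      rw [h1, Real.log_mul (mul_ne_zero hch (by positivity)) (by positivity),
        Real.log_mul hch (by positivity)]
    have h3 := lf_lower (i + q)
    have h4 := lf_upper i hi1
    have h5 := lf_upper q hq
    have h6 : ((i + q : ℕ) : ℝ) * Real.binEntropy (i / ((i + q : ℕ) : ℝ)) =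
        ((i + q : ℕ) : ℝ) * Real.log ((i + q : ℕ) : ℝ) - i * Real.log i - q * Real.log q := by
      unfold Real.binEntropy
      have e1 : 1 - (i : ℝ) / ((i + q : ℕ) : ℝ) = q / ((i + q : ℕ) : ℝ) := by
        field_simp
        push_cast
        ring
      rw [e1, inv_div, inv_div, Real.log_div hiq0.ne' hi0.ne', Real.log_div hiq0.ne' hq0.ne']
      field_simp
      push_cast
      ring
    have h7 : Real.log i ≤ Real.log ((i + q : ℕ) : ℝ) :=
      Real.log_le_log hi0 (by push_cast; linarith)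
    have h8 : Real.log q ≤ Real.log ((i + q : ℕ) : ℝ) :=
      Real.log_le_log hq0 (by push_cast; linarith)
    rw [h6]
    push_cast at *
    linarith
  · have h1 : i = n := le_antisymm hin h
    subst h1
    rw [Nat.choose_self, div_self (by positivity)]
    simp
    linarith

theorem choose_exp (M n : ℕ) (hn : n ≤ M) : (M.choose n : ℝ) * 3 ^ n ≤ 4 ^ M := by
  have h1 := add_pow (3 : ℝ) 1 M
  have h2 : (3 : ℝ) ^ n * 1 ^ (M - n) * (M.choose n : ℝ) ≤
      ∑ m ∈ range (M + 1), (3 : ℝ) ^ m * 1 ^ (M - m) * (M.choose m : ℝ) :=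
    Finset.single_le_sum (f := fun m => (3 : ℝ) ^ m * 1 ^ (M - m) * (M.choose m : ℝ))
      (fun m _ => by positivity) (Finset.mem_range.2 (by omega))
  rw [← h1, one_pow, mul_one] at h2
  norm_num at h2
  linarith

theorem choose_small (M h : ℕ) (hh : h ≤ M) (z : ℝ) (hz : 0 < z) :
    Real.log (M.choose h) ≤ M * z - h * Real.log z := by
  have h1 := add_pow z 1 M
  have h2 : z ^ h * 1 ^ (M - h) * (M.choose h : ℝ) ≤
      ∑ m ∈ range (M + 1), z ^ m * 1 ^ (M - m) * (M.choose m : ℝ) :=
    Finset.single_le_sum (f := fun m => z ^ m * 1 ^ (M - m) * (M.choose m : ℝ))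
      (fun m _ => by positivity) (Finset.mem_range.2 (by omega))
  rw [← h1, one_pow, mul_one] at h2
  have hch : (0 : ℝ) < (M.choose h : ℝ) := by exact_mod_cast Nat.choose_pos hh
  have h3 := Real.log_le_log (by positivity) h2
  rw [Real.log_mul (by positivity) hch.ne', Real.log_pow, Real.log_pow] at h3
  have h4 : Real.log (z + 1) ≤ z := by
    have := Real.log_le_sub_one_of_pos (show (0 : ℝ) < z + 1 by linarith)
    linarith
  have h5 : (M : ℝ) * Real.log (z + 1) ≤ M * z := by gcongr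
  linarith

/-- the entropy at `1 / 4` -/
noncomputable def κ₀ : ℝ := Real.binEntropy (1 / 4)

theorem κ₀_eq : κ₀ = Real.log 4 - 3 / 4 * Real.log 3 := by
  unfold κ₀ Real.binEntropy
  rw [show (1 : ℝ) - 1 / 4 = 3 / 4 by norm_num, inv_div, inv_div, Real.log_div (by norm_num)
    (by norm_num), Real.log_div (by norm_num) (by norm_num), Real.log_one]
  ring

theorem log4 : Real.log 4 = 2 * Real.log 2 := by
  rw [show (4 : ℝ) = 2 ^ 2 by norm_num, Real.log_pow]
  push_cast
  ring

/-- `3 ^ 15 < 2 ^ 24` -/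
theorem num1 : 2 / 5 * Real.log 4 + 1 / 200 ≤ κ₀ := by
  rw [κ₀_eq, log4]
  have h1 : Real.log 3 ≤ 1.0987 := by
    have h2 : (3 : ℝ) ^ 12 ≤ 2 ^ 19 * (1 + 1 / 73) := by norm_num
    have h3 := Real.log_le_log (by norm_num) h2
    rw [Real.log_pow, Real.log_mul (by norm_num) (by norm_num), Real.log_pow] at h3
    have h4 := Real.log_le_sub_one_of_pos (show (0 : ℝ) < 1 + 1 / 73 by norm_num)
    have h5 := Real.log_two_lt_d9
    push_cast at h3
    linarith
  have h5 := Real.log_two_gt_d9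
  linarith

theorem num2 : 4 / 3 * κ₀ ≤ Real.log 4 := by
  rw [κ₀_eq, log4]
  have h1 : (1 : ℝ) ≤ Real.log 3 := by
    have h2 := Real.exp_one_lt_d9
    rw [← Real.log_exp 1]
    exact Real.log_le_log (Real.exp_pos _) (by linarith)
  have h5 := Real.log_two_lt_d9
  linarith

theorem num3 : κ₀ ≤ Real.log 3 - 1 / 4 * Real.log 4 := by
  rw [κ₀_eq, log4]
  have h1 : (1 : ℝ) ≤ Real.log 3 := by
    have h2 := Real.exp_one_lt_d9
    rw [← Real.log_exp 1]
    exact Real.log_le_log (Real.exp_pos _) (by linarith)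
  have h5 := Real.log_two_lt_d9
  linarith

/-- the chord -/
theorem chord (c : ℝ) (h1 : 1 / 4 ≤ c) (h2 : c ≤ 1) :
    κ₀ - 4 / 3 * κ₀ * (c - 1 / 4) ≤ Real.binEntropy c := by
  have hcc : ConcaveOn ℝ (Set.Icc 0 1) Real.binEntropy := Real.strictConcave_binEntropy.concaveOn
  have m1 : (1 / 4 : ℝ) ∈ Set.Icc (0 : ℝ) 1 := ⟨by norm_num, by norm_num⟩
  have m2 : (1 : ℝ) ∈ Set.Icc (0 : ℝ) 1 := ⟨by norm_num, le_rfl⟩
  have a1 : 0 ≤ (1 - c) * (4 / 3) := by linarith
  have a2 : 0 ≤ 1 - (1 - c) * (4 / 3) := by linarith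
  have h := hcc.2 m1 m2 a1 a2 (by ring)
  rw [Real.binEntropy_one] at h
  simp only [smul_eq_mul, mul_one, mul_zero, add_zero] at h
  have e : (1 - c) * (4 / 3) * (1 / 4) + (1 - (1 - c) * (4 / 3)) = c := by ring
  rw [e] at h
  have e2 : κ₀ - 4 / 3 * κ₀ * (c - 1 / 4) = (1 - c) * (4 / 3) * κ₀ := by ring
  rw [e2]
  exact h

/-- **The upper bound.** -/
theorem Fp_bound (δ : ℝ) (hδ : 0 < δ) : ∃ η : ℝ, 0 < η ∧ ∀ᶠ n : ℕ in atTop, ∀ h : ℕ, 1 ≤ h →
    (h : ℝ) ≤ η * n → ∀ y : ℝ, 0 ≤ y →
    Real.log (Fp n h (((n / 4 : ℕ) : ℝ) + y)) ≤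
      Real.log n.factorial - κ₀ * n + Real.log 4 * y + δ * n := by
  obtain ⟨z, hz⟩ : ∃ z : ℝ, z = δ / 16 := ⟨_, rfl⟩
  have hz0 : 0 < z := by rw [hz]; linarith
  obtain ⟨η, hη⟩ : ∃ η : ℝ, η = min 1 (δ / (8 * (1 + |Real.log z|))) := ⟨_, rfl⟩
  have hden : 0 < 8 * (1 + |Real.log z|) := by positivity
  have hη0 : 0 < η := by rw [hη]; exact lt_min one_pos (by positivity)
  have hη1 : η ≤ 1 := by rw [hη]; exact min_le_left _ _
  have hη2 : η * (8 * (1 + |Real.log z|)) ≤ δ := by
    have : η ≤ δ / (8 * (1 + |Real.log z|)) := by rw [hη]; exact min_le_right _ _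
    rwa [le_div_iff₀ hden] at this
  have hη3 : η * |Real.log z| ≤ δ / 8 := by
    have := abs_nonneg (Real.log z)
    nlinarith
  have hη4 : η ≤ δ / 8 := by
    have := abs_nonneg (Real.log z)
    nlinarith
  refine ⟨η, hη0, ?_⟩
  have hlim : ∀ᶠ n : ℕ in atTop, 2 * Real.log n + 4 ≤ δ / 4 * n := by
    have h1 : ∀ᶠ x : ℝ in atTop, 2 * Real.log x + 4 ≤ δ / 4 * x := by
      have h2 := Real.isLittleO_log_id_atTop.bound (show (0 : ℝ) < δ / 16 by linarith)
      filter_upwards [h2, eventually_ge_atTop (1 : ℝ), eventually_ge_atTop (32 / δ)] with x h2 h3 h4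
      rw [id, Real.norm_of_nonneg (Real.log_nonneg h3), Real.norm_of_nonneg (by linarith)] at h2
      rw [div_le_iff₀ hδ] at h4
      linarith
    exact tendsto_natCast_atTop_atTop.eventually h1
  filter_upwards [hlim, eventually_ge_atTop 4] with n hlim hn4
  intro h hh hhη y hy
  have hn0 : (0 : ℝ) < n := by
    have : 0 < n := by omega
    exact_mod_cast this
  have hn1 : (4 : ℝ) ≤ n := by exact_mod_cast hn4
  have hlogn : 0 ≤ Real.log n := Real.log_nonneg (by linarith)
  have hhn : h ≤ n := by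
    have : (h : ℝ) ≤ n := hhη.trans (by nlinarith)
    exact_mod_cast this
  have hnf : (0 : ℝ) < n.factorial := by exact_mod_cast n.factorial_pos
  obtain ⟨x, hx⟩ : ∃ x : ℝ, x = ((n / 4 : ℕ) : ℝ) + y := ⟨_, rfl⟩
  rw [← hx]
  have hA1 : ((n / 4 : ℕ) : ℝ) ≤ n / 4 := by
    have := Nat.cast_div_le (α := ℝ) (m := n) (n := 4)
    exact_mod_cast this
  have hA2 : (n : ℝ) / 4 < ((n / 4 : ℕ) : ℝ) + 1 := by
    have h1 : n < 4 * (n / 4 + 1) := Nat.lt_mul_div_succ n (by norm_num)
    have h2 : (n : ℝ) < 4 * (((n / 4 : ℕ) : ℝ) + 1) := by exact_mod_cast h1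
    linarith
  have hx0 : 0 ≤ x := by rw [hx]; positivity
  have hxy : x ≤ n / 4 + y := by rw [hx]; linarith
  have hF0 := Fp_pos n h hh x
  have hlog4 : 0 ≤ Real.log 4 := Real.log_nonneg (by norm_num)
  have hlog4' : Real.log 4 ≤ 2 := by
    rw [log4]
    linarith [Real.log_two_lt_d9]
  rcases lt_or_ge x n with hxn | hxn
  · -- inside
    have h1 := Fp_one n h x hx0 hxn
    obtain ⟨i, hi⟩ : ∃ i, i = ⌊x⌋₊ + 1 := ⟨_, rfl⟩
    rw [← hi] at h1
    have hi1 : 1 ≤ i := by omega
    have hin : i ≤ n := by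
      have : ⌊x⌋₊ < n := (Nat.floor_lt hx0).2 hxn
      omega
    have hix : (i : ℝ) ≤ x + 1 := by
      rw [hi]
      push_cast
      linarith [Nat.floor_le hx0]
    have hix2 : x < i := by
      rw [hi]
      push_cast
      exact Nat.lt_floor_add_one x
    have hi4 : (n : ℝ) / 4 ≤ i := by
      have h2 : n / 4 < i := by
        have h3 : ((n / 4 : ℕ) : ℝ) < i := by linarith [hx]
        exact_mod_cast h3
      have h3 : ((n / 4 : ℕ) : ℝ) + 1 ≤ i := by exact_mod_cast h2
      linarith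
    have hch : (0 : ℝ) < (n.choose i : ℝ) := by exact_mod_cast Nat.choose_pos hin
    have hch2 : (0 : ℝ) < ((n + h).choose h : ℝ) := by
      exact_mod_cast Nat.choose_pos (show h ≤ n + h by omega)
    have h2 := Real.log_le_log (by positivity) h1
    rw [Real.log_mul hF0.ne' hch.ne', Real.log_mul hnf.ne' (by positivity), Real.log_pow] at h2
    have h3 := log_choose n i hi1 hin
    have h4 := chord (i / n) (by rw [div_le_div_iff₀ (by norm_num) hn0]; linarith)
      (by rw [div_le_one hn0]; exact_mod_cast hin)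
    have h5 : κ₀ * n - 4 / 3 * κ₀ * (i - n / 4) ≤ n * Real.binEntropy (i / n) := by
      have := mul_le_mul_of_nonneg_left h4 hn0.le
      refine le_trans (le_of_eq ?_) this
      field_simp
    have h6 : 4 / 3 * κ₀ * (i - n / 4) ≤ Real.log 4 * (y + 1) := by
      calc 4 / 3 * κ₀ * (i - n / 4) ≤ Real.log 4 * (i - n / 4) := by
            apply mul_le_mul_of_nonneg_right num2
            linarith
        _ ≤ Real.log 4 * (y + 1) := by
            apply mul_le_mul_of_nonneg_left _ hlog4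
            linarith
    have h7 := choose_small (n + h) h (by omega) z hz0
    have h8 : ((n + h : ℕ) : ℝ) * z ≤ δ / 8 * n := by
      have : ((n + h : ℕ) : ℝ) ≤ 2 * n := by
        push_cast
        have : (h : ℝ) ≤ n := by exact_mod_cast hhn
        linarith
      calc ((n + h : ℕ) : ℝ) * z ≤ 2 * n * z := by gcongr
        _ = δ / 8 * n := by rw [hz]; ring
    have h9 : -((h : ℝ) * Real.log z) ≤ δ / 8 * n := by
      calc -((h : ℝ) * Real.log z) ≤ h * |Real.log z| := by
            have := neg_abs_le (Real.log z)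
            have hh0 : (0 : ℝ) ≤ h := Nat.cast_nonneg h
            nlinarith
        _ ≤ η * n * |Real.log z| := by gcongr
        _ = η * |Real.log z| * n := by ring
        _ ≤ δ / 8 * n := by gcongr
    push_cast at h2
    linarith
  · -- outside
    have h1 := Fp_two n h x hxn
    obtain ⟨M, hM⟩ : ∃ M, M = ⌊x⌋₊ + 1 + h := ⟨_, rfl⟩
    rw [← hM] at h1
    have hnM : n ≤ M := by
      have := Nat.le_floor hxn
      omega
    have hch : (0 : ℝ) < (M.choose n : ℝ) := by exact_mod_cast Nat.choose_pos hnM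
    have h2 := Real.log_le_log hF0 h1
    rw [Real.log_mul hnf.ne' hch.ne'] at h2
    have h3 := Real.log_le_log (by positivity) (choose_exp M n hnM)
    rw [Real.log_mul hch.ne' (by positivity), Real.log_pow, Real.log_pow] at h3
    have hMx : (M : ℝ) ≤ n / 4 + y + 1 + h := by
      rw [hM]
      push_cast
      linarith [Nat.floor_le hx0]
    have h4 : (M : ℝ) * Real.log 4 ≤ (n / 4 + y + 1 + h) * Real.log 4 := by gcongr
    have h5 := num3
    have h6 : (h : ℝ) * Real.log 4 ≤ δ / 4 * n := by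
      calc (h : ℝ) * Real.log 4 ≤ (η * n) * 2 := by gcongr
        _ ≤ (δ / 8 * n) * 2 := by gcongr
        _ = δ / 4 * n := by ring
    nlinarith

end Pool.Agent.U256.CY
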