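import Pool.Agent.U256.CY5
import Pool.Agent.U256.CY7
import Pool.Agent.U256.CY8
import Pool.Agent.N17.CK.ROOT
import Pool.Agent.N17.CK.BD
import Pool.Agent.N17.CK.POSEND
import Pool.Agent.N17.CK.MAIN

set_option autoImplicit false

/-! # Chern roots of subvarieties with linearly bounded canonical class -/

open Finset Polynomial Filter

namespace Pool.Agent.U256.CY

open Pool.Agent.N17.HC (rootsOf bin kos)
open Pool.Agent.N17.CK (chern t_ROOT t_BD t_POS)
open Pool.Agent.R920.CH (exists_fun)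
open Pool.Agent.U256.LS (card_roots' no_root split roots_shift)

/-- the complete symmetric functions of the sums of `b` of the numbers `β - 1` -/
noncomputable def segre (P : ℤ[X]) (b j : ℕ) : ℂ :=
  PowerSeries.coeff j (((((rootsOf P).map fun β => β - 1).powersetCard b).map fun I =>
    PowerSeries.mk fun k => I.sum ^ k).prod)

theorem segre_eq {r : ℕ} (P : ℤ[X]) (x : Fin r → ℂ)
    (hx : (univ.val.map x : Multiset ℂ) = (rootsOf P).map fun β => β - 1) (b j : ℕ) :
    segre P b j = hs (powersetCard b univ) (bs x) j := by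
  unfold segre hs
  congr 1
  rw [← hx, Multiset.powersetCard_map, Multiset.map_map, ← Finset.map_val_val_powersetCard,
    Multiset.map_map]
  rfl

theorem chern_eq {r : ℕ} (P : ℤ[X]) (hP : P.Monic) (x : Fin r → ℂ)
    (hx : (univ.val.map x : Multiset ℂ) = (rootsOf P).map fun β => β - 1) (k : ℕ) (hk : k ≤ r) :
    es x k = (chern r P k : ℂ) := by
  have hRm : (P.comp (X + 1)).Monic := by
    rw [show (X + 1 : ℤ[X]) = X + C 1 by simp]
    exact hP.comp_X_add_C 1
  have h1 := (IsAlgClosed.splits ((P.comp (X + 1)).map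
    (Int.castRingHom ℂ))).eq_prod_roots_of_monic (hRm.map _)
  rw [roots_shift hP, ← hx] at h1
  have hcard : Multiset.card (univ.val.map x : Multiset ℂ) = r := by simp
  have h2 := Multiset.prod_X_sub_C_coeff (univ.val.map x : Multiset ℂ) (k := r - k)
    (by rw [hcard]; omega)
  rw [hcard, Nat.sub_sub_self hk, es_eq] at h2
  unfold chern
  push_cast
  have h3 : (((P.comp (X + 1)).coeff (r - k) : ℤ) : ℂ) = (-1) ^ k * es x k := by
    rw [← h2, ← h1, coeff_map]
    rfl
  rw [h3, ← mul_assoc, ← mul_pow]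
  simp

theorem log_W {Q : ℤ[X]} (hQ : Q.Monic) (hirr : Irreducible Q) (hm : 2 ≤ Q.natDegree) (n h : ℕ)
    (hh : 1 ≤ h) (Y : ℂ → ℝ) (hY : ∀ β ∈ rootsOf Q, ‖β - 1 - Y β‖ ≤ h) :
    Real.log (W Q (1 - (n / 4 : ℕ)) n) ≤
      ((rootsOf Q).map fun β => Real.log (Fp n h (((n / 4 : ℕ) : ℝ) + Y β))).sum := by
  obtain ⟨a, ha⟩ : ∃ a : ℤ, a = 1 - (n / 4 : ℕ) := ⟨_, rfl⟩
  rw [← ha]
  have h1 : (W Q a n : ℝ) = ‖((rootsOf Q).map fun b => ∏ j ∈ range n, (b - (a : ℂ) - j)).prod‖ := by
    rw [prod_bin hQ, norm_mul, norm_pow, norm_neg, norm_one, one_pow, one_mul,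
      Complex.norm_intCast]
    unfold W
    push_cast
    rw [Finset.abs_prod]
    refine Finset.prod_congr rfl fun t _ => ?_
    rw [Nat.cast_natAbs]
    push_cast
    rfl
  have h2 : ∀ s : Multiset ℂ, (∀ β ∈ s, ‖β - 1 - Y β‖ ≤ h) →
      ‖(s.map fun b => ∏ j ∈ range n, (b - (a : ℂ) - j)).prod‖ ≤
      (s.map fun β => Fp n h (((n / 4 : ℕ) : ℝ) + Y β)).prod ∧
      0 < (s.map fun β => Fp n h (((n / 4 : ℕ) : ℝ) + Y β)).prod ∧
      Real.log (s.map fun β => Fp n h (((n / 4 : ℕ) : ℝ) + Y β)).prod =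
      (s.map fun β => Real.log (Fp n h (((n / 4 : ℕ) : ℝ) + Y β))).sum := by
    intro s
    induction s using Multiset.induction with
    | empty => intro _; simp
    | cons β s ih =>
      intro hs
      obtain ⟨i1, i2, i3⟩ := ih fun b hb => hs b (Multiset.mem_cons_of_mem hb)
      have hpos := Fp_pos n h hh (((n / 4 : ℕ) : ℝ) + Y β)
      simp only [Multiset.map_cons, Multiset.prod_cons, Multiset.sum_cons]
      refine ⟨?_, mul_pos hpos i2, ?_⟩
      · rw [norm_mul]
        apply mul_le_mul _ i1 (norm_nonneg _) hpos.le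
        rw [norm_prod]
        unfold Fp
        apply Finset.prod_le_prod (fun _ _ => norm_nonneg _)
        intro t _
        have h3 := hs β (Multiset.mem_cons_self β s)
        have h4 : β - (a : ℂ) - t = (β - 1 - Y β) -
            (((t : ℝ) - (((n / 4 : ℕ) : ℝ) + Y β) : ℝ) : ℂ) := by
          rw [ha, Int.cast_sub, Int.cast_one, Int.cast_natCast]
          generalize n / 4 = A
          push_cast
          ring
        rw [h4]
        refine (norm_sub_le _ _).trans ?_
        rw [Complex.norm_real, Real.norm_eq_abs]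
        linarith
      · rw [Real.log_mul hpos.ne' i2.ne', i3]
  obtain ⟨i1, i2, i3⟩ := h2 (rootsOf Q) hY
  rw [← i3, h1]
  apply Real.log_le_log _ i1
  rw [← h1]
  exact_mod_cast Nat.pos_of_ne_zero (W_ne_zero hQ hirr hm a n)

/-- **Irreducible factors of degree `m ≥ 2` force `k + N + 1 > (2 / 5) m N`.** -/
theorem main (r : ℕ) (hr : 1 ≤ r) (C : ℝ) : ∃ N₀ : ℕ, ∀ N : ℕ, N₀ ≤ N → ∀ P : ℤ[X], P.Monic →
    P.natDegree = r → (∀ i ≤ r, 0 ≤ chern r P i) →
    (∀ i < r, chern r P (i + 1) ≤ chern r P 1 * chern r P i) →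
    (∀ b, 1 ≤ b → b ≤ r → ∀ j ≤ N - r, ∃ z : ℕ, segre P b j = z) →
    (∀ (l : ℕ) (t : ℤ), ∃ z : ℤ, kosT N (rootsOf P) l (N + t) = z) →
    ∀ k : ℤ, P.coeff (r - 1) = - (k + N + 1) → (k : ℝ) ≤ C * N →
    ∀ Q : ℤ[X], Q.Monic → Irreducible Q → Q ∣ P → 2 ≤ Q.natDegree →
      2 / 5 * (Q.natDegree : ℝ) * N < k + N + 1 := by
  obtain ⟨η, hη0, hup⟩ := Fp_bound (1 / 1000) (by norm_num)
  have hr0 : (1 : ℝ) ≤ r := by exact_mod_cast hr
  obtain ⟨η', hη'⟩ : ∃ η' : ℝ, η' = min (η / (8 * (|C| + 2))) (1 / (2000 * r)) := ⟨_, rfl⟩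
  have hC0 := abs_nonneg C
  have hη'0 : 0 < η' := by rw [hη']; exact lt_min (by positivity) (by positivity)
  have hη'1 : η' * (8 * (|C| + 2)) ≤ η := by
    have : η' ≤ η / (8 * (|C| + 2)) := by rw [hη']; exact min_le_left _ _
    rwa [le_div_iff₀ (by positivity)] at this
  have hη'2 : η' * (2000 * r) ≤ 1 := by
    have : η' ≤ 1 / (2000 * r) := by rw [hη']; exact min_le_right _ _
    rwa [le_div_iff₀ (by positivity)] at this
  obtain ⟨M, hloc⟩ := location r η' hη'0
  have hlow : ∀ᶠ N : ℕ in atTop, ∀ m ∈ Finset.Icc 2 r, _ := (Finset.eventually_all _).2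
    fun m hm => lower r m hr (Finset.mem_Icc.1 hm).1 (2 * r) (1 / 1000) (by positivity)
      (by norm_num)
  obtain ⟨N₁, hN₁⟩ := eventually_atTop.1 hlow
  obtain ⟨n₁, hn₁⟩ := eventually_atTop.1 hup
  obtain ⟨N₂, hN₂⟩ := exists_nat_ge (2 * (|C| + 2) + 1)
  obtain ⟨N₃, hN₃⟩ := exists_nat_ge (8 / η)
  refine ⟨N₁ + n₁ + N₂ + N₃ + M + 2000 * r + 10, fun N hN P hP hPr hpos hsch hseg hint k hk hkC Q
    hQ hirr hQP hm => ?_⟩
  have hN1 : (1 : ℝ) ≤ N := by
    have : 1 ≤ N := by omega
    exact_mod_cast this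
  -- the first Chern class
  have hc1 := Pool.Agent.N17.CK.MAIN.chern_one r hr P hP hPr
  rw [hk] at hc1
  have hc0 := hpos 1 hr
  obtain ⟨c, hc⟩ : ∃ c : ℝ, c = ((chern r P 1 : ℤ) : ℝ) := ⟨_, rfl⟩
  have hcv : c = k + N + 1 - r := by
    rw [hc, hc1]
    push_cast
    ring
  have hc0' : 0 ≤ c := by rw [hc]; exact_mod_cast hc0
  have hcN : c ≤ (|C| + 2) * N := by
    have : C * N ≤ |C| * N := by gcongr; exact le_abs_self C
    linarith
  have hroot : ∀ β ∈ rootsOf P, ‖β - 1‖ ≤ 2 * c := by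
    rw [hc]
    exact t_ROOT r P hP hPr hpos hsch
  have hsub : ∀ β ∈ rootsOf Q, β ∈ rootsOf P := Pool.Agent.N17.CK.MAIN.rootsOf_sub hP hQP
  have hN₂' : 2 * (|C| + 2) + 1 ≤ N := by
    refine hN₂.trans ?_
    have : N₂ ≤ N := by omega
    exact_mod_cast this
  have h2c : 2 * c + 1 ≤ (N : ℝ) ^ 2 := by
    calc 2 * c + 1 ≤ 2 * ((|C| + 2) * N) + N := by linarith
      _ = (2 * (|C| + 2) + 1) * N := by ring
      _ ≤ N * N := by gcongr
      _ = (N : ℝ) ^ 2 := by ring
  -- the case `c = 0`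
  rcases hc0'.eq_or_lt with hcz | hcpos
  · exfalso
    have hne : rootsOf Q ≠ 0 := by
      intro h0
      have := card_roots' Q hQ
      rw [h0, Multiset.card_zero] at this
      omega
    obtain ⟨β, hβ⟩ := Multiset.exists_mem_of_ne_zero hne
    have h1 := hroot β (hsub β hβ)
    rw [← hcz, mul_zero] at h1
    have h2 : β = ((1 : ℚ) : ℂ) := by
      have := norm_le_zero_iff.1 h1
      push_cast
      linear_combination this
    exact no_root hQ hirr hm 1 (h2 ▸ hβ)
  -- the location of the roots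
  obtain ⟨x, hx⟩ := exists_fun ((rootsOf P).map fun β => β - 1) (r := r)
    (by rw [Multiset.card_map, card_roots' P hP, hPr])
  have hxmem : ∀ i, ∃ β ∈ rootsOf P, β - 1 = x i := by
    intro i
    have : x i ∈ (univ.val.map x : Multiset ℂ) := Multiset.mem_map_of_mem x (Finset.mem_univ i)
    rw [hx, Multiset.mem_map] at this
    exact this
  have hlocx := hloc x c hcpos (by
      intro i
      obtain ⟨β, hβ, hβi⟩ := hxmem i
      rw [← hβi]
      exact hroot β hβ) (by
      intro j
      rcases Nat.lt_or_ge r j with hj | hj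
      · have : es x j = 0 := by
          unfold es
          rw [Finset.powersetCard_eq_empty.2 (by simpa using hj), Finset.sum_empty]
        rw [this, Complex.zero_re]
      · rw [chern_eq P hP x hx j hj, Complex.intCast_re]
        exact_mod_cast hpos j hj) (by
      intro b hb1 hb2 j hj
      obtain ⟨z, hz⟩ := hseg b hb1 hb2 j (by omega)
      rw [segre_eq P x hx] at hz
      rw [hz]
      simp)
  have hYex : ∀ β : ℂ, ∃ y : ℝ, β ∈ rootsOf P → 0 ≤ y ∧ ‖β - 1 - y‖ ≤ η' * c := by
    intro β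
    by_cases hβ : β ∈ rootsOf P
    · have : β - 1 ∈ (univ.val.map x : Multiset ℂ) := by
        rw [hx]
        exact Multiset.mem_map_of_mem _ hβ
      rw [Multiset.mem_map] at this
      obtain ⟨i, -, hi⟩ := this
      obtain ⟨y, hy0, hy⟩ := hlocx i
      rw [hi] at hy
      exact ⟨y, fun _ => ⟨hy0, hy⟩⟩
    · exact ⟨0, fun h => absurd h hβ⟩
  choose Y hY using hYex
  -- the sum of the `Y`
  have hsum : ((rootsOf Q).map fun β => Y β).sum ≤ c + r * (η' * c) := by
    have h1 : rootsOf Q ≤ rootsOf P :=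
      Polynomial.roots.le_of_dvd (hP.map _).ne_zero (Polynomial.map_dvd _ hQP)
    obtain ⟨u, hu⟩ := Multiset.le_iff_exists_add.1 h1
    have h2 : ((rootsOf P).map fun β => Y β).sum =
        ((rootsOf Q).map fun β => Y β).sum + (u.map fun β => Y β).sum := by
      rw [hu, Multiset.map_add, Multiset.sum_add]
    have h3 : 0 ≤ (u.map fun β => Y β).sum := by
      apply Multiset.sum_nonneg
      intro y hy
      obtain ⟨β, hβ, rfl⟩ := Multiset.mem_map.1 hy
      exact (hY β (by rw [hu]; exact Multiset.mem_add.2 (Or.inr hβ))).1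
    have h4 : ((rootsOf P).map fun β => Y β).sum ≤
        ((rootsOf P).map fun β => (β - 1).re + η' * c).sum := by
      apply Multiset.sum_map_le_sum_map
      intro β hβ
      have h5 := (hY β hβ).2
      have h6 := Complex.abs_re_le_norm (β - 1 - Y β)
      rw [Complex.sub_re, Complex.ofReal_re] at h6
      have h7 := (abs_le.1 (h6.trans h5)).1
      linarith
    have h5 : ((rootsOf P).map fun β => (β - 1).re + η' * c).sum = c + r * (η' * c) := by
      rw [Multiset.sum_map_add, Multiset.map_const', Multiset.sum_replicate, card_roots' P hP, hPr,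
        nsmul_eq_mul]
      congr 1
      have h6 := chern_eq P hP x hx 1 hr
      have h7 : es x 1 = ((rootsOf P).map fun β => β - 1).sum := by
        rw [← hx]
        unfold es
        rw [Finset.powersetCard_one, Finset.sum_map]
        simp only [Function.Embedding.coeFn_mk, Finset.prod_singleton]
        rfl
      rw [h7] at h6
      have h8 := congrArg Complex.re h6
      rw [Complex.intCast_re, ← hc] at h8
      rw [← h8]
      have h9 : ∀ s : Multiset ℂ, (s.map fun β => (β - 1).re).sum =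
          ((s.map fun β => β - 1).sum).re := by
        intro s
        induction s using Multiset.induction with
        | empty => simp
        | cons a s ih => rw [Multiset.map_cons, Multiset.sum_cons, Multiset.map_cons,
            Multiset.sum_cons, Complex.add_re, ih]
      exact h9 _
    linarith
  -- the contradiction
  by_contra hcon
  push Not at hcon
  obtain ⟨n, hn⟩ : ∃ n, n = N + 1 - 2 * r := ⟨_, rfl⟩
  obtain ⟨h, hh⟩ : ∃ h : ℕ, h = ⌊η * n⌋₊ := ⟨_, rfl⟩
  have hNn : N ≤ 2 * n := by omega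
  have hNn' : (N : ℝ) ≤ 2 * n := by exact_mod_cast hNn
  have hnη : 4 ≤ η * n := by
    have h1 : 8 / η ≤ N := by
      refine hN₃.trans ?_
      have : N₃ ≤ N := by omega
      exact_mod_cast this
    rw [div_le_iff₀ hη0] at h1
    nlinarith
  have hh1 : 1 ≤ h := by
    rw [hh]
    apply Nat.le_floor
    push_cast
    linarith
  have hh2 : (h : ℝ) ≤ η * n := by rw [hh]; exact Nat.floor_le (by positivity)
  have hh3 : η' * c ≤ h := by
    have h1 : η * n - 1 < h := by
      have := Nat.lt_floor_add_one (η * n)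
      rw [← hh] at this
      linarith
    have h2 : η' * c ≤ η * n / 4 := by
      calc η' * c ≤ η' * ((|C| + 2) * N) := by gcongr
        _ ≤ η' * ((|C| + 2) * (2 * n)) := by gcongr
        _ = η' * (8 * (|C| + 2)) * n / 4 := by ring
        _ ≤ η * n / 4 := by gcongr
    linarith
  have hmr : Q.natDegree ≤ r := by
    rw [← hPr]
    exact natDegree_le_of_dvd hQP hP.ne_zero
  have hposP := (t_POS r P hP hPr hpos).1
  have hlower := hN₁ N (by omega) Q.natDegree (Finset.mem_Icc.2 ⟨hm, hmr⟩) P Q hP hQ hirr rfl hQP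
    hPr hint (by intro h0; rw [h0] at hposP; simp at hposP) (by
      have h1 := t_BD.2.2 r P (2 * c) hP hPr (by linarith) hroot
      refine h1.trans ?_
      calc (2 * c + 1) ^ r ≤ ((N : ℝ) ^ 2) ^ r := pow_le_pow_left₀ (by linarith) h2c r
        _ = (N : ℝ) ^ (2 * (r : ℝ)) := by
            rw [← pow_mul, ← Real.rpow_natCast]
            push_cast
            rfl) (by
      intro β hβ
      refine le_trans ?_ h2c
      have h1 := hroot β (hsub β hβ)
      have h2 := norm_add_le (β - 1) 1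
      rw [sub_add_cancel, norm_one] at h2
      linarith) (1 - (n / 4 : ℕ))
  rw [← hn] at hlower
  have hupper := log_W hQ hirr hm n h hh1 Y (fun β hβ => ((hY β (hsub β hβ)).2).trans hh3)
  have hterm : ((rootsOf Q).map fun β => Real.log (Fp n h (((n / 4 : ℕ) : ℝ) + Y β))).sum ≤
      ((rootsOf Q).map fun β => (Real.log n.factorial - κ₀ * n + 1 / 1000 * n) +
        Real.log 4 * Y β).sum := by
    apply Multiset.sum_map_le_sum_map
    intro β hβ
    have := hn₁ n (by omega) h hh1 hh2 (Y β) (hY β (hsub β hβ)).1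
    linarith
  rw [Multiset.sum_map_add, Multiset.map_const', Multiset.sum_replicate, card_roots' Q hQ,
    nsmul_eq_mul, Multiset.sum_map_mul_left] at hterm
  have hlog4 : Real.log 4 ≤ 1.4 := by
    rw [log4]
    linarith [Real.log_two_lt_d9]
  have hlog40 : 0 ≤ Real.log 4 := Real.log_nonneg (by norm_num)
  have hκ := num1
  obtain ⟨m, hmd⟩ : ∃ m : ℝ, m = Q.natDegree := ⟨_, rfl⟩
  rw [← hmd] at hcon hterm hlower
  have hm2 : 2 ≤ m := by rw [hmd]; exact_mod_cast hm
  have hsum2 : Real.log 4 * ((rootsOf Q).map fun β => Y β).sum ≤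
      Real.log 4 * (c + r * (η' * c)) := mul_le_mul_of_nonneg_left hsum hlog40
  have hn0 : (0 : ℝ) ≤ n := Nat.cast_nonneg n
  have hNr : (N : ℝ) ≤ n + 2 * r := by
    have : N ≤ n + 2 * r := by omega
    exact_mod_cast this
  have hc3 : c ≤ 2 / 5 * m * N := by linarith
  have hc4 : Real.log 4 * c ≤ Real.log 4 * (2 / 5 * m * (n + 2 * r)) := by
    apply mul_le_mul_of_nonneg_left _ hlog40
    refine hc3.trans ?_
    gcongr
  have hc5 : Real.log 4 * (r * (η' * c)) ≤ 1 / 1000 * m * n := by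
    have h1 : r * η' ≤ 1 / 2000 := by linarith
    have h2 : r * (η' * c) ≤ 1 / 2000 * (2 / 5 * m * (2 * n)) := by
      calc r * (η' * c) = (r * η') * c := by ring
        _ ≤ 1 / 2000 * (2 / 5 * m * (2 * n)) := by
            apply mul_le_mul h1 _ hc0' (by norm_num)
            refine hc3.trans ?_
            gcongr
    have h3 : 0 ≤ r * (η' * c) := by positivity
    calc Real.log 4 * (r * (η' * c)) ≤ 1.4 * (1 / 2000 * (2 / 5 * m * (2 * n))) := by gcongr
      _ ≤ 1 / 1000 * m * n := by nlinarith [mul_nonneg (by linarith : (0 : ℝ) ≤ m) hn0]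
  have hc6 : Real.log 4 * (2 / 5 * m * (2 * r)) ≤ 2 * r * m := by
    have : 0 ≤ r * m := by positivity
    nlinarith
  have hc7 : m * (2 / 5 * Real.log 4 + 1 / 200) * n ≤ m * κ₀ * n := by gcongr
  have hnr : 1000 * (r : ℝ) < n := by
    have : 1000 * r < n := by omega
    exact_mod_cast this
  have hmn : 1000 * r * m < n * m := by
    apply mul_lt_mul_of_pos_right hnr
    linarith
  have hε : 1 / 1000 * (N : ℝ) ≤ 1 / 1000 * (m * n) := by
    have : (N : ℝ) ≤ m * n := by nlinarith
    linarith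
  nlinarith

end Pool.Agent.U256.CY
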