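import Pool.Agent.Y736.HL5
import Pool.Agent.Y736.RN.L

set_option autoImplicit false

/-! # Polynomial growth of the derivatives along the critical orbit: stretched exponential bounds -/

namespace Pool.Agent.U256.SE

open Complex Metric Set Filter Topology MeasureTheory Pool.Agent.H713R2
open Pool.Agent.H712R2 (P P_succ P_one P_zero fc continuous_P mem_multibrot_iff)
open N62a1eb23
open Pool.Agent.Y736.HL (LL LL_nonneg LL_self LL_succ LL_mul LL_le duhamel rate_le norm_deriv_iter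
  parabolic_LL iter_P)
open Pool.Agent.Y736.HD (Ang vol_Ang_ne ev_lt ev_pos GS)

/-- orbits stay close for a time which is a power of the distance -/
theorem close_poly {c₀ c : ℂ} {C s : ℝ} (hC : 0 < C) (hs : 0 ≤ s)
    (hD : ∀ m n, m ≤ n → LL c₀ m n ≤ C * (((n - m : ℕ) : ℝ) + 1) ^ s) {n : ℕ}
    (hn : 4 * C ^ 2 * ‖c - c₀‖ * (n : ℝ) ^ (2 * s + 2) ≤ 1) :
    ∀ k, k ≤ n → ‖P 2 k c - P 2 k c₀‖ ≤ 2 * C * ‖c - c₀‖ * (k : ℝ) ^ (s + 1) := by
  obtain ⟨ε, hε⟩ : ∃ ε, ε = ‖c - c₀‖ := ⟨_, rfl⟩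
  rw [← hε] at hn ⊢
  have hε0 : 0 ≤ ε := by rw [hε]; exact norm_nonneg _
  intro k
  induction k using Nat.strong_induction_on with
  | _ k ih =>
    intro hk
    have h1 := duhamel c₀ c k
    rw [← hε] at h1
    have h2 : ∀ j ∈ Finset.range k, LL c₀ (j + 1) k * (ε + ‖P 2 j c - P 2 j c₀‖ ^ 2) ≤
        C * (k : ℝ) ^ s * (2 * ε) := by
      intro j hj
      have hjk := Finset.mem_range.1 hj
      have h3 := ih j hjk (hjk.le.trans hk)
      have h4 : ‖P 2 j c - P 2 j c₀‖ ^ 2 ≤ ε := by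
        have h5 : ‖P 2 j c - P 2 j c₀‖ ^ 2 ≤ (2 * C * ε * (j : ℝ) ^ (s + 1)) ^ 2 :=
          pow_le_pow_left₀ (norm_nonneg _) h3 2
        have h6 : ((j : ℝ) ^ (s + 1)) ^ 2 = (j : ℝ) ^ (2 * s + 2) := by
          rw [← Real.rpow_natCast, ← Real.rpow_mul (Nat.cast_nonneg j)]
          congr 1
          push_cast
          ring
        have h7 : (j : ℝ) ^ (2 * s + 2) ≤ (n : ℝ) ^ (2 * s + 2) := by
          apply Real.rpow_le_rpow (Nat.cast_nonneg j) _ (by positivity)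
          exact_mod_cast hjk.le.trans hk
        calc ‖P 2 j c - P 2 j c₀‖ ^ 2 ≤ (2 * C * ε * (j : ℝ) ^ (s + 1)) ^ 2 := h5
          _ = ε * (4 * C ^ 2 * ε * (j : ℝ) ^ (2 * s + 2)) := by rw [← h6]; ring
          _ ≤ ε * (4 * C ^ 2 * ε * (n : ℝ) ^ (2 * s + 2)) := by gcongr
          _ ≤ ε * 1 := by gcongr
          _ = ε := mul_one _
      have h5 : LL c₀ (j + 1) k ≤ C * (k : ℝ) ^ s := by
        refine (hD (j + 1) k hjk).trans ?_
        apply mul_le_mul_of_nonneg_left _ hC.le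
        apply Real.rpow_le_rpow (by positivity) _ hs
        have h6 : k - (j + 1) + 1 ≤ k := by omega
        exact_mod_cast h6
      have h6 : 0 ≤ C * (k : ℝ) ^ s := by positivity
      calc LL c₀ (j + 1) k * (ε + ‖P 2 j c - P 2 j c₀‖ ^ 2)
          ≤ C * (k : ℝ) ^ s * (ε + ε) := by
            apply mul_le_mul h5 (by linarith) (by positivity) h6
        _ = _ := by ring
    have h3 := Finset.sum_le_sum h2
    rw [Finset.sum_const, Finset.card_range, nsmul_eq_mul] at h3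
    refine h1.trans (h3.trans ?_)
    have h4 : (k : ℝ) ^ (s + 1) = (k : ℝ) ^ s * k := by
      rcases Nat.eq_zero_or_pos k with h0 | h0
      · rw [h0, Nat.cast_zero, mul_zero, Real.zero_rpow (by linarith)]
      · have h0' : (0 : ℝ) < k := by exact_mod_cast h0
        rw [Real.rpow_add h0', Real.rpow_one]
    rw [h4]
    apply le_of_eq
    ring

/-- stretched exponential upper bound when the derivatives grow polynomially -/
theorem upper_poly {c₀ : ℂ} (hc₀ : c₀ ∈ multibrotSet 2) {C s : ℝ} (hC1 : 1 ≤ C) (hs : 0 ≤ s)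
    (hD : ∀ m n, m ≤ n → LL c₀ m n ≤ C * (((n - m : ℕ) : ℝ) + 1) ^ s) {ψ : ℂ → ℂ}
    (hψ : IsExteriorMap (multibrotSet 2) ψ) {w : ℂ} (hw : 1 < ‖w‖)
    (hsm : 4 * C ^ 2 * ‖ψ w - c₀‖ ≤ 1) :
    ‖w‖ - 1 ≤ 12 * Real.exp (-(Real.log 2 * (4 * C ^ 2 * ‖ψ w - c₀‖) ^ (-(1 / (2 * s + 2))))) := by
  have hC : 0 < C := by linarith
  have hlog2 : 0 < Real.log 2 := Real.log_pos (by norm_num)
  obtain ⟨ε, hε⟩ : ∃ ε, ε = ‖ψ w - c₀‖ := ⟨_, rfl⟩
  have hε0 : 0 < ε := by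
    rw [hε, norm_pos_iff, sub_ne_zero]
    intro h
    have h1 : ψ w ∈ (multibrotSet 2)ᶜ := by
      rw [← hψ.image]
      exact ⟨w, hw, rfl⟩
    rw [h] at h1
    exact h1 hc₀
  rw [← hε] at hsm ⊢
  obtain ⟨τ, hτ⟩ : ∃ τ, τ = (4 * C ^ 2 * ε) ^ (1 / (2 * s + 2)) := ⟨_, rfl⟩
  have hβ : 0 < 2 * s + 2 := by linarith
  have hX0 : 0 < 4 * C ^ 2 * ε := by positivity
  have hτ0 : 0 < τ := by rw [hτ]; positivity
  have hτ1 : τ ≤ 1 := by
    rw [hτ]
    exact Real.rpow_le_one hX0.le hsm (by positivity)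
  have hτβ : τ ^ (2 * s + 2) = 4 * C ^ 2 * ε := by
    rw [hτ, ← Real.rpow_mul hX0.le, one_div, inv_mul_cancel₀ hβ.ne', Real.rpow_one]
  have e0 : (4 * C ^ 2 * ε) ^ (-(1 / (2 * s + 2))) = 1 / τ := by
    rw [hτ, Real.rpow_neg hX0.le]
    exact (one_div _).symm
  rw [e0]
  have e1 : Real.exp (-(Real.log 2 * (1 / τ))) = 1 / 2 ^ (1 / τ) := by
    rw [Real.rpow_def_of_pos (by norm_num : (0 : ℝ) < 2), one_div, one_div, ← Real.exp_neg]
  rw [e1]
  obtain ⟨k, hk⟩ : ∃ k, k = ⌊1 / τ⌋₊ := ⟨_, rfl⟩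
  have h1 : 1 ≤ k := by
    rw [hk]
    apply Nat.le_floor
    rw [Nat.cast_one, le_div_iff₀ hτ0]
    linarith
  obtain ⟨n, rfl⟩ := Nat.exists_eq_add_of_le' h1
  have h2 : ((n + 1 : ℕ) : ℝ) * τ ≤ 1 := by
    have := Nat.floor_le (by positivity : 0 ≤ 1 / τ)
    rw [← hk, le_div_iff₀ hτ0] at this
    exact this
  have h3 : 1 / τ < (n : ℝ) + 2 := by
    have := Nat.lt_floor_add_one (1 / τ)
    rw [← hk] at this
    push_cast at this
    linarith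
  have h4 : 4 * C ^ 2 * ‖ψ w - c₀‖ * ((n + 1 : ℕ) : ℝ) ^ (2 * s + 2) ≤ 1 := by
    rw [← hε, ← hτβ, ← Real.mul_rpow hτ0.le (Nat.cast_nonneg _)]
    apply Real.rpow_le_one (by positivity) _ hβ.le
    linarith
  have h5 := close_poly hC hs hD h4 (n + 1) le_rfl
  rw [← hε] at h4 h5
  have hε1 : ε ≤ 1 := by nlinarith
  have h6 : 2 * C * ε * ((n + 1 : ℕ) : ℝ) ^ (s + 1) ≤ 1 := by
    have h7 : (2 * C * ε * ((n + 1 : ℕ) : ℝ) ^ (s + 1)) ^ 2 ≤ 1 := by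
      have h8 : (((n + 1 : ℕ) : ℝ) ^ (s + 1)) ^ 2 = ((n + 1 : ℕ) : ℝ) ^ (2 * s + 2) := by
        rw [← Real.rpow_natCast, ← Real.rpow_mul (Nat.cast_nonneg _)]
        congr 1
        push_cast
        ring
      calc (2 * C * ε * ((n + 1 : ℕ) : ℝ) ^ (s + 1)) ^ 2
          = ε * (4 * C ^ 2 * ε * ((n + 1 : ℕ) : ℝ) ^ (2 * s + 2)) := by rw [← h8]; ring
        _ ≤ 1 * 1 := mul_le_mul hε1 h4 (by positivity) (by norm_num)
        _ = 1 := one_mul _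
    have h9 : 0 ≤ 2 * C * ε * ((n + 1 : ℕ) : ℝ) ^ (s + 1) := by positivity
    nlinarith
  have h8 := rate_le hc₀ hψ hw (n := n) (by rw [← hε]; exact hε1) (h5.trans h6)
  refine h8.trans ?_
  rw [mul_one_div]
  apply div_le_div_of_nonneg_left (by norm_num) (by positivity)
  rw [← Real.rpow_natCast 2 (n + 2)]
  apply Real.rpow_le_rpow_of_exponent_le (by norm_num)
  push_cast
  linarith

/-- the final form of the bounds: harmonic measure and Green's function -/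
theorem harm_green {c₀ : ℂ} (hc₀ : c₀ ∈ multibrotSet 2) {C s : ℝ} (hC1 : 1 ≤ C) (hs : 0 ≤ s)
    (hD : ∀ m n, m ≤ n → LL c₀ m n ≤ C * (((n - m : ℕ) : ℝ) + 1) ^ s) :
    ∃ A : ℝ, 0 < A ∧ ∀ ψ : ℂ → ℂ, IsExteriorMap (multibrotSet 2) ψ → ∀ᶠ r : ℝ in 𝓝[>] 0,
      (volume (Ang ψ c₀ r)).toReal < Real.exp (-(A * r ^ (-(1 / (2 * s + 2))))) ∧
      sSup {x | ∃ w : ℂ, 1 < ‖w‖ ∧ ‖ψ w - c₀‖ ≤ r ∧ Real.log ‖w‖ = x} <
        Real.exp (-(A * r ^ (-(1 / (2 * s + 2))))) := by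
  have hlog2 : 0 < Real.log 2 := Real.log_pos (by norm_num)
  have hC : 0 < C := by linarith
  have hpi := Real.pi_pos
  obtain ⟨β, hβ⟩ : ∃ β, β = 1 / (2 * s + 2) := ⟨_, rfl⟩
  have hβ0 : 0 < β := by rw [hβ]; positivity
  rw [← hβ]
  obtain ⟨A, hA⟩ : ∃ A, A = Real.log 2 * (8 * C ^ 2) ^ (-β) / 2 := ⟨_, rfl⟩
  have hA0 : 0 < A := by rw [hA]; positivity
  refine ⟨A, hA0, ?_⟩
  intro ψ hψ
  -- `exp (-A r^(-β))` is small
  have hlim : Tendsto (fun r : ℝ => r ^ (-β)) (𝓝[>] 0) atTop := by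
    exact tendsto_rpow_neg_nhdsGT_zero (by linarith)
  have hlim2 : Tendsto (fun r : ℝ => Real.exp (-(A * r ^ (-β)))) (𝓝[>] 0) (𝓝 0) := by
    apply Real.tendsto_exp_neg_atTop_nhds_zero.comp
    exact hlim.const_mul_atTop hA0
  obtain ⟨K, hK⟩ : ∃ K, K = 2 * Real.pi * 12 / Real.log 2 + 12 := ⟨_, rfl⟩
  have hK0 : 0 < K := by rw [hK]; positivity
  have hev := hlim2.eventually (gt_mem_nhds (show 0 < 1 / K by positivity))
  filter_upwards [ev_pos, ev_lt (show 0 < 1 / (8 * C ^ 2) by positivity), hev] with r hr0 hr1 hr2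
  rw [lt_div_iff₀ (by positivity)] at hr1
  obtain ⟨S, hS⟩ : ∃ S, S = 12 * Real.exp (-(2 * A * r ^ (-β))) := ⟨_, rfl⟩
  have hS0 : 0 < S := by rw [hS]; positivity
  have hbound : ∀ w : ℂ, 1 < ‖w‖ → ‖ψ w - c₀‖ ≤ 2 * r → Real.log ‖w‖ ≤ S := by
    intro w hw hwr
    have h1 : 4 * C ^ 2 * ‖ψ w - c₀‖ ≤ 8 * C ^ 2 * r := by nlinarith [sq_nonneg C]
    have h2 := upper_poly hc₀ hC1 hs hD hψ hw (by linarith)
    have h3 := Real.log_le_sub_one_of_pos (show 0 < ‖w‖ by linarith)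
    refine h3.trans (h2.trans ?_)
    rw [hS]
    apply mul_le_mul_of_nonneg_left _ (by norm_num)
    apply Real.exp_le_exp.2
    apply neg_le_neg
    rw [← hβ]
    have hne : 0 < 4 * C ^ 2 * ‖ψ w - c₀‖ := by
      have h4 : 0 < ‖ψ w - c₀‖ := by
        rw [norm_pos_iff, sub_ne_zero]
        intro h
        have h1 : ψ w ∈ (multibrotSet 2)ᶜ := by
          rw [← hψ.image]
          exact ⟨w, hw, rfl⟩
        rw [h] at h1
        exact h1 hc₀
      positivity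
    have h5 : (8 * C ^ 2 * r) ^ (-β) ≤ (4 * C ^ 2 * ‖ψ w - c₀‖) ^ (-β) :=
      Real.rpow_le_rpow_of_nonpos hne h1 (by linarith)
    calc 2 * A * r ^ (-β) = Real.log 2 * (8 * C ^ 2 * r) ^ (-β) := by
          rw [hA, Real.mul_rpow (by positivity) hr0.le]
          ring
      _ ≤ _ := mul_le_mul_of_nonneg_left h5 hlog2.le
  have hsq : Real.exp (-(2 * A * r ^ (-β))) = Real.exp (-(A * r ^ (-β))) ^ 2 := by
    rw [← Real.exp_nat_mul]
    congr 1
    push_cast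
    ring
  obtain ⟨E, hE⟩ : ∃ E, E = Real.exp (-(A * r ^ (-β))) := ⟨_, rfl⟩
  have hE0 : 0 < E := by rw [hE]; positivity
  rw [← hE] at hr2 hsq ⊢
  rw [lt_div_iff₀ hK0] at hr2
  have hSE : S = 12 * E ^ 2 := by rw [hS, hsq]
  constructor
  · have h1 := Pool.Agent.Y736.HG.vol_le (d := 2) le_rfl hψ hc₀ hr0 hS0.le hbound
    refine h1.trans_lt ?_
    have h2 : 2 * Real.pi * S / Real.log 2 = (2 * Real.pi * 12 / Real.log 2) * E ^ 2 := by
      rw [hSE]; ring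
    rw [h2]
    have h3 : (2 * Real.pi * 12 / Real.log 2) < K := by rw [hK]; linarith
    nlinarith
  · have h1 : sSup {x | ∃ w : ℂ, 1 < ‖w‖ ∧ ‖ψ w - c₀‖ ≤ r ∧ Real.log ‖w‖ = x} ≤ S := by
      apply Real.sSup_le _ hS0.le
      rintro x ⟨w, hw1, hw2, rfl⟩
      exact hbound w hw1 (by linarith)
    refine h1.trans_lt ?_
    rw [hSE]
    have h3 : 12 < K := by
      rw [hK]
      have : 0 < 2 * Real.pi * 12 / Real.log 2 := by positivity
      linarith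
    nlinarith

/-- the loop at a point where harmonic measure is small -/
theorem loop_gen {ψ : ℂ → ℂ} {c₀ : ℂ} {ρ : ℝ → ℝ} (hρ : Tendsto ρ (𝓝[>] 0) (𝓝[>] 0))
    (hvol : ∀ᶠ δ : ℝ in 𝓝[>] 0, (volume (Ang ψ c₀ (ρ δ))).toReal < δ)
    {F : ℂ → ℂ} (hF : ContinuousOn F {w | 1 ≤ ‖w‖}) (hE : ∀ w, 1 < ‖w‖ → F w = ψ w) {ζ : ℂ}
    (hζ : ‖ζ‖ = 1) (hFζ : F ζ = c₀) :
    ∀ᶠ δ : ℝ in 𝓝[>] 0, ∃ ξ : ℂ, ‖ξ‖ = 1 ∧ ‖ξ - ζ‖ ≤ δ ∧ ρ δ ≤ ‖F ξ - F ζ‖ := by
  have hpi := Real.pi_pos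
  -- the angle of `ζ`
  obtain ⟨θ₀, hθ₀, hθζ⟩ : ∃ θ₀ : ℝ, θ₀ ∈ Ioc 0 (2 * Real.pi) ∧ exp (θ₀ * I) = ζ := by
    have h1 : exp ((arg ζ : ℝ) * I) = ζ := by
      have := Complex.norm_mul_exp_arg_mul_I ζ
      rwa [hζ, ofReal_one, one_mul] at this
    rcases le_or_gt (arg ζ) 0 with h2 | h2
    · refine ⟨arg ζ + 2 * Real.pi, ⟨?_, by linarith⟩, ?_⟩
      · have := Complex.neg_pi_lt_arg ζ
        linarith
      · push_cast
        rw [add_mul, Complex.exp_add, Complex.exp_two_pi_mul_I, mul_one]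
        exact h1
    · exact ⟨arg ζ, ⟨h2, by linarith [Complex.arg_le_pi ζ]⟩, h1⟩
  filter_upwards [ev_pos, ev_lt hθ₀.1, hvol] with δ hδ0 hδ2 hδ3
  by_contra hcon
  push Not at hcon
  -- an interval of angles
  have hsub : Ioc (θ₀ - δ) θ₀ ⊆ Ang ψ c₀ (ρ δ) := by
    intro θ hθ
    refine ⟨⟨by linarith [hθ.1], hθ.2.trans hθ₀.2⟩, F (exp (θ * I)), ?_, ?_⟩
    · rw [mem_ball, dist_eq_norm, ← hFζ]
      apply hcon
      · exact Complex.norm_exp_ofReal_mul_I θ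
      · rw [← hθζ]
        have h1 : exp (θ * I) - exp (θ₀ * I) = exp (θ₀ * I) * (exp (I * ((θ - θ₀ : ℝ) : ℂ)) - 1) := by
          rw [mul_sub, ← Complex.exp_add, mul_one]
          congr 2
          push_cast
          ring
        rw [h1, norm_mul, Complex.norm_exp_ofReal_mul_I, one_mul]
        refine (Real.norm_exp_I_mul_ofReal_sub_one_le).trans ?_
        rw [Real.norm_eq_abs, abs_le]
        constructor <;> linarith [hθ.1, hθ.2]
    · have h1 : ContinuousWithinAt F {w | 1 ≤ ‖w‖} (exp (θ * I)) :=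
        hF _ (by
          show 1 ≤ ‖exp (θ * I)‖
          rw [Complex.norm_exp_ofReal_mul_I])
      have h2 : Tendsto (fun ρ : ℝ => (ρ : ℂ) * exp (θ * I)) (𝓝[>] 1)
          (𝓝[{w | 1 ≤ ‖w‖}] (exp (θ * I))) := by
        rw [tendsto_nhdsWithin_iff]
        refine ⟨?_, ?_⟩
        · have h3 : Continuous fun ρ : ℝ => (ρ : ℂ) * exp (θ * I) := by fun_prop
          have h4 := (h3.tendsto 1).mono_left (nhdsWithin_le_nhds (s := Ioi (1 : ℝ)))
          simpa using h4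
        · filter_upwards [self_mem_nhdsWithin] with ρ hρ
          have hρ' : 1 < ρ := hρ
          show 1 ≤ ‖(ρ : ℂ) * exp (θ * I)‖
          rw [norm_mul, Complex.norm_exp_ofReal_mul_I, mul_one, Complex.norm_real,
            Real.norm_of_nonneg (by linarith)]
          exact hρ'.le
      refine (h1.tendsto.comp h2).congr' ?_
      filter_upwards [self_mem_nhdsWithin] with ρ hρ
      have hρ' : 1 < ρ := hρ
      apply hE
      rw [norm_mul, Complex.norm_exp_ofReal_mul_I, mul_one, Complex.norm_real,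
        Real.norm_of_nonneg (by linarith)]
      exact hρ'
  have h2 := ENNReal.toReal_mono (vol_Ang_ne ψ c₀ (ρ δ)) (measure_mono hsub)
  rw [Real.volume_Ioc, ENNReal.toReal_ofReal (by linarith)] at h2
  linarith

/-- the modulus of continuity of the loop is at least a power of `1 / log` -/
theorem loop_log {ψ : ℂ → ℂ} {c₀ : ℂ} {A β : ℝ} (hA : 0 < A) (hβ : 0 < β)
    (hvol : ∀ᶠ r : ℝ in 𝓝[>] 0, (volume (Ang ψ c₀ r)).toReal < Real.exp (-(A * r ^ (-β))))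
    {F : ℂ → ℂ} (hF : ContinuousOn F {w | 1 ≤ ‖w‖}) (hE : ∀ w, 1 < ‖w‖ → F w = ψ w) {ζ : ℂ}
    (hζ : ‖ζ‖ = 1) (hFζ : F ζ = c₀) :
    ∀ᶠ δ : ℝ in 𝓝[>] 0, ∃ ξ : ℂ, ‖ξ‖ = 1 ∧ ‖ξ - ζ‖ ≤ δ ∧
      (A / Real.log (1 / δ)) ^ (1 / β) ≤ ‖F ξ - F ζ‖ := by
  have hlog : Tendsto (fun δ : ℝ => Real.log (1 / δ)) (𝓝[>] 0) atTop := by
    have h1 : Tendsto (fun δ : ℝ => -Real.log δ) (𝓝[>] 0) atTop :=
      tendsto_neg_atBot_atTop.comp Real.tendsto_log_nhdsGT_zero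
    refine h1.congr fun δ => ?_
    rw [one_div, Real.log_inv]
  have hρ : Tendsto (fun δ : ℝ => (A / Real.log (1 / δ)) ^ (1 / β)) (𝓝[>] 0) (𝓝[>] 0) := by
    rw [tendsto_nhdsWithin_iff]
    refine ⟨?_, ?_⟩
    · have h1 : Tendsto (fun δ : ℝ => A / Real.log (1 / δ)) (𝓝[>] 0) (𝓝 0) :=
        hlog.const_div_atTop A
      have h2 := h1.rpow_const (p := 1 / β) (Or.inr (by positivity))
      rwa [Real.zero_rpow (by positivity)] at h2
    · filter_upwards [hlog.eventually (eventually_gt_atTop 0)] with δ hδ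
      exact Real.rpow_pos_of_pos (by positivity) _
  refine loop_gen hρ ?_ hF hE hζ hFζ
  filter_upwards [hρ.eventually hvol, hlog.eventually (eventually_gt_atTop 0), ev_pos]
    with δ h1 h2 h3
  refine h1.trans_le (le_of_eq ?_)
  have h4 : ((A / Real.log (1 / δ)) ^ (1 / β)) ^ (-β) = Real.log (1 / δ) / A := by
    rw [← Real.rpow_mul (by positivity), show 1 / β * -β = -1 by field_simp, Real.rpow_neg_one,
      inv_div]
  rw [h4, show A * (Real.log (1 / δ) / A) = Real.log (1 / δ) by field_simp, ← Real.log_inv,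
    one_div, inv_inv, Real.exp_log h3]

end Pool.Agent.U256.SE
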