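import Pool.Agent.Y736.HL5
import Pool.Agent.Y736.RN.L
import Pool.Agent.U256.SE

set_option autoImplicit false

/-! # Polynomial growth of the derivatives along the critical orbit: all degrees -/

namespace Pool.Agent.U256.GD

open Complex Metric Set Filter Topology MeasureTheory Pool.Agent.H713R2
open Pool.Agent.H712R2 (P P_succ P_one P_zero fc continuous_P mem_multibrot_iff)
open N62a1eb23
open Pool.Agent.Y736.HD (Ang vol_Ang_ne ev_lt ev_pos GS)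
open Pool.Agent.Y736.RN (iter_P diff_it_y)

variable {d : ℕ}

/-- the modulus of the derivative of `f_c^(n-m)` at the `m`-th point of the critical orbit -/
noncomputable def DD (d : ℕ) (c : ℂ) (m n : ℕ) : ℝ :=
  ∏ i ∈ Finset.Ico m n, ‖(d : ℂ) * P d i c ^ (d - 1)‖

theorem DD_nonneg (d : ℕ) (c : ℂ) (m n : ℕ) : 0 ≤ DD d c m n :=
  Finset.prod_nonneg fun _ _ => norm_nonneg _

theorem DD_self (d : ℕ) (c : ℂ) (m : ℕ) : DD d c m m = 1 := by simp [DD]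

theorem DD_succ (d : ℕ) (c : ℂ) {m n : ℕ} (h : m ≤ n) :
    DD d c m (n + 1) = DD d c m n * ‖(d : ℂ) * P d n c ^ (d - 1)‖ :=
  Finset.prod_Ico_succ_top h _

theorem DD_mul (d : ℕ) (c : ℂ) {m k n : ℕ} (h1 : m ≤ k) (h2 : k ≤ n) :
    DD d c m k * DD d c k n = DD d c m n :=
  Finset.prod_Ico_consecutive _ h1 h2

theorem hasDerivAt_fc (d : ℕ) (c z : ℂ) : HasDerivAt (fc d c) ((d : ℂ) * z ^ (d - 1)) z :=
  (hasDerivAt_pow d z).add_const c

theorem norm_deriv_iter (d : ℕ) (c : ℂ) (m N : ℕ) :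
    ‖deriv ((fc d c)^[N]) (P d m c)‖ = DD d c m (m + N) := by
  induction N with
  | zero => simp [DD]
  | succ N ih =>
    rw [Function.iterate_succ', ← add_assoc, DD_succ d c (Nat.le_add_right m N)]
    have h := (hasDerivAt_fc d c ((fc d c)^[N] (P d m c))).comp (P d m c)
      ((diff_it_y d N c) (P d m c)).hasDerivAt
    rw [h.deriv, norm_mul, ih, iter_P, mul_comm, add_comm N m]

theorem DD_le (hd : 2 ≤ d) {c : ℂ} (hc : c ∈ multibrotSet d) {m n : ℕ} :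
    DD d c m n ≤ ((d : ℝ) * 2 ^ (d - 1)) ^ (n - m) := by
  unfold DD
  have h := Finset.prod_le_prod (s := Finset.Ico m n)
    (f := fun i => ‖(d : ℂ) * P d i c ^ (d - 1)‖)
    (g := fun _ => (d : ℝ) * 2 ^ (d - 1)) (fun i _ => norm_nonneg _) (by
      intro i _
      rw [norm_mul, norm_pow, Complex.norm_natCast]
      have := (mem_multibrot_iff hd c).1 hc i
      gcongr)
  rwa [Finset.prod_const, Nat.card_Ico] at h

/-- the second order remainder of a power -/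
theorem pow_rem {x δ : ℂ} (hx : ‖x‖ ≤ 2) (hδ : ‖δ‖ ≤ 1) (k : ℕ) :
    ‖(x + δ) ^ (k + 1) - x ^ (k + 1) - (k + 1) * x ^ k * δ‖ ≤
      (3 ^ (k + 1) - 2 ^ (k + 1) - (k + 1) * 2 ^ k) * ‖δ‖ ^ 2 := by
  induction k with
  | zero => simp; norm_num
  | succ k ih =>
    have e : (x + δ) ^ (k + 1 + 1) - x ^ (k + 1 + 1) - (((k + 1 : ℕ) : ℂ) + 1) * x ^ (k + 1) * δ =
        (x + δ) * ((x + δ) ^ (k + 1) - x ^ (k + 1) - (k + 1) * x ^ k * δ) +
          (k + 1) * x ^ k * δ ^ 2 := by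
      push_cast
      ring
    rw [e]
    refine (norm_add_le _ _).trans ?_
    rw [norm_mul, norm_mul, norm_mul, norm_pow, norm_pow]
    have h1 : ‖x + δ‖ ≤ 3 := (norm_add_le _ _).trans (by linarith)
    have h2 : ‖((k : ℂ) + 1)‖ = (k : ℝ) + 1 := by
      rw [show ((k : ℂ) + 1) = ((k + 1 : ℕ) : ℂ) by push_cast; rfl, Complex.norm_natCast]
      push_cast
      rfl
    rw [h2]
    have h3 : ‖x‖ ^ k ≤ 2 ^ k := pow_le_pow_left₀ (norm_nonneg _) hx k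
    have h4 : ‖x + δ‖ * ‖(x + δ) ^ (k + 1) - x ^ (k + 1) - (k + 1) * x ^ k * δ‖ ≤
        3 * ((3 ^ (k + 1) - 2 ^ (k + 1) - (k + 1) * 2 ^ k) * ‖δ‖ ^ 2) :=
      mul_le_mul h1 ih (norm_nonneg _) (by norm_num)
    have h5 : ((k : ℝ) + 1) * ‖x‖ ^ k * ‖δ‖ ^ 2 ≤ ((k : ℝ) + 1) * 2 ^ k * ‖δ‖ ^ 2 := by gcongr
    refine (add_le_add h4 h5).trans (le_of_eq ?_)
    push_cast
    ring

theorem pow_rem' (hd : 2 ≤ d) {x δ : ℂ} (hx : ‖x‖ ≤ 2) (hδ : ‖δ‖ ≤ 1) :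
    ‖(x + δ) ^ d - x ^ d - d * x ^ (d - 1) * δ‖ ≤ 3 ^ d * ‖δ‖ ^ 2 := by
  obtain ⟨k, rfl⟩ : ∃ k, d = k + 1 := ⟨d - 1, by omega⟩
  have h := pow_rem hx hδ k
  rw [Nat.add_sub_cancel]
  push_cast
  refine h.trans ?_
  apply mul_le_mul_of_nonneg_right _ (by positivity)
  have h1 : (0 : ℝ) < 2 ^ (k + 1) := by positivity
  have h2 : (0 : ℝ) < (k + 1) * 2 ^ k := by positivity
  linarith

/-- the variation of constants bound -/
theorem duhamel (hd : 2 ≤ d) {c₀ c : ℂ} (hc₀ : c₀ ∈ multibrotSet d) (k : ℕ)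
    (h : ∀ j, j < k → ‖P d j c - P d j c₀‖ ≤ 1) :
    ‖P d k c - P d k c₀‖ ≤
      ∑ j ∈ Finset.range k, DD d c₀ (j + 1) k *
        (‖c - c₀‖ + 3 ^ d * ‖P d j c - P d j c₀‖ ^ 2) := by
  induction k with
  | zero => simp [P_zero]
  | succ k ih =>
    have ih := ih fun j hj => h j (hj.trans (Nat.lt_succ_self k))
    have hk := h k (Nat.lt_succ_self k)
    rw [Finset.sum_range_succ, DD_self, one_mul]
    have e : P d (k + 1) c - P d (k + 1) c₀ =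
        (d : ℂ) * P d k c₀ ^ (d - 1) * (P d k c - P d k c₀) +
          ((P d k c₀ + (P d k c - P d k c₀)) ^ d - P d k c₀ ^ d -
            d * P d k c₀ ^ (d - 1) * (P d k c - P d k c₀)) + (c - c₀) := by
      rw [P_succ, P_succ]
      ring
    have hb := (mem_multibrot_iff hd c₀).1 hc₀ k
    have hrem := pow_rem' hd hb hk
    have h1 : ‖P d (k + 1) c - P d (k + 1) c₀‖ ≤
        ‖(d : ℂ) * P d k c₀ ^ (d - 1)‖ * ‖P d k c - P d k c₀‖ +
          3 ^ d * ‖P d k c - P d k c₀‖ ^ 2 + ‖c - c₀‖ := by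
      rw [e]
      refine (norm_add_le _ _).trans (add_le_add_left ?_ _)
      refine (norm_add_le _ _).trans ?_
      rw [norm_mul]
      exact add_le_add_right hrem _
    have h2 : ∑ j ∈ Finset.range k, DD d c₀ (j + 1) (k + 1) *
        (‖c - c₀‖ + 3 ^ d * ‖P d j c - P d j c₀‖ ^ 2) =
        ‖(d : ℂ) * P d k c₀ ^ (d - 1)‖ * ∑ j ∈ Finset.range k, DD d c₀ (j + 1) k *
          (‖c - c₀‖ + 3 ^ d * ‖P d j c - P d j c₀‖ ^ 2) := by
      rw [Finset.mul_sum]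
      apply Finset.sum_congr rfl
      intro j hj
      rw [DD_succ d c₀ (Finset.mem_range.1 hj)]
      ring
    rw [h2]
    have h3 := mul_le_mul_of_nonneg_left ih (norm_nonneg ((d : ℂ) * P d k c₀ ^ (d - 1)))
    linarith

/-- orbits stay close for a time which is a power of the distance -/
theorem close_poly (hd : 2 ≤ d) {c₀ c : ℂ} (hc₀ : c₀ ∈ multibrotSet d) {C s : ℝ} (hC1 : 1 ≤ C)
    (hs : 0 ≤ s)
    (hD : ∀ m n, m ≤ n → DD d c₀ m n ≤ C * (((n - m : ℕ) : ℝ) + 1) ^ s) {n : ℕ}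
    (hn : 4 * C ^ 2 * 3 ^ d * ‖c - c₀‖ * (n : ℝ) ^ (2 * s + 2) ≤ 1) :
    ∀ k, k ≤ n → ‖P d k c - P d k c₀‖ ≤ 2 * C * ‖c - c₀‖ * (k : ℝ) ^ (s + 1) := by
  have hC : 0 < C := by linarith
  obtain ⟨ε, hε⟩ : ∃ ε, ε = ‖c - c₀‖ := ⟨_, rfl⟩
  rw [← hε] at hn ⊢
  have hε0 : 0 ≤ ε := by rw [hε]; exact norm_nonneg _
  have h3d : (1 : ℝ) ≤ 3 ^ d := one_le_pow₀ (by norm_num)
  intro k
  induction k using Nat.strong_induction_on with
  | _ k ih =>
    intro hk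
    have hsq : ∀ j, j < k → 3 ^ d * ‖P d j c - P d j c₀‖ ^ 2 ≤ ε := by
      intro j hjk
      have h3 := ih j hjk (hjk.le.trans hk)
      have h5 : ‖P d j c - P d j c₀‖ ^ 2 ≤ (2 * C * ε * (j : ℝ) ^ (s + 1)) ^ 2 :=
        pow_le_pow_left₀ (norm_nonneg _) h3 2
      have h6 : ((j : ℝ) ^ (s + 1)) ^ 2 = (j : ℝ) ^ (2 * s + 2) := by
        rw [← Real.rpow_natCast, ← Real.rpow_mul (Nat.cast_nonneg j)]
        congr 1
        push_cast
        ring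
      have h7 : (j : ℝ) ^ (2 * s + 2) ≤ (n : ℝ) ^ (2 * s + 2) := by
        apply Real.rpow_le_rpow (Nat.cast_nonneg j) _ (by positivity)
        exact_mod_cast hjk.le.trans hk
      calc 3 ^ d * ‖P d j c - P d j c₀‖ ^ 2 ≤ 3 ^ d * (2 * C * ε * (j : ℝ) ^ (s + 1)) ^ 2 := by
            gcongr
        _ = ε * (4 * C ^ 2 * 3 ^ d * ε * (j : ℝ) ^ (2 * s + 2)) := by rw [← h6]; ring
        _ ≤ ε * (4 * C ^ 2 * 3 ^ d * ε * (n : ℝ) ^ (2 * s + 2)) := by gcongr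
        _ ≤ ε * 1 := by gcongr
        _ = ε := mul_one _
    have hsmall : ∀ j, j < k → ‖P d j c - P d j c₀‖ ≤ 1 := by
      intro j hjk
      have h1 := hsq j hjk
      have hn1 : (1 : ℝ) ≤ (n : ℝ) ^ (2 * s + 2) := by
        apply Real.one_le_rpow _ (by positivity)
        exact_mod_cast (by omega : 1 ≤ n)
      have hε1 : ε ≤ 1 := by
        calc ε ≤ 4 * C ^ 2 * 3 ^ d * ε * (n : ℝ) ^ (2 * s + 2) := by
              have h2 : 1 ≤ 4 * C ^ 2 * 3 ^ d * (n : ℝ) ^ (2 * s + 2) := by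
                have h3 : (1 : ℝ) ≤ 4 * C ^ 2 := by nlinarith
                calc (1 : ℝ) = 1 * 1 * 1 := by ring
                  _ ≤ _ := by gcongr
              calc ε = ε * 1 := by ring
                _ ≤ ε * (4 * C ^ 2 * 3 ^ d * (n : ℝ) ^ (2 * s + 2)) := by gcongr
                _ = _ := by ring
          _ ≤ 1 := hn
      have h2 : ‖P d j c - P d j c₀‖ ^ 2 ≤ 1 := by
        have h4 : ‖P d j c - P d j c₀‖ ^ 2 ≤ 3 ^ d * ‖P d j c - P d j c₀‖ ^ 2 :=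
          le_mul_of_one_le_left (by positivity) h3d
        linarith
      nlinarith [norm_nonneg (P d j c - P d j c₀)]
    have h1 := duhamel hd hc₀ k hsmall
    rw [← hε] at h1
    have h2 : ∀ j ∈ Finset.range k, DD d c₀ (j + 1) k * (ε + 3 ^ d * ‖P d j c - P d j c₀‖ ^ 2) ≤
        C * (k : ℝ) ^ s * (2 * ε) := by
      intro j hj
      have hjk := Finset.mem_range.1 hj
      have h4 := hsq j hjk
      have h5 : DD d c₀ (j + 1) k ≤ C * (k : ℝ) ^ s := by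
        refine (hD (j + 1) k hjk).trans ?_
        apply mul_le_mul_of_nonneg_left _ hC.le
        apply Real.rpow_le_rpow (by positivity) _ hs
        have h6 : k - (j + 1) + 1 ≤ k := by omega
        exact_mod_cast h6
      have h6 : 0 ≤ C * (k : ℝ) ^ s := by positivity
      calc DD d c₀ (j + 1) k * (ε + 3 ^ d * ‖P d j c - P d j c₀‖ ^ 2)
          ≤ C * (k : ℝ) ^ s * (ε + ε) := by
            apply mul_le_mul h5 (by linarith) (by positivity) h6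
        _ = _ := by ring
    have h3 := Finset.sum_le_sum h2
    rw [Finset.sum_const, Finset.card_range, nsmul_eq_mul] at h3
    refine h1.trans (h3.trans ?_)
    have h4 : (k : ℝ) ^ (s + 1) = (k : ℝ) ^ s * k := by
      rcases Nat.eq_zero_or_pos k with h0 | h0
      · rw [h0, Nat.cast_zero, mul_zero, Real.zero_rpow (by linarith)]
      · have h0' : (0 : ℝ) < k := by exact_mod_cast h0
        rw [Real.rpow_add h0', Real.rpow_one]
    rw [h4]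
    apply le_of_eq
    ring

/-- if the orbits are `1`-close at time `n + 1`, then `‖w‖ - 1 ≤ 3 / d^n` -/
theorem rate_le (hd : 2 ≤ d) {c₀ : ℂ} (hc₀ : c₀ ∈ multibrotSet d) {ψ : ℂ → ℂ}
    (hψ : IsExteriorMap (multibrotSet d) ψ) {w : ℂ} (hw : 1 < ‖w‖) {n : ℕ}
    (h1 : ‖ψ w - c₀‖ ≤ 1) (h2 : ‖P d (n + 1) (ψ w) - P d (n + 1) c₀‖ ≤ 1) :
    ‖w‖ - 1 ≤ 3 * (d : ℝ) ^ 2 / (d : ℝ) ^ (n + 2) := by
  have hd0 : (0 : ℝ) < d := by exact_mod_cast (by omega : 0 < d)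
  have hb := (mem_multibrot_iff hd c₀).1 hc₀
  have h3 : ‖c₀‖ ≤ 2 := by
    have := hb 1
    rwa [P_one hd] at this
  have h4 : ‖ψ w‖ ≤ 3 := by
    have := norm_add_le (ψ w - c₀) c₀
    rw [sub_add_cancel] at this
    linarith
  have h5 : ‖P d (n + 1) (ψ w)‖ ≤ 3 := by
    have := norm_add_le (P d (n + 1) (ψ w) - P d (n + 1) c₀) (P d (n + 1) c₀)
    rw [sub_add_cancel] at this
    linarith [hb (n + 1)]
  have h6 := Pool.Agent.Y736.RN.green_lower_R hd hψ hw (R := 3) (by norm_num) h4 h5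
  have h7 := one_add_mul_le_pow (a := ‖w‖ - 1) (by linarith) (d ^ n)
  rw [show 1 + (‖w‖ - 1) = ‖w‖ by ring] at h7
  push_cast at h7
  rw [le_div_iff₀ (by positivity), pow_add]
  have h8 : (d : ℝ) ^ n * (‖w‖ - 1) ≤ 3 := by linarith
  calc (‖w‖ - 1) * ((d : ℝ) ^ n * (d : ℝ) ^ 2) = (d : ℝ) ^ n * (‖w‖ - 1) * (d : ℝ) ^ 2 := by ring
    _ ≤ 3 * (d : ℝ) ^ 2 := by gcongr

/-- stretched exponential upper bound when the derivatives grow polynomially -/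
theorem upper_poly (hd : 2 ≤ d) {c₀ : ℂ} (hc₀ : c₀ ∈ multibrotSet d) {C s : ℝ} (hC1 : 1 ≤ C)
    (hs : 0 ≤ s)
    (hD : ∀ m n, m ≤ n → DD d c₀ m n ≤ C * (((n - m : ℕ) : ℝ) + 1) ^ s) {ψ : ℂ → ℂ}
    (hψ : IsExteriorMap (multibrotSet d) ψ) {w : ℂ} (hw : 1 < ‖w‖)
    (hsm : 4 * C ^ 2 * 3 ^ d * ‖ψ w - c₀‖ ≤ 1) :
    ‖w‖ - 1 ≤ 3 * (d : ℝ) ^ 2 *
      Real.exp (-(Real.log d * (4 * C ^ 2 * 3 ^ d * ‖ψ w - c₀‖) ^ (-(1 / (2 * s + 2))))) := by
  have hC : 0 < C := by linarith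
  have hdR : (1 : ℝ) < d := by exact_mod_cast (by omega : 1 < d)
  have hd0 : (0 : ℝ) < d := by linarith
  have hlogd : 0 < Real.log d := Real.log_pos hdR
  have h3d : (1 : ℝ) ≤ 3 ^ d := one_le_pow₀ (by norm_num)
  obtain ⟨ε, hε⟩ : ∃ ε, ε = ‖ψ w - c₀‖ := ⟨_, rfl⟩
  have hε0 : 0 < ε := by
    rw [hε, norm_pos_iff, sub_ne_zero]
    intro h
    have h1 : ψ w ∈ (multibrotSet d)ᶜ := by
      rw [← hψ.image]
      exact ⟨w, hw, rfl⟩
    rw [h] at h1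
    exact h1 hc₀
  rw [← hε] at hsm ⊢
  obtain ⟨τ, hτ⟩ : ∃ τ, τ = (4 * C ^ 2 * 3 ^ d * ε) ^ (1 / (2 * s + 2)) := ⟨_, rfl⟩
  have hβ : 0 < 2 * s + 2 := by linarith
  have hX0 : 0 < 4 * C ^ 2 * 3 ^ d * ε := by positivity
  have hτ0 : 0 < τ := by rw [hτ]; positivity
  have hτ1 : τ ≤ 1 := by
    rw [hτ]
    exact Real.rpow_le_one hX0.le hsm (by positivity)
  have hτβ : τ ^ (2 * s + 2) = 4 * C ^ 2 * 3 ^ d * ε := by
    rw [hτ, ← Real.rpow_mul hX0.le, one_div, inv_mul_cancel₀ hβ.ne', Real.rpow_one]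
  have e0 : (4 * C ^ 2 * 3 ^ d * ε) ^ (-(1 / (2 * s + 2))) = 1 / τ := by
    rw [hτ, Real.rpow_neg hX0.le]
    exact (one_div _).symm
  rw [e0]
  have e1 : Real.exp (-(Real.log d * (1 / τ))) = 1 / (d : ℝ) ^ (1 / τ) := by
    rw [Real.rpow_def_of_pos hd0, one_div, one_div, ← Real.exp_neg]
  rw [e1]
  obtain ⟨k, hk⟩ : ∃ k, k = ⌊1 / τ⌋₊ := ⟨_, rfl⟩
  have h1 : 1 ≤ k := by
    rw [hk]
    apply Nat.le_floor
    rw [Nat.cast_one, le_div_iff₀ hτ0]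
    linarith
  obtain ⟨n, rfl⟩ := Nat.exists_eq_add_of_le' h1
  have h2 : ((n + 1 : ℕ) : ℝ) * τ ≤ 1 := by
    have := Nat.floor_le (by positivity : 0 ≤ 1 / τ)
    rw [← hk, le_div_iff₀ hτ0] at this
    exact this
  have h3 : 1 / τ < (n : ℝ) + 2 := by
    have := Nat.lt_floor_add_one (1 / τ)
    rw [← hk] at this
    push_cast at this
    linarith
  have h4 : 4 * C ^ 2 * 3 ^ d * ‖ψ w - c₀‖ * ((n + 1 : ℕ) : ℝ) ^ (2 * s + 2) ≤ 1 := by
    rw [← hε, ← hτβ, ← Real.mul_rpow hτ0.le (Nat.cast_nonneg _)]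
    apply Real.rpow_le_one (by positivity) _ hβ.le
    linarith
  have h5 := close_poly hd hc₀ hC1 hs hD h4 (n + 1) le_rfl
  rw [← hε] at h4 h5
  have hε1 : ε ≤ 1 := by
    calc ε = 1 * 1 * ε := by ring
      _ ≤ (4 * C ^ 2) * 3 ^ d * ε := by
        have : (1 : ℝ) ≤ 4 * C ^ 2 := by nlinarith
        gcongr
      _ ≤ 1 := hsm
  have h6 : 2 * C * ε * ((n + 1 : ℕ) : ℝ) ^ (s + 1) ≤ 1 := by
    have h7 : (2 * C * ε * ((n + 1 : ℕ) : ℝ) ^ (s + 1)) ^ 2 ≤ 1 := by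
      have h8 : (((n + 1 : ℕ) : ℝ) ^ (s + 1)) ^ 2 = ((n + 1 : ℕ) : ℝ) ^ (2 * s + 2) := by
        rw [← Real.rpow_natCast, ← Real.rpow_mul (Nat.cast_nonneg _)]
        congr 1
        push_cast
        ring
      calc (2 * C * ε * ((n + 1 : ℕ) : ℝ) ^ (s + 1)) ^ 2
          = ε * (4 * C ^ 2 * 1 * ε * ((n + 1 : ℕ) : ℝ) ^ (2 * s + 2)) := by rw [← h8]; ring
        _ ≤ ε * (4 * C ^ 2 * 3 ^ d * ε * ((n + 1 : ℕ) : ℝ) ^ (2 * s + 2)) := by gcongr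
        _ ≤ 1 * 1 := mul_le_mul hε1 h4 (by positivity) (by norm_num)
        _ = 1 := one_mul _
    have h9 : 0 ≤ 2 * C * ε * ((n + 1 : ℕ) : ℝ) ^ (s + 1) := by positivity
    nlinarith
  have h8 := rate_le hd hc₀ hψ hw (n := n) (by rw [← hε]; exact hε1) (h5.trans h6)
  refine h8.trans ?_
  rw [mul_one_div]
  apply div_le_div_of_nonneg_left (by positivity) (by positivity)
  rw [← Real.rpow_natCast (d : ℝ) (n + 2)]
  apply Real.rpow_le_rpow_of_exponent_le hdR.le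
  push_cast
  linarith

/-- the final form of the bounds: harmonic measure and Green's function -/
theorem harm_green (hd : 2 ≤ d) {c₀ : ℂ} (hc₀ : c₀ ∈ multibrotSet d) {C s : ℝ} (hC1 : 1 ≤ C)
    (hs : 0 ≤ s)
    (hD : ∀ m n, m ≤ n → DD d c₀ m n ≤ C * (((n - m : ℕ) : ℝ) + 1) ^ s) :
    ∃ A : ℝ, 0 < A ∧ ∀ ψ : ℂ → ℂ, IsExteriorMap (multibrotSet d) ψ → ∀ᶠ r : ℝ in 𝓝[>] 0,
      (volume (Ang ψ c₀ r)).toReal < Real.exp (-(A * r ^ (-(1 / (2 * s + 2))))) ∧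
      sSup {x | ∃ w : ℂ, 1 < ‖w‖ ∧ ‖ψ w - c₀‖ ≤ r ∧ Real.log ‖w‖ = x} <
        Real.exp (-(A * r ^ (-(1 / (2 * s + 2))))) := by
  have hdR : (1 : ℝ) < d := by exact_mod_cast (by omega : 1 < d)
  have hd0 : (0 : ℝ) < d := by linarith
  have hlogd : 0 < Real.log d := Real.log_pos hdR
  have hlog2 : 0 < Real.log 2 := Real.log_pos (by norm_num)
  have h3d : (1 : ℝ) ≤ 3 ^ d := one_le_pow₀ (by norm_num)
  have h3d0 : (0 : ℝ) < 3 ^ d := by positivity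
  have hC : 0 < C := by linarith
  have hpi := Real.pi_pos
  obtain ⟨β, hβ⟩ : ∃ β, β = 1 / (2 * s + 2) := ⟨_, rfl⟩
  have hβ0 : 0 < β := by rw [hβ]; positivity
  rw [← hβ]
  obtain ⟨G, hG⟩ : ∃ G : ℝ, G = 3 ^ d := ⟨_, rfl⟩
  rw [← hG] at h3d h3d0
  obtain ⟨A, hA⟩ : ∃ A, A = Real.log d * (8 * C ^ 2 * G) ^ (-β) / 2 := ⟨_, rfl⟩
  have hA0 : 0 < A := by rw [hA]; positivity
  refine ⟨A, hA0, ?_⟩
  intro ψ hψ
  -- `exp (-A r^(-β))` is small
  have hlim : Tendsto (fun r : ℝ => r ^ (-β)) (𝓝[>] 0) atTop := by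
    exact tendsto_rpow_neg_nhdsGT_zero (by linarith)
  have hlim2 : Tendsto (fun r : ℝ => Real.exp (-(A * r ^ (-β)))) (𝓝[>] 0) (𝓝 0) := by
    apply Real.tendsto_exp_neg_atTop_nhds_zero.comp
    exact hlim.const_mul_atTop hA0
  obtain ⟨B, hB⟩ : ∃ B : ℝ, B = 3 * (d : ℝ) ^ 2 := ⟨_, rfl⟩
  have hB0 : 0 < B := by rw [hB]; positivity
  obtain ⟨K, hK⟩ : ∃ K, K = 2 * Real.pi * B / Real.log 2 + B := ⟨_, rfl⟩
  have hK0 : 0 < K := by rw [hK]; positivity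
  have hev := hlim2.eventually (gt_mem_nhds (show 0 < 1 / K by positivity))
  filter_upwards [ev_pos, ev_lt (show 0 < 1 / (8 * C ^ 2 * G) by positivity), hev]
    with r hr0 hr1 hr2
  rw [lt_div_iff₀ (by positivity)] at hr1
  obtain ⟨S, hS⟩ : ∃ S, S = B * Real.exp (-(2 * A * r ^ (-β))) := ⟨_, rfl⟩
  have hS0 : 0 < S := by rw [hS]; positivity
  have hbound : ∀ w : ℂ, 1 < ‖w‖ → ‖ψ w - c₀‖ ≤ 2 * r → Real.log ‖w‖ ≤ S := by
    intro w hw hwr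
    have h1 : 4 * C ^ 2 * G * ‖ψ w - c₀‖ ≤ 8 * C ^ 2 * G * r := by
      calc 4 * C ^ 2 * G * ‖ψ w - c₀‖ ≤ 4 * C ^ 2 * G * (2 * r) := by gcongr
        _ = _ := by ring
    have h2 := upper_poly hd hc₀ hC1 hs hD hψ hw (by rw [← hG]; linarith)
    rw [← hG, ← hB] at h2
    have h3 := Real.log_le_sub_one_of_pos (show 0 < ‖w‖ by linarith)
    refine h3.trans (h2.trans ?_)
    rw [hS]
    apply mul_le_mul_of_nonneg_left _ hB0.le
    apply Real.exp_le_exp.2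
    apply neg_le_neg
    rw [← hβ]
    have hne : 0 < 4 * C ^ 2 * G * ‖ψ w - c₀‖ := by
      have h4 : 0 < ‖ψ w - c₀‖ := by
        rw [norm_pos_iff, sub_ne_zero]
        intro h
        have h1 : ψ w ∈ (multibrotSet d)ᶜ := by
          rw [← hψ.image]
          exact ⟨w, hw, rfl⟩
        rw [h] at h1
        exact h1 hc₀
      positivity
    have h5 : (8 * C ^ 2 * G * r) ^ (-β) ≤ (4 * C ^ 2 * G * ‖ψ w - c₀‖) ^ (-β) :=
      Real.rpow_le_rpow_of_nonpos hne h1 (by linarith)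
    calc 2 * A * r ^ (-β) = Real.log d * (8 * C ^ 2 * G * r) ^ (-β) := by
          rw [hA, Real.mul_rpow (by positivity) hr0.le]
          ring
      _ ≤ _ := mul_le_mul_of_nonneg_left h5 hlogd.le
  have hsq : Real.exp (-(2 * A * r ^ (-β))) = Real.exp (-(A * r ^ (-β))) ^ 2 := by
    rw [← Real.exp_nat_mul]
    congr 1
    push_cast
    ring
  obtain ⟨E, hE⟩ : ∃ E, E = Real.exp (-(A * r ^ (-β))) := ⟨_, rfl⟩
  have hE0 : 0 < E := by rw [hE]; positivity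
  rw [← hE] at hr2 hsq ⊢
  rw [lt_div_iff₀ hK0] at hr2
  have hSE : S = B * E ^ 2 := by rw [hS, hsq]
  constructor
  · have h1 := Pool.Agent.Y736.HG.vol_le hd hψ hc₀ hr0 hS0.le hbound
    refine h1.trans_lt ?_
    have h2 : 2 * Real.pi * S / Real.log 2 = (2 * Real.pi * B / Real.log 2) * E ^ 2 := by
      rw [hSE]; ring
    rw [h2]
    have h3 : (2 * Real.pi * B / Real.log 2) < K := by rw [hK]; linarith
    nlinarith
  · have h1 : sSup {x | ∃ w : ℂ, 1 < ‖w‖ ∧ ‖ψ w - c₀‖ ≤ r ∧ Real.log ‖w‖ = x} ≤ S := by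
      apply Real.sSup_le _ hS0.le
      rintro x ⟨w, hw1, hw2, rfl⟩
      exact hbound w hw1 (by linarith)
    refine h1.trans_lt ?_
    rw [hSE]
    have h3 : B < K := by
      rw [hK]
      have : 0 < 2 * Real.pi * B / Real.log 2 := by positivity
      linarith
    nlinarith

end Pool.Agent.U256.GD
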