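import Pool.Agent.U256.GD1

set_option autoImplicit false

/-! # Universal inequalities: Green's function, returns and centres against the largest derivative
over blocks of the critical orbit -/

namespace Pool.Agent.U256.GD

open Complex Metric Set Filter Topology MeasureTheory Pool.Agent.H713R2
open Pool.Agent.H712R2 (P P_succ P_one P_zero fc continuous_P mem_multibrot_iff PP natDegree_PP
  eval_PP)
open N62a1eb23
open Pool.Agent.Y736.HD (Ang vol_Ang_ne ev_lt ev_pos GS)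
open Pool.Agent.Y736.RN (iter_P diff_it_y)

variable {d : ℕ}

/-- the derivatives over blocks of length less than `n` are at most `Φ` -/
def Bd (d : ℕ) (c : ℂ) (n : ℕ) (Φ : ℝ) : Prop :=
  1 ≤ Φ ∧ ∀ m k, k < n → DD d c m (m + k) ≤ Φ

theorem Bd.of_poly {c : ℂ} {C s : ℝ} (hC : 1 ≤ C) (hs : 0 ≤ s)
    (h : ∀ m n, m ≤ n → DD d c m n ≤ C * (((n - m : ℕ) : ℝ) + 1) ^ s) {n : ℕ} (hn : 1 ≤ n) :
    Bd d c n (C * (n : ℝ) ^ s) := by
  have hn1 : (1 : ℝ) ≤ n := by exact_mod_cast hn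
  refine ⟨?_, ?_⟩
  · have := Real.one_le_rpow hn1 hs
    nlinarith
  · intro m k hk
    have h1 := h m (m + k) (by omega)
    rw [Nat.add_sub_cancel_left] at h1
    refine h1.trans ?_
    apply mul_le_mul_of_nonneg_left _ (by linarith)
    apply Real.rpow_le_rpow (by positivity) _ hs
    exact_mod_cast hk

/-- two orbits stay close -/
theorem close_phi (hd : 2 ≤ d) {c₀ c : ℂ} (hc₀ : c₀ ∈ multibrotSet d) {n : ℕ} {Φ : ℝ}
    (hB : Bd d c₀ n Φ) (hn : 4 * 3 ^ d * ‖c - c₀‖ * (n * Φ) ^ 2 ≤ 1) :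
    ∀ k, k ≤ n → ‖P d k c - P d k c₀‖ ≤ 2 * ‖c - c₀‖ * (k * Φ) := by
  have hΦ : 1 ≤ Φ := hB.1
  obtain ⟨ε, hε⟩ : ∃ ε, ε = ‖c - c₀‖ := ⟨_, rfl⟩
  rw [← hε] at hn ⊢
  have hε0 : 0 ≤ ε := by rw [hε]; exact norm_nonneg _
  have h3d : (1 : ℝ) ≤ 3 ^ d := one_le_pow₀ (by norm_num)
  intro k
  induction k using Nat.strong_induction_on with
  | _ k ih =>
    intro hk
    have hsq : ∀ j, j < k → 3 ^ d * ‖P d j c - P d j c₀‖ ^ 2 ≤ ε := by
      intro j hjk
      have h3 := ih j hjk (hjk.le.trans hk)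
      have h5 : ‖P d j c - P d j c₀‖ ^ 2 ≤ (2 * ε * (j * Φ)) ^ 2 :=
        pow_le_pow_left₀ (norm_nonneg _) h3 2
      have h7 : (j : ℝ) * Φ ≤ n * Φ := by
        apply mul_le_mul_of_nonneg_right _ (by linarith)
        exact_mod_cast hjk.le.trans hk
      calc 3 ^ d * ‖P d j c - P d j c₀‖ ^ 2 ≤ 3 ^ d * (2 * ε * (j * Φ)) ^ 2 := by
            gcongr
        _ = ε * (4 * 3 ^ d * ε * (j * Φ) ^ 2) := by ring
        _ ≤ ε * (4 * 3 ^ d * ε * (n * Φ) ^ 2) := by gcongr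
        _ ≤ ε * 1 := by gcongr
        _ = ε := mul_one _
    have hsmall : ∀ j, j < k → ‖P d j c - P d j c₀‖ ≤ 1 := by
      intro j hjk
      have h1 := hsq j hjk
      have hn1 : (1 : ℝ) ≤ n := by exact_mod_cast (by omega : 1 ≤ n)
      have hnΦ : (1 : ℝ) ≤ n * Φ := by nlinarith
      have hε1 : ε ≤ 1 := by
        calc ε = 1 * 1 * ε * 1 ^ 2 := by ring
          _ ≤ 4 * 3 ^ d * ε * (n * Φ) ^ 2 := by gcongr; norm_num
          _ ≤ 1 := hn
      have h2 : ‖P d j c - P d j c₀‖ ^ 2 ≤ 1 := by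
        have h4 : ‖P d j c - P d j c₀‖ ^ 2 ≤ 3 ^ d * ‖P d j c - P d j c₀‖ ^ 2 :=
          le_mul_of_one_le_left (by positivity) h3d
        linarith
      nlinarith [norm_nonneg (P d j c - P d j c₀)]
    have h1 := duhamel hd hc₀ k hsmall
    rw [← hε] at h1
    have h2 : ∀ j ∈ Finset.range k, DD d c₀ (j + 1) k * (ε + 3 ^ d * ‖P d j c - P d j c₀‖ ^ 2) ≤
        Φ * (2 * ε) := by
      intro j hj
      have hjk := Finset.mem_range.1 hj
      have h4 := hsq j hjk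
      have h5 : DD d c₀ (j + 1) k ≤ Φ := by
        have h6 := hB.2 (j + 1) (k - (j + 1)) (by omega)
        rwa [Nat.add_sub_cancel' hjk] at h6
      exact mul_le_mul h5 (by linarith) (by positivity) (by linarith)
    have h3 := Finset.sum_le_sum h2
    rw [Finset.sum_const, Finset.card_range, nsmul_eq_mul] at h3
    refine h1.trans (h3.trans (le_of_eq (by ring)))

/-- **Green's function against the derivatives.** -/
theorem green_phi (hd : 2 ≤ d) {c₀ : ℂ} (hc₀ : c₀ ∈ multibrotSet d) {n : ℕ} (hn : 1 ≤ n) {Φ : ℝ}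
    (hB : Bd d c₀ n Φ) {ψ : ℂ → ℂ} (hψ : IsExteriorMap (multibrotSet d) ψ) {w : ℂ}
    (hw : 1 < ‖w‖) (hsm : 4 * 3 ^ d * ‖ψ w - c₀‖ * (n * Φ) ^ 2 ≤ 1) :
    ‖w‖ - 1 ≤ 3 * d / (d : ℝ) ^ n := by
  obtain ⟨N, rfl⟩ : ∃ N, n = N + 1 := ⟨n - 1, by omega⟩
  have hΦ := hB.1
  have hd0 : (0 : ℝ) < d := by exact_mod_cast (by omega : 0 < d)
  have h3d : (1 : ℝ) ≤ 3 ^ d := one_le_pow₀ (by norm_num)
  have hn1 : (1 : ℝ) ≤ ((N + 1 : ℕ) : ℝ) := by exact_mod_cast hn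
  have hnΦ : (1 : ℝ) ≤ ((N + 1 : ℕ) : ℝ) * Φ := by nlinarith
  have h1 := close_phi hd hc₀ hB hsm (N + 1) le_rfl
  obtain ⟨ε, hε⟩ : ∃ ε, ε = ‖ψ w - c₀‖ := ⟨_, rfl⟩
  obtain ⟨Y, hY⟩ : ∃ Y, Y = ((N + 1 : ℕ) : ℝ) * Φ := ⟨_, rfl⟩
  rw [← hε, ← hY] at h1 hsm
  rw [← hY] at hnΦ
  have hε0 : 0 ≤ ε := by rw [hε]; exact norm_nonneg _
  have h2 : 2 * ε * Y ≤ 1 := by
    calc 2 * ε * Y = 2 * 1 * ε * (Y * 1) := by ring
      _ ≤ 4 * 3 ^ d * ε * (Y * Y) := by gcongr; norm_num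
      _ = 4 * 3 ^ d * ε * Y ^ 2 := by ring
      _ ≤ 1 := hsm
  have h3 : ε ≤ 1 := by
    nlinarith
  have h4 := rate_le hd hc₀ hψ hw (n := N) (by rw [← hε]; exact h3) (h1.trans h2)
  refine h4.trans (le_of_eq ?_)
  rw [show N + 2 = (N + 1) + 1 by ring, pow_succ (d : ℝ) (N + 1)]
  field_simp

/-- orbits of points near the critical value -/
theorem shadow (hd : 2 ≤ d) {c : ℂ} (hc : c ∈ multibrotSet d) {n : ℕ} {Φ : ℝ} (hB : Bd d c n Φ)
    {x : ℂ} (hx : 4 * 3 ^ d * n * Φ ^ 2 * ‖x - c‖ ≤ 1) :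
    ∀ k, k < n → ‖(fc d c)^[k] x - P d (k + 1) c‖ ≤ 2 * Φ * ‖x - c‖ := by
  have hΦ := hB.1
  have h3d : (1 : ℝ) ≤ 3 ^ d := one_le_pow₀ (by norm_num)
  obtain ⟨η, hη⟩ : ∃ η, η = ‖x - c‖ := ⟨_, rfl⟩
  rw [← hη] at hx ⊢
  have hη0 : 0 ≤ η := by rw [hη]; exact norm_nonneg _
  obtain ⟨e, he⟩ : ∃ e : ℕ → ℂ, e = fun k => (fc d c)^[k] x - P d (k + 1) c := ⟨_, rfl⟩
  have hdef : ∀ k, (fc d c)^[k] x - P d (k + 1) c = e k := fun k => by rw [he]
  simp only [hdef]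
  have he0 : e 0 = x - c := by
    rw [he]
    simp [P_one hd]
  have hstep : ∀ k, e (k + 1) = (d : ℂ) * P d (k + 1) c ^ (d - 1) * e k +
      ((P d (k + 1) c + e k) ^ d - P d (k + 1) c ^ d - d * P d (k + 1) c ^ (d - 1) * e k) := by
    intro k
    have h1 : (fc d c)^[k + 1] x = (P d (k + 1) c + e k) ^ d + c := by
      rw [Function.iterate_succ_apply', he]
      simp only [fc]
      congr 2
      ring
    have h2 : e (k + 1) = (fc d c)^[k + 1] x - P d (k + 1 + 1) c := by rw [he]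
    rw [h2, h1, P_succ d (k + 1)]
    ring
  -- variation of constants
  have hduh : ∀ k, (∀ j, j < k → ‖e j‖ ≤ 1) → ‖e k‖ ≤ DD d c 1 (k + 1) * η +
      ∑ j ∈ Finset.range k, DD d c (j + 2) (k + 1) * (3 ^ d * ‖e j‖ ^ 2) := by
    intro k
    induction k with
    | zero =>
      intro _
      rw [he0, ← hη]
      simp [DD]
    | succ k ih =>
      intro h
      have ih := ih fun j hj => h j (by omega)
      have hk := h k (Nat.lt_succ_self k)
      have hb := (mem_multibrot_iff hd c).1 hc (k + 1)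
      have hrem := pow_rem' hd hb hk
      have h1 : ‖e (k + 1)‖ ≤ ‖(d : ℂ) * P d (k + 1) c ^ (d - 1)‖ * ‖e k‖ +
          3 ^ d * ‖e k‖ ^ 2 := by
        rw [hstep k]
        refine (norm_add_le _ _).trans ?_
        rw [norm_mul]
        exact add_le_add_right hrem _
      rw [Finset.sum_range_succ, show k + 2 = k + 1 + 1 by ring, DD_self, one_mul,
        DD_succ d c (show 1 ≤ k + 1 by omega)]
      have h2 : ∑ j ∈ Finset.range k, DD d c (j + 2) (k + 1 + 1) * (3 ^ d * ‖e j‖ ^ 2) =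
          ‖(d : ℂ) * P d (k + 1) c ^ (d - 1)‖ *
            ∑ j ∈ Finset.range k, DD d c (j + 2) (k + 1) * (3 ^ d * ‖e j‖ ^ 2) := by
        rw [Finset.mul_sum]
        apply Finset.sum_congr rfl
        intro j hj
        have := Finset.mem_range.1 hj
        rw [DD_succ d c (show j + 2 ≤ k + 1 by omega)]
        ring
      rw [h2]
      have h3 := mul_le_mul_of_nonneg_left ih (norm_nonneg ((d : ℂ) * P d (k + 1) c ^ (d - 1)))
      linarith
  intro k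
  induction k using Nat.strong_induction_on with
  | _ k ih =>
    intro hk
    have hn1 : (1 : ℝ) ≤ n := by exact_mod_cast (by omega : 1 ≤ n)
    have hηs : 4 * 3 ^ d * Φ ^ 2 * η ≤ 1 := by
      calc 4 * 3 ^ d * Φ ^ 2 * η = 4 * 3 ^ d * 1 * Φ ^ 2 * η := by ring
        _ ≤ 4 * 3 ^ d * n * Φ ^ 2 * η := by gcongr
        _ ≤ 1 := hx
    have hsq : ∀ j, j < k → 3 ^ d * ‖e j‖ ^ 2 ≤ 4 * 3 ^ d * Φ ^ 2 * η ^ 2 := by
      intro j hjk
      have h3 := ih j hjk (hjk.trans hk)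
      have h5 : ‖e j‖ ^ 2 ≤ (2 * Φ * η) ^ 2 := pow_le_pow_left₀ (norm_nonneg _) h3 2
      calc 3 ^ d * ‖e j‖ ^ 2 ≤ 3 ^ d * (2 * Φ * η) ^ 2 := by gcongr
        _ = _ := by ring
    have hη1 : η ≤ 1 := by
      calc η = 1 * 1 * 1 ^ 2 * η := by ring
        _ ≤ 4 * 3 ^ d * Φ ^ 2 * η := by gcongr; norm_num
        _ ≤ 1 := hηs
    have hsmall : ∀ j, j < k → ‖e j‖ ≤ 1 := by
      intro j hjk
      have h1 := hsq j hjk
      have h2 : ‖e j‖ ^ 2 ≤ 1 := by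
        have h4 : ‖e j‖ ^ 2 ≤ 3 ^ d * ‖e j‖ ^ 2 := le_mul_of_one_le_left (by positivity) h3d
        have h5 : 4 * 3 ^ d * Φ ^ 2 * η ^ 2 = 4 * 3 ^ d * Φ ^ 2 * η * η := by ring
        have h6 : 4 * 3 ^ d * Φ ^ 2 * η * η ≤ 1 * 1 := mul_le_mul hηs hη1 hη0 (by norm_num)
        linarith
      nlinarith [norm_nonneg (e j)]
    have h1 := hduh k hsmall
    have h2 : ∀ j ∈ Finset.range k, DD d c (j + 2) (k + 1) * (3 ^ d * ‖e j‖ ^ 2) ≤
        Φ * (4 * 3 ^ d * Φ ^ 2 * η ^ 2) := by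
      intro j hj
      have hjk := Finset.mem_range.1 hj
      have h5 : DD d c (j + 2) (k + 1) ≤ Φ := by
        have h6 := hB.2 (j + 2) (k + 1 - (j + 2)) (by omega)
        rwa [Nat.add_sub_cancel' (by omega : j + 2 ≤ k + 1)] at h6
      exact mul_le_mul h5 (hsq j hjk) (by positivity) (by linarith)
    have h3 := Finset.sum_le_sum h2
    rw [Finset.sum_const, Finset.card_range, nsmul_eq_mul] at h3
    have h4 : DD d c 1 (k + 1) ≤ Φ := by
      have h6 := hB.2 1 k hk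
      rwa [add_comm 1 k] at h6
    have h5 : DD d c 1 (k + 1) * η ≤ Φ * η := mul_le_mul_of_nonneg_right h4 hη0
    have hkn : (k : ℝ) ≤ n := by exact_mod_cast hk.le
    have h6 : (k : ℝ) * (Φ * (4 * 3 ^ d * Φ ^ 2 * η ^ 2)) ≤ Φ * η := by
      calc (k : ℝ) * (Φ * (4 * 3 ^ d * Φ ^ 2 * η ^ 2)) ≤
            (n : ℝ) * (Φ * (4 * 3 ^ d * Φ ^ 2 * η ^ 2)) := by gcongr
        _ = Φ * η * (4 * 3 ^ d * n * Φ ^ 2 * η) := by ring
        _ ≤ Φ * η * 1 := by gcongr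
        _ = Φ * η := mul_one _
    linarith

/-- a map of a disc into a much smaller concentric disc has an attracting cycle -/
theorem attr_of_disc (d : ℕ) {c : ℂ} {N : ℕ} (hN : 1 ≤ N) {s : ℝ} (hs : 0 < s)
    (h : ∀ x : ℂ, ‖x‖ ≤ s → ‖(fc d c)^[N] x‖ ≤ s / 4) :
    ∃ z, IsAttractingCycle (fun z => z ^ d + c) N z := by
  obtain ⟨g, hg⟩ : ∃ g, g = (fc d c)^[N] := ⟨_, rfl⟩
  have hdiff : Differentiable ℂ g := by rw [hg]; exact diff_it_y d N c
  rw [← hg] at h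
  have hbd : ∀ x ∈ closedBall (0 : ℂ) (s / 4), ‖deriv g x‖ ≤ 1 / 3 := by
    intro x hx
    have hx' : ‖x‖ ≤ s / 4 := by simpa using hx
    have h2 : ‖deriv g x‖ ≤ s / 4 / (3 * s / 4) := by
      apply Complex.norm_deriv_le_of_forall_mem_sphere_norm_le (by positivity)
      · exact hdiff.diffContOnCl
      · intro z hz
        apply h
        have h3 : ‖z - x‖ = 3 * s / 4 := by simpa [dist_eq_norm] using hz
        calc ‖z‖ = ‖(z - x) + x‖ := by ring_nf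
          _ ≤ ‖z - x‖ + ‖x‖ := norm_add_le _ _
          _ ≤ s := by linarith
    have h4 : s / 4 / (3 * s / 4) = 1 / 3 := by field_simp
    linarith
  have hmaps : MapsTo g (closedBall 0 (s / 4)) (closedBall 0 (s / 4)) := by
    intro x hx
    have hx' : ‖x‖ ≤ s / 4 := by simpa using hx
    have := h x (by linarith)
    simpa using this
  have hcon : ContractingWith (1 / 3) (hmaps.restrict g _ _) := by
    refine ⟨by norm_num, ?_⟩
    apply LipschitzWith.of_dist_le_mul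
    rintro ⟨x, hx⟩ ⟨y, hy⟩
    have := (convex_closedBall (0 : ℂ) (s / 4)).norm_image_sub_le_of_norm_hasDerivWithin_le
      (f := g) (f' := fun z => deriv g z) (C := 1 / 3)
      (fun z _ => (hdiff z).hasDerivAt.hasDerivWithinAt) hbd hy hx
    simpa [Subtype.dist_eq, dist_eq_norm] using this
  obtain ⟨z, hz, hfix, -, -⟩ := ContractingWith.exists_fixedPoint' (isClosed_closedBall.isComplete)
    hmaps hcon (x := 0) (mem_closedBall_self (by positivity)) (edist_ne_top _ _)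
  rw [hg] at hfix
  refine ⟨z, by omega, hfix, diff_it_y d N c z, ?_⟩
  have h6 := hbd z hz
  rw [hg] at h6
  exact lt_of_le_of_lt h6 (by norm_num)

/-- **Returns to the critical point.** -/
theorem no_return (hd : 2 ≤ d) {c : ℂ} (hc : c ∈ multibrotSet d) {n : ℕ} (hn : 1 ≤ n) {Φ : ℝ}
    (hB : Bd d c n Φ) (hno : ∀ z, ¬ IsAttractingCycle (fun z => z ^ d + c) n z) :
    1 ≤ 8 ^ (d + 1) * (n * Φ) * ‖P d n c‖ := by
  have hΦ := hB.1
  obtain ⟨η, hη⟩ : ∃ η, η = ‖P d n c‖ := ⟨_, rfl⟩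
  rw [← hη]
  by_contra hcon
  push Not at hcon
  have hη0 : 0 ≤ η := by rw [hη]; exact norm_nonneg _
  rcases hη0.eq_or_lt with h0 | h0
  · -- superattracting
    have hP : P d n c = 0 := by rw [← norm_eq_zero, ← hη, ← h0]
    refine hno 0 ⟨by omega, ?_, diff_it_y d n c 0, ?_⟩
    · exact hP
    · have h1 := norm_deriv_iter d c 0 n
      rw [P_zero, zero_add] at h1
      have h2 : DD d c 0 n = 0 := by
        apply Finset.prod_eq_zero (i := 0) (Finset.mem_Ico.2 ⟨le_rfl, by omega⟩)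
        rw [P_zero, zero_pow (by omega), mul_zero, norm_zero]
      rw [h2] at h1
      have h3 : ‖deriv ((fc d c)^[n]) 0‖ < 1 := by rw [h1]; norm_num
      exact h3
  · obtain ⟨D, hD⟩ : ∃ D : ℝ, D = 8 ^ d := ⟨_, rfl⟩
    have hD1 : 64 ≤ D := by
      rw [hD]
      calc (64 : ℝ) = 8 ^ 2 := by norm_num
        _ ≤ 8 ^ d := pow_le_pow_right₀ (by norm_num) hd
    have hn1 : (1 : ℝ) ≤ n := by exact_mod_cast hn
    rw [pow_succ, ← hD] at hcon
    have hy : 8 * D * (Φ * η) < 1 := by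
      calc 8 * D * (Φ * η) = D * 8 * (1 * Φ) * η := by ring
        _ ≤ D * 8 * (n * Φ) * η := by gcongr
        _ < 1 := hcon
    have hη1 : η ≤ 1 := by
      by_contra h
      push Not at h
      have h1 : 1 ≤ Φ * η := by nlinarith
      nlinarith
    have h3D : (3 : ℝ) ^ d ≤ D := by
      rw [hD]; exact pow_le_pow_left₀ (by norm_num) (by norm_num) d
    have h8 : (8 * η) ^ d ≤ D * η ^ 2 := by
      rw [mul_pow, ← hD]
      apply mul_le_mul_of_nonneg_left _ (by linarith)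
      exact pow_le_pow_of_le_one hη0 hη1 hd
    obtain ⟨z, hz⟩ := attr_of_disc d (c := c) hn (s := 8 * η) (by linarith) (by
      intro x hx
      obtain ⟨N, rfl⟩ : ∃ N, n = N + 1 := ⟨n - 1, by omega⟩
      have e1 : (fc d c)^[N + 1] x = (fc d c)^[N] (x ^ d + c) := by
        rw [Function.iterate_succ_apply]
        rfl
      have e2 : ‖x ^ d + c - c‖ ≤ D * η ^ 2 := by
        rw [add_sub_cancel_right, norm_pow]
        exact (pow_le_pow_left₀ (norm_nonneg _) hx d).trans h8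
      have e3 : 4 * 3 ^ d * ((N + 1 : ℕ) : ℝ) * Φ ^ 2 * ‖x ^ d + c - c‖ ≤ 1 := by
        have hnΦ : 0 ≤ ((N + 1 : ℕ) : ℝ) * Φ * η := by positivity
        calc 4 * 3 ^ d * ((N + 1 : ℕ) : ℝ) * Φ ^ 2 * ‖x ^ d + c - c‖
            ≤ 4 * D * ((N + 1 : ℕ) : ℝ) * Φ ^ 2 * (D * η ^ 2) := by gcongr
          _ = 1 / 16 * ((D * 8 * (((N + 1 : ℕ) : ℝ) * Φ) * η) * (8 * D * (Φ * η))) := by ring
          _ ≤ 1 / 16 * (1 * 1) := by
              apply mul_le_mul_of_nonneg_left _ (by norm_num)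
              exact mul_le_mul hcon.le hy.le (by positivity) (by norm_num)
          _ ≤ 1 := by norm_num
      have e4 := shadow hd hc hB e3 N (Nat.lt_succ_self N)
      rw [e1]
      have e5 := norm_add_le ((fc d c)^[N] (x ^ d + c) - P d (N + 1) c) (P d (N + 1) c)
      rw [sub_add_cancel, ← hη] at e5
      have e6 : 2 * Φ * ‖x ^ d + c - c‖ ≤ η := by
        calc 2 * Φ * ‖x ^ d + c - c‖ ≤ 2 * Φ * (D * η ^ 2) := by gcongr
          _ = 1 / 4 * (8 * D * (Φ * η)) * η := by ring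
          _ ≤ 1 / 4 * 1 * η := by gcongr
          _ ≤ η := by linarith
      linarith)
    exact hno z hz

/-- **The distance to the superattracting parameters.** -/
theorem repulsion (hd : 2 ≤ d) {c : ℂ} (hc : c ∈ multibrotSet d) {n : ℕ} (hn : 1 ≤ n) {Φ : ℝ}
    (hB : Bd d c n Φ) (hno : ∀ z, ¬ IsAttractingCycle (fun z => z ^ d + c) n z) {a : ℂ}
    (ha : P d n a = 0) : 1 ≤ 8 ^ (d + 2) * (n * Φ) ^ 2 * ‖a - c‖ := by
  have hΦ := hB.1
  by_contra hcon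
  push Not at hcon
  obtain ⟨ε, hε⟩ : ∃ ε, ε = ‖a - c‖ := ⟨_, rfl⟩
  obtain ⟨D, hD⟩ : ∃ D : ℝ, D = 8 ^ d := ⟨_, rfl⟩
  have hD0 : 0 < D := by rw [hD]; positivity
  have h3D : (3 : ℝ) ^ d ≤ D := by
    rw [hD]; exact pow_le_pow_left₀ (by norm_num) (by norm_num) d
  have hε0 : 0 ≤ ε := by rw [hε]; exact norm_nonneg _
  rw [← hε, pow_add, ← hD] at hcon
  have hn1 : (1 : ℝ) ≤ n := by exact_mod_cast hn
  have h1 : 4 * 3 ^ d * ‖a - c‖ * (n * Φ) ^ 2 ≤ 1 := by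
    rw [← hε]
    calc 4 * 3 ^ d * ε * (n * Φ) ^ 2 ≤ 8 ^ 2 * D * ε * (n * Φ) ^ 2 := by
          gcongr
          norm_num
      _ = D * 8 ^ 2 * (n * Φ) ^ 2 * ε := by ring
      _ ≤ 1 := hcon.le
  have h2 := close_phi hd hc hB h1 n le_rfl
  rw [ha, zero_sub, norm_neg, ← hε] at h2
  have h3 := no_return hd hc hn hB hno
  rw [pow_succ, ← hD] at h3
  have h4 : D * 8 * (n * Φ) * ‖P d n c‖ ≤ D * 8 * (n * Φ) * (2 * ε * (n * Φ)) := by gcongr
  have h5 : D * 8 * (n * Φ) * (2 * ε * (n * Φ)) ≤ D * 8 ^ 2 * (n * Φ) ^ 2 * ε := by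
    have h6 : 0 ≤ D * (n * Φ) ^ 2 * ε := by positivity
    nlinarith
  linarith

end Pool.Agent.U256.GD
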