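import Pool.Agent.U256.GD4

set_option autoImplicit false

/-! # Towers of renormalizations of arbitrary type -/

namespace Pool.Agent.U256.GD

open Complex Metric Set Filter Topology MeasureTheory Pool.Agent.H713R2
open Pool.Agent.H712R2 (P P_succ P_one P_zero fc continuous_P mem_multibrot_iff PP natDegree_PP
  eval_PP)
open N62a1eb23
open Pool.Agent.Y736.HD (Ang vol_Ang_ne ev_lt ev_pos GS)

variable {d : ℕ} {c : ℂ} {p : ℕ → ℕ} {C : ℕ → ℝ}

/-- a tower of periods with bounds `C k ≥ 1` of the derivatives of the blocks of length `p k` -/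
structure Tower (d : ℕ) (c : ℂ) (p : ℕ → ℕ) (C : ℕ → ℝ) : Prop where
  zero : p 0 = 1
  dvd : ∀ k, p k ∣ p (k + 1)
  lt : ∀ k, p k < p (k + 1)
  one_le : ∀ k, 1 ≤ C k
  block : ∀ k i, DD d c (p k * i) (p k * i + p k) ≤ C k

/-- the product of the constants of the lower levels -/
noncomputable def WW (p : ℕ → ℕ) (C : ℕ → ℝ) (K : ℕ) : ℝ :=
  ∏ j ∈ Finset.range K, C j ^ (p (j + 1) / p j)

theorem WW_succ (p : ℕ → ℕ) (C : ℕ → ℝ) (K : ℕ) :
    WW p C (K + 1) = WW p C K * C K ^ (p (K + 1) / p K) := by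
  unfold WW
  rw [Finset.prod_range_succ]

theorem Tower.one_le_WW (h : Tower d c p C) (K : ℕ) : 1 ≤ WW p C K := by
  induction K with
  | zero => simp [WW]
  | succ K ih =>
    rw [WW_succ]
    have h1 : 1 ≤ C K ^ (p (K + 1) / p K) := one_le_pow₀ (h.one_le K)
    nlinarith

theorem Tower.pos (h : Tower d c p C) (k : ℕ) : 0 < p k := by
  induction k with
  | zero => rw [h.zero]; norm_num
  | succ k ih => exact ih.trans (h.lt k)

theorem Tower.two_mul (h : Tower d c p C) (k : ℕ) : 2 * p k ≤ p (k + 1) := by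
  obtain ⟨q, hq⟩ := h.dvd k
  have h1 := h.lt k
  have h2 := h.pos k
  rw [hq] at h1 ⊢
  have h3 : 2 ≤ q := by
    by_contra hcon
    have : q ≤ 1 := by omega
    have := Nat.mul_le_mul_left (p k) this
    omega
  calc 2 * p k = p k * 2 := by ring
    _ ≤ p k * q := Nat.mul_le_mul_left _ h3

theorem Tower.two_pow (h : Tower d c p C) (k : ℕ) : 2 ^ k ≤ p k := by
  induction k with
  | zero => rw [h.zero]; norm_num
  | succ k ih =>
    have := h.two_mul k
    rw [pow_succ]
    omega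

theorem Tower.div_lt (h : Tower d c p C) {K x : ℕ} (hx : x < p (K + 1)) :
    x / p K < p (K + 1) / p K := by
  obtain ⟨q, hq⟩ := h.dvd K
  have hp := h.pos K
  rw [hq, Nat.mul_div_cancel_left _ hp, Nat.div_lt_iff_lt_mul hp]
  rw [hq] at hx
  rwa [mul_comm]

/-- aligned start -/
theorem Tower.start (h : Tower d c p C) (K : ℕ) : ∀ a n, p K ∣ a → a ≤ n → n < a + p K →
    DD d c a n ≤ WW p C K := by
  induction K with
  | zero =>
    intro a n _ h1 h2
    rw [h.zero] at h2
    have : n = a := by omega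
    rw [this, DD_self]
    simp [WW]
  | succ K ih =>
    intro a n hd h1 h2
    have hp := h.pos K
    obtain ⟨i, hi⟩ : p K ∣ a := (h.dvd K).trans hd
    obtain ⟨t, ht⟩ : ∃ t, t = (n - a) / p K := ⟨_, rfl⟩
    have h3 := Nat.div_add_mod (n - a) (p K)
    have h4 := Nat.mod_lt (n - a) hp
    have ht2 : t ≤ p (K + 1) / p K := by
      rw [ht]
      exact (h.div_lt (by omega)).le
    rw [← ht] at h3
    have e1 : p K * (i + t) = a + p K * t := by rw [hi]; ring
    have h5 := blocks (h.one_le K) (h.block K) i t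
    rw [← hi, e1] at h5
    have h6 := ih (a + p K * t) n (by rw [← e1]; exact dvd_mul_right _ _) (by omega) (by omega)
    rw [← DD_mul d c (k := a + p K * t) (by omega) (by omega), WW_succ, mul_comm (WW p C K)]
    have h7 := h.one_le K
    apply mul_le_mul _ h6 (DD_nonneg _ _ _ _) (by positivity)
    exact h5.trans (pow_le_pow_right₀ h7 ht2)

/-- aligned end -/
theorem Tower.finish (h : Tower d c p C) (K : ℕ) : ∀ m a, p K ∣ a → m ≤ a → a < m + p K →
    DD d c m a ≤ WW p C K := by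
  induction K with
  | zero =>
    intro m a _ h1 h2
    rw [h.zero] at h2
    have : a = m := by omega
    rw [this, DD_self]
    simp [WW]
  | succ K ih =>
    intro m a hd h1 h2
    have hp := h.pos K
    obtain ⟨i, hi⟩ : p K ∣ a := (h.dvd K).trans hd
    obtain ⟨t, ht⟩ : ∃ t, t = (a - m) / p K := ⟨_, rfl⟩
    have h3 := Nat.div_add_mod (a - m) (p K)
    have h4 := Nat.mod_lt (a - m) hp
    have ht2 : t ≤ p (K + 1) / p K := by
      rw [ht]
      exact (h.div_lt (by omega)).le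
    rw [← ht] at h3
    have hti : t ≤ i := by
      have h5 : p K * t ≤ p K * i := by rw [← hi]; omega
      exact Nat.le_of_mul_le_mul_left h5 hp
    have e1 : p K * (i - t + t) = a := by rw [Nat.sub_add_cancel hti, hi]
    have e2 : p K * (i - t) = a - p K * t := by rw [Nat.mul_sub, hi]
    have h5 := blocks (h.one_le K) (h.block K) (i - t) t
    rw [e1, e2] at h5
    have h6 := ih m (a - p K * t) (by rw [← e2]; exact dvd_mul_right _ _) (by omega) (by omega)
    rw [← DD_mul d c (k := a - p K * t) (by omega) (by omega), WW_succ]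
    have h8 := h.one_le_WW K
    apply mul_le_mul h6 _ (DD_nonneg _ _ _ _) (by positivity)
    exact h5.trans (pow_le_pow_right₀ (h.one_le K) ht2)

/-- **The multiscale inequality.** -/
theorem Tower.bound (h : Tower d c p C) (K : ℕ) : ∀ m n, m ≤ n →
    DD d c m n ≤ WW p C K ^ 2 * C K ^ ((n - m) / p K) := by
  induction K with
  | zero =>
    intro m n hmn
    have h1 := blocks (h.one_le 0) (h.block 0) m (n - m)
    rw [h.zero, one_mul, one_mul, Nat.add_sub_cancel' hmn] at h1
    rw [h.zero, Nat.div_one]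
    simpa [WW] using h1
  | succ K ih =>
    intro m n hmn
    have hp := h.pos (K + 1)
    have hW := h.one_le_WW (K + 1)
    have hWK := h.one_le_WW K
    have hC := h.one_le (K + 1)
    have hCK := h.one_le K
    obtain ⟨i, hi1, hi2⟩ : ∃ i, m ≤ p (K + 1) * i ∧ p (K + 1) * i < m + p (K + 1) := by
      refine ⟨(m + (p (K + 1) - 1)) / p (K + 1), ?_, ?_⟩
      · have h3 := Nat.div_add_mod (m + (p (K + 1) - 1)) (p (K + 1))
        have h4 := Nat.mod_lt (m + (p (K + 1) - 1)) hp
        omega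
      · have h3 := Nat.div_mul_le_self (m + (p (K + 1) - 1)) (p (K + 1))
        rw [Nat.mul_comm] at h3
        omega
    rcases le_or_gt (p (K + 1) * i) n with hin | hin
    · have h1 := h.finish (K + 1) m (p (K + 1) * i) (dvd_mul_right _ _) hi1 hi2
      obtain ⟨t, ht⟩ : ∃ t, t = (n - p (K + 1) * i) / p (K + 1) := ⟨_, rfl⟩
      have h3 := Nat.div_add_mod (n - p (K + 1) * i) (p (K + 1))
      have h4 := Nat.mod_lt (n - p (K + 1) * i) hp
      have ht2 : t ≤ (n - m) / p (K + 1) := by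
        rw [ht]
        exact Nat.div_le_div_right (by omega)
      rw [← ht] at h3
      have e1 : p (K + 1) * (i + t) = p (K + 1) * i + p (K + 1) * t := by ring
      have h5 := blocks (h.one_le (K + 1)) (h.block (K + 1)) i t
      have h6 := h.start (K + 1) (p (K + 1) * (i + t)) n (dvd_mul_right _ _) (by omega) (by omega)
      rw [← DD_mul d c (k := p (K + 1) * i) hi1 hin,
        ← DD_mul d c (m := p (K + 1) * i) (k := p (K + 1) * (i + t)) (by omega) (by omega)]
      have h7 : C (K + 1) ^ t ≤ C (K + 1) ^ ((n - m) / p (K + 1)) := pow_le_pow_right₀ hC ht2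
      calc DD d c m (p (K + 1) * i) * (DD d c (p (K + 1) * i) (p (K + 1) * (i + t)) *
            DD d c (p (K + 1) * (i + t)) n)
          ≤ WW p C (K + 1) * (C (K + 1) ^ ((n - m) / p (K + 1)) * WW p C (K + 1)) := by
            apply mul_le_mul h1 _ (mul_nonneg (DD_nonneg _ _ _ _) (DD_nonneg _ _ _ _))
              (by positivity)
            exact mul_le_mul (h5.trans h7) h6 (DD_nonneg _ _ _ _) (by positivity)
        _ = _ := by ring
    · have h1 := ih m n hmn
      have h2 : (n - m) / p K ≤ p (K + 1) / p K := (h.div_lt (by omega)).le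
      have h3 : C K ^ ((n - m) / p K) ≤ C K ^ (p (K + 1) / p K) := pow_le_pow_right₀ hCK h2
      obtain ⟨Q, hQ⟩ : ∃ Q, Q = C K ^ (p (K + 1) / p K) := ⟨_, rfl⟩
      have hQ1 : 1 ≤ Q := by rw [hQ]; exact one_le_pow₀ hCK
      rw [← hQ] at h3
      rw [WW_succ, ← hQ]
      have h4 : 1 ≤ C (K + 1) ^ ((n - m) / p (K + 1)) := one_le_pow₀ hC
      calc DD d c m n ≤ WW p C K ^ 2 * C K ^ ((n - m) / p K) := h1
        _ ≤ WW p C K ^ 2 * Q := by gcongr
        _ ≤ WW p C K ^ 2 * (Q * Q) := by gcongr; nlinarith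
        _ = (WW p C K * Q) ^ 2 * 1 := by ring
        _ ≤ (WW p C K * Q) ^ 2 * C (K + 1) ^ ((n - m) / p (K + 1)) := by gcongr

theorem Tower.bd (h : Tower d c p C) (K n : ℕ) :
    Bd d c n (WW p C K ^ 2 * C K ^ (n / p K)) := by
  have hW := h.one_le_WW K
  have hC := h.one_le K
  refine ⟨?_, ?_⟩
  · have h1 : 1 ≤ WW p C K ^ 2 := one_le_pow₀ hW
    have h2 : 1 ≤ C K ^ (n / p K) := one_le_pow₀ hC
    nlinarith
  · intro m k hk
    have h1 := h.bound K m (m + k) (by omega)
    rw [Nat.add_sub_cancel_left] at h1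
    refine h1.trans ?_
    have h2 : C K ^ (k / p K) ≤ C K ^ (n / p K) :=
      pow_le_pow_right₀ hC (Nat.div_le_div_right hk.le)
    gcongr

theorem Tower.subexp (h : Tower d c p C)
    (hsub : ∀ ε : ℝ, 0 < ε → ∃ k, C k ≤ Real.exp (ε * p k)) {ε : ℝ} (hε : 0 < ε) :
    ∃ A : ℝ, 1 ≤ A ∧ ∀ n, Bd d c n (A * Real.exp (ε * n)) := by
  obtain ⟨K, hK⟩ := hsub ε hε
  have hW := h.one_le_WW K
  have hC := h.one_le K
  refine ⟨WW p C K ^ 2, one_le_pow₀ hW, fun n => ?_⟩
  have h1 := h.bd K n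
  have h2 : C K ^ (n / p K) ≤ Real.exp (ε * n) := by
    calc C K ^ (n / p K) ≤ Real.exp (ε * p K) ^ (n / p K) := by gcongr
      _ = Real.exp (ε * ((p K * (n / p K) : ℕ) : ℝ)) := by
          rw [← Real.exp_nat_mul]
          congr 1
          push_cast
          ring
      _ ≤ Real.exp (ε * n) := by
          gcongr
          exact Nat.mul_div_le n (p K)
  refine ⟨?_, fun m k hk => (h1.2 m k hk).trans ?_⟩
  · have h3 : 1 ≤ WW p C K ^ 2 := one_le_pow₀ hW
    have h4 : 1 ≤ Real.exp (ε * n) := Real.one_le_exp (by positivity)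
    nlinarith
  · gcongr

theorem Tower.quasi (h : Tower d c p C) {C₀ : ℝ} (hC₀ : ∀ k, C k ≤ C₀) {B a : ℕ}
    (hB : ∀ k, p (k + 1) / p k ≤ B * (k + 1) ^ a) :
    ∃ A : ℝ, 1 ≤ A ∧ ∀ n : ℕ, 1 ≤ n → Bd d c n (Real.exp (A * (1 + Real.log n) ^ (a + 1))) := by
  have hC1 : 1 ≤ C₀ := (h.one_le 0).trans (hC₀ 0)
  have hlC : 0 ≤ Real.log C₀ := Real.log_nonneg hC1
  have hlog2 : 1 / 2 < Real.log 2 := by linarith [Real.log_two_gt_d9]
  -- the product
  have hW : ∀ K, WW p C K ≤ C₀ ^ (B * K ^ (a + 1)) := by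
    intro K
    have h1 : WW p C K ≤ ∏ _j ∈ Finset.range K, C₀ ^ (B * K ^ a) := by
      unfold WW
      apply Finset.prod_le_prod
      · intro j _
        have := h.one_le j
        positivity
      · intro j hj
        have h2 : p (j + 1) / p j ≤ B * K ^ a := by
          refine (hB j).trans ?_
          have : j + 1 ≤ K := Finset.mem_range.1 hj
          gcongr
        calc C j ^ (p (j + 1) / p j) ≤ C₀ ^ (p (j + 1) / p j) := by
              have := h.one_le j
              gcongr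
              exact hC₀ j
          _ ≤ C₀ ^ (B * K ^ a) := pow_le_pow_right₀ hC1 h2
    refine h1.trans (le_of_eq ?_)
    rw [Finset.prod_const, Finset.card_range, ← pow_mul]
    congr 1
    ring
  refine ⟨3 * B * Real.log C₀ * 2 ^ (a + 1) + 1, by
    have : 0 ≤ 3 * (B : ℝ) * Real.log C₀ * 2 ^ (a + 1) := by positivity
    linarith, ?_⟩
  intro n hn
  have hn1 : (1 : ℝ) ≤ n := by exact_mod_cast hn
  have hlogn : 0 ≤ Real.log n := Real.log_nonneg hn1
  obtain ⟨K, hK1, hK2⟩ : ∃ K, p K ≤ n ∧ n < p (K + 1) := by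
    have hex : ∃ K, n < p K := ⟨n, lt_of_lt_of_le Nat.lt_two_pow_self (h.two_pow _)⟩
    have h1 := Nat.find_spec hex
    obtain ⟨K, hK⟩ : ∃ K, Nat.find hex = K + 1 := by
      refine Nat.exists_eq_succ_of_ne_zero ?_
      intro h2
      rw [h2, h.zero] at h1
      omega
    refine ⟨K, ?_, by rw [← hK]; exact h1⟩
    have h2 := Nat.find_min hex (m := K) (by omega)
    omega
  have hKn : (K : ℝ) ≤ 2 * Real.log n := by
    have h1 : ((2 : ℝ)) ^ K ≤ n := by
      have := (h.two_pow K).trans hK1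
      exact_mod_cast this
    have h2 := Real.log_le_log (by positivity) h1
    rw [Real.log_pow] at h2
    have h3 : (K : ℝ) * (1 / 2) ≤ K * Real.log 2 := by gcongr
    linarith
  have h1 := h.bd K n
  have h2 : n / p K ≤ B * (K + 1) ^ (a + 1) := by
    have h3 := (h.div_lt hK2).le.trans (hB K)
    refine h3.trans ?_
    have h4 : (K + 1) ^ a ≤ (K + 1) ^ (a + 1) := Nat.pow_le_pow_right (by omega) (by omega)
    gcongr
  have h3 : WW p C K ^ 2 * C K ^ (n / p K) ≤ C₀ ^ (3 * (B * (K + 1) ^ (a + 1))) := by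
    have h4 : WW p C K ≤ C₀ ^ (B * (K + 1) ^ (a + 1)) := by
      refine (hW K).trans (pow_le_pow_right₀ hC1 ?_)
      have : K ^ (a + 1) ≤ (K + 1) ^ (a + 1) := Nat.pow_le_pow_left (by omega) _
      gcongr
    have h5 : C K ^ (n / p K) ≤ C₀ ^ (B * (K + 1) ^ (a + 1)) := by
      have := h.one_le K
      calc C K ^ (n / p K) ≤ C₀ ^ (n / p K) := by
            gcongr
            exact hC₀ K
        _ ≤ _ := pow_le_pow_right₀ hC1 h2
    have h6 := h.one_le_WW K
    have h7 := h.one_le K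
    calc WW p C K ^ 2 * C K ^ (n / p K) ≤
        (C₀ ^ (B * (K + 1) ^ (a + 1))) ^ 2 * C₀ ^ (B * (K + 1) ^ (a + 1)) := by gcongr
      _ = _ := by ring
  have h4 : (C₀ : ℝ) ^ (3 * (B * (K + 1) ^ (a + 1))) ≤
      Real.exp ((3 * B * Real.log C₀ * 2 ^ (a + 1) + 1) * (1 + Real.log n) ^ (a + 1)) := by
    have h5 : (C₀ : ℝ) ^ (3 * (B * (K + 1) ^ (a + 1))) =
        Real.exp (Real.log C₀ * ((3 * (B * (K + 1) ^ (a + 1)) : ℕ) : ℝ)) := by
      rw [← Real.rpow_natCast, Real.rpow_def_of_pos (by linarith)]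
    rw [h5]
    apply Real.exp_le_exp.2
    have h6 : ((K : ℝ) + 1) ^ (a + 1) ≤ (2 * (1 + Real.log n)) ^ (a + 1) := by
      gcongr
      linarith
    rw [mul_pow] at h6
    have h7 : 0 ≤ (1 + Real.log n) ^ (a + 1) := by positivity
    push_cast
    calc Real.log C₀ * (3 * (B * ((K : ℝ) + 1) ^ (a + 1)))
        ≤ Real.log C₀ * (3 * (B * (2 ^ (a + 1) * (1 + Real.log n) ^ (a + 1)))) := by gcongr
      _ = (3 * B * Real.log C₀ * 2 ^ (a + 1)) * (1 + Real.log n) ^ (a + 1) := by ring
      _ ≤ _ := by nlinarith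
  refine ⟨?_, fun m k hk => (h1.2 m k hk).trans (h3.trans h4)⟩
  apply Real.one_le_exp
  positivity

end Pool.Agent.U256.GD
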