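import Mathlib
import Pool.Agent.N17.HC.Stm

set_option autoImplicit false

/-! # A larger sieve for the binary forms of monic polynomials: the form -/

open Polynomial Filter Finset

namespace Pool.Agent.U256.LS

open Pool.Agent.N17.HC (rootsOf)

/-- the binary form of `Q`: `F Q x z = z ^ m Q (x / z)` -/
noncomputable def F (Q : ℤ[X]) (x z : ℤ) : ℤ := (Q.scaleRoots z).eval x

theorem scaleRoots_prod {K : Type*} [Field K] (s : Multiset K) (c : K) :
    ((s.map fun a => X - C a).prod).scaleRoots c = (s.map fun a => X - C (a * c)).prod := by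
  induction s using Multiset.induction with
  | empty => simp [one_scaleRoots]
  | cons a s ih =>
    rw [Multiset.map_cons, Multiset.prod_cons, mul_scaleRoots_of_noZeroDivisors, ih,
      X_sub_C_scaleRoots, Multiset.map_cons, Multiset.prod_cons]

theorem map_F {K : Type*} [Field K] (φ : ℤ →+* K) {Q : ℤ[X]} (hQ : Q.Monic) {s : Multiset K}
    (h : Q.map φ = (s.map fun a => X - C a).prod) (x z : ℤ) :
    φ (F Q x z) = (s.map fun a => φ x - a * φ z).prod := by
  unfold F
  rw [← eval₂_at_apply, ← eval_map, map_scaleRoots _ _ _ (by rw [hQ.leadingCoeff]; simp), h,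
    scaleRoots_prod, eval_multiset_prod, Multiset.map_map]
  simp

theorem F_eq_sum (Q : ℤ[X]) (x z : ℤ) :
    F Q x z = ∑ i ∈ range (Q.natDegree + 1), Q.coeff i * z ^ (Q.natDegree - i) * x ^ i := by
  unfold F
  rw [eval_eq_sum_range, natDegree_scaleRoots]
  simp

theorem F_dvd {Q : ℤ[X]} {p x z : ℤ} (hx : p ∣ x) (hz : p ∣ z) : p ^ Q.natDegree ∣ F Q x z := by
  rw [F_eq_sum]
  apply Finset.dvd_sum
  intro i hi
  have hi' : i ≤ Q.natDegree := Nat.lt_succ_iff.1 (Finset.mem_range.1 hi)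
  have h1 : p ^ Q.natDegree = p ^ (Q.natDegree - i) * p ^ i := by
    rw [← pow_add]
    congr 1
    omega
  rw [h1, mul_assoc]
  exact Dvd.dvd.mul_left (mul_dvd_mul (pow_dvd_pow_of_dvd hz _) (pow_dvd_pow_of_dvd hx _)) _

theorem split (Q : ℤ[X]) (hQ : Q.Monic) :
    Q.map (Int.castRingHom ℂ) = ((rootsOf Q).map fun a => X - C a).prod :=
  (IsAlgClosed.splits _).eq_prod_roots_of_monic (hQ.map _)

theorem card_roots' (Q : ℤ[X]) (hQ : Q.Monic) : Multiset.card (rootsOf Q) = Q.natDegree := by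
  unfold rootsOf
  rw [← (IsAlgClosed.splits (Q.map (Int.castRingHom ℂ))).natDegree_eq_card_roots, hQ.natDegree_map]

/-- an irreducible polynomial of degree at least two has no rational root -/
theorem no_root {Q : ℤ[X]} (hQ : Q.Monic) (hirr : Irreducible Q) (hm : 2 ≤ Q.natDegree) (q : ℚ) :
    ((q : ℂ)) ∉ rootsOf Q := by
  intro h
  have hirr' : Irreducible (Q.map (algebraMap ℤ ℚ)) :=
    (Polynomial.Monic.irreducible_iff_irreducible_map_fraction_map hQ).1 hirr
  have h1 : (Q.map (Int.castRingHom ℂ)).eval (q : ℂ) = 0 := by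
    unfold rootsOf at h
    exact (mem_roots'.1 h).2
  have h2 : (Q.map (algebraMap ℤ ℚ)).eval q = 0 := by
    have h3 : Q.map (Int.castRingHom ℂ) = (Q.map (algebraMap ℤ ℚ)).map (algebraMap ℚ ℂ) := by
      rw [Polynomial.map_map]
      congr 1
    rw [h3, eval_map] at h1
    have h4 : eval₂ (algebraMap ℚ ℂ) (algebraMap ℚ ℂ q) (Q.map (algebraMap ℤ ℚ)) = 0 := by
      simpa using h1
    rw [eval₂_at_apply] at h4
    exact (map_eq_zero_iff _ (algebraMap ℚ ℂ).injective).1 h4
  have h5 := degree_eq_one_of_irreducible_of_root hirr' h2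
  have h6 : (Q.map (algebraMap ℤ ℚ)).natDegree = 1 := natDegree_eq_of_degree_eq_some h5
  rw [hQ.natDegree_map] at h6
  omega

theorem F_ne_zero {Q : ℤ[X]} (hQ : Q.Monic) (hirr : Irreducible Q) (hm : 2 ≤ Q.natDegree)
    {x z : ℤ} (h : x ≠ 0 ∨ z ≠ 0) : F Q x z ≠ 0 := by
  intro h0
  have h1 := map_F (Int.castRingHom ℂ) hQ (split Q hQ) x z
  rw [h0, map_zero] at h1
  have h2 : (0 : ℂ) ∈ (rootsOf Q).map fun a => (Int.castRingHom ℂ) x - a * (Int.castRingHom ℂ) z :=
    Multiset.prod_eq_zero_iff.1 h1.symm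
  obtain ⟨β, hβ, h3⟩ := Multiset.mem_map.1 h2
  simp only [eq_intCast] at h3
  by_cases hz : z = 0
  · rw [hz] at h3
    have : (x : ℂ) = 0 := by simpa using h3
    rcases h with h | h
    · exact h (by exact_mod_cast this)
    · exact h hz
  · have hz' : (z : ℂ) ≠ 0 := by exact_mod_cast hz
    have h4 : β = (((x : ℚ) / (z : ℚ) : ℚ) : ℂ) := by
      push_cast
      rw [eq_div_iff hz']
      linear_combination -h3
    rw [h4] at hβ
    exact no_root hQ hirr hm _ hβ

theorem F_upper {Q : ℤ[X]} (hQ : Q.Monic) {x z : ℤ} {A B : ℝ} (hx : |(x : ℝ)| ≤ A)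
    (hz : |(z : ℝ)| ≤ B) :
    |((F Q x z : ℤ) : ℝ)| ≤ ((rootsOf Q).map fun β => A + B * ‖β‖).prod := by
  have h1 := map_F (Int.castRingHom ℂ) hQ (split Q hQ) x z
  have h2 : |((F Q x z : ℤ) : ℝ)| = ‖((F Q x z : ℤ) : ℂ)‖ := (Complex.norm_intCast _).symm
  have h3 : ((F Q x z : ℤ) : ℂ) = (Int.castRingHom ℂ) (F Q x z) := rfl
  rw [h2, h3, h1]
  have h4 : ∀ s : Multiset ℂ,
      ‖(s.map fun a => (Int.castRingHom ℂ) x - a * (Int.castRingHom ℂ) z).prod‖ ≤
        (s.map fun β => A + B * ‖β‖).prod := by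
    intro s
    induction s using Multiset.induction with
    | empty => simp
    | cons a s ih =>
      rw [Multiset.map_cons, Multiset.prod_cons, Multiset.map_cons, Multiset.prod_cons, norm_mul]
      apply mul_le_mul _ ih (norm_nonneg _)
      · have hA := (abs_nonneg _).trans hx
        have hB := (abs_nonneg _).trans hz
        positivity
      · refine (norm_sub_le _ _).trans ?_
        rw [norm_mul]
        simp only [eq_intCast, Complex.norm_intCast]
        have := norm_nonneg a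
        nlinarith
  exact h4 _

/-- the local factors of the values of the form -/
theorem local_dvd {Q : ℤ[X]} (hQ : Q.Monic) {p : ℕ} (hp : p.Prime)
    {ρ : Fin Q.natDegree → ZMod p} (hρ : Function.Injective ρ)
    (h : Q.map (Int.castRingHom (ZMod p)) = ∏ i, (X - C (ρ i))) (x z : ℤ) :
    ((p : ℤ)) ^ (univ.filter fun i => (x : ZMod p) = ρ i * (z : ZMod p)).card ∣ F Q x z := by
  have : Fact p.Prime := ⟨hp⟩
  by_cases hxz : (x : ZMod p) = 0 ∧ (z : ZMod p) = 0
  · have h1 : (p : ℤ) ∣ x := (ZMod.intCast_zmod_eq_zero_iff_dvd x p).1 hxz.1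
    have h2 : (p : ℤ) ∣ z := (ZMod.intCast_zmod_eq_zero_iff_dvd z p).1 hxz.2
    refine dvd_trans (pow_dvd_pow _ ?_) (F_dvd h1 h2)
    refine (card_le_univ _).trans ?_
    simp
  · have hle : (univ.filter fun i => (x : ZMod p) = ρ i * (z : ZMod p)).card ≤ 1 := by
      rw [Finset.card_le_one]
      intro i hi j hj
      rw [Finset.mem_filter] at hi hj
      by_contra hij
      have h1 : (ρ i - ρ j) * (z : ZMod p) = 0 := by
        rw [sub_mul, ← hi.2, ← hj.2, sub_self]
      rcases mul_eq_zero.1 h1 with h2 | h2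
      · exact hij (hρ (sub_eq_zero.1 h2))
      · apply hxz
        refine ⟨?_, h2⟩
        rw [hi.2, h2, mul_zero]
    rcases Nat.eq_zero_or_pos (univ.filter fun i => (x : ZMod p) = ρ i * (z : ZMod p)).card with
      h0 | h0
    · rw [h0, pow_zero]
      exact one_dvd _
    · have h1 : (univ.filter fun i => (x : ZMod p) = ρ i * (z : ZMod p)).card = 1 := by omega
      rw [h1, pow_one]
      obtain ⟨i, hi⟩ := Finset.card_pos.1 h0
      rw [Finset.mem_filter] at hi
      rw [← ZMod.intCast_zmod_eq_zero_iff_dvd]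
      have h2 : Q.map (Int.castRingHom (ZMod p)) =
          (((univ : Finset (Fin Q.natDegree)).val.map ρ).map fun a => X - C a).prod := by
        rw [h, Multiset.map_map]
        rfl
      have h3 := map_F (Int.castRingHom (ZMod p)) hQ h2 x z
      have h4 : ((F Q x z : ℤ) : ZMod p) = (Int.castRingHom (ZMod p)) (F Q x z) := rfl
      rw [h4, h3]
      apply Multiset.prod_eq_zero
      rw [Multiset.mem_map]
      refine ⟨ρ i, Multiset.mem_map.2 ⟨i, Finset.mem_univ i, rfl⟩, ?_⟩
      simp only [eq_intCast]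
      rw [hi.2, sub_self]

/-- all primes together -/
theorem log_lower {Q : ℤ[X]} (hQ : Q.Monic) (S : Finset ℕ) (hS : ∀ p ∈ S, p.Prime)
    (ρ : (p : ℕ) → Fin Q.natDegree → ZMod p)
    (hρ : ∀ p ∈ S, Function.Injective (ρ p))
    (h : ∀ p ∈ S, Q.map (Int.castRingHom (ZMod p)) = ∏ i, (X - C (ρ p i))) {x z : ℤ}
    (hF : F Q x z ≠ 0) :
    ∑ p ∈ S, ((univ.filter fun i => (x : ZMod p) = ρ p i * (z : ZMod p)).card : ℝ) * Real.log p ≤
      Real.log |((F Q x z : ℤ) : ℝ)| := by
  have h1 : ∏ p ∈ S, ((p : ℤ)) ^ (univ.filter fun i => (x : ZMod p) = ρ p i * (z : ZMod p)).card ∣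
      F Q x z := by
    apply Finset.prod_dvd_of_coprime
    · intro p hp q hq hpq
      have h2 := (Nat.coprime_primes (hS p hp) (hS q hq)).2 hpq
      exact IsCoprime.pow (Nat.isCoprime_iff_coprime.2 h2)
    · intro p hp
      exact local_dvd hQ (hS p hp) (hρ p hp) (h p hp) x z
  have h2 := Int.le_of_dvd (abs_pos.2 hF) ((dvd_abs _ _).2 h1)
  have h3 : ∏ p ∈ S, ((p : ℝ)) ^ (univ.filter fun i => (x : ZMod p) = ρ p i * (z : ZMod p)).card ≤
      |((F Q x z : ℤ) : ℝ)| := by
    have : ((∏ p ∈ S, ((p : ℤ)) ^ (univ.filter fun i => (x : ZMod p) =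
        ρ p i * (z : ZMod p)).card : ℤ) : ℝ) ≤ ((|F Q x z| : ℤ) : ℝ) := by exact_mod_cast h2
    push_cast at this
    exact this
  have hpos : ∀ p ∈ S, (0 : ℝ) < p := fun p hp => by exact_mod_cast (hS p hp).pos
  have h4 := Real.log_le_log (Finset.prod_pos fun p hp => pow_pos (hpos p hp) _) h3
  rw [Real.log_prod (fun p hp => (pow_pos (hpos p hp) _).ne')] at h4
  refine le_trans (le_of_eq ?_) h4
  apply Finset.sum_congr rfl
  intro p _
  rw [Real.log_pow]

end Pool.Agent.U256.LS
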