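import Pool.Agent.U256.LS1

set_option autoImplicit false

/-! # A larger sieve for the binary forms of monic polynomials: the inequality -/

open Polynomial Filter Finset

namespace Pool.Agent.U256.LS

open Pool.Agent.N17.HC (rootsOf)

/-- the number of pairs in the same class -/
theorem pairs_ge {α β : Type*} [DecidableEq α] [DecidableEq β] (S : Finset α) (f : α → β) {q : ℕ}
    (hq : (S.image f).card ≤ q) :
    (S.card : ℝ) ^ 2 ≤ q * ((((S ×ˢ S).filter fun t => f t.1 = f t.2).card : ℕ) : ℝ) := by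
  have h1 : ((S ×ˢ S).filter fun t => f t.1 = f t.2).card =
      ∑ b ∈ S.image f, (S.filter fun a => f a = b).card ^ 2 := by
    have h2 : ((S ×ˢ S).filter fun t => f t.1 = f t.2).card =
        ∑ a ∈ S, (S.filter fun a' => f a' = f a).card := by
      rw [Finset.card_filter, Finset.sum_product]
      apply Finset.sum_congr rfl
      intro a _
      rw [Finset.card_filter]
      apply Finset.sum_congr rfl
      intro a' _
      simp only [eq_comm]
    rw [h2, Finset.sum_comp (fun b => (S.filter fun a' => f a' = b).card) f]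
    apply Finset.sum_congr rfl
    intro b _
    rw [smul_eq_mul, sq]
  have h3 : (S.card : ℝ) = ∑ b ∈ S.image f, ((S.filter fun a => f a = b).card : ℝ) := by
    have := Finset.card_eq_sum_card_image f S
    rw [this]
    push_cast
    rfl
  have h4 := sq_sum_le_card_mul_sum_sq (s := S.image f)
    (f := fun b => ((S.filter fun a => f a = b).card : ℝ))
  rw [← h3] at h4
  have h5 : ((((S ×ˢ S).filter fun t => f t.1 = f t.2).card : ℕ) : ℝ) =
      ∑ b ∈ S.image f, ((S.filter fun a => f a = b).card : ℝ) ^ 2 := by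
    rw [h1]
    push_cast
    rfl
  rw [h5]
  refine h4.trans ?_
  apply mul_le_mul_of_nonneg_right
  · exact_mod_cast hq
  · exact Finset.sum_nonneg fun b _ => sq_nonneg _

/-- the number of distinct pairs in the same class -/
theorem pairs_ne {α β : Type*} [DecidableEq α] [DecidableEq β] (S : Finset α) (f : α → β) {q : ℕ}
    (hq0 : 0 < q) (hq : (S.image f).card ≤ q) :
    (S.card : ℝ) ^ 2 / q - S.card ≤
      ((((S ×ˢ S).filter fun t => t.1 ≠ t.2 ∧ f t.1 = f t.2).card : ℕ) : ℝ) := by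
  have h1 := pairs_ge S f hq
  have h2 : ((S ×ˢ S).filter fun t => f t.1 = f t.2).card ≤
      S.card + ((S ×ˢ S).filter fun t => t.1 ≠ t.2 ∧ f t.1 = f t.2).card := by
    have h3 : ((S ×ˢ S).filter fun t => f t.1 = f t.2) ⊆
        (S.image fun a => (a, a)) ∪ ((S ×ˢ S).filter fun t => t.1 ≠ t.2 ∧ f t.1 = f t.2) := by
      rintro ⟨a, b⟩ hab
      rw [Finset.mem_filter, Finset.mem_product] at hab
      rw [Finset.mem_union, Finset.mem_image, Finset.mem_filter, Finset.mem_product]
      by_cases h : a = b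
      · left
        exact ⟨a, hab.1.1, by rw [h]⟩
      · right
        exact ⟨hab.1, h, hab.2⟩
    refine (Finset.card_le_card h3).trans ((Finset.card_union_le _ _).trans ?_)
    gcongr
    exact Finset.card_image_le
  have h3 : ((((S ×ˢ S).filter fun t => f t.1 = f t.2).card : ℕ) : ℝ) ≤
      S.card + ((((S ×ˢ S).filter fun t => t.1 ≠ t.2 ∧ f t.1 = f t.2).card : ℕ) : ℝ) := by
    exact_mod_cast h2
  have hq' : (0 : ℝ) < q := by exact_mod_cast hq0
  have h4 : (S.card : ℝ) ^ 2 / q ≤ ((((S ×ˢ S).filter fun t => f t.1 = f t.2).card : ℕ) : ℝ) := by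
    rw [div_le_iff₀ hq']
    linarith
  linarith

/-- **The larger sieve for a binary form.** -/
theorem larger_sieve {Q : ℤ[X]} (hQ : Q.Monic) (hirr : Irreducible Q) (hm : 2 ≤ Q.natDegree)
    {A B : ℕ} (hA : 1 ≤ A) (hB : 1 ≤ B) (S : Finset ℕ) (hS : ∀ p ∈ S, p.Prime)
    (ρ : (p : ℕ) → Fin Q.natDegree → ZMod p)
    (hρ : ∀ p ∈ S, Function.Injective (ρ p))
    (h : ∀ p ∈ S, Q.map (Int.castRingHom (ZMod p)) = ∏ i, (X - C (ρ p i))) :
    (Q.natDegree : ℝ) * (∑ p ∈ S, Real.log p / p - (∑ p ∈ S, Real.log p) / (A * B)) ≤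
      Real.log ((rootsOf Q).map fun β => (A : ℝ) + B * ‖β‖).prod := by
  classical
  obtain ⟨T, hT⟩ : ∃ T : Finset (ℕ × ℕ), T = range A ×ˢ range B := ⟨_, rfl⟩
  have hTc : T.card = A * B := by rw [hT, Finset.card_product, card_range, card_range]
  obtain ⟨M, hM⟩ : ∃ M : ℝ, M = (T.card : ℝ) := ⟨_, rfl⟩
  have hM' : M = A * B := by rw [hM, hTc]; push_cast; rfl
  have hA' : (1 : ℝ) ≤ A := by exact_mod_cast hA
  have hB' : (1 : ℝ) ≤ B := by exact_mod_cast hB
  have hM1 : 1 ≤ M := by rw [hM']; nlinarith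
  have hM0 : 0 < M := by linarith
  obtain ⟨R, hR⟩ : ∃ R : ℝ, R = ((rootsOf Q).map fun β => (A : ℝ) + B * ‖β‖).prod := ⟨_, rfl⟩
  rw [← hR]
  have hR1 : 1 ≤ R := by
    rw [hR]
    have : ∀ s : Multiset ℂ, 1 ≤ (s.map fun β => (A : ℝ) + B * ‖β‖).prod := by
      intro s
      induction s using Multiset.induction with
      | empty => simp
      | cons a s ih =>
        rw [Multiset.map_cons, Multiset.prod_cons]
        have h1 : 1 ≤ (A : ℝ) + B * ‖a‖ := by
          have := norm_nonneg a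
          nlinarith
        nlinarith
    exact this _
  have hL0 : 0 ≤ Real.log R := Real.log_nonneg hR1
  obtain ⟨g, hg⟩ : ∃ g : (ℕ × ℕ) × (ℕ × ℕ) → ℝ, g = fun t =>
    ∑ p ∈ S, ((univ.filter fun i => (((t.1.1 : ℤ) - t.2.1 : ℤ) : ZMod p) =
      ρ p i * (((t.1.2 : ℤ) - t.2.2 : ℤ) : ZMod p)).card : ℝ) * Real.log p := ⟨_, rfl⟩
  obtain ⟨D, hD⟩ : ∃ D, D = (T ×ˢ T).filter fun t => t.1 ≠ t.2 := ⟨_, rfl⟩
  -- upper bound
  have hup : ∑ t ∈ D, g t ≤ M ^ 2 * Real.log R := by
    have h1 : ∀ t ∈ D, g t ≤ Real.log R := by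
      rintro ⟨⟨a, b⟩, ⟨c, e⟩⟩ ht
      rw [hD, Finset.mem_filter, Finset.mem_product, hT] at ht
      simp only [Finset.mem_product, Finset.mem_range] at ht
      obtain ⟨⟨⟨ha, hb⟩, ⟨hc, he⟩⟩, hne⟩ := ht
      have hF : F Q ((a : ℤ) - c) ((b : ℤ) - e) ≠ 0 := by
        apply F_ne_zero hQ hirr hm
        by_contra hcon
        push Not at hcon
        apply hne
        have h2 : a = c := by omega
        have h3 : b = e := by omega
        rw [h2, h3]
      have h2 := log_lower hQ S hS ρ hρ h hF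
      rw [hg]
      refine h2.trans ?_
      apply Real.log_le_log (abs_pos.2 (by exact_mod_cast hF))
      rw [hR]
      apply F_upper hQ
      · rw [abs_le]
        have a1 : (a : ℝ) < A := by exact_mod_cast ha
        have a2 : (c : ℝ) < A := by exact_mod_cast hc
        have a3 : (0 : ℝ) ≤ a := Nat.cast_nonneg _
        have a4 : (0 : ℝ) ≤ c := Nat.cast_nonneg _
        push_cast
        constructor <;> linarith
      · rw [abs_le]
        have a1 : (b : ℝ) < B := by exact_mod_cast hb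
        have a2 : (e : ℝ) < B := by exact_mod_cast he
        have a3 : (0 : ℝ) ≤ b := Nat.cast_nonneg _
        have a4 : (0 : ℝ) ≤ e := Nat.cast_nonneg _
        push_cast
        constructor <;> linarith
    refine (Finset.sum_le_card_nsmul D g _ h1).trans ?_
    rw [nsmul_eq_mul]
    apply mul_le_mul_of_nonneg_right _ hL0
    have h2 : D.card ≤ T.card ^ 2 := by
      rw [hD]
      refine (Finset.card_filter_le _ _).trans ?_
      rw [Finset.card_product, sq]
    rw [hM]
    exact_mod_cast h2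
  -- lower bound
  have hlow : ∀ p ∈ S, (Q.natDegree : ℝ) * (M ^ 2 / p - M) * Real.log p ≤
      ∑ t ∈ D, ((univ.filter fun i => (((t.1.1 : ℤ) - t.2.1 : ℤ) : ZMod p) =
        ρ p i * (((t.1.2 : ℤ) - t.2.2 : ℤ) : ZMod p)).card : ℝ) * Real.log p := by
    intro p hp
    have hpp := hS p hp
    have : NeZero p := ⟨hpp.ne_zero⟩
    have hlogp : 0 ≤ Real.log p := Real.log_nonneg (by exact_mod_cast hpp.one_le)
    rw [← Finset.sum_mul]
    apply mul_le_mul_of_nonneg_right _ hlogp
    have h1 : ∀ t : (ℕ × ℕ) × (ℕ × ℕ),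
        ((univ.filter fun i => (((t.1.1 : ℤ) - t.2.1 : ℤ) : ZMod p) =
          ρ p i * (((t.1.2 : ℤ) - t.2.2 : ℤ) : ZMod p)).card : ℝ) =
        ∑ i : Fin Q.natDegree, if (((t.1.1 : ℤ) - t.2.1 : ℤ) : ZMod p) =
          ρ p i * (((t.1.2 : ℤ) - t.2.2 : ℤ) : ZMod p) then (1 : ℝ) else 0 := by
      intro t
      rw [Finset.card_filter]
      push_cast
      rfl
    rw [Finset.sum_congr rfl fun t _ => h1 t, Finset.sum_comm]
    have h2 : ∀ i ∈ (univ : Finset (Fin Q.natDegree)), M ^ 2 / p - M ≤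
        ∑ t ∈ D, if (((t.1.1 : ℤ) - t.2.1 : ℤ) : ZMod p) =
          ρ p i * (((t.1.2 : ℤ) - t.2.2 : ℤ) : ZMod p) then (1 : ℝ) else 0 := by
      intro i _
      obtain ⟨f, hf⟩ : ∃ f : ℕ × ℕ → ZMod p, f = fun a => (a.1 : ZMod p) - ρ p i * (a.2 : ZMod p) :=
        ⟨_, rfl⟩
      have h3 := pairs_ne T f hpp.pos (by
        refine (Finset.card_le_univ _).trans ?_
        rw [ZMod.card])
      rw [← hM] at h3
      refine h3.trans (le_of_eq ?_)
      have h4 : D.filter (fun t => (((t.1.1 : ℤ) - t.2.1 : ℤ) : ZMod p) =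
          ρ p i * (((t.1.2 : ℤ) - t.2.2 : ℤ) : ZMod p)) =
          (T ×ˢ T).filter fun t => t.1 ≠ t.2 ∧ f t.1 = f t.2 := by
        rw [hD, Finset.filter_filter]
        apply Finset.filter_congr
        intro t _
        apply and_congr_right
        intro _
        rw [hf]
        push_cast
        constructor
        · intro h5
          linear_combination h5
        · intro h5
          linear_combination h5
      rw [← h4, Finset.card_filter]
      push_cast
      rfl
    refine le_trans (le_of_eq ?_) (Finset.sum_le_sum h2)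
    rw [Finset.sum_const, Finset.card_univ, Fintype.card_fin, nsmul_eq_mul]
  have hsum : ∑ p ∈ S, (Q.natDegree : ℝ) * (M ^ 2 / p - M) * Real.log p ≤ ∑ t ∈ D, g t := by
    rw [hg]
    rw [Finset.sum_comm]
    exact Finset.sum_le_sum hlow
  have hfin : M ^ 2 * ((Q.natDegree : ℝ) * (∑ p ∈ S, Real.log p / p - (∑ p ∈ S, Real.log p) / M)) ≤
      M ^ 2 * Real.log R := by
    refine le_trans (le_of_eq ?_) (hsum.trans hup)
    rw [mul_sub, mul_sub, Finset.sum_div, Finset.mul_sum, Finset.mul_sum, Finset.mul_sum,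
      Finset.mul_sum, ← Finset.sum_sub_distrib]
    apply Finset.sum_congr rfl
    intro p _
    field_simp
  rw [← hM']
  exact le_of_mul_le_mul_left hfin (by positivity)

end Pool.Agent.U256.LS
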