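import Pool.Agent.U256.LS2
import Pool.Agent.Erdos456.Mertens

set_option autoImplicit false

/-! # Irreducible polynomials of small height do not split modulo all small primes -/

open Polynomial Filter Finset

namespace Pool.Agent.U256.LS

open Pool.Agent.N17.HC (rootsOf)

theorem norm_prod_le {s : Multiset ℂ} {f : ℂ → ℂ} {c : ℝ} (hc : 0 ≤ c) (h : ∀ a ∈ s, ‖f a‖ ≤ c) :
    ‖(s.map f).prod‖ ≤ c ^ Multiset.card s := by
  induction s using Multiset.induction with
  | empty => simp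
  | cons a s ih =>
    rw [Multiset.map_cons, Multiset.prod_cons, Multiset.card_cons, norm_mul, pow_succ, mul_comm]
    exact mul_le_mul (ih fun b hb => h b (Multiset.mem_cons_of_mem hb))
      (h a (Multiset.mem_cons_self a s)) (norm_nonneg _) (by positivity)

/-- the primes where the polynomial has double roots -/
theorem sep {Q : ℤ[X]} (hQ : Q.Monic) (hirr : Irreducible Q) (hm : 2 ≤ Q.natDegree) {H : ℝ}
    (hH : 0 ≤ H) (hroots : ∀ β ∈ rootsOf Q, ‖β‖ ≤ H) :
    ∃ E : ℤ, E ≠ 0 ∧ |(E : ℝ)| ≤ ((2 * H) ^ (Q.natDegree - 1)) ^ Q.natDegree ∧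
      ∀ p : ℕ, p.Prime → ¬ (p : ℤ) ∣ E → ∀ ρ : Fin Q.natDegree → ZMod p,
        Q.map (Int.castRingHom (ZMod p)) = ∏ i, (X - C (ρ i)) → Function.Injective ρ := by
  obtain ⟨E, hE⟩ : ∃ E, E = resultant Q (derivative Q) Q.natDegree (Q.natDegree - 1) := ⟨_, rfl⟩
  have hder : (derivative Q).natDegree ≤ Q.natDegree - 1 := natDegree_derivative_le Q
  have hS := split Q hQ
  have hcard := card_roots' Q hQ
  have hsep : (Q.map (Int.castRingHom ℂ)).Separable := by
    have hirr' : Irreducible (Q.map (algebraMap ℤ ℚ)) :=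
      (Polynomial.Monic.irreducible_iff_irreducible_map_fraction_map hQ).1 hirr
    have h1 := hirr'.separable.map (f := algebraMap ℚ ℂ)
    rw [Polynomial.map_map] at h1
    exact h1
  have hnodup : (rootsOf Q).Nodup := nodup_roots hsep
  have hval : ∀ β ∈ rootsOf Q, ((derivative Q).map (Int.castRingHom ℂ)).eval β =
      (((rootsOf Q).erase β).map fun a => β - a).prod := by
    intro β hβ
    rw [← derivative_map, hS]
    exact eval_multiset_prod_X_sub_C_derivative hβ
  have hEC : (E : ℂ) = ((rootsOf Q).map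
      ((derivative Q).map (Int.castRingHom ℂ)).eval).prod := by
    have h1 := resultant_eq_prod_eval (Q.map (Int.castRingHom ℂ))
      ((derivative Q).map (Int.castRingHom ℂ)) (Q.natDegree - 1)
      (natDegree_map_le.trans hder) (IsAlgClosed.splits _)
    rw [hQ.natDegree_map, resultant_map_map, (hQ.map _).leadingCoeff, one_pow, one_mul, ← hE] at h1
    unfold rootsOf
    simpa using h1
  refine ⟨E, ?_, ?_, ?_⟩
  · intro h0
    rw [h0] at hEC
    have h1 : (0 : ℂ) ∈ (rootsOf Q).map ((derivative Q).map (Int.castRingHom ℂ)).eval := by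
      apply Multiset.prod_eq_zero_iff.1
      rw [← hEC]
      simp
    obtain ⟨β, hβ, h2⟩ := Multiset.mem_map.1 h1
    rw [hval β hβ] at h2
    have h3 := Multiset.prod_eq_zero_iff.1 h2
    obtain ⟨a, ha, h4⟩ := Multiset.mem_map.1 h3
    have h5 : a = β := (sub_eq_zero.1 h4).symm
    rw [h5] at ha
    exact hnodup.notMem_erase ha
  · have h1 : |(E : ℝ)| = ‖(E : ℂ)‖ := (Complex.norm_intCast _).symm
    rw [h1, hEC]
    have h2 := norm_prod_le (s := rootsOf Q) (f := ((derivative Q).map (Int.castRingHom ℂ)).eval)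
      (c := (2 * H) ^ (Q.natDegree - 1)) (by positivity) (by
        intro β hβ
        rw [hval β hβ]
        have h3 := norm_prod_le (s := (rootsOf Q).erase β) (f := fun a => β - a) (c := 2 * H)
          (by positivity) (by
            intro a ha
            have h4 := hroots a (Multiset.mem_of_mem_erase ha)
            have h5 := hroots β hβ
            refine (norm_sub_le _ _).trans ?_
            linarith)
        rw [Multiset.card_erase_of_mem hβ, hcard] at h3
        exact h3)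
    rw [hcard] at h2
    exact h2
  · intro p hp hpE ρ hρ i j hij
    by_contra hne
    apply hpE
    have : Fact p.Prime := ⟨hp⟩
    obtain ⟨u, v, -, -, huv⟩ := exists_mul_add_mul_eq_C_resultant Q (derivative Q)
      (m := Q.natDegree) (n := Q.natDegree - 1) le_rfl hder (by omega)
    rw [← hE] at huv
    have h1 := congrArg (fun q : ℤ[X] => (q.map (Int.castRingHom (ZMod p))).eval (ρ i)) huv
    simp only [Polynomial.map_add, Polynomial.map_mul, eval_add, eval_mul, Polynomial.map_C,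
      eval_C] at h1
    have h2 : ∃ R : (ZMod p)[X], Q.map (Int.castRingHom (ZMod p)) =
        (X - C (ρ i)) * ((X - C (ρ i)) * R) := by
      rw [hρ, ← Finset.mul_prod_erase univ _ (Finset.mem_univ i),
        ← Finset.mul_prod_erase (univ.erase i) _ (Finset.mem_erase.2 ⟨Ne.symm hne, Finset.mem_univ j⟩)]
      exact ⟨_, by rw [hij]⟩
    obtain ⟨R, hR⟩ := h2
    have h3 : (Q.map (Int.castRingHom (ZMod p))).eval (ρ i) = 0 := by
      rw [hR]
      simp
    have h4 : ((derivative Q).map (Int.castRingHom (ZMod p))).eval (ρ i) = 0 := by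
      rw [← derivative_map, hR]
      simp
    rw [h3, h4, zero_mul, zero_mul, add_zero] at h1
    rw [← ZMod.intCast_zmod_eq_zero_iff_dvd]
    simpa using h1.symm

/-- primes dividing a given integer -/
theorem sum_dvd {B : ℤ} (hB : B ≠ 0) (T : Finset ℕ) (hT : ∀ p ∈ T, p.Prime ∧ (p : ℤ) ∣ B) {K : ℕ}
    (hK : 1 ≤ K) : ∑ p ∈ T, Real.log p / p ≤ K + Real.log |(B : ℝ)| / K := by
  have hK' : (1 : ℝ) ≤ K := by exact_mod_cast hK
  have hpos : ∀ p ∈ T, (1 : ℝ) ≤ p := fun p hp => by exact_mod_cast (hT p hp).1.one_le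
  have h1 : ∑ p ∈ T, Real.log p ≤ Real.log |(B : ℝ)| := by
    have h2 : ∏ p ∈ T, (p : ℤ) ∣ B := by
      apply Finset.prod_dvd_of_coprime
      · intro p hp q hq hpq
        exact Nat.isCoprime_iff_coprime.2 ((Nat.coprime_primes (hT p hp).1 (hT q hq).1).2 hpq)
      · intro p hp
        exact (hT p hp).2
    have h3 := Int.le_of_dvd (abs_pos.2 hB) ((dvd_abs _ _).2 h2)
    have h4 : ∏ p ∈ T, (p : ℝ) ≤ |(B : ℝ)| := by
      have : ((∏ p ∈ T, (p : ℤ) : ℤ) : ℝ) ≤ ((|B| : ℤ) : ℝ) := by exact_mod_cast h3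
      push_cast at this
      exact this
    have h5 := Real.log_le_log (Finset.prod_pos fun p hp => by linarith [hpos p hp]) h4
    rwa [Real.log_prod (fun p hp => by linarith [hpos p hp])] at h5
  have h2 : ∀ p ∈ T, Real.log p / p ≤ (if p ≤ K then 1 else 0) + Real.log p / K := by
    intro p hp
    have h3 := hpos p hp
    have h4 : 0 ≤ Real.log p := Real.log_nonneg h3
    by_cases h : p ≤ K
    · rw [if_pos h]
      have h5 : Real.log p / p ≤ 1 := by
        rw [div_le_one (by linarith)]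
        have := Real.log_le_sub_one_of_pos (show (0 : ℝ) < p by linarith)
        linarith
      have : 0 ≤ Real.log p / K := by positivity
      linarith
    · rw [if_neg h, zero_add]
      have h5 : (K : ℝ) ≤ p := by
        have : K ≤ p := by omega
        exact_mod_cast this
      gcongr
  refine (Finset.sum_le_sum h2).trans ?_
  rw [Finset.sum_add_distrib, ← Finset.sum_div]
  apply add_le_add
  · rw [← Finset.sum_filter, Finset.sum_const, nsmul_eq_mul, mul_one]
    have h3 : (T.filter fun p => p ≤ K) ⊆ Icc 1 K := by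
      intro p hp
      rw [Finset.mem_filter] at hp
      exact Finset.mem_Icc.2 ⟨(hT p hp.1).1.one_le, hp.2⟩
    have h4 := Finset.card_le_card h3
    rw [Nat.card_Icc] at h4
    exact_mod_cast h4
  · gcongr

theorem prod_ge_one {s : Multiset ℂ} {t : ℝ} (ht : 1 ≤ t) : t ^ Multiset.card s ≤
    (s.map fun β => t + ‖β‖).prod := by
  induction s using Multiset.induction with
  | empty => simp
  | cons a s ih =>
    rw [Multiset.map_cons, Multiset.prod_cons, Multiset.card_cons, pow_succ, mul_comm]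
    have := norm_nonneg a
    exact mul_le_mul (by linarith) ih (by positivity) (by linarith)

theorem le_prod {s : Multiset ℂ} {t : ℝ} (ht : 1 ≤ t) {β : ℂ} (hβ : β ∈ s) :
    ‖β‖ ≤ (s.map fun β => t + ‖β‖).prod := by
  obtain ⟨u, rfl⟩ := Multiset.exists_cons_of_mem hβ
  rw [Multiset.map_cons, Multiset.prod_cons]
  have h1 := prod_ge_one (s := u) ht
  have h2 : 1 ≤ t ^ Multiset.card u := one_le_pow₀ ht
  have := norm_nonneg β
  nlinarith

/-- **Key lemma.** -/
theorem key (m k : ℕ) (hm : 2 ≤ m) (A ε : ℝ) (hε : 0 < ε) : ∀ᶠ y : ℕ in atTop, ∀ Q : ℤ[X],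
    Q.Monic → Irreducible Q → Q.natDegree = m → ∀ B : ℤ, B ≠ 0 → |(B : ℝ)| ≤ (y : ℝ) ^ A →
    ∀ t : ℝ, 1 ≤ t → ((rootsOf Q).map fun β => t + ‖β‖).prod ≤
      t ^ ((m : ℝ) / 2) * (y : ℝ) ^ ((m : ℝ) / 2 - ε) →
    ¬ (∀ p : ℕ, p.Prime → k < p → p ≤ y → ¬ (p : ℤ) ∣ B →
      ∃ x : Fin m → ZMod p, Q.map (Int.castRingHom (ZMod p)) = ∏ i, (X - C (x i))) := by
  classical
  obtain ⟨C₀, hC₀⟩ := Pool.Agent.Erdos456.Mert.mertens_log
  have hm' : (2 : ℝ) ≤ m := by exact_mod_cast hm
  obtain ⟨A', hA'⟩ : ∃ A' : ℝ, A' = |A| + (m + 1) * ((m - 1) * m) := ⟨_, rfl⟩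
  have hA'0 : 0 ≤ A' := by
    rw [hA']
    have : 0 ≤ ((m : ℝ) + 1) * ((m - 1) * m) := by
      apply mul_nonneg (by linarith)
      apply mul_nonneg (by linarith) (by linarith)
    positivity
  obtain ⟨K, hK⟩ : ∃ K : ℕ, K = ⌈2 * m * A' / ε⌉₊ + 1 := ⟨_, rfl⟩
  have hK1 : 1 ≤ K := by omega
  have hKR : (1 : ℝ) ≤ K := by exact_mod_cast hK1
  have hK2 : m * A' / K ≤ ε / 2 := by
    have h1 : 2 * m * A' / ε ≤ K := by
      rw [hK]
      push_cast
      have := Nat.le_ceil (2 * m * A' / ε)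
      linarith
    rw [div_le_iff₀ hε] at h1
    rw [div_le_iff₀ (by linarith)]
    linarith
  have hlim : Tendsto (fun y : ℕ => Real.log (y : ℝ)) atTop atTop :=
    Real.tendsto_log_atTop.comp tendsto_natCast_atTop_atTop
  filter_upwards [hlim.eventually_gt_atTop (2 / ε * (m * (1 + 2 + C₀ + k + K))),
    eventually_ge_atTop 2] with y hy1 hy2
  intro Q hQ hirr hdeg B hB hBy t ht hprod hall
  have hy : (2 : ℝ) ≤ y := by exact_mod_cast hy2
  have hy0 : (0 : ℝ) < y := by linarith
  have hlogy : 0 < Real.log y := Real.log_pos (by linarith)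
  subst hdeg
  obtain ⟨m, hmd⟩ : ∃ m, m = Q.natDegree := ⟨_, rfl⟩
  rw [← hmd] at hm hm' hA' hK hK2 hy1 hprod
  have hcard := card_roots' Q hQ
  -- `t ≤ y`
  have hty : t ≤ y := by
    by_contra hcon
    push Not at hcon
    have h1 := (prod_ge_one (s := rootsOf Q) ht).trans hprod
    rw [hcard, ← hmd] at h1
    have h2 : t ^ ((m : ℝ) / 2) * (y : ℝ) ^ ((m : ℝ) / 2 - ε) < t ^ m := by
      have h3 : (y : ℝ) ^ ((m : ℝ) / 2 - ε) < (y : ℝ) ^ ((m : ℝ) / 2) :=
        Real.rpow_lt_rpow_of_exponent_lt (by linarith) (by linarith)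
      have h4 : (y : ℝ) ^ ((m : ℝ) / 2) ≤ t ^ ((m : ℝ) / 2) :=
        Real.rpow_le_rpow hy0.le hcon.le (by linarith)
      have h5 : t ^ ((m : ℝ) / 2) * t ^ ((m : ℝ) / 2) = t ^ m := by
        rw [← Real.rpow_add (by linarith), ← Real.rpow_natCast]
        congr 1
        ring
      rw [← h5]
      apply mul_lt_mul_of_pos_left (lt_of_lt_of_le h3 h4)
      positivity
    linarith
  have hprod2 : ((rootsOf Q).map fun β => t + ‖β‖).prod ≤ (y : ℝ) ^ m := by
    refine hprod.trans ?_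
    have h3 : (y : ℝ) ^ ((m : ℝ) / 2 - ε) ≤ (y : ℝ) ^ ((m : ℝ) / 2) :=
      Real.rpow_le_rpow_of_exponent_le (by linarith) (by linarith)
    have h4 : t ^ ((m : ℝ) / 2) ≤ (y : ℝ) ^ ((m : ℝ) / 2) :=
      Real.rpow_le_rpow (by linarith) hty (by linarith)
    have h5 : (y : ℝ) ^ ((m : ℝ) / 2) * (y : ℝ) ^ ((m : ℝ) / 2) = (y : ℝ) ^ m := by
      rw [← Real.rpow_add hy0, ← Real.rpow_natCast]
      congr 1
      ring
    rw [← h5]
    exact mul_le_mul h4 h3 (by positivity) (by positivity)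
  obtain ⟨E, hE0, hEb, hE⟩ := sep hQ hirr (by omega) (H := (y : ℝ) ^ m) (by positivity)
    (fun β hβ => (le_prod ht hβ).trans hprod2)
  rw [← hmd] at hEb
  obtain ⟨B', hB'⟩ : ∃ B', B' = B * E := ⟨_, rfl⟩
  have hB'0 : B' ≠ 0 := by rw [hB']; exact mul_ne_zero hB hE0
  have hlogB : Real.log |(B' : ℝ)| ≤ A' * Real.log y := by
    have hBr : (B : ℝ) ≠ 0 := by exact_mod_cast hB
    have hEr : (E : ℝ) ≠ 0 := by exact_mod_cast hE0
    have h1 : Real.log |(B' : ℝ)| = Real.log |(B : ℝ)| + Real.log |(E : ℝ)| := by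
      rw [hB']
      push_cast
      rw [abs_mul, Real.log_mul (abs_ne_zero.2 hBr) (abs_ne_zero.2 hEr)]
    have h2 : Real.log |(B : ℝ)| ≤ |A| * Real.log y := by
      have h3 := Real.log_le_log (abs_pos.2 hBr) hBy
      rw [Real.log_rpow hy0] at h3
      refine h3.trans ?_
      apply mul_le_mul_of_nonneg_right (le_abs_self A) hlogy.le
    have h3 : Real.log |(E : ℝ)| ≤ (m + 1) * ((m - 1) * m) * Real.log y := by
      have h4 : ((2 * (y : ℝ) ^ m) ^ (m - 1)) ^ m ≤ (((y : ℝ) ^ (m + 1)) ^ (m - 1)) ^ m := by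
        have : 2 * (y : ℝ) ^ m ≤ (y : ℝ) ^ (m + 1) := by
          rw [pow_succ, mul_comm]
          gcongr
        gcongr
      have h5 := Real.log_le_log (abs_pos.2 hEr) (hEb.trans h4)
      rw [Real.log_pow, Real.log_pow, Real.log_pow] at h5
      refine h5.trans (le_of_eq ?_)
      rw [Nat.cast_sub (by omega)]
      push_cast
      ring
    rw [h1, hA', add_mul]
    linarith
  -- the primes
  obtain ⟨PY, hPY⟩ : ∃ PY : Finset ℕ, PY = (Finset.Icc 1 y).filter Nat.Prime := ⟨_, rfl⟩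
  obtain ⟨S, hSd⟩ : ∃ S : Finset ℕ, S = PY.filter fun p => k < p ∧ ¬ (p : ℤ) ∣ B' := ⟨_, rfl⟩
  have hSmem : ∀ p, p ∈ S ↔ (1 ≤ p ∧ p ≤ y) ∧ p.Prime ∧ k < p ∧ ¬ (p : ℤ) ∣ B' := by
    intro p
    rw [hSd, hPY, Finset.mem_filter, Finset.mem_filter, Finset.mem_Icc, and_assoc]
  have hex : ∀ p ∈ S, ∃ x : Fin Q.natDegree → ZMod p,
      Q.map (Int.castRingHom (ZMod p)) = ∏ i, (X - C (x i)) := by
    intro p hp
    obtain ⟨⟨-, h1⟩, h2, h3, h4⟩ := (hSmem p).1 hp
    exact hall p h2 h3 h1 fun h5 => h4 (by rw [hB']; exact Dvd.dvd.mul_right h5 _)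
  obtain ⟨ρ, hρ⟩ : ∃ ρ : (p : ℕ) → Fin Q.natDegree → ZMod p,
      ∀ p ∈ S, Q.map (Int.castRingHom (ZMod p)) = ∏ i, (X - C (ρ p i)) := by
    refine ⟨fun p => if h : p ∈ S then (hex p h).choose else fun _ => 0, ?_⟩
    intro p hp
    simp only [dif_pos hp]
    exact (hex p hp).choose_spec
  have hSp : ∀ p ∈ S, p.Prime := fun p hp => ((hSmem p).1 hp).2.1
  have hinj : ∀ p ∈ S, Function.Injective (ρ p) := by
    intro p hp
    obtain ⟨-, h2, h3, h4⟩ := (hSmem p).1 hp
    exact hE p h2 (fun h5 => h4 (by rw [hB']; exact Dvd.dvd.mul_left h5 _)) (ρ p) (hρ p hp)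
  -- the box
  obtain ⟨b, hb⟩ : ∃ b : ℝ, b = Real.sqrt (y / t) := ⟨_, rfl⟩
  have ht0 : 0 < t := by linarith
  have hb1 : 1 ≤ b := by
    rw [hb]
    apply Real.one_le_sqrt.2
    rw [le_div_iff₀ ht0]
    linarith
  have hb2 : b ^ 2 = y / t := by rw [hb]; exact Real.sq_sqrt (by positivity)
  obtain ⟨B₀, hB₀⟩ : ∃ B₀ : ℕ, B₀ = ⌈b⌉₊ := ⟨_, rfl⟩
  obtain ⟨A₀, hA₀⟩ : ∃ A₀ : ℕ, A₀ = ⌈b * t⌉₊ := ⟨_, rfl⟩
  have hbt : 1 ≤ b * t := by nlinarith
  have hB₀1 : b ≤ B₀ := by rw [hB₀]; exact Nat.le_ceil _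
  have hA₀1 : b * t ≤ A₀ := by rw [hA₀]; exact Nat.le_ceil _
  have hB₀2 : (B₀ : ℝ) ≤ 2 * b := by
    have := Nat.ceil_lt_add_one (show 0 ≤ b by linarith)
    rw [← hB₀] at this
    linarith
  have hA₀2 : (A₀ : ℝ) ≤ 2 * b * t := by
    have := Nat.ceil_lt_add_one (show 0 ≤ b * t by linarith)
    rw [← hA₀] at this
    linarith
  have hB₀3 : 1 ≤ B₀ := by
    have : (1 : ℝ) ≤ B₀ := hb1.trans hB₀1
    exact_mod_cast this
  have hA₀3 : 1 ≤ A₀ := by
    have : (1 : ℝ) ≤ A₀ := hbt.trans hA₀1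
    exact_mod_cast this
  have harea : (y : ℝ) ≤ A₀ * B₀ := by
    have h1 : b * t * b ≤ A₀ * B₀ := by
      apply mul_le_mul hA₀1 hB₀1 (by linarith)
      exact Nat.cast_nonneg _
    have h2 : b * t * b = y := by
      have : b * t * b = b ^ 2 * t := by ring
      rw [this, hb2]
      field_simp
    linarith
  have hls := larger_sieve hQ hirr (by omega) hA₀3 hB₀3 S hSp ρ hinj hρ
  rw [← hmd] at hls
  -- the right side
  have hright : Real.log ((rootsOf Q).map fun β => (A₀ : ℝ) + B₀ * ‖β‖).prod ≤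
      m * Real.log 2 + (m - ε) * Real.log y := by
    have h1 : ∀ s : Multiset ℂ, 0 < (s.map fun β => (A₀ : ℝ) + B₀ * ‖β‖).prod ∧
        (s.map fun β => (A₀ : ℝ) + B₀ * ‖β‖).prod ≤
          (2 * b) ^ Multiset.card s * (s.map fun β => t + ‖β‖).prod := by
      intro s
      induction s using Multiset.induction with
      | empty => simp
      | cons a s ih =>
        rw [Multiset.map_cons, Multiset.prod_cons, Multiset.map_cons, Multiset.prod_cons,
          Multiset.card_cons]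
        have h2 := norm_nonneg a
        have h3 : (A₀ : ℝ) + B₀ * ‖a‖ ≤ 2 * b * (t + ‖a‖) := by nlinarith
        have hA₀pos : (0 : ℝ) < A₀ := by linarith
        have h4 : 0 < (A₀ : ℝ) + B₀ * ‖a‖ := by positivity
        refine ⟨mul_pos h4 ih.1, ?_⟩
        calc ((A₀ : ℝ) + B₀ * ‖a‖) * (s.map fun β => (A₀ : ℝ) + B₀ * ‖β‖).prod
            ≤ (2 * b * (t + ‖a‖)) * ((2 * b) ^ Multiset.card s *
              (s.map fun β => t + ‖β‖).prod) :=
              mul_le_mul h3 ih.2 ih.1.le (by positivity)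
          _ = _ := by ring
    obtain ⟨h2, h3⟩ := h1 (rootsOf Q)
    rw [hcard, ← hmd] at h3
    have h4 : (2 * b) ^ m * ((rootsOf Q).map fun β => t + ‖β‖).prod ≤
        (2 * b) ^ m * (t ^ ((m : ℝ) / 2) * (y : ℝ) ^ ((m : ℝ) / 2 - ε)) := by
      apply mul_le_mul_of_nonneg_left hprod
      positivity
    have h5 := Real.log_le_log h2 (h3.trans h4)
    refine h5.trans (le_of_eq ?_)
    have hb0 : 0 < b := by linarith
    have hlogb : Real.log b = (Real.log y - Real.log t) / 2 := by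
      have : Real.log (b ^ 2) = Real.log (y / t) := by rw [hb2]
      rw [Real.log_pow, Real.log_div hy0.ne' ht0.ne'] at this
      push_cast at this
      linarith
    rw [Real.log_mul (by positivity) (by positivity), Real.log_pow,
      Real.log_mul (by norm_num) hb0.ne', Real.log_mul (by positivity) (by positivity),
      Real.log_rpow ht0, Real.log_rpow hy0, hlogb]
    ring
  -- the left side
  have hSsub : S ⊆ PY := by rw [hSd]; exact Finset.filter_subset _ _
  have htheta : ∑ p ∈ S, Real.log p ≤ 2 * y := by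
    have hth : ∑ p ∈ PY, Real.log p ≤ 2 * y := by
      rw [hPY]
      exact Pool.Agent.Erdos456.Mert.theta_le y
    refine le_trans ?_ hth
    apply Finset.sum_le_sum_of_subset_of_nonneg hSsub
    intro p hp _
    rw [hPY, Finset.mem_filter, Finset.mem_Icc] at hp
    exact Real.log_nonneg (by exact_mod_cast hp.1.1)
  have hterm2 : (∑ p ∈ S, Real.log p) / (A₀ * B₀) ≤ 2 := by
    rw [div_le_iff₀ (by linarith)]
    linarith
  have hterm1 : Real.log y - C₀ - k - (K + A' * Real.log y / K) ≤ ∑ p ∈ S, Real.log p / p := by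
    have h1 := hC₀ y (by omega)
    rw [← hPY] at h1
    have h2 := (abs_le.1 h1).1
    obtain ⟨T1, hT1⟩ : ∃ T1 : Finset ℕ, T1 = PY.filter fun p => p ≤ k := ⟨_, rfl⟩
    obtain ⟨T2, hT2⟩ : ∃ T2 : Finset ℕ, T2 = PY.filter fun p : ℕ => (p : ℤ) ∣ B' := ⟨_, rfl⟩
    have hnn : ∀ p ∈ PY, 0 ≤ Real.log p / p := by
      intro p hp
      rw [hPY, Finset.mem_filter, Finset.mem_Icc] at hp
      have : 0 ≤ Real.log p := Real.log_nonneg (by exact_mod_cast hp.1.1)
      positivity
    have h3 : ∑ p ∈ PY, Real.log p / p ≤ ∑ p ∈ S, Real.log p / p +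
        (∑ p ∈ T1, Real.log p / p + ∑ p ∈ T2, Real.log p / p) := by
      have h4 : PY ⊆ S ∪ (T1 ∪ T2) := by
        intro p hp
        rw [Finset.mem_union, Finset.mem_union, hSd, hT1, hT2, Finset.mem_filter,
          Finset.mem_filter, Finset.mem_filter]
        by_cases h5 : p ≤ k
        · right; left; exact ⟨hp, h5⟩
        · by_cases h6 : (p : ℤ) ∣ B'
          · right; right; exact ⟨hp, h6⟩
          · left; exact ⟨hp, by omega, h6⟩
      have hsubT : ∀ p ∈ S ∪ (T1 ∪ T2), 0 ≤ Real.log p / p := by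
        intro p hp
        rw [Finset.mem_union, Finset.mem_union] at hp
        rcases hp with hp | hp | hp
        · exact hnn p (hSsub hp)
        · rw [hT1] at hp; exact hnn p (Finset.mem_filter.1 hp).1
        · rw [hT2] at hp; exact hnn p (Finset.mem_filter.1 hp).1
      refine (Finset.sum_le_sum_of_subset_of_nonneg h4 fun p hp _ => hsubT p hp).trans ?_
      have h5 : ∀ U V : Finset ℕ, (∀ p ∈ U ∪ V, 0 ≤ Real.log p / p) →
          ∑ p ∈ U ∪ V, Real.log p / p ≤ ∑ p ∈ U, Real.log p / p + ∑ p ∈ V, Real.log p / p := by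
        intro U V hUV
        rw [← Finset.sum_union_inter]
        have : 0 ≤ ∑ p ∈ U ∩ V, Real.log p / p := by
          apply Finset.sum_nonneg
          intro p hp
          exact hUV p (Finset.mem_union_left _ (Finset.mem_inter.1 hp).1)
        linarith
      have h6 := h5 S (T1 ∪ T2) hsubT
      have h7 := h5 T1 T2 (fun p hp => hsubT p (Finset.mem_union_right _ hp))
      linarith
    have h4 : ∑ p ∈ T1, Real.log p / p ≤ k := by
      have h5 : ∀ p ∈ T1, Real.log p / p ≤ 1 := by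
        intro p hp
        rw [hT1, Finset.mem_filter, hPY, Finset.mem_filter, Finset.mem_Icc] at hp
        have h6 : (1 : ℝ) ≤ p := by exact_mod_cast hp.1.1.1
        rw [div_le_one (by linarith)]
        have := Real.log_le_sub_one_of_pos (show (0 : ℝ) < p by linarith)
        linarith
      refine (Finset.sum_le_card_nsmul T1 _ _ h5).trans ?_
      rw [nsmul_eq_mul, mul_one]
      have h6 : T1 ⊆ Icc 1 k := by
        intro p hp
        rw [hT1, Finset.mem_filter, hPY, Finset.mem_filter, Finset.mem_Icc] at hp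
        exact Finset.mem_Icc.2 ⟨hp.1.1.1, hp.2⟩
      have h7 := Finset.card_le_card h6
      rw [Nat.card_Icc] at h7
      exact_mod_cast h7
    have h5 : ∑ p ∈ T2, Real.log p / p ≤ K + A' * Real.log y / K := by
      have h6 := sum_dvd hB'0 T2 (by
        intro p hp
        rw [hT2, Finset.mem_filter, hPY, Finset.mem_filter] at hp
        exact ⟨hp.1.2, hp.2⟩) hK1
      refine h6.trans ?_
      gcongr
    linarith
  -- the end
  have hfinal : (m : ℝ) * (Real.log y - C₀ - k - (K + A' * Real.log y / K) - 2) ≤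
      m * Real.log 2 + (m - ε) * Real.log y := by
    refine le_trans ?_ (hls.trans hright)
    apply mul_le_mul_of_nonneg_left _ (by linarith)
    linarith
  have h1 : (m : ℝ) * (A' * Real.log y / K) ≤ ε / 2 * Real.log y := by
    have : (m : ℝ) * (A' * Real.log y / K) = m * A' / K * Real.log y := by ring
    rw [this]
    gcongr
  have h2 : Real.log 2 ≤ 1 := by linarith [Real.log_two_lt_d9]
  have h3 : ε / 2 * Real.log y ≤ m * (1 + 2 + C₀ + k + K) := by
    have : (m : ℝ) * Real.log 2 ≤ m * 1 := by gcongr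
    nlinarith
  have h4 : m * (1 + 2 + C₀ + k + K) < ε / 2 * Real.log y := by
    have h5 : 2 / ε * (m * (1 + 2 + C₀ + k + K)) * (ε / 2) < Real.log y * (ε / 2) := by gcongr
    have h6 : 2 / ε * (m * (1 + 2 + C₀ + k + K)) * (ε / 2) = m * (1 + 2 + C₀ + k + K) := by
      field_simp
    linarith
  linarith

end Pool.Agent.U256.LS
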