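import Pool.Agent.U256.LS3
import Pool.Agent.N17.CK.Stm

set_option autoImplicit false

/-! # The Chern roots and the degree -/

open Polynomial Filter Finset

namespace Pool.Agent.U256.LS

open Pool.Agent.N17.HC (rootsOf)
open Pool.Agent.N17.CK (chern)

/-- the size of a polynomial -/
noncomputable def siz (Q : ℤ[X]) : ℝ := ((rootsOf Q).map fun β => 1 + ‖β‖).prod

theorem one_le_mprod {s : Multiset ℂ} {f : ℂ → ℝ} (h : ∀ a ∈ s, 1 ≤ f a) : 1 ≤ (s.map f).prod := by
  induction s using Multiset.induction with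
  | empty => simp
  | cons a s ih =>
    rw [Multiset.map_cons, Multiset.prod_cons]
    have h1 := h a (Multiset.mem_cons_self a s)
    have h2 := ih fun b hb => h b (Multiset.mem_cons_of_mem hb)
    nlinarith

theorem mprod_le {s : Multiset ℂ} {f g : ℂ → ℝ} (h0 : ∀ a ∈ s, 0 ≤ f a)
    (h : ∀ a ∈ s, f a ≤ g a) : (s.map f).prod ≤ (s.map g).prod := by
  induction s using Multiset.induction with
  | empty => simp
  | cons a s ih =>
    rw [Multiset.map_cons, Multiset.prod_cons, Multiset.map_cons, Multiset.prod_cons]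
    have h1 := h a (Multiset.mem_cons_self a s)
    have h2 := h0 a (Multiset.mem_cons_self a s)
    have h3 := ih (fun b hb => h0 b (Multiset.mem_cons_of_mem hb))
      fun b hb => h b (Multiset.mem_cons_of_mem hb)
    have h4 : 0 ≤ (s.map f).prod := by
      apply Multiset.prod_nonneg
      intro x hx
      obtain ⟨b, hb, rfl⟩ := Multiset.mem_map.1 hx
      exact h0 b (Multiset.mem_cons_of_mem hb)
    exact mul_le_mul h1 h3 h4 (h2.trans h1)

theorem siz_one (Q : ℤ[X]) : 1 ≤ siz Q :=
  one_le_mprod fun a _ => by have := norm_nonneg a; linarith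

/-- the size of a divisor -/
theorem siz_mono {P Q : ℤ[X]} (hP : P.Monic) (h : Q ∣ P) : siz Q ≤ siz P := by
  have h1 : rootsOf Q ≤ rootsOf P :=
    Polynomial.roots.le_of_dvd (hP.map _).ne_zero (Polynomial.map_dvd _ h)
  obtain ⟨u, hu⟩ := Multiset.le_iff_exists_add.1 h1
  unfold siz
  rw [hu, Multiset.map_add, Multiset.prod_add]
  have h2 : 1 ≤ (u.map fun β : ℂ => 1 + ‖β‖).prod :=
    one_le_mprod fun a _ => by have := norm_nonneg a; linarith
  have h3 : 1 ≤ ((rootsOf Q).map fun β : ℂ => 1 + ‖β‖).prod := siz_one Q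
  nlinarith

theorem roots_shift {P : ℤ[X]} (hP : P.Monic) :
    ((P.comp (X + 1)).map (Int.castRingHom ℂ)).roots = (rootsOf P).map fun β => β - 1 := by
  rw [Polynomial.map_comp, split P hP, multiset_prod_comp, Multiset.map_map]
  have h1 : (fun a : ℂ => (X - C a).comp (Polynomial.map (Int.castRingHom ℂ) (X + 1))) =
      fun a => X - C (a - 1) := by
    funext a
    simp only [Polynomial.map_add, Polynomial.map_X, Polynomial.map_one, sub_comp, X_comp, C_comp,
      map_sub, C_1]
    ring
  have h2 : Multiset.map ((fun p => p.comp (Polynomial.map (Int.castRingHom ℂ) (X + 1))) ∘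
      fun a : ℂ => X - C a) (rootsOf P) =
      Multiset.map (fun a => X - C a) ((rootsOf P).map fun a => a - 1) := by
    rw [Multiset.map_map]
    exact Multiset.map_congr rfl fun a _ => congrFun h1 a
  rw [h2, roots_multiset_prod_X_sub_C]

/-- the sum of the absolute values of the coefficients of `P (X + 1)` -/
theorem sum_coeff {r : ℕ} {P : ℤ[X]} (hd : P.natDegree = r)
    (h : ∀ i ≤ r, 0 ≤ chern r P i) :
    ∑ i ∈ range (r + 1), |(P.comp (X + 1)).coeff i| = |P.coeff 0| := by
  have hR : (P.comp (X + 1)).natDegree = r := by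
    have h1 : (X + 1 : ℤ[X]).natDegree = 1 := by
      rw [show (X + 1 : ℤ[X]) = X + C 1 by simp]
      exact natDegree_X_add_C 1
    rw [natDegree_comp, h1, mul_one, hd]
  have h1 : ∀ i ∈ range (r + 1), |(P.comp (X + 1)).coeff i| =
      (-1) ^ r * ((P.comp (X + 1)).coeff i * (-1) ^ i) := by
    intro i hi
    have hi' : i ≤ r := Nat.lt_succ_iff.1 (Finset.mem_range.1 hi)
    have h4 := h (r - i) (Nat.sub_le _ _)
    unfold chern at h4
    rw [Nat.sub_sub_self hi'] at h4
    have h5 : (-1 : ℤ) ^ r * ((P.comp (X + 1)).coeff i * (-1) ^ i) =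
        (-1) ^ (r - i) * (P.comp (X + 1)).coeff i := by
      have h6 : (-1 : ℤ) ^ r = (-1) ^ (r - i) * (-1) ^ i := by
        rw [← pow_add, Nat.sub_add_cancel hi']
      have h8 : (-1 : ℤ) ^ i * (-1) ^ i = 1 := by
        rw [← mul_pow]
        norm_num
      rw [h6]
      linear_combination ((-1) ^ (r - i) * (P.comp (X + 1)).coeff i) * h8
    rw [h5, ← abs_of_nonneg h4, abs_mul, abs_pow, abs_neg, abs_one, one_pow, one_mul]
  rw [Finset.sum_congr rfl h1, ← Finset.mul_sum]
  have h2 : ∑ i ∈ range (r + 1), (P.comp (X + 1)).coeff i * (-1) ^ i = P.coeff 0 := by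
    have h3 := eval_eq_sum_range (p := P.comp (X + 1)) (-1 : ℤ)
    rw [hR] at h3
    rw [← h3, eval_comp, coeff_zero_eq_eval_zero]
    simp
  rw [h2]
  have h0 : 0 ≤ (-1) ^ r * P.coeff 0 := by
    rw [← h2, Finset.mul_sum, ← Finset.sum_congr rfl h1]
    exact Finset.sum_nonneg fun i _ => abs_nonneg _
  rw [← abs_of_nonneg h0, abs_mul, abs_pow, abs_neg, abs_one, one_pow, one_mul]

/-- **The degree bounds the Chern roots.** -/
theorem siz_le {r : ℕ} {P : ℤ[X]} (hP : P.Monic) (hd : P.natDegree = r)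
    (h : ∀ i ≤ r, 0 ≤ chern r P i) : siz P ≤ 3 ^ r * |(P.coeff 0 : ℝ)| := by
  have hR : (P.comp (X + 1)).natDegree = r := by
    have h1 : (X + 1 : ℤ[X]).natDegree = 1 := by
      rw [show (X + 1 : ℤ[X]) = X + C 1 by simp]
      exact natDegree_X_add_C 1
    rw [natDegree_comp, h1, mul_one, hd]
  have hRm : (P.comp (X + 1)).Monic := by
    rw [show (X + 1 : ℤ[X]) = X + C 1 by simp]
    exact hP.comp_X_add_C 1
  have h1 : (((P.comp (X + 1)).map (Int.castRingHom ℂ)).roots.map
      (fun a ↦ max 1 ‖a‖)).prod ≤ |(P.coeff 0 : ℝ)| := by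
    have h2 := mahlerMeasure_le_sum_norm_coeff ((P.comp (X + 1)).map (Int.castRingHom ℂ))
    rw [mahlerMeasure_eq_leadingCoeff_mul_prod_roots, (hRm.map _).leadingCoeff, norm_one,
      one_mul] at h2
    refine h2.trans ?_
    rw [Polynomial.sum_over_range' _ (fun n => by simp) (r + 1) (by
      rw [hRm.natDegree_map, hR]; omega)]
    have h3 := sum_coeff hd h
    have h4 : ∑ i ∈ range (r + 1), ‖((P.comp (X + 1)).map (Int.castRingHom ℂ)).coeff i‖ =
        ((∑ i ∈ range (r + 1), |(P.comp (X + 1)).coeff i| : ℤ) : ℝ) := by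
      push_cast
      apply Finset.sum_congr rfl
      intro i _
      rw [coeff_map, eq_intCast, Complex.norm_intCast]
    rw [h4, h3]
    push_cast
    exact le_rfl
  rw [roots_shift hP, Multiset.map_map] at h1
  have h2 : siz P ≤ ((rootsOf P).map fun β => 3 * max 1 ‖β - 1‖).prod := by
    unfold siz
    apply mprod_le
    · intro a _
      have := norm_nonneg a
      linarith
    · intro a _
      have h3 : ‖a‖ ≤ ‖a - 1‖ + 1 := by
        have := norm_add_le (a - 1) 1
        rw [sub_add_cancel, norm_one] at this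
        exact this
      have h4 := le_max_left 1 ‖a - 1‖
      have h5 := le_max_right 1 ‖a - 1‖
      linarith
  refine h2.trans ?_
  rw [Multiset.prod_map_mul, Multiset.map_const', Multiset.prod_replicate, card_roots' P hP, hd]
  exact mul_le_mul_of_nonneg_left h1 (by positivity)

end Pool.Agent.U256.LS
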